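import Pool.Agent.Lib.MP_e1e491_gt.CC.Defs

/-! Metric lemmas. -/

namespace KCC

open Set Metric KP2 MeasureTheory Filter Topology
open scoped Classical Pointwise NNReal

variable {Z : Type} [MetricSpace Z] {lam : ℝ}

/-- A maximal separated subset of a finite set. -/
theorem met_max (P : Finset Z) {s : ℝ} (hs : 0 < s) :
    ∃ Q ⊆ P, Sepd s Q ∧ ∀ z ∈ P, ∃ q ∈ Q, dist z q ≤ s := by
  induction P using Finset.induction_on with
  | empty => exact ⟨∅, subset_rfl, fun _ h => by simp at h, fun _ h => by simp at h⟩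
  | insert a P _ ih =>
    obtain ⟨Q, h1, h2, h3⟩ := ih
    by_cases h : ∃ q ∈ Q, dist a q ≤ s
    · refine ⟨Q, h1.trans (Finset.subset_insert _ _), h2, fun z hz => ?_⟩
      rcases Finset.mem_insert.1 hz with rfl | hz
      · exact h
      · exact h3 z hz
    · push Not at h
      refine ⟨insert a Q, Finset.insert_subset_insert _ h1, fun x hx y hy hne => ?_,
        fun z hz => ?_⟩
      · rcases Finset.mem_insert.1 hx with rfl | hx' <;>
          rcases Finset.mem_insert.1 hy with rfl | hy'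
        · exact absurd rfl hne
        · exact (h y hy').le
        · exact (h x hx').le.trans_eq (dist_comm _ _)
        · exact h2 x hx' y hy' hne
      · rcases Finset.mem_insert.1 hz with rfl | hz
        · exact ⟨z, Finset.mem_insert_self _ _, by simpa using hs.le⟩
        · obtain ⟨q, hq, h4⟩ := h3 z hz
          exact ⟨q, Finset.mem_insert_of_mem hq, h4⟩

theorem Dbl.pack (h : Dbl Z) : ∃ C p : ℝ, 1 ≤ C ∧ 0 < p ∧ Pack Z C p := by
  obtain ⟨N, hN⟩ := h 2
  have key : ∀ (k : ℕ) (r : ℝ) (ξ : Z) (P : Finset Z), 0 < r → Sepd r P →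
      (∀ z ∈ P, dist z ξ ≤ 2 ^ (k + 1) * r) → P.card ≤ N ^ (k + 1) := by
    intro k
    induction k with
    | zero =>
      intro r ξ P hr hP hd
      simpa using hN r ξ P hr hP (by simpa using hd)
    | succ k ih =>
      intro r ξ P hr hP hd
      obtain ⟨Q, h1, h2, h3⟩ := met_max P (s := 2 ^ (k + 1) * r) (by positivity)
      have h4 := hN _ ξ Q (by positivity) h2 fun z hz => (hd z (h1 hz)).trans_eq (by ring)
      have h5 : P ⊆ Q.biUnion fun q => P.filter fun z => dist z q ≤ 2 ^ (k + 1) * r :=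
        fun z hz => by
          obtain ⟨q, hq, h6⟩ := h3 z hz
          exact Finset.mem_biUnion.2 ⟨q, hq, Finset.mem_filter.2 ⟨hz, h6⟩⟩
      refine (Finset.card_le_card h5).trans ((Finset.card_biUnion_le_card_mul _ _ (N ^ (k + 1))
        fun q _ => ih r q _ hr (fun x hx y hy => hP x (Finset.mem_filter.1 hx).1 y
          (Finset.mem_filter.1 hy).1) fun z hz => (Finset.mem_filter.1 hz).2).trans ?_)
      rw [pow_succ' N (k + 1)]
      exact Nat.mul_le_mul_right _ h4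
  refine ⟨N + 1, ((N + 1 : ℕ) : ℝ), by simp, by positivity, fun r R hr hR ξ T hT hd => ?_⟩
  obtain ⟨k, h1, h2⟩ := exists_nat_pow_near ((one_le_div hr).2 hR) one_lt_two
  have h3 := key k r ξ T hr hT fun z hz => (hd z hz).trans ((div_le_iff₀ hr).1 h2.le)
  have h4 : N ^ (k + 1) ≤ (N + 1) * (2 ^ k) ^ (N + 1) := by
    rw [← pow_mul, mul_comm k, pow_mul, pow_succ' N]
    exact Nat.mul_le_mul (Nat.le_succ N) (Nat.pow_le_pow_left
      ((Nat.le_succ N).trans Nat.lt_two_pow_self.le) k)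
  have h5 : (T.card : ℝ) ≤ (N + 1) * (2 ^ k) ^ (N + 1) := by exact_mod_cast h3.trans h4
  rw [Real.rpow_natCast]
  exact h5.trans (mul_le_mul_of_nonneg_left (pow_le_pow_left₀ (by positivity) h1 _)
    (by positivity))

/-- Counting form for the vertices of a separated set. -/
theorem Dbl.card_le (h : Dbl Z) (T : ℝ) : ∃ N : ℕ, ∀ (r : ℝ) (ξ : Z) (P : Finset Z), 0 < r →
    Sepd r P → (Finset.univ.filter fun v : P => dist ξ v ≤ T * r).card ≤ N := by
  obtain ⟨N, hN⟩ := h T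
  refine ⟨N, fun r ξ P hr hP => ?_⟩
  rw [← Finset.card_map (Function.Embedding.subtype _)]
  refine hN r ξ _ hr (fun x hx y hy => ?_) fun z hz => ?_
  · obtain ⟨a, -, rfl⟩ := Finset.mem_map.1 hx
    obtain ⟨b, -, rfl⟩ := Finset.mem_map.1 hy
    exact hP _ a.2 _ b.2
  · obtain ⟨a, ha, rfl⟩ := Finset.mem_map.1 hz
    rw [dist_comm]
    exact (Finset.mem_filter.1 ha).2

/-- A covering of bounded cardinality with centres in the set. -/
theorem Dbl.cover [CompactSpace Z] (h : Dbl Z) (T : ℝ) : ∃ N : ℕ, ∀ (r : ℝ) (ξ : Z) (S : Set Z),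
    0 < r → S ⊆ closedBall ξ (T * r) → ∃ Q : Finset Z, Q.card ≤ N ∧ (Q : Set Z) ⊆ S ∧
      ∀ x ∈ S, ∃ y ∈ Q, dist x y ≤ r := by
  obtain ⟨N, hN⟩ := h T
  refine ⟨N, fun r ξ S hr hS => ?_⟩
  obtain ⟨Q, h1, h2, h3⟩ := exists_net S hr
  refine ⟨Q, hN r ξ Q hr h2 fun z hz => hS (h1 hz), h1, fun x hx => ?_⟩
  obtain ⟨c, hc, h4⟩ := h3 x hx
  exact ⟨c, hc, (dist_comm x c).trans_le h4.le⟩

theorem joined_set {S : Set Z} {x y : Z} (h : JoinedIn S x y) :
    ∃ E, E ⊆ S ∧ IsPreconnected E ∧ x ∈ E ∧ y ∈ E := by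
  obtain ⟨γ, hγ⟩ := h
  exact ⟨range γ, range_subset_iff.2 hγ, isPreconnected_range γ.continuous, ⟨0, γ.source⟩,
    ⟨1, γ.target⟩⟩

/-- Follow the path until it leaves the open set. -/
theorem first_exit {S O : Set Z} {x y : Z} (h : JoinedIn S x y) (hO : IsOpen O) (hx : x ∈ O)
    (hy : y ∉ O) : ∃ E, E ⊆ S ∩ closure O ∧ IsPreconnected E ∧ x ∈ E ∧ ∃ w ∈ E, w ∉ O := by
  obtain ⟨γ, hγ⟩ := h
  have hc : Continuous γ.extend := γ.continuous_extend
  obtain ⟨t, ⟨ht, ht'⟩, hl⟩ := (isCompact_Icc.inter_right (hO.isClosed_compl.preimage hc) :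
    IsCompact (Icc (0 : ℝ) 1 ∩ γ.extend ⁻¹' Oᶜ)).exists_isLeast
      ⟨1, right_mem_Icc.2 zero_le_one, by simpa using hy⟩
  have h0 : (0 : ℝ) ≠ t := by
    rintro rfl
    exact ht' (by simpa using hx)
  refine ⟨γ.extend '' Icc 0 t, subset_inter ?_ ?_, isPreconnected_Icc.image _ hc.continuousOn,
    ⟨0, left_mem_Icc.2 ht.1, by simp⟩, _, ⟨t, right_mem_Icc.2 ht.1, rfl⟩, ht'⟩
  · rintro _ ⟨u, -, rfl⟩
    exact hγ _
  · rw [← closure_Ico h0]
    refine (image_closure_subset_closure_image hc).trans (closure_mono ?_)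
    rintro _ ⟨u, hu, rfl⟩
    by_contra hn
    exact not_le.2 hu.2 (hl ⟨⟨hu.1, hu.2.le.trans ht.2⟩, hn⟩)

theorem LL.exists_D (h : LL Z lam) (x : Z) {r : ℝ} (hr : 0 < r) : ∃ D : Set Z, IsClosed D ∧
    IsPreconnected D ∧ closedBall x r ⊆ D ∧ D ⊆ closedBall x (lam * r) := by
  refine ⟨closure (connectedComponentIn (closedBall x (lam * r)) x), isClosed_closure,
    isPreconnected_connectedComponentIn.closure, fun y hy => subset_closure ?_,
    closure_minimal (connectedComponentIn_subset _ _) isClosed_closedBall⟩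
  obtain ⟨E, h1, h2, h3, h4⟩ := joined_set (h.l1 x r x y hr (by simpa using hr.le) hy)
  exact h2.subset_connectedComponentIn h3 h1 h4

theorem LL.three (h : LL Z lam) (x y : Z) : ∃ E : Set Z, IsPreconnected E ∧ x ∈ E ∧ y ∈ E ∧
    ∀ w ∈ E, dist x w ≤ lam * dist x y := by
  rcases eq_or_ne x y with rfl | hne
  · exact ⟨{x}, isPreconnected_singleton, rfl, rfl, fun w hw => by rw [hw]; simp⟩
  · obtain ⟨E, h1, h2, h3, h4⟩ := joined_set (h.l1 x (dist x y) x y (dist_pos.2 hne) (by simp)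
      (dist_comm y x).le)
    exact ⟨E, h2, h3, h4, fun w hw => mem_closedBall'.1 (h1 hw)⟩

theorem LL.preconnected (h : LL Z lam) : PreconnectedSpace Z := by
  refine ⟨isPreconnected_of_forall_pair fun x _ y _ => ?_⟩
  obtain ⟨E, h1, h2, h3, -⟩ := h.three x y
  exact ⟨E, subset_univ _, h2, h3, h1⟩

theorem LL.locallyConnected (h : LL Z lam) : LocallyConnectedSpace Z := by
  refine locallyConnectedSpace_iff_connected_subsets.2 fun x U hU => ?_
  obtain ⟨ε, hε, h1⟩ := nhds_basis_closedBall.mem_iff.1 hU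
  have hl : 0 < lam := one_pos.trans_le h.one_le
  obtain ⟨D, -, h2, h3, h4⟩ := h.exists_D x (div_pos hε hl)
  rw [mul_div_cancel₀ _ hl.ne'] at h4
  exact ⟨D, mem_of_superset (closedBall_mem_nhds x (div_pos hε hl)) h3, h2, h4.trans h1⟩

/-- A walk with short steps is followed by a path. -/
theorem LL.joined_of_con (h : LL Z lam) {V : Type} {G : SimpleGraph V} {S : Set V} {a b : V}
    (hc : Con G S a b) (l : V → Z) {s : ℝ} (hs : 0 < s)
    (hl : ∀ v ∈ S, ∀ w ∈ S, G.Adj v w → dist (l v) (l w) ≤ s) :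
    JoinedIn {p | ∃ v ∈ S, dist p (l v) ≤ lam * s} (l a) (l b) := by
  have hl0 : 0 < lam := one_pos.trans_le h.one_le
  refine hc.induction (P := fun v => JoinedIn {p | ∃ v ∈ S, dist p (l v) ≤ lam * s} (l a) (l v))
    (JoinedIn.refl ⟨a, hc.left_mem, by rw [dist_self]; positivity⟩) fun v hv w hw hvw ih => ?_
  exact ih.trans ((h.l1 (l v) s (l v) (l w) hs (by simpa using hs.le)
    ((dist_comm _ _).trans_le (hl v hv w hw hvw))).mono fun p hp => ⟨v, hv, hp⟩)

theorem exists_gap {A B : Set Z} (hA : IsCompact A) (hB : IsClosed B) (h : Disjoint A B) :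
    ∃ δ > 0, ∀ x ∈ A, ∀ y ∈ B, δ ≤ dist x y := by
  obtain ⟨δ, hδ, h1⟩ := hA.exists_thickening_subset_open hB.isOpen_compl h.subset_compl_right
  refine ⟨δ, hδ, fun x hx y hy => not_lt.1 fun hlt => ?_⟩
  exact h1 (mem_thickening_iff.2 ⟨x, hx, (dist_comm y x).trans_lt hlt⟩) hy

theorem BiL.continuous {f : Z → Z} (h : BiL f) : Continuous f := by
  obtain ⟨L, -, h1⟩ := h
  exact (LipschitzWith.of_dist_le' fun x y => (h1 x y).1).continuous

/-- A connected set with a point inside and a point outside meets the sphere. -/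
theorem exists_dist_eq {E : Set Z} (hE : IsPreconnected E) {x p q : Z} {R : ℝ} (hp : p ∈ E)
    (hq : q ∈ E) (h1 : dist p x ≤ R) (h2 : R ≤ dist q x) : ∃ w ∈ E, dist w x = R := by
  exact hE.intermediate_value hp hq (f := fun w => dist w x)
    (continuous_id.dist continuous_const).continuousOn ⟨h1, h2⟩

/-- Schur test. -/
theorem schur {α β : Type} [Fintype α] [Fintype β] (R : α → β → Prop) {N₁ N₂ : ℕ}
    (h₁ : ∀ a, (Finset.univ.filter fun b => R a b).card ≤ N₁)
    (h₂ : ∀ b, (Finset.univ.filter fun a => R a b).card ≤ N₂) (ρ : β → ℝ) :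
    ∑ a, wt ρ {b | R a b} ^ 2 ≤ N₁ * N₂ * ∑ b, ρ b ^ 2 := by
  have a1 : ∀ a, wt ρ {b | R a b} ^ 2 ≤ N₁ * ∑ b, if R a b then ρ b ^ 2 else 0 := fun a => by
    have e : wt ρ {b | R a b} = ∑ b ∈ Finset.univ.filter fun b => R a b, ρ b := by
      rw [wt_eq_sum, Finset.sum_filter]
      rfl
    rw [e, ← Finset.sum_filter]
    exact sq_sum_le_card_mul_sum_sq.trans (mul_le_mul_of_nonneg_right (by exact_mod_cast h₁ a)
      (Finset.sum_nonneg fun b _ => sq_nonneg _))
  refine (Finset.sum_le_sum fun a _ => a1 a).trans ?_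
  rw [← Finset.mul_sum, Finset.sum_comm, mul_assoc, Finset.mul_sum _ _ (N₂ : ℝ)]
  refine mul_le_mul_of_nonneg_left (Finset.sum_le_sum fun b _ => ?_) (Nat.cast_nonneg _)
  rw [← Finset.sum_filter, Finset.sum_const, nsmul_eq_mul]
  exact mul_le_mul_of_nonneg_right (by exact_mod_cast h₂ b) (sq_nonneg _)

end KCC
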