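import Pool.Agent.Lib.MP_e1e491_gt.CC.Defs
import Pool.Agent.Lib.MP_e1e491_gt.V2
import Pool.Agent.Lib.MP_e1e491_gt.CcTop

/-! Linear local connectivity and doubling of the boundary. -/

namespace KCC

open Set Metric KP2 MeasureTheory Filter Topology
open scoped Classical Pointwise NNReal

variable {G Z : Type} [Group G] [MetricSpace Z] [CompactSpace Z] [MulAction G Z]

theorem ll_of_hb (H : KKC.HB G Z) [LocallyPathConnectedSpace Z]
    (hu : IsPathConnected (univ : Set Z)) (hc : ∀ y : Z, IsPathConnected ({y}ᶜ : Set Z)) :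
    ∃ lam : ℝ, LL Z lam := by
  have : ContinuousConstSMul G Z := ⟨H.continuous_smul⟩
  obtain ⟨M₁, h₁, k₁⟩ := H.llc1 hc hu 1 le_rfl
  obtain ⟨M₂, h₂, k₂⟩ := H.llc2 1 le_rfl
  refine ⟨max M₁ M₂, h₁.trans (le_max_left _ _), fun s r x y hr hx hy => ?_,
    fun s r x y hr hx hy => ?_⟩
  · exact (k₁ s r hr x y (by rwa [one_mul]) (by rwa [one_mul])).mono
      (closedBall_subset_closedBall (mul_le_mul_of_nonneg_right (le_max_left _ _) hr.le))
  · have h := mul_le_mul_of_nonneg_right (le_max_right M₁ M₂) hr.le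
    have := k₂ s r hr x y (h.trans hx) (h.trans hy)
    rwa [one_mul] at this

omit [CompactSpace Z] in
theorem llc_dbl (H : KKC.HB G Z) (T : ℝ) : ∃ N : ℕ, ∀ (r : ℝ) (ξ : Z) (P : Finset Z), 0 < r →
    r ≤ 1 → Sepd r P → (∀ z ∈ P, dist z ξ ≤ T * r) → P.card ≤ N := by
  obtain ⟨L, hL, hv⟩ := H.view_exists
  obtain ⟨K, hK⟩ := H.view_near L (max 1 (4 * L * T)) hL (le_max_left _ _)
  refine ⟨(H.fin K).toFinset.card, fun r ξ P hr hr1 hP hz => ?_⟩
  have hρ : 0 < r / (4 * L) := by positivity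
  have he : L * (r / (4 * L)) = r / 4 := by field_simp
  have hρ1 : r / (4 * L) ≤ 1 := by nlinarith
  choose g hg using fun x => hv x _ hρ hρ1
  have hM : r / (4 * L) ≤ max 1 (4 * L * T) * (r / (4 * L)) :=
    le_mul_of_one_le_left hρ.le (le_max_left _ _)
  refine Finset.card_le_card_of_injOn (fun x => (g ξ)⁻¹ * g x) (fun x hx => ?_) ?_
  · rw [Finset.mem_coe, Set.Finite.mem_toFinset]
    refine hK _ _ _ _ _ _ (hg ξ) (hg x) ?_ hM hM
    rw [dist_comm]
    refine (hz x hx).trans (le_trans (le_of_eq ?_)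
      (mul_le_mul_of_nonneg_right (le_max_right _ _) hρ.le))
    field_simp
  · intro x hx y hy e
    have e' : g x = g y := mul_left_cancel e
    by_contra hne
    have h1 := hP x hx y hy hne
    have h2 := (hg x).1
    have h3 := (hg y).1
    rw [← e'] at h3
    have h4 := dist_triangle_right x y (H.loc (g x))
    linarith

omit [CompactSpace Z] in
theorem dbl_of_hb (H : KKC.HB G Z) : Dbl Z := by
  intro T
  obtain ⟨N₁, h₁⟩ := llc_dbl H T
  obtain ⟨N₂, h₂⟩ := llc_dbl H H.C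
  refine ⟨max N₁ N₂, fun r ξ P hr hP hz => ?_⟩
  rcases le_total r 1 with h | h
  · exact (h₁ r ξ P hr h hP hz).trans (le_max_left _ _)
  · exact (h₂ 1 ξ P one_pos le_rfl (fun x hx y hy e => h.trans (hP x hx y hy e))
      fun z _ => by rw [mul_one]; exact H.dist_le_C _ _).trans (le_max_right _ _)

omit [CompactSpace Z] in
theorem bil_smul (H : KKC.HB G Z) (g : G) : BiL fun x : Z => g • x := by
  obtain ⟨C, hC, h⟩ := H.lip
  have hs := H.sc_pos g
  refine ⟨C / H.sc g, (one_le_div hs).2 ((H.sc_le_one g).trans hC), fun x y => ⟨?_, ?_⟩⟩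
  · rw [div_mul_eq_mul_div, le_div_iff₀ hs, mul_comm]
    exact (h g x y).1
  · rw [div_mul_eq_mul_div, le_div_iff₀ hs, mul_comm]
    exact (h g x y).2

omit [CompactSpace Z] in
theorem zoom_of_hb (H : KKC.HB G Z) (z₀ : Z) : Zoom z₀ := by
  obtain ⟨L, hL, hv⟩ := H.view_exists
  obtain ⟨C₁, h₁, k₁⟩ := H.conv
  obtain ⟨C₂, h₂, k₂⟩ := H.mobZ
  have hC := H.hC
  have hr : ∀ n : ℕ, (0 : ℝ) < 1 / ((n : ℝ) + 1) := fun n => by positivity
  have hr1 : ∀ n : ℕ, 1 / ((n : ℝ) + 1) ≤ 1 := fun n => by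
    rw [div_le_one (by positivity)]
    linarith [Nat.cast_nonneg (α := ℝ) n]
  choose g hg using fun n => hv z₀ _ (hr n) (hr1 n)
  refine ⟨max C₂ (C₁ + H.C * (L * L)), fun n p => g n • p, fun n => H.loc (g n)⁻¹,
    fun n => H.sc (g n), h₂.trans (le_max_left _ _), fun n => H.sc_pos _, ?_, fun n p => ?_,
    fun n p q => ⟨?_, ?_⟩⟩
  · refine squeeze_zero (fun n => (H.sc_pos _).le) (fun n => (hg n).2.1) ?_
    simpa using tendsto_one_div_add_atTop_nhds_zero_nat.const_mul L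
  · have hs := H.sc_pos (g n)
    refine le_trans ?_ (mul_le_mul_of_nonneg_right (le_max_right _ _) hs.le)
    have a1 := k₁ (g n) p
    have a2 : dist (H.loc (g n)) z₀ ≤ L * L * H.sc (g n) := by
      rw [dist_comm, mul_assoc]
      exact (hg n).1.trans (mul_le_mul_of_nonneg_left (hg n).2.2 (by linarith))
    have a3 := mul_le_mul (H.dist_le_C p (H.loc (g n)⁻¹)) a2 dist_nonneg (by linarith)
    have a4 := mul_le_mul_of_nonneg_left (dist_triangle (g n • p) (H.loc (g n)) z₀)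
      (dist_nonneg (x := p) (y := H.loc (g n)⁻¹))
    nlinarith
  · exact (k₂ _ p q).1.trans (mul_le_mul_of_nonneg_right (le_max_left _ _)
      (mul_nonneg (H.sc_pos _).le dist_nonneg))
  · have hs := H.sc_pos (g n)
    exact (k₂ _ p q).2.trans (mul_le_mul_of_nonneg_right (le_max_left _ _) (by positivity))

end KCC
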