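import Pool.Agent.Lib.MP_e1e491_gt.CC.Met
import Pool.Agent.Lib.MP_e1e491_gt.V2

/-! Poles of views. -/

namespace KCC

open Set Metric KP2 MeasureTheory Filter Topology
open scoped Classical Pointwise NNReal

variable {G Z : Type} [Group G] [MetricSpace Z] [MulAction G Z] (H : KKC.HB G Z)

/-- The inverse of the relative position is a view of the pole. -/
theorem pole_view (L M : ℝ) (hL : 1 ≤ L) (hM : 1 ≤ M) : ∃ L' : ℝ, 1 ≤ L' ∧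
    ∀ (g₀ g : G) (z x : Z) (ρ σ : ℝ), H.IsView L g₀ z ρ → H.IsView L g x (ρ * σ) →
      dist x z ≤ M * ρ → 0 < σ → σ ≤ 1 → H.IsView L' (g₀⁻¹ * g)⁻¹ (H.loc g⁻¹) σ := by
  obtain ⟨C₁, hC₁, hq⟩ := H.q_cmpG
  have hT : 1 ≤ 2 * L + M := by linarith
  have hT2 : 1 ≤ (2 * L + M) ^ 2 := one_le_pow₀ hT
  have hLp : ∀ n : ℕ, 1 ≤ L ^ n := fun n => one_le_pow₀ hL
  have hC2 : 1 ≤ C₁ ^ 2 := one_le_pow₀ hC₁
  refine ⟨L ^ 4 * C₁ ^ 2 * (2 * L + M) ^ 2, one_le_mul_of_one_le_of_one_le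
    (one_le_mul_of_one_le_of_one_le (hLp 4) hC2) hT2, fun g₀ g z x ρ σ h₀ h hxz hσ hσ1 => ?_⟩
  have hL0 : 0 < L := by linarith
  have hC0 : 0 < C₁ := by linarith
  have hρ := h₀.pos hL0.le
  obtain ⟨a1, a2, a3⟩ := h₀
  obtain ⟨b1, b2, b3⟩ := h
  have s0 := H.sc_pos g₀
  have s1 := H.sc_pos g
  have s2 := H.sc_pos (g₀⁻¹ * g)
  have hρσ : L * (ρ * σ) ≤ L * ρ := by
    have : ρ * σ ≤ ρ := mul_le_of_le_one_right hρ.le hσ1
    gcongr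
  have hLρ : 0 < L * ρ := by positivity
  have hMρ : 0 < M * ρ := by positivity
  have e1 := H.q_sq g₀ g
  have n1 := H.q_nonneg (.inl g₀) (.inl g)
  have u1 : H.q (.inl g₀) (.inl g) ≤ C₁ * ((2 * L + M) * ρ) := by
    refine (hq g₀ g).1.trans (mul_le_mul_of_nonneg_left (max_le ?_ (max_le ?_ ?_)) hC0.le)
    · have t := dist_triangle4 (H.loc g₀) z x (H.loc g)
      rw [dist_comm (H.loc g₀) z, dist_comm z x] at t
      linarith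
    · linarith
    · linarith
  have l1 : ρ ≤ L * C₁ * H.q (.inl g₀) (.inl g) := by
    have t : H.sc g₀ ≤ C₁ * H.q (.inl g₀) (.inl g) :=
      ((le_max_left _ _).trans (le_max_right _ _)).trans (hq g₀ g).2
    calc ρ ≤ L * H.sc g₀ := a3
      _ ≤ L * (C₁ * H.q (.inl g₀) (.inl g)) := by gcongr
      _ = _ := by ring
  have up : H.sc (g₀⁻¹ * g) ≤ L ^ 4 * C₁ ^ 2 * σ := by
    refine le_of_mul_le_mul_left ?_ (pow_pos hρ 2)
    calc ρ ^ 2 * H.sc (g₀⁻¹ * g) ≤ (L * C₁ * H.q (.inl g₀) (.inl g)) ^ 2 * H.sc (g₀⁻¹ * g) := by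
          gcongr
      _ = (L * C₁) ^ 2 * (H.sc g₀ * H.sc g) := by rw [← e1]; ring
      _ ≤ (L * C₁) ^ 2 * ((L * ρ) * (L * (ρ * σ))) := by gcongr
      _ = _ := by ring
  have lo : σ ≤ L ^ 2 * C₁ ^ 2 * (2 * L + M) ^ 2 * H.sc (g₀⁻¹ * g) := by
    refine le_of_mul_le_mul_left ?_ (pow_pos hρ 2)
    calc ρ ^ 2 * σ = ρ * (ρ * σ) := by ring
      _ ≤ (L * H.sc g₀) * (L * H.sc g) := by gcongr
      _ = L ^ 2 * (H.q (.inl g₀) (.inl g) ^ 2 * H.sc (g₀⁻¹ * g)) := by rw [e1]; ring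
      _ ≤ L ^ 2 * ((C₁ * ((2 * L + M) * ρ)) ^ 2 * H.sc (g₀⁻¹ * g)) := by gcongr
      _ = _ := by ring
  have e2 := H.q_sq g⁻¹ (g₀⁻¹ * g)⁻¹
  have eg : g⁻¹⁻¹ * (g₀⁻¹ * g)⁻¹ = g₀ := by group
  rw [eg, H.sc_inv, H.sc_inv] at e2
  have u2 : H.q (.inl g⁻¹) (.inl (g₀⁻¹ * g)⁻¹) ≤ L ^ 3 * C₁ * σ := by
    refine le_of_sq_le_sq ?_ (by positivity)
    refine le_of_mul_le_mul_left ?_ hρ
    calc ρ * H.q (.inl g⁻¹) (.inl (g₀⁻¹ * g)⁻¹) ^ 2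
        ≤ (L * H.sc g₀) * H.q (.inl g⁻¹) (.inl (g₀⁻¹ * g)⁻¹) ^ 2 := by gcongr
      _ = L * (H.sc g * H.sc (g₀⁻¹ * g)) := by rw [← e2]; ring
      _ ≤ L * ((L * (ρ * σ)) * (L ^ 4 * C₁ ^ 2 * σ)) := by gcongr
      _ = _ := by ring
  have h34 : L ^ 3 ≤ L ^ 4 := pow_le_pow_right₀ hL (by norm_num)
  have h24 : L ^ 2 ≤ L ^ 4 := pow_le_pow_right₀ hL (by norm_num)
  refine ⟨?_, ?_, ?_⟩
  · calc dist (H.loc g⁻¹) (H.loc (g₀⁻¹ * g)⁻¹) ≤ C₁ * H.q (.inl g⁻¹) (.inl (g₀⁻¹ * g)⁻¹) :=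
          (le_max_left _ _).trans (hq _ _).2
      _ ≤ C₁ * (L ^ 3 * C₁ * σ) := by gcongr
      _ = L ^ 3 * C₁ ^ 2 * 1 * σ := by ring
      _ ≤ _ := by gcongr
  · rw [H.sc_inv]
    calc _ ≤ L ^ 4 * C₁ ^ 2 * 1 * σ := by rw [mul_one]; exact up
      _ ≤ _ := by gcongr
  · rw [H.sc_inv]
    refine lo.trans ?_
    gcongr

/-- Views of the same depth with close poles are few. -/
theorem pole_count (L M : ℝ) (hL : 1 ≤ L) (hM : 1 ≤ M) : ∃ N : ℕ,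
    ∀ (g' : G) (z x' : Z) (ρ σ : ℝ), 0 < ρ → ρ ≤ 1 → 0 < σ → σ ≤ 1 → H.IsView L g' x' (ρ * σ) →
      dist x' z ≤ M * ρ → ∃ Γ : Finset G, Γ.card ≤ N ∧ ∀ g x, H.IsView L g x (ρ * σ) →
        dist x z ≤ M * ρ → dist (H.loc g⁻¹) (H.loc g'⁻¹) ≤ σ → g ∈ Γ := by
  obtain ⟨L₀, hL₀, hex⟩ := H.view_exists
  obtain ⟨L', hL', hv⟩ := pole_view H (max L L₀) M (hL.trans (le_max_left _ _)) hM
  obtain ⟨K, hK⟩ := H.view_near L' 1 hL' le_rfl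
  refine ⟨(H.fin K).toFinset.card, fun g' z x' ρ σ hρ hρ1 hσ hσ1 h' hx' => ?_⟩
  obtain ⟨g₀, h₀⟩ := hex z ρ hρ hρ1
  have h₀' := h₀.mono hρ.le (le_max_right L L₀)
  have hρσ : 0 ≤ ρ * σ := by positivity
  refine ⟨(H.fin K).toFinset.image fun k => g₀ * k * (g₀⁻¹ * g'), Finset.card_image_le,
    fun g x h hx hd => ?_⟩
  have v1 := hv g₀ g z x ρ σ h₀' (h.mono hρσ (le_max_left _ _)) hx hσ hσ1
  have v2 := hv g₀ g' z x' ρ σ h₀' (h'.mono hρσ (le_max_left _ _)) hx' hσ hσ1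
  have k := hK _ _ _ _ _ _ v1 v2 (by rwa [one_mul]) (by rw [one_mul]) (by rw [one_mul])
  refine Finset.mem_image.2 ⟨_, (H.fin K).mem_toFinset.2 k, ?_⟩
  group

/-- The sets around two far poles. -/
theorem pole_sets {lam : ℝ} (hl : LL Z lam) (L M : ℝ) (hL : 1 ≤ L) (hM : 1 ≤ M) :
    ∃ Λ₀ : ℝ, M ≤ Λ₀ ∧ ∀ δ ε : ℝ, 0 < δ → 0 < ε → ∃ ρ₁ > 0,
      ∀ (g g' : G) (z x x' : Z) (ρ σ : ℝ), 0 < ρ → ρ ≤ ρ₁ → 0 < σ → σ ≤ 1 →
        H.IsView L g x (ρ * σ) → H.IsView L g' x' (ρ * σ) → dist x z ≤ M * ρ →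
        dist x' z ≤ M * ρ → σ ≤ dist (H.loc g⁻¹) (H.loc g'⁻¹) →
        ∃ A A' : Set Z, IsClosed A ∧ IsPreconnected A ∧ IsPreconnected A' ∧ Disjoint A A' ∧
          (∀ y, δ < dist (g • y) z → y ∈ A) ∧ (∀ y, δ < dist (g' • y) z → y ∈ A') ∧
          (∃ p, dist p z ≤ Λ₀ * ρ ∧ ∀ y ∈ A', dist (g • y) p ≤ ε * ρ) ∧
          ∃ p, dist p z ≤ Λ₀ * ρ ∧ ∀ y ∈ A, dist (g' • y) p ≤ ε * ρ := by
  obtain ⟨C₁, hC₁, hc⟩ := H.conv
  obtain ⟨C₂, hC₂, hm⟩ := H.mobZ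
  have hlam := hl.one_le
  have hL0 : 0 < L := by linarith
  have hC0 : 0 < C₁ := by linarith
  have hC20 : 0 < C₂ := by linarith
  have hlam0 : 0 < lam := by linarith
  have hM0 : 0 < M := by linarith
  refine ⟨C₁ * L + L + M, by nlinarith, fun δ ε hδ hε => ?_⟩
  refine ⟨min (δ / (2 * (L + M))) (min (δ / (8 * lam * C₁ * L))
    (ε * δ / (4 * C₁ * C₂ * L ^ 2 * lam))), by positivity,
    fun g g' z x x' ρ σ hρ hρ1 hσ hσ1 h h' hx hx' hd => ?_⟩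
  have r1 : ρ * (2 * (L + M)) ≤ δ := (le_div_iff₀ (by positivity)).1 (hρ1.trans (min_le_left _ _))
  have r2 : ρ * (8 * lam * C₁ * L) ≤ δ :=
    (le_div_iff₀ (by positivity)).1 (hρ1.trans ((min_le_right _ _).trans (min_le_left _ _)))
  have r3 : ρ * (4 * C₁ * C₂ * L ^ 2 * lam) ≤ ε * δ :=
    (le_div_iff₀ (by positivity)).1 (hρ1.trans ((min_le_right _ _).trans (min_le_right _ _)))
  obtain ⟨r, hr, er⟩ : ∃ r : ℝ, 0 < r ∧ r * δ = 2 * C₁ * L * (ρ * σ) :=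
    ⟨2 * C₁ * L * (ρ * σ) / δ, by positivity, div_mul_cancel₀ _ hδ.ne'⟩
  have hlr : lam * r ≤ σ / 4 := by
    refine le_of_mul_le_mul_right ?_ hδ
    calc lam * r * δ = σ / 4 * (ρ * (8 * lam * C₁ * L)) := by rw [mul_assoc, er]; ring
      _ ≤ _ := by gcongr
  have key : ∀ (g : G) (x : Z), H.IsView L g x (ρ * σ) → dist x z ≤ M * ρ →
      (∀ y, δ < dist (g • y) z → dist y (H.loc g⁻¹) ≤ r) ∧
      ∀ w, σ ≤ dist w (H.loc g⁻¹) → dist (g • w) z ≤ (C₁ * L + L + M) * ρ ∧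
        ∀ y, dist y w ≤ lam * r → dist (g • y) (g • w) ≤ ε * ρ := by
    intro g x h hx
    obtain ⟨b1, b2, -⟩ := h
    have s1 := H.sc_pos g
    have hρσ : L * (ρ * σ) ≤ L * ρ := by
      have : ρ * σ ≤ ρ := mul_le_of_le_one_right hρ.le hσ1
      gcongr
    have hz : dist (H.loc g) z ≤ (L + M) * ρ := by
      have t := dist_triangle_left (H.loc g) z x
      linarith
    refine ⟨fun y hy => ?_, fun w hw => ⟨?_, fun y hy => ?_⟩⟩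
    · have t := dist_triangle (g • y) (H.loc g) z
      have t2 : δ / 2 ≤ dist (g • y) (H.loc g) := by linarith
      refine le_of_mul_le_mul_right ?_ (half_pos hδ)
      calc dist y (H.loc g⁻¹) * (δ / 2) ≤ dist y (H.loc g⁻¹) * dist (g • y) (H.loc g) := by gcongr
        _ ≤ C₁ * H.sc g := hc g y
        _ ≤ C₁ * (L * (ρ * σ)) := by gcongr
        _ = r * (δ / 2) := by linarith
    · have t := dist_triangle (g • w) (H.loc g) z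
      have t2 : dist (g • w) (H.loc g) ≤ C₁ * L * ρ := by
        refine le_of_mul_le_mul_left ?_ hσ
        calc σ * dist (g • w) (H.loc g) ≤ dist w (H.loc g⁻¹) * dist (g • w) (H.loc g) := by gcongr
          _ ≤ C₁ * H.sc g := hc g w
          _ ≤ C₁ * (L * (ρ * σ)) := by gcongr
          _ = _ := by ring
      linarith
    · have t := dist_triangle_left w (H.loc g⁻¹) y
      have t1 : σ / 2 ≤ max (dist y (H.loc g⁻¹)) (H.sc g) := le_max_of_le_left (by linarith)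
      have t2 : σ ≤ max (dist w (H.loc g⁻¹)) (H.sc g) := le_max_of_le_left hw
      refine le_of_mul_le_mul_right ?_ (show 0 < σ / 2 * σ * δ by positivity)
      calc dist (g • y) (g • w) * (σ / 2 * σ * δ) = dist (g • y) (g • w) * (σ / 2) * σ * δ := by
            ring
        _ ≤ dist (g • y) (g • w) * max (dist y (H.loc g⁻¹)) (H.sc g) *
            max (dist w (H.loc g⁻¹)) (H.sc g) * δ := by gcongr
        _ ≤ C₂ * (H.sc g * dist y w) * δ := mul_le_mul_of_nonneg_right (hm g y w).1 hδ.le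
        _ ≤ C₂ * ((L * (ρ * σ)) * (lam * r)) * δ := by gcongr
        _ = C₂ * (L * (ρ * σ)) * lam * (r * δ) := by ring
        _ = (ρ * (4 * C₁ * C₂ * L ^ 2 * lam)) * (ρ * (σ / 2 * σ)) := by rw [er]; ring
        _ ≤ (ε * δ) * (ρ * (σ / 2 * σ)) := by gcongr
        _ = _ := by ring
  obtain ⟨A, A1, A2, A3, A4⟩ := hl.exists_D (H.loc g⁻¹) hr
  obtain ⟨A', -, B2, B3, B4⟩ := hl.exists_D (H.loc g'⁻¹) hr
  obtain ⟨k1, k2⟩ := key g x h hx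
  obtain ⟨k1', k2'⟩ := key g' x' h' hx'
  obtain ⟨m1, m2⟩ := k2 (H.loc g'⁻¹) (by rwa [dist_comm])
  obtain ⟨m1', m2'⟩ := k2' (H.loc g⁻¹) hd
  refine ⟨A, A', A1, A2, B2, Set.disjoint_left.2 fun y hy hy' => ?_, fun y hy => A3 (k1 y hy),
    fun y hy => B3 (k1' y hy), ⟨_, m1, fun y hy => m2 y (B4 hy)⟩, _, m1',
    fun y hy => m2' y (A4 hy)⟩
  have t1 : dist y (H.loc g⁻¹) ≤ lam * r := A4 hy
  have t2 : dist y (H.loc g'⁻¹) ≤ lam * r := B4 hy'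
  have t := dist_triangle_left (H.loc g⁻¹) (H.loc g'⁻¹) y
  linarith

end KCC
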