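import Pool.Agent.Lib.MP_e1e491_gt.CC.Met
import Pool.Agent.Lib.MP_e1e491_gt.V2

/-! The witness system of a hyperbolic group. -/

namespace KCC

open Set Metric KP2 MeasureTheory Filter Topology
open scoped Classical Pointwise NNReal

variable {G Z : Type} [Group G] [MetricSpace Z] [MulAction G Z]

theorem wit_pt [Nontrivial Z] (H : KKC.HB G Z) : ∃ (T : Finset Z) (ξ : G → Z) (c : ℝ), 0 ≤ c ∧
    ∀ g, ξ g ∈ T ∧ dist (g • ξ g) (H.loc g) ≤ c * H.sc g := by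
  obtain ⟨u, v, huv⟩ := exists_pair_ne Z
  obtain ⟨C₁, h1, h⟩ := H.conv
  have e0 : 0 < dist u v := dist_pos.2 huv
  have key : ∀ g : G, ∃ x ∈ ({u, v} : Finset Z),
      dist (g • x) (H.loc g) ≤ 2 * C₁ / dist u v * H.sc g := fun g => by
    have k : ∀ x, dist u v ≤ 2 * dist x (H.loc g⁻¹) →
        dist (g • x) (H.loc g) ≤ 2 * C₁ / dist u v * H.sc g := fun x hx => by
      rw [div_mul_eq_mul_div, le_div_iff₀ e0]
      have k1 := mul_le_mul_of_nonneg_left hx (dist_nonneg (x := g • x) (y := H.loc g))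
      linarith [h g x]
    have t := dist_triangle_right u v (H.loc g⁻¹)
    rcases le_total (dist u (H.loc g⁻¹)) (dist v (H.loc g⁻¹)) with k1 | k1
    · exact ⟨v, by simp, k v (by linarith)⟩
    · exact ⟨u, by simp, k u (by linarith)⟩
  choose ξ h2 h3 using key
  exact ⟨_, ξ, _, by positivity, fun g => ⟨h2 g, h3 g⟩⟩

theorem exists_ws [Nontrivial Z] (H : KKC.HB G Z) : ∃ (W : WS Z G) (L : ℝ) (J : Finset Z), 1 ≤ L ∧
    (∀ z ρ, W.Thick z ρ) ∧ (∀ x ρ, 0 < ρ → ρ ≤ 1 → H.IsView L (W.vw x ρ) x ρ) ∧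
    ∀ g, ∀ p ∈ W.pts g, g⁻¹ • p ∈ J := by
  obtain ⟨T, ξ, c, c0, hξ⟩ := wit_pt H
  obtain ⟨L, L1, hv⟩ := H.view_exists
  choose! vw hvw using hv
  obtain ⟨K, hK⟩ := H.view_near L 2 L1 one_le_two
  have L0 : 0 ≤ L := zero_le_one.trans L1
  obtain ⟨A, hA⟩ : ∃ A : ℝ, A = (c * L + 2 * L + 1) := ⟨_, rfl⟩
  have A0 : 0 ≤ A := by rw [hA]; positivity
  refine ⟨⟨A * L * L + L, vw, fun g => g • ξ g,
    fun g => {p | g⁻¹ • p ∈ Finset.image₂ (fun (k : G) (x : Z) => k • x) (H.fin K).toFinset T ∧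
      dist p (H.loc g) ≤ A * L * H.sc g}, fun _ _ => True,
    L1.trans (le_add_of_nonneg_left (by positivity)), fun x x' ρ ρ' h0 h1 hx hρ => ?_,
    fun x ρ h0 h1 p hp => ?_, fun Λ s => ?_⟩, L, _, L1, fun _ _ => trivial, hvw, fun _ _ h => h.1⟩
  · have k : 0 < ρ' ∧ ρ' ≤ ρ ∧ ρ ≤ 2 * ρ' := by
      rcases hρ with rfl | rfl
      · exact ⟨h0, le_rfl, by linarith⟩
      · exact ⟨by linarith, by linarith, by linarith⟩
    have v1 := hvw x ρ h0 h1
    have v2 := hvw x' ρ' k.1 (k.2.1.trans h1)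
    refine ⟨?_, ?_⟩
    · rw [← mul_smul]
      exact Finset.mem_image₂_of_mem ((H.fin K).mem_toFinset.2
        (hK _ _ _ _ _ _ v1 v2 (by linarith) k.2.2 (by linarith [k.2.1]))) (hξ _).1
    · have k1 := (hξ (vw x' ρ')).2
      have k2 := dist_triangle4 (vw x' ρ' • ξ (vw x' ρ')) (H.loc (vw x' ρ')) x' x
      have k3 := dist_triangle (vw x' ρ' • ξ (vw x' ρ')) x (H.loc (vw x ρ))
      have k4 := mul_le_mul_of_nonneg_left k.2.1 L0
      have k5 := mul_le_mul_of_nonneg_left (v2.2.1.trans k4) c0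
      have k6 := mul_le_mul_of_nonneg_left v1.2.2 A0
      have k7 := v1.1
      have k8 := v2.1
      rw [dist_comm (H.loc _) x', dist_comm x' x] at k2
      have k9 : A * ρ = c * (L * ρ) + 2 * (L * ρ) + ρ := by rw [hA]; ring
      linarith
  · have v1 := hvw x ρ h0 h1
    have k1 := hp.2
    have k2 := dist_triangle_right p x (H.loc (vw x ρ))
    have k3 := mul_le_mul_of_nonneg_left v1.2.1 (mul_nonneg A0 L0)
    have k4 := v1.1
    linarith
  · have s1 : (1 : ℝ) ≤ 2 ^ s := one_le_pow₀ one_le_two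
    have s0 : (0 : ℝ) < 2 ^ s := by positivity
    obtain ⟨K', hK'⟩ := H.view_near L (max Λ (2 ^ s)) L1 (le_max_of_le_right s1)
    refine ⟨(H.fin K').toFinset.card, fun z ρ h0 h1 _ =>
      ⟨(H.fin K').toFinset.image fun k => vw z ρ * k, Finset.card_image_le, fun x hx => ?_⟩⟩
    have r1 : ρ / 2 ^ s ≤ ρ := div_le_self h0.le s1
    have r0 : 0 < ρ / 2 ^ s := div_pos h0 s0
    refine Finset.mem_image.2 ⟨(vw z ρ)⁻¹ * vw x (ρ / 2 ^ s), (H.fin K').mem_toFinset.2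
      (hK' _ _ _ _ _ _ (hvw z ρ h0 h1) (hvw x _ r0 (r1.trans h1)) ?_ ?_ ?_),
      mul_inv_cancel_left _ _⟩
    · rw [dist_comm]
      exact hx.trans (mul_le_mul_of_nonneg_right (le_max_left _ _) h0.le)
    · exact (mul_div_cancel₀ ρ s0.ne').symm.le.trans
        (mul_le_mul_of_nonneg_right (le_max_right _ _) r0.le)
    · exact r1.trans (le_mul_of_one_le_left h0.le (le_max_of_le_right s1))

end KCC
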