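import Pool.Agent.Lib.MP_e1e491_gt.CC.Core
import Pool.Agent.Lib.MP_e1e491_gt.CC.Pole
import Pool.Agent.Lib.MP_e1e491_gt.CC.Wit
import Pool.Agent.Lib.MP_e1e491_gt.CC.LLC

/-! The centre lemma. -/

namespace KCC

open Set Metric KP2 MeasureTheory Filter Topology
open scoped Classical Pointwise NNReal

variable {G Z : Type} [Group G] [MetricSpace Z] [MulAction G Z]

/-- A set that is covered by few classes, each of them small. -/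
theorem card_classes {α κ : Type} (K : Finset κ) (S : Set α) (R : α → κ → Prop) {N : ℕ}
    (h1 : ∀ a ∈ S, ∃ k ∈ K, R a k)
    (h2 : ∀ a ∈ S, ∀ k, R a k → ∃ Γ : Finset α, Γ.card ≤ N ∧ ∀ b ∈ S, R b k → b ∈ Γ) :
    ∃ Γ : Finset α, Γ.card ≤ K.card * N ∧ ∀ a ∈ S, a ∈ Γ := by
  have h : ∀ k, ∃ Γ : Finset α, Γ.card ≤ N ∧ ∀ b ∈ S, R b k → b ∈ Γ := fun k => by
    by_cases hk : ∃ a ∈ S, R a k
    · obtain ⟨a, ha, hak⟩ := hk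
      exact h2 a ha k hak
    · exact ⟨∅, Nat.zero_le _, fun b hb hbk => absurd ⟨b, hb, hbk⟩ hk⟩
  choose Γ hΓ hΓ' using h
  refine ⟨K.biUnion Γ, Finset.card_biUnion_le_card_mul _ _ _ fun k _ => hΓ k, fun a ha => ?_⟩
  obtain ⟨k, hk, hak⟩ := h1 a ha
  exact Finset.mem_biUnion.2 ⟨k, hk, hΓ' k a ha hak⟩

theorem centre_of_hb (H : KKC.HB G Z) {lam L : ℝ} (hl : LL Z lam) {W : WS Z G} {J : Finset Z}
    (hL : 1 ≤ L) (hv : ∀ x ρ, 0 < ρ → ρ ≤ 1 → H.IsView L (W.vw x ρ) x ρ)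
    (hJ : ∀ g, ∀ p ∈ W.pts g, g⁻¹ • p ∈ J) (C : ℝ) {δ : ℝ} (hδ : 0 < δ) : W.Centre C δ := by
  intro Λ hΛ
  have := hl.preconnected
  have := hl.locallyConnected
  obtain ⟨Λ₀, hΛ₀, hsets⟩ := pole_sets H hl L Λ hL hΛ
  obtain ⟨N, hN⟩ := pole_count H L Λ hL hΛ
  refine ⟨Λ₀, fun _ => (J ×ˢ J ×ˢ J).card * N, hΛ₀, ?_, fun s₀ l => ?_⟩
  · refine (summable_geometric_two.mul_left (((J ×ˢ J ×ˢ J).card * N : ℕ) : ℝ)).congr fun s => ?_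
    rw [one_div, inv_pow, div_eq_mul_inv]
  obtain ⟨ρ₁, hρ₁, hs⟩ := hsets (δ / 2) (1 / 2 ^ l) (by positivity) (by positivity)
  refine ⟨min ρ₁ 1, lt_min hρ₁ one_pos, fun ρ₀ hρ₀ => ?_⟩
  have hL0 : 0 < L := by linarith
  have hfin := H.finite_sc (ε := ρ₀ / 2 ^ s₀ / L) (by positivity)
  refine ⟨(fun p : G × G => fun x : Z => (p.1 * p.2⁻¹) • x) ''
    ({g | ρ₀ / 2 ^ s₀ / L ≤ H.sc g} ×ˢ {g | ρ₀ / 2 ^ s₀ / L ≤ H.sc g}),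
    (hfin.prod hfin).image _, ?_, ?_⟩
  · rintro _ ⟨p, -, rfl⟩
    exact bil_smul H _
  intro U η T z ρ E h0 h1 _ hU hη hE hno s hss
  have hρ : 0 < ρ := hρ₀.trans_le h0
  have hρ1 : ρ ≤ 1 := h1.trans (min_le_right _ _)
  have hσ : (0 : ℝ) < 1 / 2 ^ s := by positivity
  have hσ1 : (1 : ℝ) / 2 ^ s ≤ 1 := (div_le_one (by positivity)).2 (one_le_pow₀ one_le_two)
  have hsc : ∀ {g : G} {x : Z}, H.IsView L g x (ρ * (1 / 2 ^ s)) → ρ₀ / 2 ^ s₀ / L ≤ H.sc g := by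
    intro g x hg
    rw [div_le_iff₀' hL0]
    refine le_trans ?_ hg.2.2
    rw [mul_one_div]
    exact div_le_div₀ hρ.le h0 (by positivity) (pow_le_pow_right₀ one_le_two hss)
  have hout : ∀ {y : Z}, y ∉ U → δ / 2 < dist y z := fun hy =>
    not_le.1 fun h => hy (hU (mem_closedBall.2 h))
  have hosc : ∀ {p y : Z}, dist p z ≤ Λ₀ * ρ → dist y p ≤ 1 / 2 ^ l * ρ →
      |T.u y - T.u p| ≤ E := fun {p y} hp hy =>
    (abs_lt_of_not_osc (hno p hp) (hy.trans_eq (by ring))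
      (by rw [dist_self]; positivity)).le
  obtain ⟨Γ, hΓ, hΓ'⟩ := card_classes (N := N) (J ×ˢ J ×ˢ J)
    {g : G | W.Tri T.u E g ∧ ∃ x, dist x z ≤ Λ * ρ ∧ H.IsView L g x (ρ * (1 / 2 ^ s))}
    (fun g k => T.u (g • k.1) + 3 * E ≤ T.u (g • k.2.1) ∧
      T.u (g • k.2.1) + 3 * E ≤ T.u (g • k.2.2))
    (by
      rintro g ⟨⟨p₁, m₁, p₂, m₂, p₃, m₃, e₁, e₂⟩, -⟩
      refine ⟨(g⁻¹ • p₁, g⁻¹ • p₂, g⁻¹ • p₃), Finset.mem_product.2 ⟨hJ g _ m₁,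
        Finset.mem_product.2 ⟨hJ g _ m₂, hJ g _ m₃⟩⟩, ?_⟩
      simp only [smul_inv_smul]
      exact ⟨e₁, e₂⟩)
    (by
      rintro g' ⟨-, x', hx', v'⟩ k ⟨e₁', e₂'⟩
      obtain ⟨Γ, hΓ, hΓ'⟩ := hN g' z x' ρ _ hρ hρ1 hσ hσ1 v' hx'
      refine ⟨Γ, hΓ, ?_⟩
      rintro g ⟨-, x, hx, v⟩ ⟨e₁, e₂⟩
      refine hΓ' g x v hx (not_lt.1 fun hfar => ?_)
      obtain ⟨A, A', a1, a2, a3, a4, a5, a6, ⟨p, hp, a7⟩, p', hp', a8⟩ :=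
        hs g g' z x x' ρ _ hρ (h1.trans (min_le_left _ _)) hσ hσ1 v v' hx hx' hfar.le
      exact T.core H.continuous_smul a1 a2 a3 a4 (fun y hy => a5 y (hout hy))
        (fun y hy => a6 y (hout hy)) hη hE (fun y hy => hosc hp (a7 y hy))
        (fun y hy => hosc hp' (a8 y hy)) ⟨(g, g'), ⟨hsc v, hsc v'⟩, rfl⟩
        (j := ![k.1, k.2.1, k.2.2]) e₁ e₂ e₁' e₂')
  refine ⟨Γ, hΓ, fun x hx ht => hΓ' _ ⟨ht, x, hx, ?_⟩⟩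
  rw [mul_one_div]
  exact hv x _ (by positivity) ((div_le_self hρ.le (one_le_pow₀ one_le_two)).trans hρ1)

end KCC
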