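import Pool.Agent.Lib.MP_e1e491_gt.CC.Dou

/-! There is no fan. -/

namespace KCC

open Set Metric KP2 MeasureTheory Filter Topology
open scoped Classical Pointwise NNReal

variable {Z ι : Type} [MetricSpace Z] [CompactSpace Z]

/-- The first cell. -/
theorem fan_start (hD : Dbl Z) {ρ : ℝ} (hρ : 0 < ρ) : ∃ D > 0, ∀ (Φ : Set (Z → Z)) (U : Set Z)
    (C δ η : ℝ) (T : Fan Φ U C δ η), 0 ≤ δ → 0 < η → η ≤ D →
      ∃ z, closedBall z δ ⊆ U ∧ Osc T.u z ρ D := by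
  obtain ⟨R, -, hR⟩ := exists_diam Z
  obtain ⟨N, hN⟩ := hD.cover (R / ρ)
  have h0 : (0 : ℝ) < 4 * N + 2 := by positivity
  have h1 : (4 * N + 2) * (1 / (4 * N + 2 : ℝ)) = 1 := mul_one_div_cancel h0.ne'
  have h2 : (0 : ℝ) < 1 / (4 * N + 2) := by positivity
  refine ⟨1 / (4 * N + 2), h2, fun Φ U C δ η T hδ hη hηD => ?_⟩
  have hN0 : (0 : ℝ) ≤ N := Nat.cast_nonneg N
  have h3 : (N : ℝ) * η ≤ N * (1 / (4 * N + 2)) := mul_le_mul_of_nonneg_left hηD hN0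
  have h4 : 0 ≤ (N : ℝ) * (1 / (4 * N + 2)) := by positivity
  obtain ⟨t, ht, -⟩ := T.pick hη.le (∅ : Finset ℕ) (fun _ => 0) (fun _ => 0) (fun _ _ => le_rfl)
    (lo := 0) (hi := 1) le_rfl le_rfl (by rw [Finset.sum_empty]; linarith)
  obtain ⟨ξ, -, -⟩ := T.hit t ht
  obtain ⟨Q, a1, a2, a3⟩ := hN ρ ξ {x | closedBall x δ ⊆ U} hρ fun x _ => by
    rw [div_mul_cancel₀ _ hρ.ne']
    exact hR x ξ
  obtain ⟨y, b1, b2⟩ := T.cover_osc hη.le (S := {x | closedBall x δ ⊆ U})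
    (fun x hx => hx (mem_closedBall_self hδ)) hρ.le h2.le a1 a3 (lo := 0) (hi := 1) le_rfl le_rfl
    (fun t ht _ _ => by
      obtain ⟨x, c1, c2⟩ := T.hit t ht
      exact ⟨x, c1, c2⟩) (by linarith)
  exact ⟨y, a2 b1, b2⟩

omit [CompactSpace Z] in
/-- Induction on the number of generations. -/
theorem Fan.energy {Φ : Set (Z → Z)} {U : Set Z} {C δ η Λ θ κ ρ₁ D₁ : ℝ} (T : Fan Φ U C δ η)
    {z₁ : Z} (hC : 1 ≤ C) (hΛ : C ≤ Λ) (hθ : 0 < θ) (hθ1 : θ ≤ 1) (hκ : 0 < κ) (hκ1 : κ ≤ 1)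
    (hρ : 0 < ρ₁) (hD : 0 < D₁) (h1 : Λ * ρ₁ ≤ 1) (hU : closedBall z₁ (Λ * ρ₁) ⊆ U) (n : ℕ)
    (hη : η ≤ κ ^ n * ρ₁)
    (hs : ∀ z ρ D, κ ^ n * ρ₁ ≤ ρ → ρ ≤ ρ₁ → θ ^ n * D₁ ≤ D → dist z z₁ ≤ Λ * ρ₁ →
      Osc T.u z ρ D → Split T.u Λ θ κ 2 z ρ D) (ho : Osc T.u z₁ ρ₁ D₁) :
    2 ^ n * D₁ ^ 2 ≤ C := by
  have hΛ0 : 0 < Λ := by linarith
  have hC0 : 0 ≤ C := by linarith
  have key : ∀ j m : ℕ, m + j = n → ∀ z ρ D, κ ^ m * ρ₁ ≤ ρ → ρ ≤ ρ₁ → θ ^ m * D₁ ≤ D →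
      dist z z₁ + Λ * ρ ≤ Λ * ρ₁ → Osc T.u z ρ D →
      2 ^ j * D ^ 2 ≤ C * T.ν (ball z (Λ * ρ)) := by
    intro j
    induction j with
    | zero =>
      intro m hm z ρ D a1 a2 a3 a4 a5
      obtain rfl : m = n := hm
      obtain ⟨p, q, b1, b2, b3⟩ := a5
      have c0 : 0 < ρ := lt_of_lt_of_le (by positivity) a1
      have c1 : C * ρ ≤ Λ * ρ := mul_le_mul_of_nonneg_right hΛ c0.le
      have c2 : 0 < D := lt_of_lt_of_le (by positivity) a3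
      have c3 := dist_nonneg (x := z) (y := z₁)
      have c4 := T.en z ρ (hη.trans a1) (by linarith)
        ((closedBall_subset_closedBall' (by linarith)).trans hU) p q b1 b2
      have c5 := mul_le_mul_of_nonneg_left (T.ν_mono (ball_subset_ball (x := z) c1)) hC0
      have c6 : D ^ 2 ≤ (T.u p - T.u q) ^ 2 := by nlinarith
      rw [pow_zero, one_mul]
      linarith
    | succ j ih =>
      intro m hm z ρ D a1 a2 a3 a4 a5
      have c0 : 0 < ρ := lt_of_lt_of_le (by positivity) a1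
      have c1 : κ ^ n ≤ κ ^ m := pow_le_pow_of_le_one hκ.le hκ1 (by omega)
      have c2 : θ ^ n ≤ θ ^ m := pow_le_pow_of_le_one hθ.le hθ1 (by omega)
      have c3 : 0 < Λ * ρ := by positivity
      obtain ⟨s, z', ρ', D', b1, b2, b3⟩ := hs z ρ D
        ((mul_le_mul_of_nonneg_right c1 hρ.le).trans a1) a2
        ((mul_le_mul_of_nonneg_right c2 hD.le).trans a3) (by linarith) a5
      have c4 : ∀ i ∈ s, 2 ^ j * D' i ^ 2 ≤ C * T.ν (ball (z' i) (Λ * ρ' i)) := by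
        intro i hi
        obtain ⟨d1, d2, d3, d4, d5⟩ := b1 i hi
        have d6 := dist_triangle (z' i) z z₁
        refine ih (m + 1) (by omega) _ _ _ ?_ (d3.trans a2) ?_ (by linarith) d1
        · rw [pow_succ', mul_assoc]
          exact (mul_le_mul_of_nonneg_left a1 hκ.le).trans d2
        · rw [pow_succ', mul_assoc]
          exact (mul_le_mul_of_nonneg_left a3 hθ.le).trans d4
      have c5 := Finset.sum_le_sum c4
      rw [← Finset.mul_sum, ← Finset.mul_sum] at c5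
      have c6 := T.ν_sum s (fun i => ball (z' i) (Λ * ρ' i)) (V := ball z (Λ * ρ))
        (fun i hi => ball_subset_ball' (by linarith [(b1 i hi).2.2.2.2]))
        fun i hi j hj hij => ball_disjoint_ball (b2 i hi j hj hij)
      have c7 := mul_le_mul_of_nonneg_left c6 hC0
      have c8 := mul_le_mul_of_nonneg_left b3 (show (0 : ℝ) ≤ 2 ^ j by positivity)
      rw [pow_succ, mul_assoc]
      linarith
  have h2 := key n 0 (zero_add n) z₁ ρ₁ D₁ (by simp) le_rfl (by simp) (by simp) ho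
  exact h2.trans (mul_le_of_le_one_right hC0 (T.ν_le _))

theorem no_fan {lam : ℝ} (hl : LL Z lam) (hD : Dbl Z) (W : WS Z ι) (hT : ∀ z ρ, W.Thick z ρ)
    {C δ : ℝ} (hC : 1 ≤ C) (hδ : 0 < δ) (hW : W.Centre C δ) : ∃ (Φ : Set (Z → Z)) (η : ℝ),
      Φ.Finite ∧ (∀ f ∈ Φ, BiL f) ∧ 0 < η ∧ ∀ U, IsEmpty (Fan Φ U C δ η) := by
  obtain ⟨Λ, θ, κ, ρ', a1, a2, a3, a4, a5, a6, a7⟩ := doubling hl hD W hC hδ hW 2
  have hΛ : 0 < Λ := by linarith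
  obtain ⟨ρ₁, b0, b1, b2, b3⟩ : ∃ ρ₁, 0 < ρ₁ ∧ ρ₁ ≤ ρ' ∧ Λ * ρ₁ ≤ 1 ∧ Λ * ρ₁ ≤ δ / 2 := by
    refine ⟨min ρ' (min (1 / Λ) (δ / 2 / Λ)), by positivity, min_le_left _ _, ?_, ?_⟩
    · rw [mul_comm, ← le_div_iff₀ hΛ]
      exact (min_le_right _ _).trans (min_le_left _ _)
    · rw [mul_comm, ← le_div_iff₀ hΛ]
      exact (min_le_right _ _).trans (min_le_right _ _)
  obtain ⟨D₁, c0, c1⟩ := fan_start hD b0
  obtain ⟨n, hn⟩ := pow_unbounded_of_one_lt (C / D₁ ^ 2) (show (1 : ℝ) < 2 by norm_num)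
  rw [div_lt_iff₀ (by positivity)] at hn
  obtain ⟨Φ, η₀, d1, d2, d3, d4⟩ := a7 (κ ^ n * ρ₁) (θ ^ n * D₁) (by positivity) (by positivity)
  have hη : 0 < min η₀ (min (κ ^ n * ρ₁) D₁) := by positivity
  refine ⟨Φ, _, d1, d2, hη, fun U => ⟨fun T => ?_⟩⟩
  obtain ⟨z₁, e1, e2⟩ := c1 Φ U C δ _ T hδ.le hη ((min_le_right _ _).trans (min_le_right _ _))
  refine absurd (T.energy hC a1 a2 a3 a4 a5 b0 c0 b2
    ((closedBall_subset_closedBall (by linarith)).trans e1) n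
    ((min_le_right _ _).trans (min_le_left _ _)) (fun z ρ D f1 f2 f3 f4 f5 => ?_) e2) (not_le.2 hn)
  exact d4 U _ T z ρ D hη (min_le_left _ _) f1 (f2.trans b1) f3 (hT z ρ)
    ((closedBall_subset_closedBall' (by linarith)).trans e1) f5

end KCC
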