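import Pool.Agent.Lib.MP_e1e491_gt.CC.FrameC

/-! Finitely many frames catch all long paths. -/

namespace KCC

open Set Metric KP2 MeasureTheory Filter Topology
open scoped Classical Pointwise NNReal

variable {Z : Type} [MetricSpace Z] [CompactSpace Z]

theorem atl_coord (i σ : Bool) : ∃ c : Pl ≃ₜ Pl, ∀ t : Pl,
    c t false = (if σ then t i else -t i) * (3 / 10) + 7 / 20 ∧ c t true = t (!i) / 20 + 1 / 2 := by
  refine ⟨⟨⟨fun t k => if k then t (!i) / 20 + 1 / 2 else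
      (if σ then t i else -t i) * (3 / 10) + 7 / 20,
    fun z j => if j = i then (if σ then 1 else -1) * (z false - 7 / 20) * (10 / 3)
      else 20 * (z true - 1 / 2), fun t => ?_, fun z => ?_⟩, ?_, ?_⟩, fun t => ⟨rfl, rfl⟩⟩
  · funext j
    cases i <;> cases σ <;> cases j <;> simp <;> ring
  · funext j
    cases i <;> cases σ <;> cases j <;> simp <;> ring
  · refine continuous_pi fun k => ?_
    cases σ <;> cases k <;> simp only [Bool.false_eq_true, if_false, if_true] <;> fun_prop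
  · refine continuous_pi fun k => ?_
    by_cases h : k = i <;> simp only [h, if_false, if_true] <;> fun_prop

theorem exists_atlas [Nonempty Z] (hc : Charts Z) {B d : ℝ} (hd : 0 < d)
    (hg : ∀ (e : Pl → Z) (δ : ℝ), IsOpenEmbedding e → (frameOf e δ).OK → (frameOf e δ).Good B) :
    ∃ δ > 0, Atlas Z d B δ := by
  choose e he h0 hq hs using fun p : Z => hc p (d / 3) (by positivity)
  choose c hc using atl_coord
  obtain ⟨T, -, hT⟩ := isCompact_univ.elim_nhds_subcover (fun p : Z => e p '' ball 0 (1 / 10))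
    fun p _ => ((he p).isOpenMap _ isOpen_ball).mem_nhds ⟨0, mem_ball_self (by norm_num), h0 p⟩
  have hT' : ∀ x, ∃ p : T, ∃ v : Pl, ‖v‖ < 1 / 10 ∧ e p v = x := fun x => by
    obtain ⟨p, hp, v, hv, rfl⟩ := mem_iUnion₂.1 (hT (mem_univ x))
    exact ⟨⟨p, hp⟩, v, mem_ball_zero_iff.1 hv, rfl⟩
  have hne : Nonempty (T × Bool × Bool) :=
    ⟨((hT' (Classical.arbitrary Z)).choose, false, false)⟩
  let f : T × Bool × Bool → Pl → Z := fun j => e j.1 ∘ (c j.2.1 j.2.2).symm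
  have hf : ∀ j, IsOpenEmbedding (f j) := fun j =>
    (he j.1).comp (c j.2.1 j.2.2).symm.isOpenEmbedding
  choose δ₀ hδ₀ hok using fun j => frame_ok (hf j) (by
    obtain ⟨q, hq⟩ := hq j.1
    exact ⟨q, fun ⟨z, hz⟩ => hq ⟨_, hz⟩⟩)
  obtain ⟨j₀, hj₀⟩ := Finite.exists_min δ₀
  have hok' := fun j => hok j (δ₀ j₀) (hδ₀ j₀) (hj₀ j)
  refine ⟨δ₀ j₀, hδ₀ j₀, T × Bool × Bool, inferInstance, hne, fun j => frameOf (f j) (δ₀ j₀),
    fun j => ⟨(hok' j).1, rfl, hg _ _ (hf j) (hok' j).1⟩, fun S x y hj hxy => ?_⟩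
  obtain ⟨p, v, hv, rfl⟩ := hT' x
  obtain ⟨E, hE, hEc, hx, w, hw, hw'⟩ := first_exit hj ((he p).isOpenMap _ isOpen_ball)
    (O := e p '' ball 0 1) ⟨v, mem_ball_zero_iff.2 (by linarith), rfl⟩ (by
      rintro ⟨u, hu, rfl⟩
      have h1 := hs p u (mem_ball_zero_iff.1 hu).le
      have h2 := hs p v (by linarith)
      linarith [dist_triangle_right (e p v) (e p u) p])
  have hcl : ∀ x ∈ E, ∃ t : Pl, ‖t‖ ≤ 1 ∧ e p t = x := fun x hx => by
    obtain ⟨t, ht, rfl⟩ := closure_minimal (image_mono ball_subset_closedBall)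
      ((isCompact_closedBall (0 : Pl) 1).image (he p).continuous).isClosed (hE hx).2
    exact ⟨t, mem_closedBall_zero_iff.1 ht, rfl⟩
  obtain ⟨u, hu, rfl⟩ := hcl w hw
  obtain ⟨i, σ, hi⟩ : ∃ i σ : Bool, 1 ≤ (if σ then u i else -u i) := by
    by_contra h
    refine hw' ⟨u, mem_ball_zero_iff.2 ((pi_norm_lt_iff one_pos).2 fun i => ?_), rfl⟩
    have h1 : ¬ 1 ≤ u i := fun h' => h ⟨i, true, h'⟩
    have h2 : ¬ 1 ≤ -u i := fun h' => h ⟨i, false, h'⟩
    rw [Real.norm_eq_abs, abs_lt]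
    constructor <;> linarith
  have hb : ∀ t : Pl, -‖t‖ ≤ (if σ then t i else -t i) ∧ (if σ then t i else -t i) ≤ ‖t‖ ∧
      -‖t‖ ≤ t (!i) ∧ t (!i) ≤ ‖t‖ := fun t => by
    have h1 := abs_le.1 ((Real.norm_eq_abs _).symm.trans_le (norm_le_pi_norm t i))
    have h2 := abs_le.1 ((Real.norm_eq_abs _).symm.trans_le (norm_le_pi_norm t (!i)))
    refine ⟨?_, ?_, h2⟩ <;> split_ifs <;> linarith
  have hz : ∀ t : Pl, f (p, i, σ) (c i σ t) = e p t := fun t => by simp [f]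
  have hO : ∀ t : Pl, ‖t‖ ≤ 1 → c i σ t ∈ oQ := fun t ht k => by
    obtain ⟨h1, h2, h3, h4⟩ := hb t
    obtain ⟨e1, e2⟩ := hc i σ t
    cases k <;> constructor <;> linarith
  have hQ : ∀ t : Pl, ‖t‖ ≤ 1 → c i σ t ∈ QQ := fun t ht =>
    ⟨fun k => (hO t ht k).1.le, fun k => (hO t ht k).2.le⟩
  have hv1 : ‖v‖ ≤ 1 := by linarith
  have gap := (hok' (p, i, σ)).1.gap false
  refine ⟨(p, i, σ), E, fun x hx => (hE hx).1, hEc, fun x hx => ?_, fun x hx b => ?_, fun b => ?_⟩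
  · obtain ⟨t, ht, rfl⟩ := hcl x hx
    exact ⟨_, hO t ht, hz t⟩
  · obtain ⟨t, ht, rfl⟩ := hcl x hx
    obtain ⟨h1, h2, h3, h4⟩ := hb t
    obtain ⟨e1, e2⟩ := hc i σ t
    rw [← hz t]
    exact (hok' (p, i, σ)).2 _ (hQ t ht) (by linarith) (by linarith) b
  · obtain ⟨h1, h2, -⟩ := hb v
    have e1 := (hc i σ v).1
    have e2 := (hc i σ u).1
    cases b
    · exact ⟨_, hx, ⟨_, ⟨hO v hv1, false, Or.inl (by linarith)⟩, hz v⟩,
        gap _ ⟨_, ⟨hQ v hv1, show c i σ v false ≤ 2 / 5 by linarith⟩, hz v⟩⟩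
    · refine ⟨_, hw, ⟨_, ⟨hO u hu, false, Or.inr (by linarith)⟩, hz u⟩, fun y hy => ?_⟩
      rw [dist_comm]
      exact gap y hy _ ⟨_, ⟨hQ u hu, show 3 / 5 ≤ c i σ u false by linarith⟩, hz u⟩

end KCC
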