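import Pool.Agent.Lib.MP_e1e491_gt.CC.Defs

/-! The free graph. -/

namespace KCC

open Set Metric KP2 MeasureTheory Filter Topology
open scoped Classical Pointwise NNReal

variable {V : Type} {Γ : SimpleGraph (V ⊕ Bool × Bool)}

/-- A walk from a free vertex stays free or reaches a free neighbour of a zone. -/
theorem con_free {W : Set (V ⊕ Bool × Bool)} {a : V} {y : V ⊕ Bool × Bool}
    (h : Con Γ W (.inl a) y) :
    (∃ b, y = .inl b ∧ Con (free Γ) {v | .inl v ∈ W} a b) ∨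
      ∃ w i b, .inr (i, b) ∈ W ∧ w ∈ nb Γ i b ∧ Con (free Γ) {v | .inl v ∈ W} a w := by
  refine Con.induction (P := fun y => (∃ b, y = .inl b ∧ Con (free Γ) {v | .inl v ∈ W} a b) ∨
      ∃ w i b, .inr (i, b) ∈ W ∧ w ∈ nb Γ i b ∧ Con (free Γ) {v | .inl v ∈ W} a w) h
    (Or.inl ⟨a, rfl, KP2.Con.refl (by exact h.left_mem)⟩) ?_
  rintro v hv w hw hvw (⟨b, rfl, hb⟩ | hr)
  · rcases w with c | ⟨i, b'⟩
    · exact Or.inl ⟨c, rfl, hb.trans (Con.of_adj hvw hv hw)⟩
    · exact Or.inr ⟨b, i, b', hw, hvw, hb⟩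
  · exact Or.inr hr

/-- A walk between opposite zones contains a free crossing. -/
theorem cr_free {W : Set (V ⊕ Bool × Bool)} {i : Bool}
    (hn : ¬ Γ.Adj (.inr (i, false)) (.inr (i, true)))
    (h : Con Γ W (.inr (i, false)) (.inr (i, true))) (hW : ∀ b, .inr (!i, b) ∉ W) :
    Cr (free Γ) (nb Γ) i {v | .inl v ∈ W} := by
  have hi : ∀ j b, .inr (j, b) ∈ W → j = i := by
    intro j b hj
    by_contra hne
    have h1 : j = !i := by
      cases i <;> cases j <;> simp at hne ⊢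
    exact hW b (h1 ▸ hj)
  have key := Con.induction (P := fun y => y = .inr (i, false) ∨
      (∃ b, y = .inl b ∧ ∃ a ∈ nb Γ i false, Con (free Γ) {v | .inl v ∈ W} a b) ∨
      Cr (free Γ) (nb Γ) i {v | .inl v ∈ W}) h (Or.inl rfl) (by
    rintro v hv w hw hvw (rfl | ⟨b, rfl, a, ha, hb⟩ | hr)
    · rcases w with c | ⟨j, b'⟩
      · exact Or.inr (Or.inl ⟨c, rfl, c, hvw.symm, KP2.Con.refl hw⟩)
      · obtain rfl := hi j b' hw
        cases b'
        · exact Or.inl rfl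
        · exact absurd hvw hn
    · rcases w with c | ⟨j, b'⟩
      · exact Or.inr (Or.inl ⟨c, rfl, a, ha, hb.trans (Con.of_adj hvw hv hw)⟩)
      · obtain rfl := hi j b' hw
        cases b'
        · exact Or.inl rfl
        · exact Or.inr (Or.inr ⟨a, ha, b, hvw, hb⟩)
    · exact Or.inr (Or.inr hr))
  rcases key with h1 | ⟨b, h1, -⟩ | h1
  · simp at h1
  · simp at h1
  · exact h1

theorem con_of_free {S : Set V} {a b : V} (h : Con (free Γ) S a b) :
    Con Γ (Sum.inl '' S) (.inl a) (.inl b) := by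
  refine Con.induction (P := fun y => Con Γ (Sum.inl '' S) (.inl a) (.inl y)) h
    (KP2.Con.refl (mem_image_of_mem _ h.left_mem)) ?_
  intro v hv w hw hvw h1
  exact h1.trans (Con.of_adj hvw (mem_image_of_mem _ hv) (mem_image_of_mem _ hw))

theorem zone_up {U : Set (V ⊕ Bool × Bool)} {i : Bool}
    (h : Cr (free Γ) (nb Γ) i {v | .inl v ∈ U}) (h0 : .inr (i, false) ∈ U)
    (h1 : .inr (i, true) ∈ U) : Con Γ U (.inr (i, false)) (.inr (i, true)) := by
  obtain ⟨a, ha, b, hb, hab⟩ := h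
  have h2 : Con Γ U (.inl a) (.inl b) := (con_of_free hab).mono (by
    rintro _ ⟨v, hv, rfl⟩
    exact hv)
  exact ((Con.of_adj ha h2.left_mem h0).symm.trans h2).trans (Con.of_adj hb h2.right_mem h1)

theorem hc_free {side : Bool → Bool → Set (V ⊕ Bool × Bool)} (hc : HC Γ side)
    (hn : ∀ i, ¬ Γ.Adj (.inr (i, false)) (.inr (i, true)))
    (h0 : ∀ i b, .inr (i, b) ∈ side i b) (h1 : ∀ b, ∀ y ∈ side false b, y = .inr (false, b))
    (h2 : ∀ b, ∀ y ∈ side true b,
      y = .inr (true, b) ∨ y = .inr (false, false) ∨ y = .inr (false, true)) :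
    HC (free Γ) (nb Γ) := by
  intro W
  obtain ⟨U, hU1, hU2⟩ : ∃ U : Set (V ⊕ Bool × Bool), (∀ v, .inl v ∈ U ↔ v ∈ W) ∧
      ∀ i b, .inr (i, b) ∈ U ↔ i = false :=
    ⟨{y | Sum.elim (fun v => v ∈ W) (fun s => s.1 = false) y}, fun _ => Iff.rfl,
      fun _ _ => Iff.rfl⟩
  have e1 : {v | Sum.inl v ∈ U} = W := Set.ext hU1
  have e2 : {v | Sum.inl v ∈ Uᶜ} = Wᶜ := Set.ext fun v => (hU1 v).not
  have hA : Cr Γ side false U ↔ Cr (free Γ) (nb Γ) false W := by
    rw [← e1]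
    constructor
    · rintro ⟨a, ha, b, hb, hab⟩
      obtain rfl := h1 _ a ha
      obtain rfl := h1 _ b hb
      exact cr_free (hn false) hab fun b hb => by simpa using (hU2 _ _).1 hb
    · intro h
      exact ⟨_, h0 _ _, _, h0 _ _, zone_up h ((hU2 _ _).2 rfl) ((hU2 _ _).2 rfl)⟩
  have hB : Cr Γ side true Uᶜ ↔ Cr (free Γ) (nb Γ) true Wᶜ := by
    rw [← e2]
    have h3 : ∀ b, ∀ y ∈ side true b, y ∈ Uᶜ → y = .inr (true, b) := by
      intro b y hy hy'
      rcases h2 b y hy with h4 | rfl | rfl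
      · exact h4
      · exact absurd ((hU2 _ _).2 rfl) hy'
      · exact absurd ((hU2 _ _).2 rfl) hy'
    constructor
    · rintro ⟨a, ha, b, hb, hab⟩
      obtain rfl := h3 _ a ha hab.left_mem
      obtain rfl := h3 _ b hb hab.right_mem
      exact cr_free (hn true) hab fun b hb => hb ((hU2 _ _).2 rfl)
    · intro h
      exact ⟨_, h0 _ _, _, h0 _ _, zone_up h (fun h4 => by simpa using (hU2 _ _).1 h4)
        fun h4 => by simpa using (hU2 _ _).1 h4⟩
  rw [← hA, ← hB]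
  exact hc U

end KCC
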