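import Pool.Agent.Lib.MP_e1e491_gt.CC.ForestZ
import Pool.Agent.Lib.MP_e1e491_gt.CC.Zone
import Pool.Agent.Lib.MP_e1e491_gt.CC.Met
import Pool.Agent.Lib.MP_e1e491_gt.P2.Quot
import Pool.Agent.Lib.MP_e1e491_gt.P2.GridHex
import Pool.Agent.Lib.MP_e1e491_gt.P2.GridCross
import Pool.Agent.Lib.MP_e1e491_gt.P2.ShSum

/-! Construction of the blob graph. -/

namespace KCC

open Set Metric KP2 MeasureTheory Filter Topology
open scoped Classical Pointwise NNReal

variable {Z : Type} [MetricSpace Z] [CompactSpace Z] {lam : ℝ}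

/-- `p` is close to the blob or to the zone. -/
def bgc_near (F : Frame Z) {P : Finset Z} (p : Z) (t : ℝ) : P ⊕ Bool × Bool → Prop
  | .inl w => dist p w ≤ t
  | .inr s => ∃ y ∈ F.Zn s.1 s.2, dist p y ≤ t

omit [CompactSpace Z] in
theorem bgc_tri {F : Frame Z} {P : Finset Z} {p q : Z} {t t' : ℝ} {j : P ⊕ Bool × Bool}
    (h : bgc_near F q t j) (h' : dist p q + t ≤ t') : bgc_near F p t' j := by
  rcases j with w | s
  · have h1 : dist q w ≤ t := h
    exact (dist_triangle p q w).trans (by linarith)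
  · obtain ⟨y, hy, h1⟩ := h
    exact ⟨y, hy, (dist_triangle p q y).trans (by linarith)⟩

theorem bgc_oQ : oQ ⊆ QQ := fun _ hz => ⟨fun i => (hz i).1.le, fun i => (hz i).2.le⟩

theorem exists_bg (hL : LL Z lam) (hD : Dbl Z) : ∃ B : ℝ, 1 ≤ B ∧ ∀ (e : Pl → Z) (δ : ℝ),
    IsOpenEmbedding e → (frameOf e δ).OK → (frameOf e δ).Good B := by
  obtain ⟨N, hN⟩ := hD.card_le (2 * lam + 1)
  have hl := hL.one_le
  have hN0 : (0 : ℝ) ≤ N := Nat.cast_nonneg N
  obtain ⟨K, hK⟩ : ∃ K : ℝ, K = (N + 2) * (2 * lam + 1) := ⟨_, rfl⟩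
  have hK1 : lam + 1 ≤ K := by nlinarith
  refine ⟨2 * K, by linarith, fun e δ he hok => ?_⟩
  have hδ : 0 < δ := hok.δ_pos
  refine ⟨δ / (4 * K), div_pos hδ (by linarith), fun r hr hr0 P hP => ?_⟩
  have hKr : 4 * (K * r) ≤ δ := by
    rw [le_div_iff₀ (by linarith)] at hr0
    linarith
  have hKr0 : (lam + 1) * r ≤ K * r := mul_le_mul_of_nonneg_right hK1 hr.le
  have hlr : 0 < lam * r := mul_pos (by linarith) hr
  obtain ⟨col, hcolN, hcol⟩ := exists_colouring (I := P)
    (fun v w => dist (w : Z) v ≤ (2 * lam + 1) * r) (fun v w h => by rwa [dist_comm]) (N := N)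
    fun w => le_trans (Finset.card_le_card fun v hv => by simpa using hv) (hN r w P hr hP.1)
  choose D _ hDc hDs hDb using fun x : Z => hL.exists_D x hr
  obtain ⟨n, hn, hfine⟩ := exists_fine he.continuous hr
  have hn0 : 0 < n := by omega
  let U : P → Set Pl := fun v => if D v ⊆ e '' oQ then e ⁻¹' D v else ∅
  have hU : ∀ v, ∀ z ∈ U v, z ∈ QQ ∧ dist (e z) v ≤ lam * r := fun v z hz => by
    by_cases h : D v ⊆ e '' oQ
    · simp only [U, if_pos h] at hz
      obtain ⟨z', hz', e1⟩ := h hz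
      exact ⟨he.injective e1 ▸ bgc_oQ hz', hDb v hz⟩
    · simp only [U, if_neg h] at hz
      exact hz.elim
  have hUc : ∀ v, IsPreconnected (U v) := fun v => by
    by_cases h : D v ⊆ e '' oQ
    · simp only [U, if_pos h]
      exact (hDc v).preimage_of_isOpenMap he.injective he.isOpenMap
        (h.trans (image_subset_range _ _))
    · simp only [U, if_neg h]
      exact isPreconnected_empty
  let X : P ⊕ Bool × Bool → Set (Bool → Fin (n + 1)) := Sum.elim (fun v => shad n (U v)) (zv n)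
  let c : P ⊕ Bool × Bool → ℕ := Sum.elim (fun v => col v + 1) fun _ => 0
  have hgp : ∀ u, u ∈ shad n {gp n u} := fun u => by
    rw [shad_gp hn0]
    exact mem_singleton u
  have base : ∀ j u u' z, z ∈ QQ → u' ∈ shad n {z} → u' = u ∨ (gridG n).Adj u' u → u ∈ X j →
      bgc_near (frameOf e δ) (e z) ((lam + 1) * r) j := by
    rintro (w | s) u u' z hz hu' hadj hu
    · obtain ⟨z', hz', h1⟩ := hu
      have h2 := hfine z hz z' (hU w z' hz').1 u' u hu' ⟨z', rfl, h1⟩ hadj
      have h3 := (hU w z' hz').2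
      exact (dist_triangle _ (e z') _).trans (by linarith)
    · refine ⟨_, mem_image_of_mem e (gp_zv hn0 hu), ?_⟩
      have h2 := hfine z hz _ (gp_mem hn0 u) u' u hu' (hgp u) hadj
      linarith
  have hoQ : ∀ u, (∀ s, u ∉ zv n s) → gp n u ∈ oQ := fun u hu i => by
    have := gp_free hn0 hu i
    constructor <;> linarith [this.1, this.2]
  obtain ⟨β₀, hfib, hz0, hch⟩ := exists_forest_ord (gridG n) X (by
      rintro (v | s)
      · exact shad_cn n (hUc v) fun z hz => (hU v z hz).1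
      · exact zv_cn n s) (fun u => by
      by_cases hu : ∃ s, u ∈ zv n s
      · obtain ⟨s, hs⟩ := hu
        exact ⟨.inr s, hs⟩
      · have hu' : ∀ s, u ∉ zv n s := fun s hs => hu ⟨s, hs⟩
        obtain ⟨w, hw, h1⟩ := hP.2 (e (gp n u))
        have h2 : closedBall (e (gp n u)) δ ⊆ e '' oQ := hok.inner _ ⟨_, hoQ u hu', rfl⟩ (by
          rintro ⟨z, ⟨-, i, hi⟩, e1⟩
          rw [he.injective e1] at hi
          have := gp_free hn0 hu' i
          rcases hi with hi | hi <;> linarith [this.1, this.2])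
        have h3 : D w ⊆ e '' oQ := fun y hy => h2 (by
          have h4 : dist y w ≤ lam * r := hDb w hy
          have h5 := dist_triangle y w (e (gp n u))
          rw [mem_closedBall]
          linarith)
        refine ⟨.inl ⟨w, hw⟩, shad_mono n (singleton_subset_iff.2 ?_) (hgp u)⟩
        simp only [U, if_pos h3]
        exact hDs w (by rw [mem_closedBall, dist_comm]; exact h1.le)) (N := N + 1) c (by
      rintro (v | s)
      · exact Nat.succ_le_succ (hcolN v)
      · exact Nat.zero_le _) (by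
      rintro (v | s) (w | s') hne ⟨u, h1, h2⟩
      · obtain ⟨z, hz, h3⟩ := h1
        have h4 : dist (e z) w ≤ (lam + 1) * r :=
          base (.inl w) u u z (hU v z hz).1 ⟨z, rfl, h3⟩ (Or.inl rfl) h2
        have h5 := (hU v z hz).2
        have h6 := dist_triangle_left (w : Z) v (e z)
        exact fun h => hcol v w (fun h' => hne (congrArg _ h')) (by linarith) (Nat.succ.inj h)
      · exact Nat.succ_ne_zero _
      · exact (Nat.succ_ne_zero _).symm
      · exact absurd (congrArg _ (zv_disj hn0 ⟨u, h1, h2⟩)) hne)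
  have hz1 : ∀ s u, u ∈ zv n s → β₀ u = .inr s := fun s u hu => hz0 (.inr s) u rfl hu
  have chain : ∀ (m : ℕ) j k p t, ChD X c m j k → bgc_near (frameOf e δ) p t j →
      bgc_near (frameOf e δ) p (t + m * ((2 * lam + 1) * r)) k := by
    intro m
    induction m with
    | zero =>
      intro j k p t h h'
      obtain rfl : j = k := h
      exact bgc_tri h' (by simp)
    | succ m ih =>
      rintro (w | s) k p t ⟨j', ⟨u, ⟨h1, h2⟩⟩, h3, h4⟩ h'
      · obtain ⟨z, hz, h5⟩ := h1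
        have h6 : dist p w ≤ t := h'
        have h7 := (hU w z hz).2
        have h8 := dist_triangle_right p (e z) w
        refine bgc_tri (ih j' k p (t + (2 * lam + 1) * r) h4 (bgc_tri
          (base j' u u z (hU w z hz).1 ⟨z, rfl, h5⟩ (Or.inl rfl) h2) (by linarith))) ?_
        rw [dist_self]
        push_cast
        linarith
      · exact absurd h3 (Nat.not_lt_zero _)
  have key : ∀ u u' z, z ∈ QQ → u' ∈ shad n {z} → u' = u ∨ (gridG n).Adj u' u →
      bgc_near (frameOf e δ) (e z) (K * r) (β₀ u) := fun u u' z hz hu' hadj => by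
    obtain ⟨j, m, hm, hj, h⟩ := hch u
    refine bgc_tri (chain m j _ _ _ h (base j u u' z hz hu' hadj hj)) ?_
    have h1 : (m : ℝ) ≤ N + 1 := by exact_mod_cast hm
    have h2 := mul_le_mul_of_nonneg_right h1 (by linarith : 0 ≤ (2 * lam + 1) * r)
    rw [dist_self, hK]
    linarith
  have key2 : ∀ j k, (quotG (gridG n) β₀).Adj j k → ∃ p, bgc_near (frameOf e δ) p (K * r) j ∧
      bgc_near (frameOf e δ) p (K * r) k := by
    rintro _ _ ⟨-, u, u', hadj, rfl, rfl⟩
    exact ⟨_, key u u _ (gp_mem hn0 u) (hgp u) (Or.inl rfl),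
      key u' u _ (gp_mem hn0 u) (hgp u) (Or.inr hadj)⟩
  have nadj : ∀ i, ¬ (quotG (gridG n) β₀).Adj (.inr (i, false)) (.inr (i, true)) := fun i h => by
    obtain ⟨p, ⟨y, hy, h1⟩, y', hy', h2⟩ := key2 _ _ h
    have h3 : δ ≤ dist y y' := hok.gap i y hy y' hy'
    have h4 := dist_triangle_left y y' p
    linarith
  have hpt' : ∀ x : Z, ∃ u, ∀ z ∈ oQ, e z = x → u ∈ shad n {z} := fun x => by
    by_cases h : ∃ z ∈ oQ, e z = x
    · obtain ⟨z, hz, e1⟩ := h
      obtain ⟨u, hu⟩ := shad_nonempty n (bgc_oQ hz)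
      exact ⟨u, fun z' _ e2 => he.injective (e1.trans e2.symm) ▸ hu⟩
    · exact ⟨fun _ => 0, fun z hz e1 => absurd ⟨z, hz, e1⟩ h⟩
  choose pt hpt using hpt'
  have hhc : HC (gridG n) (gridS n) := fun W => ⟨grid_cross n W, grid_hex n W⟩
  have hB : K * r ≤ 2 * K * r := by linarith
  refine ⟨{
    Γ := quotG (gridG n) β₀
    β := fun x => if x ∈ e '' oQ then β₀ (pt x) else .inr (false, false)
    hc := hc_free (hhc.quot hfib) nadj ?_ ?_ ?_
    nadj := nadj
    adj := ?_
    adjz := ?_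
    inn := ?_
    surj := ?_
    shadow := ?_ }⟩
  · intro i b
    obtain ⟨u, h1, h2⟩ := zv_side_nonempty hn i b
    exact ⟨u, h1, hz1 _ u h2⟩
  · rintro b _ ⟨u, hu, rfl⟩
    exact hz1 _ u (zv_side_false n b hu)
  · rintro b _ ⟨u, hu, rfl⟩
    rcases zv_side_true n b hu with (h | h) | h
    exacts [Or.inl (hz1 _ u h), Or.inr (Or.inl (hz1 _ u h)), Or.inr (Or.inr (hz1 _ u h))]
  · intro v w h
    obtain ⟨p, h1, h2⟩ := key2 _ _ h
    have h3 : dist p v ≤ K * r := h1
    have h4 : dist p w ≤ K * r := h2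
    linarith [dist_triangle_left (v : Z) w p]
  · intro v i b h
    obtain ⟨p, h1, y, hy, h2⟩ := key2 _ _ h
    have h3 : dist p v ≤ K * r := h1
    exact ⟨y, hy, by linarith [dist_triangle_left (v : Z) y p]⟩
  · intro x v h
    by_cases hx : x ∈ e '' oQ
    · rw [if_pos hx] at h
      refine ⟨hx, ?_⟩
      rintro ⟨z, ⟨hz, i, hi⟩, e1⟩
      obtain ⟨s, hs⟩ := zv_of_out hn hi (hpt x z hz e1)
      rw [hz1 s _ hs] at h
      exact Sum.inr_ne_inl h
    · rw [if_neg hx] at h
      exact absurd h Sum.inr_ne_inl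
  · rintro v w ⟨-, u, -, -, h, -⟩
    have hu : ∀ s, u ∉ zv n s := fun s hs => Sum.inr_ne_inl ((hz1 s u hs).symm.trans h)
    have h1 := hpt _ _ (hoQ u hu) rfl
    rw [shad_gp hn0, mem_singleton_iff] at h1
    exact ⟨e (gp n u), by rw [if_pos (mem_image_of_mem e (hoQ u hu)), h1, h]⟩
  · intro E hE hEc
    have hQ : e ⁻¹' E ⊆ QQ := fun z hz => by
      obtain ⟨z', hz', e1⟩ := hE hz
      exact he.injective e1 ▸ bgc_oQ hz'
    have hW : ∀ j ∈ β₀ '' shad n (e ⁻¹' E), ∃ x ∈ E, bgc_near (frameOf e δ) x (2 * K * r) j := by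
      rintro _ ⟨u, ⟨z, hz, hu⟩, rfl⟩
      exact ⟨e z, hz, bgc_tri (key u u z (hQ hz) ⟨z, rfl, hu⟩ (Or.inl rfl))
        (by rw [dist_self, zero_add]; exact hB)⟩
    refine ⟨β₀ '' shad n (e ⁻¹' E), (shad_cn n (hEc.preimage_of_isOpenMap he.injective
      he.isOpenMap (hE.trans (image_subset_range _ _))) hQ).quot, fun x hx => ?_,
      fun v hv => hW _ hv, fun i b hv => hW _ hv⟩
    have hx' : x ∈ e '' oQ := hE hx
    rw [if_pos hx']
    obtain ⟨z, hz, rfl⟩ := hx'
    exact mem_image_of_mem _ (shad_mono n (singleton_subset_iff.2 hx) (hpt _ z hz rfl))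

end KCC
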