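import Pool.Agent.Lib.MP_e1e491_gt.CC.Lim

/-! The blow-up. -/

namespace KCC

open Set Metric KP2 MeasureTheory Filter Topology
open scoped Classical Pointwise NNReal

variable {Z : Type} [MetricSpace Z] [CompactSpace Z]

theorem blow_ratio {C T s D₁ D₂ mp mq mw dq dw a b : ℝ} (hC : 1 ≤ C) (hT : 0 ≤ T) (hs : 0 < s)
    (hD : 0 ≤ D₂) (hp : 0 < mp) (hq : 0 < mq) (hdq : 0 < dq) (hdw : 0 < dw)
    (h1 : D₁ * mp * mq ≤ C * (s * a)) (h2 : s * b ≤ C * (D₂ * mp * mw))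
    (h3 : a * dw ≤ T * (b * dq)) (h4 : dq ≤ 2 * mq) (h5 : mw ≤ 2 * dw) :
    D₁ ≤ 4 * C ^ 2 * T * D₂ := by
  have hC0 : 0 ≤ C := by linarith
  have e : mp * mq * dw * D₁ ≤ mp * mq * dw * (4 * C ^ 2 * T * D₂) :=
    calc mp * mq * dw * D₁ = D₁ * mp * mq * dw := by ring
      _ ≤ C * (s * a) * dw := mul_le_mul_of_nonneg_right h1 hdw.le
      _ = C * s * (a * dw) := by ring
      _ ≤ C * s * (T * (b * dq)) := mul_le_mul_of_nonneg_left h3 (by positivity)
      _ = C * T * dq * (s * b) := by ring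
      _ ≤ C * T * dq * (C * (D₂ * mp * mw)) := mul_le_mul_of_nonneg_left h2 (by positivity)
      _ = C ^ 2 * T * D₂ * mp * dq * mw := by ring
      _ ≤ C ^ 2 * T * D₂ * mp * dq * (2 * dw) := mul_le_mul_of_nonneg_left h5 (by positivity)
      _ = 2 * C ^ 2 * T * D₂ * mp * dw * dq := by ring
      _ ≤ 2 * C ^ 2 * T * D₂ * mp * dw * (2 * mq) := mul_le_mul_of_nonneg_left h4 (by positivity)
      _ = mp * mq * dw * (4 * C ^ 2 * T * D₂) := by ring
  exact le_of_mul_le_mul_left e (by positivity)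

theorem blow_dist (c : ℝ) (hc : 0 ≤ c) (u v o : Pl) :
    dist (c • (u - o)) (c • (v - o)) = c * dist u v := by
  rw [dist_smul₀, dist_sub_right, Real.norm_of_nonneg hc]

theorem exists_qm [Infinite Z] {lam : ℝ} (hl : LL Z lam) (hD : Dbl Z) {g : Z → Pl} {z₀ : Z} {ε : ℝ}
    (hε : 0 < ε) (h : LocQS g z₀ ε) (hz : Zoom z₀) : ∃ (F : Z → Pl) (y : Z), QM F y := by
  obtain ⟨C, φ, y, s, hC, hs, hs0, hconv, hmob⟩ := hz
  have hU : (hyperfilter ℕ : Filter ℕ) ≤ atTop := Nat.hyperfilter_le_atTop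
  obtain ⟨y₀, -, hy⟩ := isCompact_univ.ultrafilter_le_nhds ((hyperfilter ℕ).map y) (by simp)
  replace hy : Tendsto y (hyperfilter ℕ : Filter ℕ) (𝓝 y₀) := hy
  replace hs0 : Tendsto s (hyperfilter ℕ : Filter ℕ) (𝓝 0) := hs0.mono_left hU
  have hd : ∀ p, Tendsto (fun n => dist p (y n)) (hyperfilter ℕ : Filter ℕ) (𝓝 (dist p y₀)) :=
    fun p => tendsto_const_nhds.dist hy
  have hm : ∀ p, Tendsto (fun n => max (dist p (y n)) (s n)) (hyperfilter ℕ : Filter ℕ)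
      (𝓝 (dist p y₀)) := fun p => by
    simpa [max_eq_left (dist_nonneg (x := p) (y := y₀))] using (hd p).max hs0
  have hball : ∀ p, p ≠ y₀ → ∀ r > 0, ∀ᶠ n in (hyperfilter ℕ : Filter ℕ), φ n p ∈ ball z₀ r := by
    intro p hp r hr
    have h0 := dist_pos.2 hp
    have h1 : Tendsto (fun n => dist p (y n) * r - C * s n) (hyperfilter ℕ : Filter ℕ)
        (𝓝 (dist p y₀ * r - C * 0)) := ((hd p).mul_const r).sub (hs0.const_mul C)
    refine (h1.eventually (lt_mem_nhds (a := 0) (by rw [mul_zero, sub_zero]; positivity))).mono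
      fun n hn => ?_
    have h2 := hconv n p
    exact lt_of_mul_lt_mul_left (a := dist p (y n)) (by linarith) dist_nonneg
  have hrat : ∀ T, 0 ≤ T → ∀ p q w, q ≠ y₀ → w ≠ y₀ →
      dist p q * dist w y₀ ≤ T * (dist p w * dist q y₀) → ∀ᶠ n in (hyperfilter ℕ : Filter ℕ),
      dist (φ n p) (φ n q) ≤ 4 * C ^ 2 * T * dist (φ n p) (φ n w) := by
    intro T hT p q w hq hw h3
    have q0 := dist_pos.2 hq
    have w0 := dist_pos.2 hw
    filter_upwards [(hm q).eventually (lt_mem_nhds (half_lt_self q0)),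
      (hm w).eventually (gt_mem_nhds (show dist w y₀ < 2 * dist w y₀ by linarith))] with n h4 h5
    exact blow_ratio hC hT (hs n) dist_nonneg (lt_max_of_lt_right (hs n))
      (lt_max_of_lt_right (hs n)) q0 w0 (hmob n p q).1 (hmob n p w).2 h3 (by linarith) h5.le
  have hbd : ∀ T : ℝ, ∃ H : ℝ, ∀ p q w, p ≠ y₀ → q ≠ y₀ → w ≠ y₀ →
      dist p q * dist w y₀ ≤ T * (dist p w * dist q y₀) → ∀ᶠ n in (hyperfilter ℕ : Filter ℕ),
      dist (g (φ n p)) (g (φ n q)) ≤ H * dist (g (φ n p)) (g (φ n w)) := by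
    intro T
    obtain ⟨H, r, hr, hH⟩ := h.bounded hl hD hε (4 * C ^ 2 * |T|)
    refine ⟨H, fun p q w hp hq hw h3 => ?_⟩
    filter_upwards [hball p hp r hr, hball w hw r hr, hrat |T| (abs_nonneg T) p q w hq hw
      (h3.trans (mul_le_mul_of_nonneg_right (le_abs_self T) (by positivity)))] with n h4 h5 h6
    exact hH _ h4 _ h5 _ h6
  obtain ⟨p₀, hp₀⟩ := Infinite.exists_notMem_finset ({y₀} : Finset Z)
  obtain ⟨p₁, hp₁⟩ := Infinite.exists_notMem_finset ({y₀, p₀} : Finset Z)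
  simp only [Finset.mem_insert, Finset.mem_singleton, not_or] at hp₀ hp₁
  obtain ⟨hp₁, hne⟩ := hp₁
  have d01 : 0 < dist p₀ p₁ := dist_pos.2 (Ne.symm hne)
  obtain ⟨c, hc⟩ : ∃ c : ℕ → ℝ, ∀ n, c n = (dist (g (φ n p₀)) (g (φ n p₁)))⁻¹ := ⟨_, fun _ => rfl⟩
  have c0 : ∀ n, 0 ≤ c n := fun n => by rw [hc]; positivity
  have hlim : ∀ p, ∃ z : Pl, p ≠ y₀ → Tendsto (fun n => c n • (g (φ n p) - g (φ n p₀)))
      (hyperfilter ℕ : Filter ℕ) (𝓝 z) := by
    intro p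
    by_cases hp : p = y₀
    · exact ⟨0, fun h => absurd hp h⟩
    have p0 := dist_pos.2 hp
    obtain ⟨H, hH⟩ := hbd (dist p₀ p * dist p₁ y₀ / (dist p₀ p₁ * dist p y₀))
    have h1 := hH p₀ p p₁ hp₀ hp hp₁ (by rw [div_mul_cancel₀ _ (by positivity)])
    obtain ⟨z, -, hz⟩ := (isCompact_closedBall (0 : Pl) |H|).ultrafilter_le_nhds
      ((hyperfilter ℕ).map fun n => c n • (g (φ n p) - g (φ n p₀)))
      (le_principal_iff.2 (mem_map.2 (h1.mono fun n hn => by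
        have h2 := blow_dist (c n) (c0 n) (g (φ n p)) (g (φ n p₀)) (g (φ n p₀))
        rw [sub_self, smul_zero] at h2
        show _ ∈ closedBall (0 : Pl) |H|
        rw [mem_closedBall, h2, dist_comm]
        calc c n * dist (g (φ n p₀)) (g (φ n p)) ≤
            c n * (|H| * dist (g (φ n p₀)) (g (φ n p₁))) := mul_le_mul_of_nonneg_left
              (hn.trans (mul_le_mul_of_nonneg_right (le_abs_self H) dist_nonneg)) (c0 n)
          _ = |H| * (c n * dist (g (φ n p₀)) (g (φ n p₁))) := by ring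
          _ ≤ |H| * 1 := mul_le_mul_of_nonneg_left (by rw [hc]; exact inv_mul_le_one_of_le₀ le_rfl dist_nonneg)
              (abs_nonneg H)
          _ = |H| := mul_one _)))
    exact ⟨z, fun _ => hz⟩
  choose F hF using hlim
  have key : ∀ (H : ℝ) p q w, p ≠ y₀ → q ≠ y₀ → w ≠ y₀ → (∀ᶠ n in (hyperfilter ℕ : Filter ℕ),
      dist (g (φ n p)) (g (φ n q)) ≤ H * dist (g (φ n p)) (g (φ n w))) →
      dist (F p) (F q) ≤ H * dist (F p) (F w) := by
    intro H p q w hp hq hw h1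
    refine le_of_tendsto_of_tendsto ((hF p hp).dist (hF q hq))
      (((hF p hp).dist (hF w hw)).const_mul H) (h1.mono fun n hn => ?_)
    show dist _ _ ≤ H * dist _ _
    rw [blow_dist _ (c0 n), blow_dist _ (c0 n), mul_left_comm]
    exact mul_le_mul_of_nonneg_left hn (c0 n)
  refine ⟨F, y₀, fun T => ?_, fun δ hδ => ?_, p₀, p₁, hp₀, hp₁, fun e => ?_⟩
  · obtain ⟨H, hH⟩ := hbd T
    exact ⟨H, fun p q w hp hq hw h3 => key H p q w hp hq hw (hH p q w hp hq hw h3)⟩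
  · obtain ⟨η, hη, hH⟩ := h.2 δ hδ
    have hC0 : 0 < 4 * C ^ 2 := by positivity
    refine ⟨η / (4 * C ^ 2), by positivity, fun p q w hp hq hw h3 => key δ p q w hp hq hw ?_⟩
    filter_upwards [hball p hp ε hε, hball w hw ε hε,
      hrat _ (by positivity) p q w hq hw h3] with n h4 h5 h6
    rw [mul_div_cancel₀ _ hC0.ne'] at h6
    exact hH _ h4 _ h5 _ h6
  · have h1 : ∀ᶠ n in (hyperfilter ℕ : Filter ℕ), 1 ≤ dist (c n • (g (φ n p₀) - g (φ n p₀)))
        (c n • (g (φ n p₁) - g (φ n p₀))) := by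
      filter_upwards [hball p₀ hp₀ ε hε, hball p₁ hp₁ ε hε] with n h4 h5
      have h6 : φ n p₀ ≠ φ n p₁ := fun e => by
        have h7 := (hmob n p₀ p₁).2
        rw [e, dist_self, zero_mul, zero_mul, mul_zero] at h7
        exact absurd (mul_pos (hs n) d01) (not_lt.2 h7)
      rw [blow_dist _ (c0 n), hc, inv_mul_cancel₀ (dist_ne_zero.2 fun e => h6 (h.1 h4 h5 e))]
    have := ge_of_tendsto ((hF p₀ hp₀).dist (hF p₁ hp₁)) h1
    rw [e, dist_self] at this
    linarith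

end KCC
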