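import Pool.Agent.Lib.MP_e1e491_gt.CC.Defs
import Pool.Agent.Lib.MP_e1e491_gt.P2.Sphere

/-! The inverse stereographic projection. -/

namespace KCC

open Set Metric KP2 MeasureTheory Filter Topology
open scoped Classical Pointwise NNReal

theorem stereo_den (u : Pl) : max 1 ‖u‖ ^ 2 ≤ 1 + u false ^ 2 + u true ^ 2 ∧
    1 + u false ^ 2 + u true ^ 2 ≤ 3 * max 1 ‖u‖ ^ 2 := by
  have h1 := (sphere_sq_bounds u 0).1
  have h2 := sphere_den_le _ u (le_max_right 1 ‖u‖)
  have h3 : 1 ≤ max 1 ‖u‖ ^ 2 := one_le_pow₀ (le_max_left _ _)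
  simp only [dist_zero_right, Pi.zero_apply, sub_zero] at h1
  refine ⟨?_, by linarith⟩
  rcases max_choice 1 ‖u‖ with e | e <;> rw [e] <;>
    nlinarith [sq_nonneg (u false), sq_nonneg (u true)]

theorem stereo_np (x y : ℝ) :
    dist (sphere_vec x y) (WithLp.toLp 2 ![0, 0, 1]) ^ 2 * (1 + x ^ 2 + y ^ 2) = 4 := by
  have h : (0 : ℝ) < 1 + x ^ 2 + y ^ 2 := by positivity
  rw [EuclideanSpace.dist_eq, Real.sq_sqrt (Finset.sum_nonneg fun i _ => sq_nonneg _)]
  simp only [sphere_vec, Fin.sum_univ_three, Real.dist_eq, sq_abs, Matrix.cons_val_zero,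
    Matrix.cons_val_one, Matrix.cons_val]
  field_simp
  ring

theorem exists_stereo : ∃ (st : Pl → S2) (np : S2) (L : ℝ), 1 ≤ L ∧
    (∀ u v, dist u v ≤ L * (dist (st u) (st v) * max 1 ‖u‖ * max 1 ‖v‖) ∧
      dist (st u) (st v) * max 1 ‖u‖ * max 1 ‖v‖ ≤ L * dist u v) ∧
    ∀ u, 1 ≤ L * (dist (st u) np * max 1 ‖u‖) ∧ dist (st u) np * max 1 ‖u‖ ≤ L := by
  refine ⟨fun u => ⟨sphere_vec (u false) (u true), sphere_vec_mem _ _⟩,
    ⟨WithLp.toLp 2 ![0, 0, 1], ?_⟩, 3, by norm_num, fun u v => ?_, fun u => ?_⟩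
  · rw [mem_sphere_zero_iff_norm, EuclideanSpace.norm_eq, Real.sqrt_eq_one]
    simp [Fin.sum_univ_three]
  · rw [Subtype.dist_eq]
    have hd := sphere_vec_dist (u false) (u true) (v false) (v true)
    obtain ⟨b1, b2⟩ := sphere_sq_bounds u v
    obtain ⟨u1, u2⟩ := stereo_den u
    obtain ⟨v1, v2⟩ := stereo_den v
    rw [eq_div_iff (by positivity)] at hd
    have hD : 0 ≤ dist (sphere_vec (u false) (u true)) (sphere_vec (v false) (v true)) :=
      dist_nonneg
    have hu : 0 ≤ max 1 ‖u‖ := by positivity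
    have hv : 0 ≤ max 1 ‖v‖ := by positivity
    have e1 := mul_le_mul_of_nonneg_left (mul_le_mul u1 v1 (by positivity) (by positivity))
      (sq_nonneg (dist (sphere_vec (u false) (u true)) (sphere_vec (v false) (v true))))
    have e2 := mul_le_mul_of_nonneg_left (mul_le_mul u2 v2 (by positivity) (by positivity))
      (sq_nonneg (dist (sphere_vec (u false) (u true)) (sphere_vec (v false) (v true))))
    rw [hd] at e1 e2
    dsimp only
    generalize dist (sphere_vec (u false) (u true)) (sphere_vec (v false) (v true)) = D at *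
    generalize max 1 ‖u‖ = a at *
    generalize max 1 ‖v‖ = b at *
    constructor
    · refine (pow_le_pow_iff_left₀ dist_nonneg (by positivity) two_ne_zero).1 ?_
      nlinarith [sq_nonneg (D * a * b)]
    · refine (pow_le_pow_iff_left₀ (by positivity) (by positivity) two_ne_zero).1 ?_
      nlinarith [sq_nonneg (dist u v)]
  · rw [Subtype.dist_eq]
    have hd := stereo_np (u false) (u true)
    obtain ⟨u1, u2⟩ := stereo_den u
    have hD : 0 ≤ dist (sphere_vec (u false) (u true)) (WithLp.toLp 2 ![0, 0, 1]) := dist_nonneg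
    have hu : 0 ≤ max 1 ‖u‖ := by positivity
    have e1 := mul_le_mul_of_nonneg_left u1
      (sq_nonneg (dist (sphere_vec (u false) (u true)) (WithLp.toLp 2 ![0, 0, 1])))
    have e2 := mul_le_mul_of_nonneg_left u2
      (sq_nonneg (dist (sphere_vec (u false) (u true)) (WithLp.toLp 2 ![0, 0, 1])))
    rw [hd] at e1 e2
    dsimp only
    generalize dist (sphere_vec (u false) (u true)) (WithLp.toLp 2 ![0, 0, 1]) = D at *
    generalize max 1 ‖u‖ = a at *
    constructor
    · refine (pow_le_pow_iff_left₀ zero_le_one (by positivity) two_ne_zero).1 ?_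
      nlinarith [sq_nonneg (D * a)]
    · refine (pow_le_pow_iff_left₀ (by positivity) (by positivity) two_ne_zero).1 ?_
      nlinarith

end KCC
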