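import Pool.Agent.Lib.MP_e1e491_gt.CC.ChordA
import Pool.Agent.Lib.MP_e1e491_gt.CC.Stereo
import Pool.Agent.Lib.MP_e1e491_gt.P2.Limit

/-! The map to the round sphere. -/

namespace KCC

open Set Metric KP2 MeasureTheory Filter Topology
open scoped Classical Pointwise NNReal

theorem chord_inv {a s t : ℝ} (hs : 1 ≤ s) (ht : 1 ≤ t) (h : t ≤ a * s) : s⁻¹ ≤ a * t⁻¹ := by
  have h1 : 0 < s := by linarith
  have h2 : 0 < t := by linarith
  rw [← div_eq_mul_inv, inv_eq_one_div, div_le_div_iff₀ h1 h2]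
  linarith

theorem chord_up {a b L s t : ℝ} (hs : 1 ≤ s) (ht : 1 ≤ t) (h : a * s * t ≤ L * b) :
    a ≤ L * (b * s⁻¹ * t⁻¹) := by
  have h1 : 0 < s := by linarith
  have h2 : 0 < t := by linarith
  have h3 : L * (b * s⁻¹ * t⁻¹) = L * b / (s * t) := by field_simp
  rw [h3, le_div_iff₀ (mul_pos h1 h2), ← mul_assoc]
  exact h

theorem chord_down {a b L s t : ℝ} (hs : 1 ≤ s) (ht : 1 ≤ t) (h : b ≤ L * (a * s * t)) :
    b * s⁻¹ * t⁻¹ ≤ L * a := by
  have h1 : 0 < s := by linarith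
  have h2 : 0 < t := by linarith
  have h3 : b * s⁻¹ * t⁻¹ = b / (s * t) := by field_simp
  rw [h3, div_le_iff₀ (mul_pos h1 h2), mul_assoc, ← mul_assoc a]
  exact h

variable {Z : Type} [MetricSpace Z] [CompactSpace Z]

omit [MetricSpace Z] [CompactSpace Z] in
theorem chord_data (F : Z → Pl) (y : Z) : ∃ (f : Z → S2) (n : Z → ℝ) (L : ℝ), 1 ≤ L ∧ n y = 0 ∧
    (∀ p, p ≠ y → n p = (max 1 ‖F p‖)⁻¹) ∧
    (∀ p, dist (f p) (f y) ≤ L * n p ∧ n p ≤ L * dist (f p) (f y)) ∧
    ∀ p q, p ≠ y → q ≠ y → dist (f p) (f q) ≤ L * (dist (F p) (F q) * n p * n q) ∧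
      dist (F p) (F q) * n p * n q ≤ L * dist (f p) (f q) := by
  obtain ⟨st, np, L, hL, h1, h2⟩ := exists_stereo
  refine ⟨fun p => if p = y then np else st (F p), fun p => if p = y then 0 else (max 1 ‖F p‖)⁻¹,
    L, hL, if_pos rfl, fun p hp => if_neg hp, fun p => ?_, fun p q hp hq => ?_⟩
  · by_cases e : p = y
    · simp [e]
    · simp only [if_neg e, if_true]
      have a1 := chord_up (le_max_left 1 ‖F p‖) le_rfl
        (a := dist (st (F p)) np) (b := 1) (L := L) (by simpa using (h2 (F p)).2)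
      have a2 := chord_down (le_max_left 1 ‖F p‖) le_rfl
        (a := dist (st (F p)) np) (b := 1) (L := L) (by simpa using (h2 (F p)).1)
      exact ⟨by simpa using a1, by simpa using a2⟩
  · simp only [if_neg hp, if_neg hq]
    exact ⟨chord_up (le_max_left _ _) (le_max_left _ _) (h1 _ _).2,
      chord_down (le_max_left _ _) (le_max_left _ _) (h1 _ _).1⟩

theorem QM.exists_sqs {F : Z → Pl} {y : Z} (h : QM F y) :
    ∃ f : Z → S2, SQS f ∧ ∃ a b, f a ≠ f b := by
  obtain ⟨F, p₀, p₁, h, h0, h1, e0, e1⟩ := h.normalise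
  obtain ⟨f, n, L, hL, n0, n1, hA, hB⟩ := chord_data F y
  have hL0 : 0 < L := by linarith
  have np : ∀ p, p ≠ y → 0 < n p := fun p hp => by
    rw [n1 p hp]
    exact inv_pos.2 (lt_max_of_lt_left one_pos)
  have nn : ∀ p, 0 ≤ n p := fun p => by
    by_cases e : p = y
    · rw [e, n0]
    · exact (np p e).le
  have nm : ∀ p, p ≠ y → max 1 ‖F p‖ * n p = 1 := fun p hp => by
    rw [n1 p hp]
    exact mul_inv_cancel₀ (lt_max_of_lt_left one_pos).ne'
  have ns : ∀ (a : ℝ) q w, q ≠ y → w ≠ y → max 1 ‖F w‖ ≤ a * max 1 ‖F q‖ → n q ≤ a * n w :=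
    fun a q w hq hw e => by
      rw [n1 q hq, n1 w hw]
      exact chord_inv (le_max_left _ _) (le_max_left _ _) e
  refine ⟨f, fun δ hδ => ?_, p₀, y, fun e => ?_⟩
  swap
  · have a1 := (hA p₀).2
    rw [e, dist_self, mul_zero] at a1
    exact absurd (np p₀ h0) (not_lt.2 a1)
  obtain ⟨H₁, hH₁, s1⟩ := qm_size h h0 h1 e0 e1 3
  obtain ⟨H₂, hH₂, s2⟩ := qm_far h h0 h1 e0 e1 3
  have hH₁' : 0 < H₁ := by linarith
  have hH₂' : 0 < H₂ := by linarith
  have far : ∀ p w, 0 < dist p w → dist w y ≤ 3 * dist p w →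
      n w ≤ L * H₂ * dist (f p) (f w) := by
    intro p w hpw e
    by_cases hw : w = y
    · rw [hw, n0]
      positivity
    by_cases hp : p = y
    · refine (hA w).2.trans ?_
      rw [hp, dist_comm (f y), mul_assoc]
      exact mul_le_mul_of_nonneg_left (le_mul_of_one_le_left dist_nonneg hH₂) hL0.le
    have a1 := mul_le_mul_of_nonneg_right (s2 p w hp hw e) (mul_nonneg (nn p) (nn w))
    have a2 := mul_le_mul_of_nonneg_left (hB p w hp hw).2 hH₂'.le
    rw [← mul_assoc, nm p hp, one_mul] at a1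
    linarith
  obtain ⟨ε₁, hε₁, s3⟩ := h.2.1 (δ / (L * L * H₁)) (by positivity)
  obtain ⟨ε₂, hε₂, s4⟩ := qm_size_small h h0 h1 e0 e1
    (a := δ / (2 * L * (L * H₂))) (by positivity)
  obtain ⟨ε₃, hε₃, s5⟩ := qm_close h h0 h1 e0 e1 (a := δ / (L * (L * H₂))) (by positivity)
  obtain ⟨a, a0, a1, a2⟩ : ∃ a : ℝ, 0 < a ∧ a ≤ 1 / 2 ∧ a ≤ ε₃ :=
    ⟨min (1 / 2) ε₃, by positivity, min_le_left _ _, min_le_right _ _⟩
  obtain ⟨b, b0, b1, b2⟩ : ∃ b : ℝ, 0 < b ∧ b ≤ 1 / 2 ∧ b ≤ ε₂ / 4 :=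
    ⟨min (1 / 2) (ε₂ / 4), by positivity, min_le_left _ _, min_le_right _ _⟩
  obtain ⟨ε, c0, c1, c2⟩ : ∃ ε : ℝ, 0 < ε ∧ ε ≤ ε₁ / 3 ∧ ε ≤ a * b :=
    ⟨min (ε₁ / 3) (a * b), by positivity, min_le_left _ _, min_le_right _ _⟩
  have c3 : ε ≤ b := c2.trans (by nlinarith)
  refine ⟨ε, c0, fun x x' z hx => ?_⟩
  by_cases exx : x = x'
  · rw [exx, dist_self]
    positivity
  have d0 : 0 < dist x x' := dist_pos.2 exx
  have d1 : 0 < dist x z := (mul_pos_iff_of_pos_left c0).1 (d0.trans_le hx)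
  have d2 : dist x x' ≤ b * dist x z := hx.trans (mul_le_mul_of_nonneg_right c3 d1.le)
  have t1 := dist_triangle x x' y
  have t2 := dist_triangle x z y
  have t3 := dist_triangle_left x' y x
  have t4 := dist_triangle_left z y x
  have t5 := dist_triangle_right x z y
  have d3 : dist x x' ≤ dist x z / 2 := by nlinarith
  by_cases k1 : dist x z ≤ dist x y / 2
  · have hx0 : x ≠ y := dist_pos.1 (by linarith)
    have hx1 : x' ≠ y := dist_pos.1 (by linarith)
    have hz : z ≠ y := dist_pos.1 (by linarith)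
    have u1 := s3 x x' z hx0 hx1 hz (by
      have v1 : dist x x' ≤ ε₁ / 3 * dist x z := hx.trans (mul_le_mul_of_nonneg_right c1 d1.le)
      have v2 : dist z y ≤ 3 * dist x' y := by linarith
      refine (mul_le_mul v1 v2 dist_nonneg (by positivity)).trans (le_of_eq ?_)
      ring)
    have u2 := ns H₁ x' z hx1 hz (s1 x' z hx1 hz (by linarith))
    have u3 : dist (F x) (F x') * n x * n x' ≤
        δ / (L * L * H₁) * dist (F x) (F z) * n x * (H₁ * n z) :=
      mul_le_mul (mul_le_mul_of_nonneg_right u1 (nn x)) u2 (nn x')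
        (mul_nonneg (by positivity) (nn x))
    have u4 := mul_le_mul_of_nonneg_left (hB x z hx0 hz).2 (div_pos hδ hL0).le
    refine (hB x x' hx0 hx1).1.trans ((mul_le_mul_of_nonneg_left u3 hL0.le).trans ?_)
    refine le_trans (le_of_eq ?_) (u4.trans (le_of_eq ?_))
    · field_simp
    · field_simp
  rw [not_le] at k1
  have w1 := far z x (by rwa [dist_comm]) (by rw [dist_comm z]; linarith)
  have w2 := far x z d1 (by linarith)
  rw [dist_comm (f z)] at w1
  by_cases k2 : dist x x' ≤ a * dist x y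
  · have v0 : 0 < dist x y := (mul_pos_iff_of_pos_left a0).1 (d0.trans_le k2)
    have hx0 : x ≠ y := dist_pos.1 v0
    have hx1 : x' ≠ y := dist_pos.1 (by nlinarith)
    have u1 := s5 x' x hx1 hx0 (by
      rw [dist_comm]
      exact k2.trans (mul_le_mul_of_nonneg_right a2 v0.le))
    have u2 := mul_le_mul_of_nonneg_right (mul_le_mul_of_nonneg_right u1 (nn x')) (nn x)
    rw [mul_assoc (δ / _), nm x' hx1, mul_one] at u2
    have u3 := mul_le_mul_of_nonneg_left w1 (a := δ / (L * (L * H₂))) (by positivity)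
    rw [dist_comm (f x)]
    refine (hB x' x hx1 hx0).1.trans
      ((mul_le_mul_of_nonneg_left (u2.trans u3) hL0.le).trans (le_of_eq ?_))
    field_simp
  · rw [not_le] at k2
    have v1 : dist x y ≤ b * dist x z := by
      refine le_of_mul_le_mul_left (k2.le.trans (hx.trans ?_)) a0
      rw [← mul_assoc]
      exact mul_le_mul_of_nonneg_right c2 d1.le
    have v2 : dist x z / 2 ≤ dist z y := by nlinarith
    have hz : z ≠ y := dist_pos.1 (by linarith)
    have v3 : 2 * (b * dist x z) ≤ ε₂ * dist z y := by nlinarith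
    have key : ∀ q, dist q y ≤ ε₂ * dist z y →
        dist (f q) (f y) ≤ δ / 2 * dist (f x) (f z) := by
      intro q hq
      by_cases e : q = y
      · rw [e, dist_self]
        positivity
      have u1 := ns _ q z e hz (s4 q z e hz hq)
      have u3 := mul_le_mul_of_nonneg_left w2 (a := δ / (2 * L * (L * H₂))) (by positivity)
      refine (hA q).1.trans ((mul_le_mul_of_nonneg_left (u1.trans u3) hL0.le).trans (le_of_eq ?_))
      field_simp
    have u1 := key x (by nlinarith [dist_nonneg (x := x) (y := y)])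
    have u2 := key x' (by linarith)
    have u3 := dist_triangle_right (f x) (f x') (f y)
    linarith

end KCC
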