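import Pool.Agent.Lib.MP_e1e491_gt.CC.Defs
import Pool.Agent.Lib.MP_e1e491_gt.P2.Lines

/-! Complements on walks and tilings. -/

namespace KCC

open Set Metric KP2 MeasureTheory Filter Topology
open scoped Classical Pointwise NNReal

section

variable {V : Type} {G : SimpleGraph V} {side : Bool → Bool → Set V} {S : Set V} {a b : V}

theorem con_reach (h : Con G S a b) : Con G {v | Con G S a v} a b := by
  refine h.induction (P := fun w => Con G {v | Con G S a v} a w)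
    (KP2.Con.refl (KP2.Con.refl h.left_mem)) fun v hv w hw hvw h1 => ?_
  have h2 : Con G S a v := h1.right_mem
  exact h1.trans (Con.of_adj hvw h2 (h2.trans (Con.of_adj hvw hv hw)))

theorem cn_reach (a : V) : Cn G {v | Con G S a v} := by
  exact fun u hu w hw => (con_reach hu).symm.trans (con_reach hw)

theorem con_chain (h : Con G S a b) : ∃ (n : ℕ) (c : ℕ → V), c 0 = a ∧ c n = b ∧
    (∀ i ≤ n, c i ∈ S) ∧ ∀ i < n, G.Adj (c i) (c (i + 1)) := by
  obtain ⟨q, hq⟩ := h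
  exact ⟨q.length, q.getVert, q.getVert_zero, q.getVert_length,
    fun i _ => hq _ (q.getVert_mem_support i), fun i hi => q.adj_getVert_succ hi⟩

theorem con_of_chain {n : ℕ} {c : ℕ → V} (hS : ∀ i ≤ n, c i ∈ S)
    (hc : ∀ i < n, G.Adj (c i) (c (i + 1))) : Con G S (c 0) (c n) := by
  induction n with
  | zero => exact KP2.Con.refl (hS 0 le_rfl)
  | succ n ih =>
    exact (ih (fun i hi => hS i (by omega)) fun i hi => hc i (by omega)).trans
      (Con.of_adj (hc n (by omega)) (hS n (by omega)) (hS _ le_rfl))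

/-- The part of a walk inside a shell. -/
theorem con_shell (h : Con G S a b) (φ : V → ℝ) {ε R₁ R₂ : ℝ} (hε : 0 ≤ ε)
    (hφ : ∀ v w, G.Adj v w → |φ v - φ w| ≤ ε) (ha : φ a ≤ R₁) (hR : R₁ < R₂) (hb : R₂ ≤ φ b) :
    ∃ a' b', Con G (S ∩ {v | R₁ - ε ≤ φ v ∧ φ v ≤ R₂ + ε}) a' b' ∧ φ a' ≤ R₁ ∧ R₂ ≤ φ b' := by
  obtain ⟨w, hw, h1, rfl | ⟨u, hu, h2⟩⟩ := h.exists_first (P := fun v => R₂ ≤ φ v) hb
  · linarith
  have h3 : φ u < R₂ := not_le.1 h2.right_mem.2
  have h4 := abs_le.1 (hφ u w hu)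
  have h5 : Con G (S ∩ {v | φ v ≤ R₂ + ε}) a w :=
    (h2.mono (W' := S ∩ {v | φ v ≤ R₂ + ε}) fun v hv =>
      ⟨hv.1, (not_le.1 hv.2).le.trans (by linarith)⟩).trans
      (Con.of_adj hu ⟨h2.right_mem.1, show φ u ≤ _ by linarith⟩ ⟨hw, show φ w ≤ _ by linarith⟩)
  obtain ⟨w', hw', h6, rfl | ⟨u', hu', h7⟩⟩ := h5.symm.exists_first (P := fun v => φ v ≤ R₁) ha
  · linarith
  have h8 : R₁ < φ u' := not_le.1 h7.right_mem.2
  have h9 := abs_le.1 (hφ u' w' hu')
  have h10 := h7.mono (W' := S ∩ {v | R₁ - ε ≤ φ v ∧ φ v ≤ R₂ + ε}) fun v hv =>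
    ⟨hv.1.1, le_trans (by linarith) (not_le.1 hv.2).le, hv.1.2⟩
  exact ⟨w', w, (h10.trans (Con.of_adj hu' h10.right_mem ⟨hw'.1, by linarith, hw'.2⟩)).symm, h6, h1⟩

variable [Fintype V]

theorem con_abs_sub_le {ψ m : V → ℝ} (h : Con G S a b) (hm : ∀ v, 0 ≤ m v)
    (hψ : ∀ v ∈ S, ∀ w ∈ S, G.Adj v w → |ψ v - ψ w| ≤ m w) : |ψ a - ψ b| ≤ wt m S := by
  let G' : SimpleGraph V := ⟨fun v w => G.Adj v w ∧ v ∈ S ∧ w ∈ S,
    ⟨fun _ _ h => ⟨h.1.symm, h.2.2, h.2.1⟩⟩, ⟨fun _ h => h.1.ne rfl⟩⟩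
  have h1 : Con G' S a b := h.induction (P := fun w => Con G' S a w)
    (KP2.Con.refl h.left_mem) fun v hv w hw hvw h1 => h1.trans (Con.of_adj ⟨hvw, hv, hw⟩ hv hw)
  exact h1.abs_sub_le hm fun v w h => hψ v h.2.1 w h.2.2 h.1

/-- The weighted distance from `A`, cut at `J`. -/
theorem exists_cdist (G : SimpleGraph V) {W : V → ℝ} (hW : ∀ v, 0 ≤ W v) (A : Set V) {J : ℝ}
    (hJ : 0 ≤ J) : ∃ ψ : V → ℝ, (∀ v, 0 ≤ ψ v ∧ ψ v ≤ J) ∧ (∀ v ∈ A, ψ v = 0) ∧
      (∀ v w, G.Adj v w → ψ w ≤ ψ v + W v) ∧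
      ∀ v, ψ v = J ∨ ∃ S, ∃ a ∈ A, Con G S a v ∧ wt W S ≤ ψ v + W v := by
  have h1 : ∀ v, ∃ t ∈ insert J ((fun S => wt W (S \ {v})) '' {S | ∃ a ∈ A, Con G S a v}),
      ∀ t' ∈ insert J ((fun S => wt W (S \ {v})) '' {S | ∃ a ∈ A, Con G S a v}), t ≤ t' :=
    fun v => exists_min_image _ id (((toFinite _).image _).insert _) (insert_nonempty _ _)
  choose ψ hψ hmin using h1
  have h0 : ∀ v, 0 ≤ ψ v := fun v => by
    rcases hψ v with e | ⟨S, -, e⟩
    · exact e ▸ hJ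
    · exact e ▸ wt_nonneg hW _
  refine ⟨ψ, fun v => ⟨h0 v, hmin v J (mem_insert _ _)⟩, fun v hv => ?_, fun v w h => ?_,
    fun v => ?_⟩
  · refine le_antisymm ((hmin v _ (mem_insert_of_mem _
      ⟨{v}, ⟨v, hv, KP2.Con.refl rfl⟩, rfl⟩)).trans ?_) (h0 v)
    simp [wt]
  · rcases hψ v with e | ⟨S, ⟨a, ha, hc⟩, e⟩
    · linarith [hmin w J (mem_insert _ _), hW v]
    · have h2 : Con G (insert w S) a w := (hc.mono (subset_insert _ _)).trans
        (Con.of_adj h (mem_insert_of_mem _ hc.right_mem) (mem_insert _ _))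
      rw [← e]
      refine (hmin w _ (mem_insert_of_mem _ ⟨_, ⟨a, ha, h2⟩, rfl⟩)).trans
        (le_trans (wt_mono hW ?_) (tila_wt_le hW S v))
      exact fun u hu => hu.1.resolve_left hu.2
  · rcases hψ v with e | ⟨S, ⟨a, ha, hc⟩, e⟩
    · exact Or.inl e
    · exact Or.inr ⟨S, a, ha, hc, e ▸ tila_wt_le hW S v⟩

theorem tilc_til {m : V → ℝ} {X : Bool → V → ℝ} {H : Bool → ℝ} (T : PreTil G side m X H)
    (hc : HC G side) (hX : ∀ i v, X i v ≤ H i) : Til G side m X H := by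
  have h1 : 0 < H true := by
    have h2 := T.cross false univ (hc.cr_univ false)
    rw [T.H_false] at h2
    refine lt_of_lt_of_le ?_ T.area
    refine lt_of_le_of_ne (Finset.sum_nonneg fun v _ => sq_nonneg _) fun h3 => ?_
    have h4 := (Finset.sum_eq_zero_iff_of_nonneg fun v _ => sq_nonneg (m v)).1 h3.symm
    rw [wt, Finset.sum_eq_zero fun v _ => pow_eq_zero_iff two_ne_zero |>.1
      (h4 v (Finset.mem_univ v))] at h2
    linarith
  have hpos : ∀ i, 0 < H i := fun i => by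
    cases i
    · rw [T.H_false]; exact one_pos
    · exact h1
  have hH : ∀ i, H (!i) * (H i - 0) = H true := fun i => by
    cases i <;> simp [T.H_false]
  have hw : ∀ i, ∀ᵐ t : ℝ, t ∈ Ioo 0 (H i) → H (!i) ≤ wt m (Vt m X i t) := fun i =>
    (ae_ne m X).mono fun t ht h => T.cross _ _ (T.cr_vt hc (fun v => (ht i v).1) h)
  have hle : ∀ i, ∀ v ∈ (Finset.univ : Finset V), m v * ov m X i 0 (H i) v ≤ m v ^ 2 :=
    fun i v _ => by
    rw [sq]
    exact mul_le_mul_of_nonneg_left (ov_le v (T.m_nonneg v)) (T.m_nonneg v)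
  have hs := fun i => Finset.sum_le_sum (hle i)
  have hge := fun i => le_sum_ov (hpos i).le (hw i)
  have hpo : ∀ i v, 0 < m v → X i v + m v ≤ H i := fun i v hv => by
    have h2 := (Finset.sum_eq_sum_iff_of_le (hle i)).1
      (le_antisymm (hs i) (by linarith [hge i, hH i, T.area])) v (Finset.mem_univ v)
    rw [sq, mul_right_inj' hv.ne', ov] at h2
    rcases max_cases 0 (min (H i) (X i v + m v) - max 0 (X i v)) with h3 | h3
    · linarith [h3.1]
    · linarith [h3.1, min_le_left (H i) (X i v + m v), le_max_right 0 (X i v)]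
  refine ⟨T, hpos, le_antisymm T.area (by linarith [hge true, hH true, hs true]),
    fun i v => ?_, fun i => ?_⟩
  · rcases (T.m_nonneg v).eq_or_lt with e | e
    · rw [← e, add_zero]
      exact hX i v
    · exact hpo i v e
  · filter_upwards [ae_ne m X, ae_wt_eq (hpos i).le (hw i)
      (by linarith [hs i, hH i, T.area])] with t h2 h3 h4
    exact T.line_of_eq h2 (T.cr_vt hc (fun v => (h2 i v).1) h4) (h3 h4)

/-- The tiling theorem without connectedness. -/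
theorem exists_til' (hc : HC G side) : ∃ m X H, Til G side m X H := by
  obtain ⟨m, h, h0, h1, h2, h3⟩ := exists_weights hc
  have h4 : ∀ i : Bool, (0 : ℝ) ≤ if i then h else 1 := fun i => by
    cases i
    · exact zero_le_one
    · exact (Finset.sum_nonneg fun v _ => sq_nonneg _).trans h3
  choose X hX0 hX1 hX2 hX3 using fun i => exists_cdist G h0 (side i false) (h4 i)
  have h5 : ∀ i W, Cr G side i W → (if i then h else 1) ≤ wt m W := fun i W hW => by
    cases i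
    · exact h1 W hW
    · exact h2 W hW
  refine ⟨m, X, fun i => if i then h else 1, tilc_til ⟨h0, fun i v => (hX0 i v).1, rfl, h3, h5,
    hX2, hX1, fun i v hv => ?_⟩ hc fun i v => (hX0 i v).2⟩
  rcases hX3 i v with e | ⟨W, a, ha, hW, hle⟩
  · exact e ▸ le_add_of_nonneg_right (h0 v)
  · exact (h5 i W ⟨a, ha, v, hv, hW⟩).trans hle

end

end KCC
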