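import Pool.Agent.Lib.MP_e1e491_gt.CC.Met
import Pool.Agent.Lib.MP_e1e491_gt.CC.TilC
import Pool.Agent.Lib.MP_e1e491_gt.V2

/-! The modulus and the shell gauges. -/

namespace KCC

open Set Metric KP2 MeasureTheory Filter Topology
open scoped Classical Pointwise NNReal

variable {Z : Type} [MetricSpace Z] [CompactSpace Z]

theorem md_le {A d : ℝ} {k : ℕ} {ρ : net Z k → ℝ} (h : Gauge A d (rr k) ρ) :
    Md Z A d k ≤ ∑ v, ρ v ^ 2 := by
  refine csInf_le ⟨0, ?_⟩ ⟨ρ, h, rfl⟩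
  rintro t ⟨ρ', -, rfl⟩
  positivity

theorem exists_gauge {A : ℝ} (hA : 1 ≤ A) (d : ℝ) (k : ℕ) :
    ∃ ρ : net Z k → ℝ, Gauge A d (rr k) ρ ∧ ∑ v, ρ v ^ 2 ≤ Md Z A d k + 1 := by
  have h1 : Gauge A d (rr k) (fun _ : net Z k => (1 : ℝ)) := by
    refine ⟨fun _ => zero_le_one, fun S x y hj _ => ?_⟩
    obtain ⟨c, hc, hx⟩ := (net_isNet Z k).2 x
    refine Finset.single_le_sum (f := fun _ : net Z k => (1 : ℝ)) (fun _ _ => zero_le_one)
      (a := ⟨c, hc⟩) (Finset.mem_filter.2 ⟨Finset.mem_univ _, x, hj.source_mem, ?_⟩)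
    rw [dist_comm]
    exact hx.le.trans (le_mul_of_one_le_left (rr_pos k).le hA)
  obtain ⟨t, ⟨ρ, hρ, rfl⟩, ht⟩ := Real.lt_sInf_add_pos
    (s := {t | ∃ ρ : net Z k → ℝ, Gauge A d (rr k) ρ ∧ t = ∑ v, ρ v ^ 2}) ⟨_, _, h1, rfl⟩ one_pos
  exact ⟨ρ, hρ, ht.le⟩

theorem md_nonneg (A d : ℝ) (k : ℕ) : 0 ≤ Md Z A d k := by
  refine Real.sInf_nonneg ?_
  rintro t ⟨ρ', -, rfl⟩
  positivity

/-- Rescaling maps: the ball of radius `3 R` is blown up by the factor `1 / R`. -/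
def Resc (Z : Type) [MetricSpace Z] (C : ℝ) : Prop :=
  ∀ (x : Z) (R : ℝ), 0 < R → R ≤ 1 → ∃ ψ : Z → Z, ∀ p q, dist x p ≤ 3 * R → dist x q ≤ 3 * R →
    R * dist (ψ p) (ψ q) ≤ C * dist p q ∧ dist p q ≤ C * (R * dist (ψ p) (ψ q))

omit [CompactSpace Z] in
theorem resc_of_hb {G : Type} [Group G] [MulAction G Z] (H : KKC.HB G Z) :
    ∃ C : ℝ, 1 ≤ C ∧ Resc Z C := by
  obtain ⟨L, hL, hv⟩ := H.view_exists
  obtain ⟨C, hC, hf⟩ := H.view_formula L hL
  refine ⟨9 * C, by linarith, fun x R hR hR1 => ?_⟩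
  obtain ⟨g, hg⟩ := hv x R hR hR1
  refine ⟨fun p => g⁻¹ • p, fun p q hp hq => ?_⟩
  obtain ⟨h1, h2⟩ := hf g x R hg p q
  have a1 : R ≤ max (dist p x) R := le_max_right _ _
  have a2 : R ≤ max (dist q x) R := le_max_right _ _
  have b1 : max (dist p x) R ≤ 3 * R := max_le (by rwa [dist_comm]) (by linarith)
  have b2 : max (dist q x) R ≤ 3 * R := max_le (by rwa [dist_comm]) (by linarith)
  constructor
  · refine le_of_mul_le_mul_left ?_ hR
    calc R * (R * dist (g⁻¹ • p) (g⁻¹ • q)) = dist (g⁻¹ • p) (g⁻¹ • q) * R * R := by ring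
      _ ≤ dist (g⁻¹ • p) (g⁻¹ • q) * max (dist p x) R * max (dist q x) R := by gcongr
      _ ≤ C * (R * dist p q) := h1
      _ ≤ 9 * C * (R * dist p q) := by gcongr; linarith
      _ = _ := by ring
  · refine le_of_mul_le_mul_left ?_ hR
    calc R * dist p q ≤ _ := h2
      _ ≤ C * (dist (g⁻¹ • p) (g⁻¹ • q) * (3 * R) * (3 * R)) := by gcongr
      _ = _ := by ring

theorem ss_union {α β : Type} [Fintype α] [Fintype β] (R : α → β → Prop) {ρ : β → ℝ}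
    (hρ : ∀ b, 0 ≤ ρ b) (S : Set α) :
    wt ρ {b | ∃ a ∈ S, R a b} ≤ wt (fun a => wt ρ {b | R a b}) S := by
  have e : wt (fun a => wt ρ {b | R a b}) S = ∑ b, ∑ a, if a ∈ S ∧ R a b then ρ b else 0 := by
    rw [wt_eq_sum, Finset.sum_comm]
    refine Finset.sum_congr rfl fun a _ => ?_
    by_cases ha : a ∈ S <;> simp [ha, wt_eq_sum]
  rw [e, wt_eq_sum]
  refine Finset.sum_le_sum fun b _ => ?_
  have h0 : ∀ a ∈ (Finset.univ : Finset α), 0 ≤ if a ∈ S ∧ R a b then ρ b else 0 := fun a _ => by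
    split_ifs
    exacts [hρ b, le_rfl]
  split_ifs with hb
  · obtain ⟨a, ha, hab⟩ := hb
    exact le_trans (by rw [if_pos ⟨ha, hab⟩]) (Finset.single_le_sum h0 (Finset.mem_univ a))
  · exact Finset.sum_nonneg h0

theorem ss_ne {β : Type} [Fintype β] {ρ : β → ℝ} {S : Set β} (h : wt ρ S ≠ 0) : S.Nonempty := by
  obtain ⟨b, hb, -⟩ := Finset.exists_ne_zero_of_sum_ne_zero h
  exact ⟨b, (Finset.mem_filter.1 hb).2⟩

theorem ss_level {k : ℕ} {R : ℝ} (h1 : rr k ≤ R) (h2 : R ≤ 1) :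
    ∃ j ≤ k, rr k ≤ R * rr j ∧ R * rr j ≤ 2 * rr k := by
  have hk := rr_pos k
  have hR : 0 < R := hk.trans_le h1
  obtain ⟨j, a1, a2⟩ := exists_nat_pow_near_of_lt_one (div_pos hk hR) ((div_le_one hR).2 h1)
    (show (0 : ℝ) < 1 / 2 by norm_num) (by norm_num)
  rw [pow_succ, lt_div_iff₀ hR] at a1
  rw [div_le_iff₀ hR] at a2
  change rr j * (1 / 2) * R < rr k at a1
  change rr k ≤ rr j * R at a2
  refine ⟨j, ?_, by linarith, by linarith⟩
  have a3 : rr k ≤ rr j := a2.trans (mul_le_of_le_one_right (rr_pos j).le h2)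
  exact (pow_le_pow_iff_right_of_lt_one₀ (show (0 : ℝ) < 1 / 2 by norm_num) (by norm_num)).1 a3

theorem ssh_of_resc {lam B C : ℝ} (hL : LL Z lam) (hD : Dbl Z) (hB : 1 ≤ B) (hC : 1 ≤ C)
    (h : Resc Z C) : SSH Z B (1 / C) := by
  have hl := hL.one_le
  obtain ⟨T, hT⟩ : ∃ T, T = lam * (C * B) + B := ⟨_, rfl⟩
  have hT0 : 0 < T := by rw [hT]; positivity
  obtain ⟨N₁, h₁⟩ := hD.card_le T
  obtain ⟨N₂, h₂⟩ := hD.card_le (4 * C * T)
  have hN : (0 : ℝ) ≤ N₁ * N₂ := by positivity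
  refine ⟨2 * B + N₁ * N₂, by linarith, fun k M hM G hG x R hR hR1 => ?_⟩
  have hk := rr_pos k
  have hε : 2 * (B * rr k) ≤ R := by nlinarith
  have hkR : rr k ≤ R := by nlinarith
  have hR0 : 0 < R := hk.trans_le hkR
  obtain ⟨j, hjk, j1, j2⟩ := ss_level hkR hR1
  have hj := rr_pos j
  obtain ⟨ψ, hψ⟩ := h x R hR0 hR1
  obtain ⟨ρ, hρ, hs⟩ := exists_gauge (Z := Z) hB (1 / C) j
  obtain ⟨Q, hQ⟩ : ∃ Q : net Z k → net Z j → Prop, ∀ v ξ, Q v ξ ↔
    (R / 2 ≤ dist x v ∧ dist x v ≤ 3 * R) ∧ dist (ψ v) ξ ≤ T * rr j := ⟨_, fun _ _ => Iff.rfl⟩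
  refine ⟨fun v => wt ρ {ξ | Q v ξ}, fun v => wt_nonneg hρ.1 _, fun v hv => ?_, ?_,
    fun S a b hc ha hb => ?_⟩
  · obtain ⟨ξ, hξ⟩ := ss_ne hv
    exact ((hQ v ξ).1 hξ).1
  · refine (schur Q (N₁ := N₁) (N₂ := N₂) (fun v => ?_) (fun ξ => ?_) ρ).trans ?_
    · refine le_trans (Finset.card_le_card fun ξ hξ => ?_) (h₁ _ (ψ v) _ hj (net_isNet Z j).1)
      exact Finset.mem_filter.2 ⟨Finset.mem_univ _, ((hQ v ξ).1 (Finset.mem_filter.1 hξ).2).2⟩
    · by_cases hne : ∃ w, Q w ξ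
      · obtain ⟨w, hw⟩ := hne
        refine le_trans (Finset.card_le_card fun v hv => ?_) (h₂ _ w _ hk (net_isNet Z k).1)
        have hv' := (hQ v ξ).1 (Finset.mem_filter.1 hv).2
        rw [hQ] at hw
        refine Finset.mem_filter.2 ⟨Finset.mem_univ _, ?_⟩
        have d1 : dist (ψ w) (ψ v) ≤ 2 * T * rr j := by
          linarith [dist_triangle_right (ψ w) (ψ v) ξ, hw.2, hv'.2]
        calc dist (w : Z) v ≤ _ := (hψ w v hw.1.2 hv'.1.2).2
          _ ≤ C * (R * (2 * T * rr j)) := by gcongr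
          _ = 2 * C * T * (R * rr j) := by ring
          _ ≤ 2 * C * T * (2 * rr k) := by gcongr
          _ = _ := by ring
      · rw [Finset.filter_eq_empty_iff.2 fun v _ hv => hne ⟨v, hv⟩]
        exact Nat.zero_le _
    · have s0 : 0 ≤ ∑ v, ρ v ^ 2 := by positivity
      have s1 := hM j hjk
      gcongr <;> linarith
  · obtain ⟨a', b', hc', ha', hb'⟩ := con_shell hc (fun v => dist x v) (ε := B * rr k)
      (R₁ := R) (R₂ := 2 * R) (by positivity) (fun v w hvw => by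
        rw [dist_comm x, dist_comm x]
        exact (abs_dist_sub_le _ _ _).trans (hG v w hvw)) ha (by linarith) hb
    have in3 : ∀ v ∈ S ∩ {v : net Z k | R - B * rr k ≤ dist x v ∧ dist x v ≤ 2 * R + B * rr k},
        R / 2 ≤ dist x v ∧ dist x v ≤ 3 * R := fun v hv =>
      ⟨by linarith [hv.2.1], by linarith [hv.2.2]⟩
    have hJ := hL.joined_of_con hc' (fun v => ψ v) (s := C * B * rr j) (by positivity)
      fun v hv w hw hvw => by
        refine le_of_mul_le_mul_left ?_ hR0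
        calc R * dist (ψ v) (ψ w) ≤ _ := (hψ v w (in3 v hv).2 (in3 w hw).2).1
          _ ≤ C * (B * (R * rr j)) := by
              gcongr
              exact (hG v w hvw).trans (by gcongr)
          _ = _ := by ring
    have hd : 1 / C ≤ dist (ψ a') (ψ b') := by
      rw [div_le_iff₀ (by linarith)]
      refine le_of_mul_le_mul_left ?_ hR0
      have d1 := (hψ a' b' (in3 _ hc'.left_mem).2 (in3 _ hc'.right_mem).2).2
      linarith [dist_triangle x a' b']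
    refine (hρ.2 _ _ _ hJ hd).trans ((wt_mono hρ.1 ?_).trans (ss_union Q hρ.1 S))
    rintro ξ ⟨p, ⟨v, hv, d1⟩, d2⟩
    refine ⟨v, hv.1, (hQ v ξ).2 ⟨in3 v hv, ?_⟩⟩
    have d3 := dist_triangle_left (ψ v) ξ p
    rw [hT]
    linarith

end KCC
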