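import Pool.Agent.Lib.MP_e1e491_gt.CC.FanC
import Pool.Agent.Lib.MP_e1e491_gt.CC.SS

/-! Unbounded modulus gives fans. -/

namespace KCC

open Set Metric KP2 MeasureTheory Filter Topology
open scoped Classical Pointwise NNReal

variable {Z : Type} [MetricSpace Z] [CompactSpace Z]

/-- One of the tilings is tall. -/
theorem md_le_H {ι : Type} [Fintype ι] [Nonempty ι] {F : ι → Frame Z} {B d lam : ℝ} {k : ℕ}
    (T : ∀ i, TS (F i) (net Z k) B (rr k) lam)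
    (h : ∀ (S : Set Z) (x y : Z), JoinedIn S x y → d ≤ dist x y →
      ∃ i, ∃ E ⊆ S, (F i).Cross false E) :
    ∃ i, Md Z B d k ≤ (Fintype.card ι : ℝ) ^ 2 * (T i).H true := by
  obtain ⟨i₀, -, hi₀⟩ := Finset.exists_max_image Finset.univ (fun i => (T i).H true)
    Finset.univ_nonempty
  have hm : ∀ i v, 0 ≤ (T i).m v := fun i => (T i).til.m_nonneg
  have hg : Gauge B d (rr k) (fun v : net Z k => ∑ i, (T i).m v) := by
    refine ⟨fun v => Finset.sum_nonneg fun i _ => hm i v, fun S x y hj hd => ?_⟩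
    obtain ⟨i, E, hE, hc⟩ := h S x y hj hd
    have h1 := (T i).til.cross false {v | ∃ p ∈ S, dist p (v : Z) ≤ B * rr k}
      (((T i).cr_of_cross hc).mono fun v ⟨p, hp, hp'⟩ => ⟨p, hE hp, hp'⟩)
    rw [(T i).til.H_false] at h1
    exact h1.trans (Finset.sum_le_sum fun v _ =>
      Finset.single_le_sum (fun j _ => hm j v) (Finset.mem_univ i))
  refine ⟨i₀, (md_le hg).trans ?_⟩
  calc ∑ v, (∑ i, (T i).m v) ^ 2 ≤ ∑ v, (Fintype.card ι : ℝ) * ∑ i, (T i).m v ^ 2 :=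
        Finset.sum_le_sum fun v _ => sq_sum_le_card_mul_sum_sq
    _ = Fintype.card ι * ∑ i, (T i).H true := by
        rw [← Finset.mul_sum, Finset.sum_comm]
        simp only [(T _).til.area_eq]
    _ ≤ Fintype.card ι * (Fintype.card ι * (T i₀).H true) := by
        gcongr
        simpa using Finset.sum_le_card_nsmul Finset.univ _ _ hi₀
    _ = _ := by ring

theorem exists_record {M : ℕ → ℝ} (h : ¬ ∃ b, ∀ k, M k ≤ b) (b : ℝ) (k₀ : ℕ) :
    ∃ k, k₀ ≤ k ∧ b ≤ M k ∧ ∀ j ≤ k, M j ≤ M k := by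
  obtain ⟨j₀, -, hj₀⟩ := Finset.exists_max_image (Finset.range (k₀ + 1)) M (by simp)
  obtain ⟨k₁, hk₁⟩ : ∃ k₁, max b (M j₀) < M k₁ := by
    by_contra hn
    exact h ⟨_, fun k => not_lt.1 fun hk => hn ⟨k, hk⟩⟩
  obtain ⟨k, hk, hk'⟩ := Finset.exists_max_image (Finset.range (k₁ + 1)) M (by simp)
  have h1 := hk' k₁ (by simp)
  rw [max_lt_iff] at hk₁
  rw [Finset.mem_range] at hk
  refine ⟨k, not_lt.1 fun hlt => ?_, by linarith, fun j hj => hk' j (Finset.mem_range.2 (by omega))⟩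
  have := hj₀ k (Finset.mem_range.2 (by omega))
  linarith

theorem low_small (a : ℝ) {c : ℝ} (hc : 0 < c) : ∀ᶠ k in atTop, a * rr k ≤ c := by
  have h : Tendsto (fun k => a * rr k) atTop (𝓝 (a * 0)) :=
    (tendsto_pow_atTop_nhds_zero_of_lt_one (by norm_num) (by norm_num)).const_mul a
  rw [mul_zero] at h
  exact h.eventually (ge_mem_nhds hc)

theorem exists_fan {B d δ lam : ℝ} (hL : LL Z lam) (hD : Dbl Z) (hB : 1 ≤ B) (hA : Atlas Z d B δ)
    (hS : SSH Z B d) (h : ¬ ∃ b, ∀ k, Md Z B d k ≤ b) : ∃ C : ℝ, 1 ≤ C ∧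
      ∀ (Φ : Set (Z → Z)), Φ.Finite → (∀ f ∈ Φ, BiL f) → ∀ η : ℝ, 0 < η →
        ∃ U, Nonempty (Fan Φ U C δ η) := by
  obtain ⟨ι, _, _, F, hF, hX⟩ := hA
  obtain ⟨Cs, hCs, hS⟩ := hS
  have hn : (1 : ℝ) ≤ (Fintype.card ι : ℝ) ^ 2 :=
    one_le_pow₀ (by exact_mod_cast Fintype.card_pos)
  obtain ⟨C, hC, hfan⟩ := fan_of_ts hD B lam (Cs * ((Fintype.card ι : ℝ) ^ 2 + 1)) (by nlinarith)
  refine ⟨C, hC, fun Φ hΦ hΦ' η hη => ?_⟩
  obtain ⟨h₁, hfan⟩ := hfan Φ hΦ hΦ' η hη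
  choose r₀ hr₀ hG using fun i => (hF i).2.2
  obtain ⟨k₀, hk₀⟩ := eventually_atTop.1 (((low_small (4 * B) hη).and (low_small Cs hη)).and
    (eventually_all.2 fun i => (low_small 1 (hr₀ i)).and
      (low_small (10 * lam ^ 2 * B) (hF i).1.δ_pos)))
  obtain ⟨k, hk, hb, hrec⟩ := exists_record h ((Fintype.card ι : ℝ) ^ 2 * max h₁ 1) k₀
  obtain ⟨⟨h1, h2⟩, h3⟩ := hk₀ k hk
  have hT : ∀ i, Nonempty (TS (F i) (net Z k) B (rr k) lam) := fun i => by
    obtain ⟨A⟩ := hG i (rr k) (rr_pos k) (by linarith [(h3 i).1]) _ (net_isNet Z k)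
    exact exists_ts A (hF i).1 hL (net_isNet Z k).1 (rr_pos k) hB (by linarith [(h3 i).2])
  have T := fun i => (hT i).some
  obtain ⟨i, hi⟩ := md_le_H T hX
  have hH : max h₁ 1 ≤ (T i).H true := le_of_mul_le_mul_left (hb.trans hi) (by linarith)
  rw [max_le_iff] at hH
  refine ⟨(F i).U, ?_⟩
  rw [← (hF i).2.1]
  refine hfan (F i) (net Z k) (rr k) (Cs * rr k) (T i) (by linarith) h2 hH.1 fun x R hR hR' => ?_
  obtain ⟨W, w1, w2, w3, w4⟩ := hS k _ hrec (T i).G (fun v w => (T i).adjG) x R hR hR'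
  refine ⟨W, w1, w2, w3.trans ?_, w4⟩
  rw [mul_assoc]
  exact mul_le_mul_of_nonneg_left (by linarith) (by linarith)

end KCC
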