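import Pool.Agent.Lib.MP_e1e491_gt.CC.Defs
import Pool.Agent.Lib.MP_e1e491_gt.P2.Sphere
import Pool.Agent.Lib.MP_e1e491_gt.CcTop

/-! Topology of the sphere. -/

namespace KCC

open Set Metric KP2 MeasureTheory Filter Topology
open scoped Classical Pointwise NNReal

variable {Z : Type} [MetricSpace Z]

/-- The model plane is homeomorphic to the Euclidean plane. -/
theorem top_plane : Nonempty (Pl ≃ₜ EuclideanSpace ℝ (Fin 2)) :=
  ⟨(ContinuousLinearEquiv.ofFinrankEq (𝕜 := ℝ) (by simp)).toHomeomorph⟩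

/-- An open embedding of the plane onto the complement of a point. -/
theorem top_emb (φ : Z ≃ₜ S2) (y : Z) :
    ∃ g : Pl → Z, IsOpenEmbedding g ∧ range g = {y}ᶜ := by
  obtain ⟨f⟩ := KKC.sph_chart φ y
  obtain ⟨a⟩ := top_plane
  refine ⟨fun v => ((f.symm (a v) : ({y}ᶜ : Set Z)) : Z), ?_, ?_⟩
  · exact (isOpen_compl_singleton.isOpenEmbedding_subtypeVal).comp (a.trans f.symm).isOpenEmbedding
  · ext z
    constructor
    · rintro ⟨v, rfl⟩
      exact (f.symm (a v)).2
    · intro hz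
      exact ⟨a.symm (f ⟨z, hz⟩), by simp⟩

/-- Stereographic projection from the antipode of `φ p`, composed with a small homothety. -/
theorem charts_of_homeo (φ : Z ≃ₜ S2) : Charts Z := by
  intro p ε hε
  have := KKC.sph_nontrivial φ
  obtain ⟨y, hy⟩ := exists_ne p
  obtain ⟨g, hg, hr⟩ := top_emb φ y
  obtain ⟨c, hc⟩ : p ∈ range g := by rw [hr]; exact hy.symm
  obtain ⟨δ, hδ, h⟩ := Metric.continuous_iff.1 hg.continuous c ε hε
  have h2 : δ / 2 ≠ 0 := by positivity
  let a : Pl ≃ₜ Pl := (Homeomorph.smulOfNeZero (δ / 2) h2).trans (Homeomorph.addLeft c)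
  have ha : ∀ v, a v = c + (δ / 2) • v := fun v => rfl
  refine ⟨g ∘ a, hg.comp a.isOpenEmbedding, by simp [ha, hc], ⟨y, ?_⟩, fun v hv => ?_⟩
  · rintro ⟨v, hv⟩
    have : y ∈ range g := ⟨_, hv⟩
    rw [hr] at this
    exact this rfl
  · rw [← hc]
    refine h _ ?_
    rw [ha, dist_self_add_left, norm_smul, Real.norm_eq_abs, abs_of_pos (by positivity)]
    nlinarith

theorem lpc_of_homeo (φ : Z ≃ₜ S2) : LocallyPathConnectedSpace Z := by
  exact KKC.sph_lpc' φ

theorem pc_of_homeo (φ : Z ≃ₜ S2) : IsPathConnected (univ : Set Z) := by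
  exact KKC.sph_univ φ

theorem pc_compl_of_homeo (φ : Z ≃ₜ S2) (y : Z) : IsPathConnected ({y}ᶜ : Set Z) := by
  exact KKC.sph_compl φ y

theorem infinite_of_homeo (φ : Z ≃ₜ S2) : Infinite Z := by
  obtain ⟨y, -⟩ := (KKC.sph_univ φ).nonempty
  obtain ⟨g, hg, -⟩ := top_emb φ y
  exact Infinite.of_injective g hg.injective

end KCC
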