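import Pool.Agent.Lib.MP_e1e491_gt.Defs
import Pool.Agent.Lib.MP_e1e491_gt.P2.Basic

/-! Definitions for the sphere case: frames, blob graphs with four zones, the modulus, shell gauges,
fans, witness systems, local quasisymmetry. -/

namespace KCC

open Set Metric KP2 MeasureTheory Filter Topology

noncomputable section

/-- Linear local connectivity, with paths. -/
structure LL (Z : Type) [MetricSpace Z] (lam : ℝ) : Prop where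
  one_le : 1 ≤ lam
  l1 : ∀ (s : Z) (r : ℝ) (x y : Z), 0 < r → dist x s ≤ r → dist y s ≤ r →
    JoinedIn (closedBall s (lam * r)) x y
  l2 : ∀ (s : Z) (r : ℝ) (x y : Z), 0 < r → lam * r ≤ dist x s → lam * r ≤ dist y s →
    JoinedIn (closedBall s r)ᶜ x y

/-- Doubling. -/
def Dbl (Z : Type) [MetricSpace Z] : Prop :=
  ∀ T : ℝ, ∃ N : ℕ, ∀ (r : ℝ) (ξ : Z) (P : Finset Z), 0 < r → Sepd r P →
    (∀ z ∈ P, dist z ξ ≤ T * r) → P.card ≤ N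

/-- Small charts around every point. -/
def Charts (Z : Type) [MetricSpace Z] : Prop :=
  ∀ (p : Z) (ε : ℝ), 0 < ε → ∃ e : Pl → Z, IsOpenEmbedding e ∧ e 0 = p ∧ (∃ q, q ∉ range e) ∧
    ∀ v, ‖v‖ ≤ 1 → dist (e v) p < ε

/-- A separated net. -/
def IsNet {Z : Type} [MetricSpace Z] (r : ℝ) (P : Finset Z) : Prop :=
  Sepd r P ∧ ∀ x, ∃ c ∈ P, dist c x < r

/-- Bilipschitz maps. -/
def BiL {Z : Type} [MetricSpace Z] (f : Z → Z) : Prop :=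
  ∃ L : ℝ, 1 ≤ L ∧ ∀ x y, dist (f x) (f y) ≤ L * dist x y ∧ dist x y ≤ L * dist (f x) (f y)

/-- The data of a frame: an open square `Ω`, its outer part `Out`, the middle strip `U` and four
zones (`Zn false false` left, `Zn false true` right, `Zn true false` bottom, `Zn true true` top). -/
structure Frame (Z : Type) where
  Ω : Set Z
  Out : Set Z
  U : Set Z
  Zn : Bool → Bool → Set Z
  δ : ℝ

namespace Frame

variable {Z : Type} [MetricSpace Z] (F : Frame Z)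

/-- `x` is far from the zone `(i, b)`. -/
def Far (i b : Bool) (x : Z) : Prop := ∀ y ∈ F.Zn i b, F.δ ≤ dist x y

/-- `E` crosses the frame in the direction `i`. -/
def Cross (i : Bool) (E : Set Z) : Prop :=
  IsPreconnected E ∧ E ⊆ F.Ω ∧ (∀ x ∈ E, ∀ b, F.Far (!i) b x) ∧
    ∀ b, ∃ x ∈ E, x ∈ F.Out ∧ F.Far i (!b) x

/-- The metric properties of a frame. -/
structure OK : Prop where
  δ_pos : 0 < F.δ
  δ_le : F.δ ≤ 1
  U_sub : F.U ⊆ F.Ω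
  U_far : ∀ x ∈ F.U, ∀ b, F.Far false b x
  gap : ∀ i, ∀ x ∈ F.Zn i false, F.Far i true x
  inner : ∀ x ∈ F.Ω, x ∉ F.Out → closedBall x F.δ ⊆ F.Ω
  mid : ∃ K, F.Cross true K ∧ ∀ x ∈ K, closedBall x (2 * F.δ) ⊆ F.U
  exit : ∀ (S : Set Z) (x y : Z), JoinedIn S x y → x ∈ F.Ω → y ∉ F.Ω →
    ∃ E, E ⊆ S ∩ F.Ω ∧ IsPreconnected E ∧ x ∈ E ∧ (E ∩ F.Out).Nonempty
  ext : ∃ q, q ∉ F.Ω

end Frame

/-- The open unit square. -/
def oQ : Set Pl := {z | ∀ i, 0 < z i ∧ z i < 1}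

/-- The planar zones. -/
def znQ (i b : Bool) : Set Pl := {z | z ∈ QQ ∧ if b then 3 / 5 ≤ z i else z i ≤ 2 / 5}

/-- The frame of a chart. -/
def frameOf {Z : Type} (e : Pl → Z) (δ : ℝ) : Frame Z where
  Ω := e '' oQ
  Out := e '' {z | z ∈ oQ ∧ ∃ i, z i ≤ 39 / 100 ∨ 61 / 100 ≤ z i}
  U := e '' {z | z ∈ oQ ∧ 9 / 20 < z false ∧ z false < 11 / 20}
  Zn := fun i b => e '' znQ i b
  δ := δ

/-- The graph on the free vertices. -/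
def free {V : Type} (Γ : SimpleGraph (V ⊕ Bool × Bool)) : SimpleGraph V := Γ.comap Sum.inl

/-- The free neighbours of a zone. -/
def nb {V : Type} (Γ : SimpleGraph (V ⊕ Bool × Bool)) (i b : Bool) : Set V :=
  {v | Γ.Adj (.inl v) (.inr (i, b))}

/-- The coordinates of free vertices and zones. -/
def Yp {V : Type} (X : Bool → V → ℝ) (H : Bool → ℝ) (i : Bool) : V ⊕ Bool × Bool → ℝ
  | .inl v => X i v
  | .inr s => if s = (i, true) then H i else 0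

/-- Chains of sets in which neighbours meet and the colours decrease. -/
def ChD {I V : Type} (X : I → Set V) (col : I → ℕ) : ℕ → I → I → Prop
  | 0, i, j => i = j
  | n + 1, i, j => ∃ k, (X i ∩ X k).Nonempty ∧ col k < col i ∧ ChD X col n k j

/-- The graph of blobs and zones at scale `r`; the blobs are points of `P`. -/
structure BG {Z : Type} [MetricSpace Z] (F : Frame Z) (P : Finset Z) (B r : ℝ) where
  Γ : SimpleGraph (P ⊕ Bool × Bool)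
  β : Z → P ⊕ Bool × Bool
  hc : HC (free Γ) (nb Γ)
  nadj : ∀ i, ¬ Γ.Adj (.inr (i, false)) (.inr (i, true))
  adj : ∀ v w : P, Γ.Adj (.inl v) (.inl w) → dist (v : Z) w ≤ B * r
  adjz : ∀ (v : P) i b, Γ.Adj (.inl v) (.inr (i, b)) → ∃ y ∈ F.Zn i b, dist (v : Z) y ≤ B * r
  inn : ∀ x v, β x = .inl v → x ∈ F.Ω ∧ x ∉ F.Out
  surj : ∀ (v : P) w, Γ.Adj (.inl v) w → ∃ x, β x = .inl v
  shadow : ∀ E, E ⊆ F.Ω → IsPreconnected E → ∃ W, Cn Γ W ∧ (∀ x ∈ E, β x ∈ W) ∧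
    (∀ v : P, .inl v ∈ W → ∃ x ∈ E, dist x v ≤ B * r) ∧
    ∀ i b, .inr (i, b) ∈ W → ∃ x ∈ E, ∃ y ∈ F.Zn i b, dist x y ≤ B * r

/-- The frame has blob graphs at all small scales. -/
def Frame.Good {Z : Type} [MetricSpace Z] (F : Frame Z) (B : ℝ) : Prop :=
  ∃ r₀ > 0, ∀ r, 0 < r → r ≤ r₀ → ∀ P, IsNet r P → Nonempty (BG F P B r)

/-- Finitely many frames such that every long path crosses one of them. -/
def Atlas (Z : Type) [MetricSpace Z] (d B δ : ℝ) : Prop :=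
  ∃ (ι : Type) (_ : Fintype ι) (_ : Nonempty ι) (F : ι → Frame Z),
    (∀ i, (F i).OK ∧ (F i).δ = δ ∧ (F i).Good B) ∧
    ∀ (S : Set Z) (x y : Z), JoinedIn S x y → d ≤ dist x y → ∃ i, ∃ E ⊆ S, (F i).Cross false E

/-- A blob graph with its square tiling and thickened vertices. -/
structure TS {Z : Type} [MetricSpace Z] (F : Frame Z) (P : Finset Z) (B r lam : ℝ)
    extends BG F P B r where
  m : P → ℝ
  X : Bool → P → ℝ
  H : Bool → ℝ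
  D : Z → Set Z
  til : Til (free Γ) (nb Γ) m X H
  D_closed : ∀ x, IsClosed (D x)
  D_conn : ∀ x, IsPreconnected (D x)
  D_sup : ∀ x, closedBall x (B * r) ⊆ D x
  D_sub : ∀ x, D x ⊆ closedBall x (lam * (B * r))
  sepd : Sepd r P
  r_pos : 0 < r
  B_ge : 1 ≤ B
  ok : F.OK
  ll : LL Z lam
  small : 10 * lam ^ 2 * (B * r) ≤ F.δ

namespace TS

variable {Z : Type} [MetricSpace Z] {F : Frame Z} {P : Finset Z} {B r lam : ℝ}
  (T : TS F P B r lam)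

/-- The free graph. -/
abbrev G : SimpleGraph P := free T.Γ

/-- The sides of the free graph. -/
abbrev sd : Bool → Bool → Set P := nb T.Γ

/-- The corner of the square of `x`. -/
def f (x : Z) : Pl := fun i => Yp T.X T.H i (T.β x)

/-- The level of `x`. -/
def u (x : Z) : ℝ := T.f x true / T.H true

/-- The line at height `t` is a geodesic path. -/
def Ln (t : ℝ) : Prop := t ∈ Ioo 0 (T.H true) ∧ Line T.G T.sd T.m T.X T.H true t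

/-- The thickened line at height `t`. -/
def cl (t : ℝ) : Set Z := ⋃ v ∈ Vt T.m T.X true t, T.D v

/-- The energy in `V`. -/
def ν (V : Set Z) : ℝ := wt (fun v => T.m v ^ 2) {v | (v : Z) ∈ V} / T.H true

end TS

/-- `p` is at distance at least `c` from the boundary of the rectangle. -/
def Cen (H : Bool → ℝ) (c : ℝ) (p : Pl) : Prop := ∀ i, c ≤ p i ∧ p i + c ≤ H i

/-- The scales. -/
def rr (k : ℕ) : ℝ := (1 / 2) ^ k

theorem rr_pos (k : ℕ) : 0 < rr k := by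
  unfold rr
  positivity

/-- A net for every scale. -/
def net (Z : Type) [MetricSpace Z] [CompactSpace Z] (k : ℕ) : Finset Z :=
  (exists_net (univ : Set Z) (rr_pos k)).choose

theorem net_isNet (Z : Type) [MetricSpace Z] [CompactSpace Z] (k : ℕ) : IsNet (rr k) (net Z k) :=
  ⟨(exists_net (univ : Set Z) (rr_pos k)).choose_spec.2.1,
    fun x => (exists_net (univ : Set Z) (rr_pos k)).choose_spec.2.2 x (mem_univ x)⟩

/-- Every path of extent `d` has length at least one. -/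
def Gauge {Z : Type} [MetricSpace Z] (A d r : ℝ) {P : Finset Z} (ρ : P → ℝ) : Prop :=
  (∀ v, 0 ≤ ρ v) ∧ ∀ (S : Set Z) (x y : Z), JoinedIn S x y → d ≤ dist x y →
    1 ≤ wt ρ {v | ∃ p ∈ S, dist p v ≤ A * r}

/-- The combinatorial modulus at level `k`. -/
def Md (Z : Type) [MetricSpace Z] [CompactSpace Z] (A d : ℝ) (k : ℕ) : ℝ :=
  sInf {t | ∃ ρ : net Z k → ℝ, Gauge A d (rr k) ρ ∧ t = ∑ v, ρ v ^ 2}

/-- Every shell has a gauge of mass at most `M`. -/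
def Shell {Z : Type} [MetricSpace Z] {P : Finset Z} (G : SimpleGraph P) (M r₀ : ℝ) : Prop :=
  ∀ (x : Z) (R : ℝ), r₀ ≤ R → R ≤ 1 → ∃ W : P → ℝ, (∀ v, 0 ≤ W v) ∧
    (∀ v, W v ≠ 0 → R / 2 ≤ dist x v ∧ dist x v ≤ 3 * R) ∧ ∑ v, W v ^ 2 ≤ M ∧
    ∀ (S : Set P) (a b : P), Con G S a b → dist x a ≤ R → 2 * R ≤ dist x b → 1 ≤ wt W S

/-- Self-similarity: shell gauges come from the moduli of the lower levels. -/
def SSH (Z : Type) [MetricSpace Z] [CompactSpace Z] (B d : ℝ) : Prop :=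
  ∃ C : ℝ, 1 ≤ C ∧ ∀ (k : ℕ) (M : ℝ), (∀ j ≤ k, Md Z B d j ≤ M) → ∀ G : SimpleGraph (net Z k),
    (∀ v w, G.Adj v w → dist (v : Z) w ≤ B * rr k) → Shell G (C * (M + 1)) (C * rr k)

/-- A level function with its lines and its energy. -/
structure Fan {Z : Type} [MetricSpace Z] (Φ : Set (Z → Z)) (U : Set Z) (C δ η : ℝ) where
  u : Z → ℝ
  c : ℝ → Set Z
  good : Set ℝ
  ν : Set Z → ℝ
  vol : volume (Ioo (0 : ℝ) 1 \ good) ≤ ENNReal.ofReal η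
  u_mem : ∀ x, u x ∈ Icc (0 : ℝ) 1
  closed : ∀ t ∈ good, IsClosed (c t)
  conn : ∀ t ∈ good, IsPreconnected (c t)
  leave : ∀ t ∈ good, ∃ x ∈ c t, x ∉ U
  hit : ∀ t ∈ good, ∃ x ∈ c t, closedBall x δ ⊆ U
  lev : ∀ t ∈ good, ∀ x ∈ c t, x ∈ U → |u x - t| ≤ η
  sep : ∀ t ∈ good, ∀ E, E ⊆ U → IsPreconnected E → ∀ x ∈ E, ∀ y ∈ E, u x < t → t < u y →
    (E ∩ c t).Nonempty
  nc : ∀ t ∈ good, ∀ f ∈ Φ, f '' c t ⊆ U → ∀ x ∈ c t, ∀ y ∈ c t, |u (f x) - u (f y)| ≤ η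
  ν_nonneg : ∀ V, 0 ≤ ν V
  ν_add : ∀ V V₁ V₂, Disjoint V₁ V₂ → V₁ ⊆ V → V₂ ⊆ V → ν V₁ + ν V₂ ≤ ν V
  ν_le : ∀ V, ν V ≤ 1
  en : ∀ (x : Z) (R : ℝ), η ≤ R → C * R ≤ 1 → closedBall x (C * R) ⊆ U → ∀ p q, dist p x ≤ R →
    dist q x ≤ R → (u p - u q) ^ 2 ≤ C * ν (ball x (C * R))
  sh : ∀ (z : Z) (R τ lo hi : ℝ) (p q : Z), η ≤ R → C * R ≤ τ → closedBall z (τ + η) ⊆ U →
    dist p z ≤ R → dist q z ≤ R → u p + η ≤ lo → lo + η ≤ hi → hi + η ≤ u q →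
    ∃ (n : ℕ) (x : ℕ → Z), (∀ i ≤ n, τ ≤ dist (x i) z ∧ dist (x i) z ≤ τ + η) ∧
      (∀ i < n, dist (x i) (x (i + 1)) ≤ η) ∧ u (x 0) ≤ lo + η ∧ hi - η ≤ u (x n)

/-- The ball contains two points whose levels differ by `D`. -/
def Osc {Z : Type} [MetricSpace Z] (u : Z → ℝ) (z : Z) (ρ D : ℝ) : Prop :=
  ∃ p q, dist p z ≤ ρ ∧ dist q z ≤ ρ ∧ u p + D ≤ u q

/-- The cell has disjoint subcells with more energy. -/
def Split {Z : Type} [MetricSpace Z] (u : Z → ℝ) (Λ θ κ K : ℝ) (z : Z) (ρ D : ℝ) : Prop :=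
  ∃ (s : Finset ℕ) (z' : ℕ → Z) (ρ' D' : ℕ → ℝ),
    (∀ i ∈ s, Osc u (z' i) (ρ' i) (D' i) ∧ κ * ρ ≤ ρ' i ∧ ρ' i ≤ ρ ∧ θ * D ≤ D' i ∧
      dist (z' i) z + Λ * ρ' i ≤ Λ * ρ) ∧
    (∀ i ∈ s, ∀ j ∈ s, i ≠ j → Λ * ρ' i + Λ * ρ' j ≤ dist (z' i) (z' j)) ∧
    K * D ^ 2 ≤ ∑ i ∈ s, D' i ^ 2

/-- A system of views with witness points. -/
structure WS (Z ι : Type) [MetricSpace Z] where
  A : ℝ
  vw : Z → ℝ → ι
  w : ι → Z
  pts : ι → Set Z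
  Thick : Z → ℝ → Prop
  one_le : 1 ≤ A
  face : ∀ x x' ρ ρ', 0 < ρ → ρ ≤ 1 → dist x x' ≤ ρ → ρ' = ρ ∨ ρ' = ρ / 2 →
    w (vw x' ρ') ∈ pts (vw x ρ)
  near : ∀ x ρ, 0 < ρ → ρ ≤ 1 → ∀ p ∈ pts (vw x ρ), dist p x ≤ A * ρ
  count : ∀ (Λ : ℝ) (s : ℕ), ∃ N : ℕ, ∀ z ρ, 0 < ρ → ρ ≤ 1 → Thick z ρ → ∃ Γ : Finset ι,
    Γ.card ≤ N ∧ ∀ x, dist x z ≤ Λ * ρ → vw x (ρ / 2 ^ s) ∈ Γ

namespace WS

variable {Z ι : Type} [MetricSpace Z] (W : WS Z ι)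

/-- The view sees three levels. -/
def Tri (u : Z → ℝ) (E : ℝ) (γ : ι) : Prop :=
  ∃ p₁ ∈ W.pts γ, ∃ p₂ ∈ W.pts γ, ∃ p₃ ∈ W.pts γ, u p₁ + 3 * E ≤ u p₂ ∧ u p₂ + 3 * E ≤ u p₃

/-- Few views of each depth see three levels. -/
def Few (u : Z → ℝ) (N : ℕ → ℕ) (s₀ : ℕ) (Λ E : ℝ) (z : Z) (ρ : ℝ) : Prop :=
  ∀ s ≤ s₀, ∃ Γ : Finset ι, Γ.card ≤ N s ∧ ∀ x, dist x z ≤ Λ * ρ →
    W.Tri u E (W.vw x (ρ / 2 ^ s)) → W.vw x (ρ / 2 ^ s) ∈ Γ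

/-- The conclusion of the centre lemma. -/
def Centre (C δ : ℝ) : Prop :=
  ∀ Λ : ℝ, 1 ≤ Λ → ∃ (Λ₀ : ℝ) (N : ℕ → ℕ), Λ ≤ Λ₀ ∧ Summable (fun s => (N s : ℝ) / 2 ^ s) ∧
    ∀ s₀ l : ℕ, ∃ ρ₁ > 0, ∀ ρ₀ > 0, ∃ Φ : Set (Z → Z), Φ.Finite ∧ (∀ f ∈ Φ, BiL f) ∧
      ∀ (U : Set Z) (η : ℝ) (T : Fan Φ U C δ η) (z : Z) (ρ E : ℝ), ρ₀ ≤ ρ → ρ ≤ ρ₁ →
        W.Thick z ρ → closedBall z (δ / 2) ⊆ U → 0 < η → 20 * η ≤ E →
        (∀ x, dist x z ≤ Λ₀ * ρ → ¬ Osc T.u x (ρ / 2 ^ l) E) → W.Few T.u N s₀ Λ E z ρ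

end WS

/-- `P` separates the three points pairwise. -/
def Sep3 {Z : Type} [TopologicalSpace Z] (P : Set Z) (j : Fin 3 → Z) : Prop :=
  ∀ E : Set Z, IsPreconnected E → Disjoint E P → ∀ a b, j a ∈ E → j b ∈ E → a = b

/-- Small ratios go to small ratios in a ball. -/
def LocQS {Z : Type} [MetricSpace Z] (f : Z → Pl) (z₀ : Z) (ε₁ : ℝ) : Prop :=
  InjOn f (ball z₀ ε₁) ∧ ∀ δ : ℝ, 0 < δ → ∃ ε : ℝ, 0 < ε ∧ ∀ x ∈ ball z₀ ε₁, ∀ z ∈ ball z₀ ε₁,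
    ∀ y, dist x y ≤ ε * dist x z → dist (f x) (f y) ≤ δ * dist (f x) (f z)

/-- A sequence of maps of Moebius type that converge to `z₀`. -/
def Zoom {Z : Type} [MetricSpace Z] (z₀ : Z) : Prop :=
  ∃ (C : ℝ) (g : ℕ → Z → Z) (y : ℕ → Z) (s : ℕ → ℝ), 1 ≤ C ∧ (∀ n, 0 < s n) ∧
    Tendsto s atTop (𝓝 0) ∧ (∀ n p, dist p (y n) * dist (g n p) z₀ ≤ C * s n) ∧ ∀ n p q,
      dist (g n p) (g n q) * max (dist p (y n)) (s n) * max (dist q (y n)) (s n) ≤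
        C * (s n * dist p q) ∧
      s n * dist p q ≤
        C * (dist (g n p) (g n q) * max (dist p (y n)) (s n) * max (dist q (y n)) (s n))

/-- `F` is weakly quasisymmetric for `dist p q / (dist p y * dist q y)`. -/
def QM {Z : Type} [MetricSpace Z] (F : Z → Pl) (y : Z) : Prop :=
  (∀ T : ℝ, ∃ H : ℝ, ∀ p q w, p ≠ y → q ≠ y → w ≠ y →
    dist p q * dist w y ≤ T * (dist p w * dist q y) → dist (F p) (F q) ≤ H * dist (F p) (F w)) ∧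
  (∀ δ : ℝ, 0 < δ → ∃ ε : ℝ, 0 < ε ∧ ∀ p q w, p ≠ y → q ≠ y → w ≠ y →
    dist p q * dist w y ≤ ε * (dist p w * dist q y) → dist (F p) (F q) ≤ δ * dist (F p) (F w)) ∧
  ∃ p₀ p₁, p₀ ≠ y ∧ p₁ ≠ y ∧ F p₀ ≠ F p₁

end

end KCC
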