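import Pool.Agent.Lib.MP_e1e491_gt.CC.Met

/-! Choice of good levels. -/

namespace KCC

open Set Metric KP2 MeasureTheory Filter Topology
open scoped Classical Pointwise NNReal

variable {Z : Type} [MetricSpace Z] {Φ : Set (Z → Z)} {U : Set Z} {C δ η : ℝ}

/-- Finitely many short intervals do not cover the good levels. -/
theorem Fan.pick (T : Fan Φ U C δ η) (hη : 0 ≤ η) {ι : Type} (s : Finset ι) (a ℓ : ι → ℝ)
    (hℓ : ∀ i ∈ s, 0 ≤ ℓ i) {lo hi : ℝ} (h0 : 0 ≤ lo) (h1 : hi ≤ 1)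
    (h : ∑ i ∈ s, 2 * ℓ i + η < hi - lo) :
    ∃ t ∈ T.good, lo < t ∧ t < hi ∧ ∀ i ∈ s, ℓ i < |t - a i| := by
  by_contra hc
  have hs : Ioo lo hi ⊆ (Ioo (0 : ℝ) 1 \ T.good) ∪ ⋃ i ∈ s, Icc (a i - ℓ i) (a i + ℓ i) := by
    intro t ht
    by_cases hg : t ∈ T.good
    · have : ∃ i ∈ s, |t - a i| ≤ ℓ i := by
        by_contra k
        exact hc ⟨t, hg, ht.1, ht.2, fun i hi => not_le.1 fun e => k ⟨i, hi, e⟩⟩
      obtain ⟨i, hi, e⟩ := this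
      rw [abs_le] at e
      exact .inr (mem_iUnion₂.2 ⟨i, hi, by linarith [e.1], by linarith [e.2]⟩)
    · exact .inl ⟨⟨h0.trans_lt ht.1, ht.2.trans_le h1⟩, hg⟩
  have h2 := (measure_mono (μ := volume) hs).trans ((measure_union_le _ _).trans
    (add_le_add T.vol (measure_biUnion_finset_le _ _)))
  have h3 : ∀ i ∈ s, 0 ≤ 2 * ℓ i := fun i hi => mul_nonneg zero_le_two (hℓ i hi)
  have h4 : ∑ i ∈ s, volume (Icc (a i - ℓ i) (a i + ℓ i)) = ENNReal.ofReal (∑ i ∈ s, 2 * ℓ i) := by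
    rw [ENNReal.ofReal_sum_of_nonneg h3]
    refine Finset.sum_congr rfl fun i _ => ?_
    rw [Real.volume_Icc]
    congr 1
    ring
  rw [h4, Real.volume_Ioo, ← ENNReal.ofReal_add hη (Finset.sum_nonneg h3),
    ENNReal.ofReal_le_ofReal_iff (add_nonneg hη (Finset.sum_nonneg h3))] at h2
  linarith

theorem Fan.pick3 (T : Fan Φ U C δ η) (hη : 0 ≤ η) (a₁ a₂ a₃ : ℝ) {ℓ₁ ℓ₂ lo hi : ℝ}
    (hℓ₁ : 0 ≤ ℓ₁) (hℓ₂ : 0 ≤ ℓ₂) (h0 : 0 ≤ lo) (h1 : hi ≤ 1)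
    (h : 2 * ℓ₁ + 4 * ℓ₂ + η < hi - lo) : ∃ t ∈ T.good, lo < t ∧ t < hi ∧ ℓ₁ < |t - a₁| ∧
      ℓ₂ < |t - a₂| ∧ ℓ₂ < |t - a₃| := by
  obtain ⟨t, k1, k2, k3, k4⟩ := T.pick hη (Finset.univ : Finset (Fin 3)) ![a₁, a₂, a₃]
    ![ℓ₁, ℓ₂, ℓ₂] (fun i _ => by fin_cases i <;> assumption) h0 h1 (by
      simp only [Fin.sum_univ_three, Matrix.cons_val]
      linarith)
  exact ⟨t, k1, k2, k3, k4 0 (Finset.mem_univ _), k4 1 (Finset.mem_univ _),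
    k4 2 (Finset.mem_univ _)⟩

theorem Osc.mono {u : Z → ℝ} {z : Z} {ρ ρ' D D' : ℝ} (h : Osc u z ρ D) (hρ : ρ ≤ ρ')
    (hD : D' ≤ D) : Osc u z ρ' D' := by
  obtain ⟨p, q, h1, h2, h3⟩ := h
  exact ⟨p, q, h1.trans hρ, h2.trans hρ, by linarith⟩

theorem abs_lt_of_not_osc {u : Z → ℝ} {z : Z} {ρ D : ℝ} (h : ¬ Osc u z ρ D) {p q : Z}
    (hp : dist p z ≤ ρ) (hq : dist q z ≤ ρ) : |u p - u q| < D := by
  rw [abs_lt]
  constructor
  · exact not_le.1 fun e => h ⟨p, q, hp, hq, by linarith⟩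
  · exact not_le.1 fun e => h ⟨q, p, hq, hp, by linarith⟩

/-- If all good lines between two levels meet `S`, a ball of a covering of `S` oscillates. -/
theorem Fan.cover_osc (T : Fan Φ U C δ η) (hη : 0 ≤ η) {S : Set Z} (hS : S ⊆ U) {Q : Finset Z}
    {r D lo hi : ℝ} {N : ℕ} (hr : 0 ≤ r) (hD : 0 ≤ D) (hN : Q.card ≤ N)
    (hQ : ∀ x ∈ S, ∃ y ∈ Q, dist x y ≤ r) (h0 : 0 ≤ lo) (h1 : hi ≤ 1)
    (hm : ∀ t ∈ T.good, lo < t → t < hi → (T.c t ∩ S).Nonempty)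
    (h : N * (2 * D + 2 * η) + η < hi - lo) : ∃ y ∈ Q, Osc T.u y r D := by
  by_contra hc
  obtain ⟨t, k1, k2, k3, k4⟩ := T.pick hη Q T.u (fun _ => D + η) (fun _ _ => add_nonneg hD hη)
    h0 h1 (by
      rw [Finset.sum_const, nsmul_eq_mul]
      have : (Q.card : ℝ) ≤ N := by exact_mod_cast hN
      nlinarith)
  obtain ⟨x, x1, x2⟩ := hm t k1 k2 k3
  obtain ⟨y, y1, y2⟩ := hQ x x2
  have e1 := abs_lt.1 (abs_lt_of_not_osc (fun e => hc ⟨y, y1, e⟩) y2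
    ((dist_self y).trans_le hr))
  have e2 := abs_le.1 (T.lev t k1 x x1 (hS x2))
  exact (k4 y y1).not_ge (abs_le.2 ⟨by linarith [e1.1, e2.2], by linarith [e1.2, e2.1]⟩)

theorem Fan.ν_sum (T : Fan Φ U C δ η) (s : Finset ℕ) (A : ℕ → Set Z) {V : Set Z}
    (hA : ∀ i ∈ s, A i ⊆ V) (hd : ∀ i ∈ s, ∀ j ∈ s, i ≠ j → Disjoint (A i) (A j)) :
    ∑ i ∈ s, T.ν (A i) ≤ T.ν V := by
  induction s using Finset.induction_on generalizing V with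
  | empty => exact T.ν_nonneg V
  | insert i s hi ih =>
    rw [Finset.sum_insert hi]
    refine (add_le_add_right (ih (V := ⋃ j ∈ s, A j) (fun j hj => subset_biUnion_of_mem hj)
      fun j hj k hk => hd j (Finset.mem_insert_of_mem hj) k (Finset.mem_insert_of_mem hk)) _).trans
      (T.ν_add _ _ _ ?_ (hA i (Finset.mem_insert_self _ _))
        (iUnion₂_subset fun j hj => hA j (Finset.mem_insert_of_mem hj)))
    exact disjoint_iUnion₂_right.2 fun j hj => hd i (Finset.mem_insert_self _ _) j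
      (Finset.mem_insert_of_mem hj) fun e => hi (e ▸ hj)

theorem Fan.ν_mono (T : Fan Φ U C δ η) {V V' : Set Z} (h : V ⊆ V') : T.ν V ≤ T.ν V' := by
  linarith [T.ν_add V' V ∅ (disjoint_empty _) h (empty_subset _), T.ν_nonneg ∅]

end KCC
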