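import Pool.Agent.Lib.MP_e1e491_gt.CC.Defs

/-! Normalisation and size estimates for the blow-up. -/

namespace KCC

open Set Metric KP2 MeasureTheory Filter Topology
open scoped Classical Pointwise NNReal

variable {Z : Type} [MetricSpace Z] [CompactSpace Z]

theorem chorda_diam (S : Type) [MetricSpace S] [CompactSpace S] :
    ∃ R : ℝ, 0 < R ∧ ∀ x y : S, dist x y ≤ R := by
  obtain ⟨R, hR⟩ := Metric.isBounded_iff.1 (isCompact_univ (X := S)).isBounded
  exact ⟨max 1 R, lt_max_of_lt_left one_pos, fun x y =>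
    (hR (mem_univ x) (mem_univ y)).trans (le_max_right _ _)⟩

theorem chorda_dist (c : ℝ) (hc : 0 ≤ c) (u v o : Pl) :
    dist (c • (u - o)) (c • (v - o)) = c * dist u v := by
  rw [dist_smul₀, dist_sub_right, Real.norm_of_nonneg hc]

theorem chorda_abs {x H d m : ℝ} (h : x ≤ H * d) (hd : 0 ≤ d) (hm : d ≤ m) : x ≤ |H| * m :=
  h.trans ((mul_le_mul_of_nonneg_right (le_abs_self H) hd).trans
    (mul_le_mul_of_nonneg_left hm (abs_nonneg H)))

omit [CompactSpace Z] in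
theorem QM.normalise {F : Z → Pl} {y : Z} (h : QM F y) : ∃ (F' : Z → Pl) (p₀ p₁ : Z), QM F' y ∧
    p₀ ≠ y ∧ p₁ ≠ y ∧ F' p₀ = 0 ∧ ‖F' p₁‖ = 1 := by
  obtain ⟨h1, h2, p₀, p₁, h0, h3, hne⟩ := h
  have hd : 0 < dist (F p₀) (F p₁) := dist_pos.2 hne
  have hc : 0 ≤ (dist (F p₀) (F p₁))⁻¹ := by positivity
  have key : ∀ (H : ℝ) p q w, dist (F p) (F q) ≤ H * dist (F p) (F w) →
      dist ((dist (F p₀) (F p₁))⁻¹ • (F p - F p₀)) ((dist (F p₀) (F p₁))⁻¹ • (F q - F p₀)) ≤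
        H * dist ((dist (F p₀) (F p₁))⁻¹ • (F p - F p₀))
          ((dist (F p₀) (F p₁))⁻¹ • (F w - F p₀)) := fun H p q w e => by
    rw [chorda_dist _ hc, chorda_dist _ hc, mul_left_comm]
    exact mul_le_mul_of_nonneg_left e hc
  have e1 : ‖(dist (F p₀) (F p₁))⁻¹ • (F p₁ - F p₀)‖ = 1 := by
    rw [norm_smul, Real.norm_of_nonneg hc, ← dist_eq_norm, dist_comm (F p₁), inv_mul_cancel₀ hd.ne']
  refine ⟨fun p => (dist (F p₀) (F p₁))⁻¹ • (F p - F p₀), p₀, p₁,
    ⟨fun T => ?_, fun δ hδ => ?_, p₀, p₁, h0, h3, fun e => ?_⟩, h0, h3, by simp, e1⟩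
  · obtain ⟨H, hH⟩ := h1 T
    exact ⟨H, fun p q w hp hq hw e => key H p q w (hH p q w hp hq hw e)⟩
  · obtain ⟨ε, hε, hH⟩ := h2 δ hδ
    exact ⟨ε, hε, fun p q w hp hq hw e => key δ p q w (hH p q w hp hq hw e)⟩
  · simp only [sub_self, smul_zero] at e
    rw [← e, norm_zero] at e1
    exact zero_ne_one e1

variable {F : Z → Pl} {y p₀ p₁ : Z} (h : QM F y) (h0 : p₀ ≠ y) (h1 : p₁ ≠ y) (e0 : F p₀ = 0)
  (e1 : ‖F p₁‖ = 1)
include h h0 h1 e0 e1

omit [CompactSpace Z] h h0 h1 in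
theorem chorda_pos : 0 < dist p₀ p₁ := dist_pos.2 fun e => by
  rw [← e, e0, norm_zero] at e1
  exact zero_ne_one e1

theorem qm_size (T : ℝ) : ∃ H : ℝ, 1 ≤ H ∧ ∀ q w, q ≠ y → w ≠ y → dist q y ≤ T * dist w y →
    max 1 ‖F w‖ ≤ H * max 1 ‖F q‖ := by
  obtain ⟨R, hR, hd⟩ := chorda_diam Z
  have a0 := dist_pos.2 h0
  have b0 := dist_pos.2 h1
  have c0 := chorda_pos e0 e1
  obtain ⟨H₁, hH₁⟩ := h.1 (2 * R * |T| / dist p₀ y)
  obtain ⟨H₂, hH₂⟩ := h.1 (2 * R * dist p₁ y * |T| / (dist p₀ y * dist p₀ p₁))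
  have n1 := abs_nonneg H₁
  have n2 := abs_nonneg H₂
  refine ⟨1 + |H₁| + |H₂|, by linarith, fun q w hq hw hqw => ?_⟩
  have hT : dist q y ≤ |T| * dist w y := chorda_abs hqw dist_nonneg le_rfl
  have m1 : 1 ≤ max 1 ‖F q‖ := le_max_left _ _
  refine max_le (by nlinarith) ?_
  by_cases hc : dist p₀ y / 2 ≤ dist p₀ q
  · have := hH₁ p₀ w q h0 hw hq (
      calc dist p₀ w * dist q y ≤ R * (|T| * dist w y) :=
            mul_le_mul (hd _ _) hT dist_nonneg hR.le
        _ = 2 * R * |T| / dist p₀ y * (dist p₀ y / 2 * dist w y) := by field_simp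
        _ ≤ _ := by gcongr)
    rw [e0, dist_zero_left, dist_zero_left] at this
    have := chorda_abs this (norm_nonneg _) (le_max_right 1 _)
    nlinarith
  · have h3 : dist p₀ y / 2 ≤ |T| * dist w y := by
      have := dist_triangle p₀ q y
      linarith
    have := hH₂ p₀ w p₁ h0 hw h1 (
      calc dist p₀ w * dist p₁ y ≤ R * dist p₁ y := mul_le_mul_of_nonneg_right (hd _ _) b0.le
        _ = 2 * R * dist p₁ y / dist p₀ y * (dist p₀ y / 2) := by field_simp
        _ ≤ 2 * R * dist p₁ y / dist p₀ y * (|T| * dist w y) := by gcongr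
        _ = _ := by field_simp)
    rw [e0, dist_zero_left, dist_zero_left, e1] at this
    have := chorda_abs this zero_le_one m1
    nlinarith

theorem qm_size_small {a : ℝ} (ha : 0 < a) : ∃ ε > 0, ∀ q w, q ≠ y → w ≠ y →
    dist q y ≤ ε * dist w y → max 1 ‖F w‖ ≤ a * max 1 ‖F q‖ := by
  obtain ⟨R, hR, hd⟩ := chorda_diam Z
  have a0 := dist_pos.2 h0
  have b0 := dist_pos.2 h1
  have c0 := chorda_pos e0 e1
  obtain ⟨η, hη, hH⟩ := h.2.1 a ha
  refine ⟨min (dist p₀ y / (2 * R)) (min (η * dist p₀ y / (2 * R))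
    (η * dist p₀ y * dist p₁ y / (2 * R * dist p₀ p₁))), by positivity, fun q w hq hw hqw => ?_⟩
  have k1 : dist q y ≤ dist p₀ y / (2 * R) * R :=
    hqw.trans (mul_le_mul (min_le_left _ _) (hd _ _) dist_nonneg (by positivity))
  have k2 : dist q y ≤ η * dist p₀ y / (2 * R) * dist w y :=
    hqw.trans (mul_le_mul_of_nonneg_right ((min_le_right _ _).trans (min_le_left _ _)) dist_nonneg)
  have k3 : dist q y ≤ η * dist p₀ y * dist p₁ y / (2 * R * dist p₀ p₁) * R :=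
    hqw.trans (mul_le_mul ((min_le_right _ _).trans (min_le_right _ _)) (hd _ _) dist_nonneg
      (by positivity))
  have hc : dist p₀ y / 2 ≤ dist p₀ q := by
    have e : dist p₀ y / (2 * R) * R = dist p₀ y / 2 := by field_simp
    have := dist_triangle p₀ q y
    linarith
  have t1 := hH p₀ w q h0 hw hq (
    calc dist p₀ w * dist q y ≤ R * (η * dist p₀ y / (2 * R) * dist w y) :=
          mul_le_mul (hd _ _) k2 dist_nonneg hR.le
      _ = η * (dist p₀ y / 2 * dist w y) := by field_simp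
      _ ≤ _ := by gcongr)
  have t2 := hH p₀ p₁ q h0 h1 hq (
    calc dist p₀ p₁ * dist q y ≤
          dist p₀ p₁ * (η * dist p₀ y * dist p₁ y / (2 * R * dist p₀ p₁) * R) :=
          mul_le_mul_of_nonneg_left k3 c0.le
      _ = η * (dist p₀ y / 2 * dist p₁ y) := by field_simp
      _ ≤ _ := by gcongr)
  rw [e0, dist_zero_left, dist_zero_left] at t1 t2
  rw [e1] at t2
  exact (max_le t2 t1).trans (mul_le_mul_of_nonneg_left (le_max_right _ _) ha.le)

/-- Points that are relatively far apart have far images. -/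
theorem qm_far (T : ℝ) : ∃ H : ℝ, 1 ≤ H ∧ ∀ p w, p ≠ y → w ≠ y → dist w y ≤ T * dist p w →
    max 1 ‖F p‖ ≤ H * dist (F p) (F w) := by
  obtain ⟨R, hR, hd⟩ := chorda_diam Z
  have a0 := dist_pos.2 h0
  have b0 := dist_pos.2 h1
  have c0 := chorda_pos e0 e1
  obtain ⟨H₁, hH₁⟩ := h.1 (R * |T| / dist p₀ y)
  obtain ⟨H₂, hH₂⟩ := h.1 (R * |T| / dist p₁ y)
  have n1 := abs_nonneg H₁
  have n2 := abs_nonneg H₂
  refine ⟨1 + |H₁| + |H₂|, by linarith, fun p w hp hw hpw => ?_⟩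
  have hT : dist w y ≤ |T| * dist p w := chorda_abs hpw dist_nonneg le_rfl
  have key : ∀ v, 0 < dist v y → dist p v * dist w y ≤ R * |T| / dist v y * (dist p w * dist v y) :=
    fun v hv =>
      calc dist p v * dist w y ≤ R * (|T| * dist p w) := mul_le_mul (hd _ _) hT dist_nonneg hR.le
        _ = _ := by field_simp
  have t1 := chorda_abs (hH₁ p p₀ w hp h0 hw (key _ a0)) dist_nonneg le_rfl
  have t2 := chorda_abs (hH₂ p p₁ w hp h1 hw (key _ b0)) dist_nonneg le_rfl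
  rw [e0, dist_zero_right] at t1
  have t3 := dist_triangle (0 : Pl) (F p) (F p₁)
  rw [dist_zero_left, dist_zero_left, e1] at t3
  have d0 : 0 ≤ dist (F p) (F w) := dist_nonneg
  exact max_le (by nlinarith) (by nlinarith)

/-- Points that are relatively close have close images. -/
theorem qm_close {a : ℝ} (ha : 0 < a) : ∃ ε > 0, ∀ p q, p ≠ y → q ≠ y →
    dist p q ≤ ε * dist q y → dist (F p) (F q) ≤ a * max 1 ‖F p‖ := by
  obtain ⟨R, hR, hd⟩ := chorda_diam Z
  have a0 := dist_pos.2 h0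
  have b0 := dist_pos.2 h1
  have c0 := chorda_pos e0 e1
  obtain ⟨η, hη, hH⟩ := h.2.1 (a / 2) (by positivity)
  refine ⟨η * dist p₀ p₁ / (2 * R), by positivity, fun p q hp hq hpq => ?_⟩
  have key : ∀ v, v ≠ y → ‖F v‖ ≤ 1 → dist p₀ p₁ / 2 ≤ dist p v →
      dist (F p) (F q) ≤ a * max 1 ‖F p‖ := fun v hv hn hc => by
    have t1 := hH p q v hp hq hv (
      calc dist p q * dist v y ≤ η * dist p₀ p₁ / (2 * R) * dist q y * R :=
            mul_le_mul hpq (hd _ _) dist_nonneg (by positivity)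
        _ = η * (dist p₀ p₁ / 2 * dist q y) := by field_simp
        _ ≤ _ := by gcongr)
    have t2 := dist_le_norm_add_norm (F p) (F v)
    have m1 : 1 ≤ max 1 ‖F p‖ := le_max_left _ _
    have m2 : ‖F p‖ ≤ max 1 ‖F p‖ := le_max_right _ _
    nlinarith
  by_cases hc : dist p₀ p₁ / 2 ≤ dist p p₀
  · exact key p₀ h0 (by rw [e0, norm_zero]; exact zero_le_one) hc
  · have := dist_triangle_left p₀ p₁ p
    exact key p₁ h1 e1.le (by linarith)

end KCC
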