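import Pool.Agent.Lib.MP_e1e491_gt.CC.Defs
import Pool.Agent.Lib.MP_e1e491_gt.CcTop

/-! Two disjoint continua do not separate the same three points. -/

namespace KCC

open Set Metric KP2 MeasureTheory Filter Topology
open scoped Classical Pointwise NNReal

theorem not_sep3 {Z : Type} [TopologicalSpace Z] [PreconnectedSpace Z] [LocallyConnectedSpace Z]
    {P P' : Set Z} (hP : IsClosed P) (hc : IsPreconnected P) (hc' : IsPreconnected P')
    (hd : Disjoint P P') {j : Fin 3 → Z} (h : Sep3 P j) (h' : Sep3 P' j) : False := by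
  have ne : ∀ {Q : Set Z}, Sep3 Q j → Q.Nonempty := fun {Q} hQ => by
    by_contra hn
    rw [not_nonempty_iff_eq_empty.1 hn] at hQ
    exact absurd (hQ univ isPreconnected_univ (disjoint_empty _) 0 1 trivial trivial) (by decide)
  have sp : ∀ {Q : Set Z}, Sep3 Q j → ∀ a b, a ≠ b → KKC.Seps Q (j a) (j b) :=
    fun hQ a b hab K h1 h2 ha hb => hab (hQ K h1 h2 a b ha hb)
  exact KKC.lemmaT hP ⟨ne h, hc⟩ ⟨ne h', hc'⟩ hd (sp h 0 1 (by decide)) (sp h 0 2 (by decide))
    (sp h 1 2 (by decide)) (sp h' 0 1 (by decide)) (sp h' 0 2 (by decide)) (sp h' 1 2 (by decide))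

end KCC
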