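import Pool.Agent.Lib.MP_e1e491_gt.CC.Pick
import Pool.Agent.Lib.MP_e1e491_gt.CC.Sep

/-! The topological part of the centre lemma. -/

namespace KCC

open Set Metric KP2 MeasureTheory Filter Topology
open scoped Classical Pointwise NNReal

variable {G Z : Type} [Group G] [MetricSpace Z] [MulAction G Z] {Φ : Set (Z → Z)} {U : Set Z}
  {C δ η : ℝ}

/-- Two lines and a set that contains the complement of `U` separate three levels. -/
theorem Fan.sep3 (T : Fan Φ U C δ η) (g : G) (hg : Continuous fun x : Z => g • x) {A : Set Z}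
    (hA : ∀ x, g • x ∉ U → x ∈ A) {j : Fin 3 → Z} {a b : ℝ} (ha : a ∈ T.good) (hb : b ∈ T.good)
    (h0 : T.u (g • j 0) < a) (h1 : a < T.u (g • j 1)) (h2 : T.u (g • j 1) < b)
    (h3 : b < T.u (g • j 2)) : Sep3 ({x | g • x ∈ T.c a ∪ T.c b} ∪ A) j := by
  intro E hE hd
  have hU : (fun x : Z => g • x) '' E ⊆ U := by
    rintro _ ⟨x, hx, rfl⟩
    by_contra h
    exact Set.disjoint_left.1 hd hx (Or.inr (hA x h))
  have key : ∀ t ∈ T.good, t = a ∨ t = b → ∀ x ∈ E, ∀ y ∈ E, T.u (g • x) < t →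
      t < T.u (g • y) → False := by
    intro t ht hab x hx y hy h h'
    obtain ⟨_, ⟨z, hz, rfl⟩, hz'⟩ := T.sep t ht _ hU (hE.image _ hg.continuousOn) _
      ⟨x, hx, rfl⟩ _ ⟨y, hy, rfl⟩ h h'
    refine Set.disjoint_left.1 hd hz (Or.inl ?_)
    rcases hab with rfl | rfl
    · exact Or.inl hz'
    · exact Or.inr hz'
  have k01 : j 0 ∈ E → j 1 ∈ E → False := fun p q => key a ha (Or.inl rfl) _ p _ q h0 h1
  have k12 : j 1 ∈ E → j 2 ∈ E → False := fun p q => key b hb (Or.inr rfl) _ p _ q h2 h3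
  have k02 : j 0 ∈ E → j 2 ∈ E → False := fun p q =>
    key b hb (Or.inr rfl) _ p _ q (by linarith) h3
  intro i k hi hk
  fin_cases i <;> fin_cases k
  · rfl
  · exact (k01 hi hk).elim
  · exact (k02 hi hk).elim
  · exact (k01 hk hi).elim
  · rfl
  · exact (k12 hi hk).elim
  · exact (k02 hk hi).elim
  · exact (k12 hk hi).elim
  · rfl

theorem Fan.conn3 (T : Fan Φ U C δ η) (g : G) (hg : Continuous fun x : Z => g⁻¹ • x) {A : Set Z}
    (hA : ∀ x, g • x ∉ U → x ∈ A) (hc : IsPreconnected A) {a b : ℝ} (ha : a ∈ T.good)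
    (hb : b ∈ T.good) : IsPreconnected ({x | g • x ∈ T.c a ∪ T.c b} ∪ A) := by
  have key : ∀ t ∈ T.good, IsPreconnected ({x | g • x ∈ T.c t} ∪ A) := by
    intro t ht
    have e : {x | g • x ∈ T.c t} = (fun x : Z => g⁻¹ • x) '' T.c t := by
      ext x
      constructor
      · intro hx
        exact ⟨g • x, hx, inv_smul_smul g x⟩
      · rintro ⟨y, hy, rfl⟩
        show g • g⁻¹ • y ∈ T.c t
        rwa [smul_inv_smul]
    obtain ⟨y, hy, hyU⟩ := T.leave t ht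
    refine IsPreconnected.union (g⁻¹ • y) ?_ (hA _ ?_) ?_ hc
    · show g • g⁻¹ • y ∈ T.c t
      rwa [smul_inv_smul]
    · rwa [smul_inv_smul]
    · rw [e]
      exact (T.conn t ht).image _ hg.continuousOn
  obtain ⟨y, -, hyU⟩ := T.leave a ha
  have hy : g⁻¹ • y ∈ A := hA _ (by rwa [smul_inv_smul])
  have h := IsPreconnected.union (g⁻¹ • y) (Or.inr hy) (Or.inr hy) (key a ha) (key b hb)
  convert h using 1
  ext x
  simp only [mem_union, mem_ofPred_eq]
  tauto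

theorem Fan.core [PreconnectedSpace Z] [LocallyConnectedSpace Z] (T : Fan Φ U C δ η)
    (hc : ∀ g : G, Continuous fun x : Z => g • x) {g g' : G} {A A' : Set Z} (hA : IsClosed A)
    (cA : IsPreconnected A) (cA' : IsPreconnected A') (hd : Disjoint A A')
    (uA : ∀ x, g • x ∉ U → x ∈ A) (uA' : ∀ x, g' • x ∉ U → x ∈ A') {E t t' : ℝ} (hη : 0 < η)
    (hE : 20 * η ≤ E) (oA : ∀ y ∈ A', |T.u (g • y) - t| ≤ E) (oA' : ∀ y ∈ A, |T.u (g' • y) - t'| ≤ E)
    (hΦ : (fun x : Z => (g * g'⁻¹) • x) ∈ Φ) {j : Fin 3 → Z}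
    (h0 : T.u (g • j 0) + 3 * E ≤ T.u (g • j 1)) (h1 : T.u (g • j 1) + 3 * E ≤ T.u (g • j 2))
    (h0' : T.u (g' • j 0) + 3 * E ≤ T.u (g' • j 1)) (h1' : T.u (g' • j 1) + 3 * E ≤ T.u (g' • j 2)) :
    False := by
  have u0 : ∀ x, 0 ≤ T.u x := fun x => (T.u_mem x).1
  have u1 : ∀ x, T.u x ≤ 1 := fun x => (T.u_mem x).2
  have hE' : 0 ≤ E + η := by linarith
  have hη2 : 0 ≤ 2 * η := by linarith
  obtain ⟨a', ga', la', ra', da', -⟩ := T.pick3 hη.le t' 0 0 hE' hη2 (u0 (g' • j 0))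
    (u1 (g' • j 1)) (by linarith)
  obtain ⟨b', gb', lb', rb', db', -⟩ := T.pick3 hη.le t' 0 0 hE' hη2 (u0 (g' • j 1))
    (u1 (g' • j 2)) (by linarith)
  -- a line far from the level of the other set misses that set
  have m' : ∀ s ∈ T.good, E + η < |s - t'| → ∀ x, g' • x ∈ T.c s → x ∉ A := by
    intro s hs hd' x hx hxA
    have hU : g' • x ∈ U := by
      by_contra h
      exact Set.disjoint_left.1 hd hxA (uA' x h)
    have e1 := abs_le.1 (T.lev s hs _ hx hU)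
    have e2 := abs_le.1 (oA' x hxA)
    exact absurd hd' (not_lt.2 (abs_le.2 ⟨by linarith, by linarith⟩))
  have m : ∀ s ∈ T.good, E + η < |s - t| → ∀ x, g • x ∈ T.c s → x ∉ A' := by
    intro s hs hd' x hx hxA
    have hU : g • x ∈ U := by
      by_contra h
      exact Set.disjoint_left.1 hd (uA x h) hxA
    have e1 := abs_le.1 (T.lev s hs _ hx hU)
    have e2 := abs_le.1 (oA x hxA)
    exact absurd hd' (not_lt.2 (abs_le.2 ⟨by linarith, by linarith⟩))
  -- such a line has a single level in the other view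
  have one : ∀ s ∈ T.good, E + η < |s - t'| → ∃ r : ℝ, ∀ x, g' • x ∈ T.c s →
      g • x ∈ U ∧ |T.u (g • x) - r| ≤ η := by
    intro s hs hd'
    have hU : ∀ x, g' • x ∈ T.c s → g • x ∈ U := by
      intro x hx
      by_contra h
      exact m' s hs hd' x hx (uA x h)
    have hsub : (fun x : Z => (g * g'⁻¹) • x) '' T.c s ⊆ U := by
      rintro _ ⟨y, hy, rfl⟩
      show (g * g'⁻¹) • y ∈ U
      rw [mul_smul]
      exact hU _ (by rwa [smul_inv_smul])
    obtain ⟨y, hy, -⟩ := T.leave s hs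
    refine ⟨T.u ((g * g'⁻¹) • y), fun x hx => ⟨hU x hx, ?_⟩⟩
    have h := T.nc s hs _ hΦ hsub _ hx _ hy
    simp only [mul_smul, inv_smul_smul] at h ⊢
    exact h
  obtain ⟨r₁, hr₁⟩ := one a' ga' da'
  obtain ⟨r₂, hr₂⟩ := one b' gb' db'
  obtain ⟨a, ga, la, ra, da, da₁, da₂⟩ := T.pick3 hη.le t r₁ r₂ hE' hη2 (u0 (g • j 0))
    (u1 (g • j 1)) (by linarith)
  obtain ⟨b, gb, lb, rb, db, db₁, db₂⟩ := T.pick3 hη.le t r₁ r₂ hE' hη2 (u0 (g • j 1))
    (u1 (g • j 2)) (by linarith)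
  have far : ∀ s ∈ T.good, ∀ r : ℝ, 2 * η < |s - r| → ∀ x, g • x ∈ T.c s →
      ¬ (g • x ∈ U ∧ |T.u (g • x) - r| ≤ η) := by
    rintro s hs r hr x hx ⟨hU, h⟩
    have e1 := abs_le.1 (T.lev s hs _ hx hU)
    have e2 := abs_le.1 h
    exact absurd hr (not_lt.2 (abs_le.2 ⟨by linarith, by linarith⟩))
  refine not_sep3 (P := {x | g • x ∈ T.c a ∪ T.c b} ∪ A)
    (P' := {x | g' • x ∈ T.c a' ∪ T.c b'} ∪ A') ?_ (T.conn3 g (hc _) uA cA ga gb)
    (T.conn3 g' (hc _) uA' cA' ga' gb') ?_ (T.sep3 g (hc _) uA ga gb la ra lb rb)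
    (T.sep3 g' (hc _) uA' ga' gb' la' ra' lb' rb')
  · exact (((T.closed a ga).union (T.closed b gb)).preimage (hc g)).union hA
  · rw [Set.disjoint_left]
    rintro x ((hx | hx) | hx) ((hx' | hx') | hx')
    · exact far a ga r₁ da₁ x hx (hr₁ x hx')
    · exact far a ga r₂ da₂ x hx (hr₂ x hx')
    · exact m a ga da x hx hx'
    · exact far b gb r₁ db₁ x hx (hr₁ x hx')
    · exact far b gb r₂ db₂ x hx (hr₂ x hx')
    · exact m b gb db x hx hx'
    · exact m' a' ga' da' x hx' hx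
    · exact m' b' gb' db' x hx' hx
    · exact Set.disjoint_left.1 hd hx hx'

end KCC
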