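import Pool.Agent.Lib.MP_e1e491_gt.CC.Equi
import Pool.Agent.Lib.MP_e1e491_gt.P2.Loew

/-! The discrete distortion estimate. -/

namespace KCC

open Set Metric KP2 MeasureTheory Filter Topology
open scoped Classical Pointwise NNReal

variable {Z : Type} [MetricSpace Z] [CompactSpace Z]

/-- A connected set of blobs from `z` to a side that stays away from `x`. -/
theorem ts_long {δ : ℝ} (hδ : 0 < δ) (lam : ℝ) : ∃ c₀ > 0, ∀ (F : Frame Z) (P : Finset Z)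
    (B r c : ℝ) (T : TS F P B r lam), F.δ = δ → ∀ (x z : Z) (a b : P), x ≠ z → T.β x = .inl a →
      T.β z = .inl b → Cen T.H c (T.f z) → ∃ S, Cn T.G S ∧ b ∈ S ∧ Ext T.m T.X S b c ∧
        ∀ s ∈ S, c₀ * dist x z - B * r ≤ dist x s := by
  obtain ⟨R, hR1, hR⟩ := exists_diam Z
  have hm : (0 : ℝ) < max lam 1 := lt_max_of_lt_right one_pos
  refine ⟨δ / (R * max lam 1), by positivity, fun F P B r c T hF x z a b hxz ha hb hc => ?_⟩
  have hl := T.ll.one_le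
  rw [max_eq_left hl]
  have hl0 : 0 < lam := by linarith
  have hd : 0 < dist x z := dist_pos.2 hxz
  obtain ⟨q, hq⟩ := T.ok.ext
  have hδ1 : δ ≤ 1 := hF ▸ T.ok.δ_le
  have hxq : δ < dist q x := by
    by_contra h
    exact hq (T.ok.inner x (T.inn x a ha).1 (T.inn x a ha).2 (by
      rw [mem_closedBall, hF]; exact not_lt.1 h))
  obtain ⟨ρ, hρ⟩ : ∃ ρ, ρ = min (dist x z) δ / lam := ⟨_, rfl⟩
  have hρ0 : 0 < ρ := by rw [hρ]; positivity
  have hρ1 : lam * ρ = min (dist x z) δ := by rw [hρ]; field_simp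
  obtain ⟨E, e1, e2, e3, w, e4, e5⟩ := T.ok.exit _ z q
    (T.ll.l2 x ρ z q hρ0 (by rw [hρ1, dist_comm z]; exact min_le_left _ _)
      (by rw [hρ1]; exact (min_le_right _ _).trans hxq.le)) (T.inn z b hb).1 hq
  obtain ⟨W, w1, w2, w3, -⟩ := T.shadow E (fun y hy => (e1 hy).2) e2
  have hbW : Sum.inl b ∈ W := hb ▸ w2 z e3
  rcases con_free (w1 _ hbW _ (w2 w e4)) with ⟨b', h1, -⟩ | ⟨u, i, s, -, h2, h3⟩
  · exact absurd e5 (T.inn w b' h1).2
  refine ⟨{v | KP2.Con T.G {v | Sum.inl v ∈ W} b v}, cn_reach b,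
    KP2.Con.refl (W := {v | Sum.inl v ∈ W}) hbW, ⟨u, h3, i, ?_⟩,
    fun s hs => ?_⟩
  · have h4 := hc i
    simp only [TS.f, hb, Yp] at h4
    cases s
    · exact Or.inr (by rw [T.til.zero i u h2]; linarith [h4.1])
    · exact Or.inl (h4.2.trans (T.til.one i u h2))
  · obtain ⟨y, hy, h4⟩ := w3 s (KP2.Con.right_mem (W := {v | Sum.inl v ∈ W}) hs)
    have h5 : ρ < dist y x := by simpa using (e1 hy).1
    have h6 : δ / (R * lam) * dist x z ≤ ρ := by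
      rw [hρ, le_div_iff₀ hl0, show δ / (R * lam) * dist x z * lam = δ * dist x z / R by
        field_simp, div_le_iff₀ (by linarith), min_mul_of_nonneg _ _ (by linarith : 0 ≤ R)]
      exact le_min (by nlinarith) (mul_le_mul_of_nonneg_left (hR x z) hδ.le)
    have h7 := dist_triangle y s x
    rw [dist_comm (s : Z) x] at h7
    linarith

theorem disc_J (Q A : ℝ) (hA : 0 ≤ A) : ∃ J : ℕ, Q * √(A * J) < J := by
  obtain ⟨J, hJ⟩ := exists_nat_gt (Q ^ 2 * A)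
  have h0 : (0 : ℝ) < J := lt_of_le_of_lt (by positivity) hJ
  refine ⟨J, lt_of_pow_lt_pow_left₀ 2 h0.le ?_⟩
  rw [mul_pow, Real.sq_sqrt (by positivity)]
  nlinarith

theorem ts_disc (hD : Dbl Z) {δ : ℝ} (hδ : 0 < δ) (M B lam : ℝ) {c a : ℝ} (hc : 0 < c)
    (ha : 0 < a) : ∃ ε > 0, ∀ x y z : Z, x ≠ z → dist x y ≤ ε * dist x z → ∃ r₁ > 0,
      ∀ (F : Frame Z) (P : Finset Z) (r r₀ : ℝ) (T : TS F P B r lam), F.δ = δ → Shell T.G M r₀ →
        r₀ ≤ r₁ → B * r ≤ r₁ → Cen T.H c (T.f x) → Cen T.H c (T.f z) →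
        dist (T.f x) (T.f y) ≤ a * dist (T.f x) (T.f z) := by
  obtain ⟨N, hN, hψ⟩ := shell_psi hD B
  obtain ⟨K, hK, hH⟩ := ts_height (Z := Z) hδ M
  obtain ⟨c₀, hc₀, hlong⟩ := ts_long (Z := Z) hδ lam
  obtain ⟨ε₁, hε₁, hnear⟩ := ts_near (Z := Z) hδ M lam hc one_pos
  obtain ⟨D, hD1, hD2⟩ := exists_diam Z
  obtain ⟨J, hJ⟩ := disc_J (6 * (1 + 1 / a + K / c)) (N * |M|) (by positivity)
  have hD0 : 0 < D := by linarith
  obtain ⟨L, hL⟩ : ∃ L : ℝ, L = 8 ^ J * (|lam| + 1) := ⟨_, rfl⟩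
  have hL0 : 0 < L := by rw [hL]; positivity
  obtain ⟨ε, hε⟩ : ∃ ε, ε = min (ε₁ / D) (min (c₀ / 2) (1 / D) / L) := ⟨_, rfl⟩
  have hε0 : 0 < ε := by rw [hε]; positivity
  have hε1 : ε * D ≤ ε₁ := by
    rw [← le_div_iff₀ hD0, hε]; exact min_le_left _ _
  have hε2 : ε * L ≤ min (c₀ / 2) (1 / D) := by
    rw [← le_div_iff₀ hL0, hε]; exact min_le_right _ _
  refine ⟨ε, hε0, fun x y z hxz hxy => ?_⟩
  have hd : 0 < dist x z := dist_pos.2 hxz
  refine ⟨min (min ε₁ (δ / 6)) (min (ε * dist x z) (c₀ / 2 * dist x z)), by positivity,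
    fun F P r r₀ T hF hS h1 h2 hx hz => ?_⟩
  simp only [le_min_iff] at h1 h2 hε2
  obtain ⟨R, hR⟩ : ∃ R, R = (|lam| + 1) * (ε * dist x z) := ⟨_, rfl⟩
  have hR0 : 0 < R := by rw [hR]; positivity
  have hR1 : ε * dist x z ≤ R := by
    rw [hR]; exact le_mul_of_one_le_left (by positivity) (by linarith [abs_nonneg lam])
  have hR2 : 8 ^ J * R = ε * L * dist x z := by rw [hR, hL]; ring
  have hR3 : 8 ^ J * R ≤ c₀ / 2 * dist x z := hR2 ▸ mul_le_mul_of_nonneg_right hε2.1 hd.le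
  have hR4 : 8 ^ J * R ≤ 1 := by
    rw [hR2]
    refine (mul_le_mul hε2.2 (hD2 x z) hd.le (by positivity)).trans (le_of_eq ?_)
    field_simp
  obtain ⟨ψ, W, hW, hjump, hsum, hzero, hbig⟩ := hψ P T.G |M| r₀ r R x J T.r_pos T.sepd
    (fun v w h => T.adjG h) (hS.mono (le_abs_self M) le_rfl) hR0 (h1.2.1.trans hR1) hR4
  obtain ⟨v, hv⟩ := T.free_of_cen hc hx
  obtain ⟨b, hb⟩ := T.free_of_cen hc hz
  obtain ⟨-, w, S₁, hw, c1, v1, w1, n1⟩ := hnear F P B r r₀ T hF hS h1.1.1 h2.1.1 x y v hv hx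
    (hxy.trans ((mul_le_mul_of_nonneg_left (hD2 x z) hε0.le).trans hε1))
  obtain ⟨S₂, c2, b2, e2, n2⟩ := hlong F P B r c T hF x z v b hxz hv hb hz
  obtain ⟨ρ, hρ⟩ : ∃ ρ, ρ = dist (T.f x) (T.f z) := ⟨_, rfl⟩
  have hρ0 : 0 ≤ ρ := hρ ▸ dist_nonneg
  have hρK : ρ ≤ K := by
    rw [hρ, dist_pi_le_iff (by linarith)]
    intro i
    have h3 := T.f_mem x i
    have h4 := T.f_mem z i
    have h5 := (hH F P B r lam r₀ T hF hS h1.1.2 i).1
    rw [Real.dist_eq, abs_le]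
    constructor <;> linarith [h3.1, h3.2, h4.1, h4.2]
  rw [← hρ, dist_pi_le_iff (by positivity)]
  intro i
  by_contra hcon
  have fx : ∀ j, T.f x j = T.X j v := fun j => by simp only [TS.f, hv, Yp]
  have fy : ∀ j, T.f y j = T.X j w := fun j => by simp only [TS.f, hw, Yp]
  have fz : ∀ j, T.f z j = T.X j b := fun j => by simp only [TS.f, hb, Yp]
  rw [not_le, fx, fy, Real.dist_eq] at hcon
  obtain ⟨σ, hσ⟩ : ∃ σ, σ = |T.X i v - T.X i w| := ⟨_, rfl⟩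
  rw [← hσ] at hcon
  have hσ0 : 0 < σ := lt_of_le_of_lt (by positivity) hcon
  obtain ⟨ℓ, hℓ⟩ : ∃ ℓ, ℓ = min σ c := ⟨_, rfl⟩
  have hℓ0 : 0 < ℓ := by rw [hℓ]; positivity
  have hℓ1 : ℓ ≤ σ := hℓ ▸ min_le_left _ _
  have hℓ2 : ℓ ≤ c := hℓ ▸ min_le_right _ _
  have hrat : (ρ + ℓ) / ℓ ≤ 1 + 1 / a + K / c := by
    have h3 : 0 < 1 / a := by positivity
    have h4 : 0 < K / c := by positivity
    rw [add_div, div_self hℓ0.ne']
    rcases min_choice σ c with e | e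
    · have h5 : ρ / ℓ ≤ 1 / a := by
        rw [hℓ, e, div_le_div_iff₀ hσ0 ha]
        linarith
      linarith
    · have h5 : ρ / ℓ ≤ K / c := by
        rw [hℓ, e]
        gcongr
      linarith
  obtain ⟨a', ha', b', hb', hab⟩ := T.til.loewner hW hjump c1 c2 v1 b2 hℓ0
    (fun j => by linarith [(hx j).1, (hx j).2])
    ⟨w, w1, i, by
      have h3 := T.til.m_nonneg w
      rw [hσ, le_abs] at hℓ1
      rcases hℓ1 with h4 | h4
      · exact Or.inr (by linarith)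
      · exact Or.inl (by linarith)⟩
    (by
      obtain ⟨u, hu, j, h3⟩ := e2
      exact ⟨u, hu, j, h3.imp (fun h => by linarith) fun h => by linarith⟩)
    (ρ := ρ + ℓ) (fun j => by
      have h3 := dist_le_pi_dist (T.f x) (T.f z) j
      rw [Real.dist_eq, ← hρ, fx, fz] at h3
      linarith)
  have ha0 : ψ a' = 0 := by
    refine hzero a' ((n1 a' ha').trans ?_)
    have h3 : lam * dist x y ≤ |lam| * (ε * dist x z) :=
      mul_le_mul (le_abs_self _) hxy dist_nonneg (abs_nonneg _)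
    rw [hR]
    linarith [h2.2.1]
  have hb0 : (J : ℝ) ≤ ψ b' := hbig b' (by linarith [n2 b' hb', h2.2.2])
  rw [ha0, zero_sub, abs_neg] at hab
  refine absurd (hb0.trans ((le_abs_self _).trans (hab.trans ?_))) hJ.not_ge
  have h3 : ∑ v, W v ^ 2 ≤ N * |M| * J := hsum.trans (le_of_eq (by ring))
  gcongr

end KCC
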