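import Pool.Agent.Lib.MP_e1e491_gt.CC.Pick

/-! The pinch case. -/

namespace KCC

open Set Metric KP2 MeasureTheory Filter Topology
open scoped Classical Pointwise NNReal

variable {Z : Type} [MetricSpace Z] [CompactSpace Z]

omit [CompactSpace Z] in
/-- Every good line between the two levels meets the sphere. -/
theorem pinch_meet {lam : ℝ} (hl : LL Z lam) {Φ : Set (Z → Z)} {U : Set Z} {C δ η : ℝ}
    (T : Fan Φ U C δ η) {x p q : Z} {r R : ℝ} (hr : 0 < r) (hR : lam * r ≤ R)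
    (hU : closedBall x R ⊆ U) (hp : dist p x ≤ r) (hq : dist q x ≤ r) {t : ℝ} (ht : t ∈ T.good)
    (h1 : T.u p < t) (h2 : t < T.u q) : (T.c t ∩ sphere x R).Nonempty := by
  obtain ⟨E, hE, hc, hpE, hqE⟩ := joined_set (hl.l1 x r p q hr hp hq)
  have hE' : E ⊆ closedBall x R := hE.trans (closedBall_subset_closedBall hR)
  obtain ⟨w, hw1, hw2⟩ := T.sep t ht E (hE'.trans hU) hc p hpE q hqE h1 h2
  obtain ⟨y, hy1, hy2⟩ := T.leave t ht
  exact exists_dist_eq (T.conn t ht) hw2 hy1 (hE' hw1) (le_of_not_ge fun h => hy2 (hU h))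

theorem pinch_half {ρ : ℝ} (hρ : 0 < ρ) {i j : ℕ} (h : i < j) : 2 * (ρ / 2 ^ j) ≤ ρ / 2 ^ i := by
  have h1 : (2 : ℝ) ^ (i + 1) ≤ 2 ^ j := pow_le_pow_right₀ one_le_two h
  calc 2 * (ρ / 2 ^ j) ≤ 2 * (ρ / 2 ^ (i + 1)) := by gcongr
    _ = ρ / 2 ^ i := by
      rw [pow_succ]
      field_simp

theorem pinch {lam : ℝ} (hl : LL Z lam) (hD : Dbl Z) {Λ₀ Λ c : ℝ} (hΛ₀ : 1 ≤ Λ₀)
    (hΛ : Λ₀ + 2 ≤ Λ) (hc : 0 < c) (K : ℝ) : ∃ (l : ℕ) (θ κ : ℝ), 0 < θ ∧ 0 < κ ∧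
    ∀ (Φ : Set (Z → Z)) (U : Set Z) (C δ η : ℝ) (T : Fan Φ U C δ η) (z x : Z) (ρ D : ℝ), 0 < η →
      0 < ρ → η ≤ θ * D → closedBall z (Λ * ρ) ⊆ U → dist x z ≤ Λ₀ * ρ →
      Osc T.u x (ρ / 2 ^ l) (c * D) → Split T.u Λ θ κ K z ρ D := by
  obtain ⟨N, hN⟩ := hD.cover (8 * Λ)
  obtain ⟨e, he⟩ := pow_unbounded_of_one_lt lam (one_lt_two (α := ℝ))
  obtain ⟨θ, hθ0, hθ⟩ : ∃ θ : ℝ, 0 < θ ∧ (4 * N + 4) * θ = c :=
    ⟨c / (4 * N + 4), by positivity, by field_simp⟩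
  obtain ⟨n, hn⟩ := exists_nat_ge (K / θ ^ 2)
  have hΛ0 : 0 < Λ := by linarith
  refine ⟨e + n, θ, 1 / 2 ^ (e + n) / (8 * Λ), hθ0, by positivity, ?_⟩
  rintro Φ U C δ η T z x ρ D hη hρ hηD hU hx ⟨p, q, hp, hq, hpq⟩
  have hD0 : 0 < θ * D := hη.trans_le hηD
  have hle : ∀ i : ℕ, ρ / 2 ^ i ≤ ρ := fun i => div_le_self hρ.le (one_le_pow₀ one_le_two)
  have hΛρ : Λ₀ * ρ + 2 * ρ ≤ Λ * ρ := by nlinarith
  have hmul : ∀ R : ℝ, Λ * (R / (8 * Λ)) = R / 8 := fun R => by field_simp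
  have key : ∀ i : ℕ, ∃ y, i < n → dist y x = ρ / 2 ^ i ∧
      Osc T.u y (ρ / 2 ^ i / (8 * Λ)) (θ * D) := by
    intro i
    by_cases hi : i < n
    swap
    · exact ⟨x, fun h => absurd h hi⟩
    have hxU : closedBall x (ρ / 2 ^ i) ⊆ U := by
      refine Subset.trans (closedBall_subset_closedBall' ?_) hU
      linarith [hle i]
    have hR : lam * (ρ / 2 ^ (e + n)) ≤ ρ / 2 ^ i := by
      have h1 : (2 : ℝ) ^ i ≤ 2 ^ n := pow_le_pow_right₀ one_le_two hi.le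
      calc lam * (ρ / 2 ^ (e + n)) ≤ 2 ^ e * (ρ / 2 ^ (e + n)) := by gcongr
        _ = ρ / 2 ^ n := by
          rw [pow_add]
          field_simp
        _ ≤ ρ / 2 ^ i := by gcongr
    obtain ⟨Q, hQ1, hQ2, hQ3⟩ := hN (ρ / 2 ^ i / (8 * Λ)) x (sphere x (ρ / 2 ^ i)) (by positivity)
      (by rw [mul_div_cancel₀ _ (by positivity)]; exact sphere_subset_closedBall)
    obtain ⟨y, hy, ho⟩ := T.cover_osc hη.le (sphere_subset_closedBall.trans hxU) (by positivity)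
      hD0.le hQ1 hQ3 (T.u_mem p).1 (T.u_mem q).2
      (fun t ht h1 h2 => pinch_meet hl T (by positivity) hR hxU hp hq ht h1 h2) (by
        have h1 : (N : ℝ) * (2 * (θ * D) + 2 * η) ≤ N * (2 * (θ * D) + 2 * (θ * D)) := by gcongr
        have h2 : c * D = (4 * N + 4) * (θ * D) := by rw [← hθ, mul_assoc]
        linarith)
    exact ⟨y, fun _ => ⟨hQ2 hy, ho⟩⟩
  choose y hy using key
  have far : ∀ i j, i < n → j < n → i < j →
      ρ / 2 ^ i / 8 + ρ / 2 ^ j / 8 ≤ dist (y i) (y j) := fun i j hi hj hij => by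
    have h1 := dist_triangle (y i) (y j) x
    rw [(hy i hi).1, (hy j hj).1] at h1
    have h2 := pinch_half hρ hij
    have h3 : 0 < ρ / 2 ^ j := by positivity
    linarith
  refine ⟨Finset.range n, y, fun i => ρ / 2 ^ i / (8 * Λ), fun _ => θ * D, fun i hi => ?_,
    fun i hi j hj hij => ?_, ?_⟩
  · have hi' := Finset.mem_range.1 hi
    have h0 : 0 < ρ / 2 ^ i := by positivity
    refine ⟨(hy i hi').2, ?_, (div_le_self h0.le (by linarith)).trans (hle i), le_rfl, ?_⟩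
    · have h1 : (2 : ℝ) ^ i ≤ 2 ^ (e + n) := pow_le_pow_right₀ one_le_two (by omega)
      calc 1 / 2 ^ (e + n) / (8 * Λ) * ρ = ρ / 2 ^ (e + n) / (8 * Λ) := by ring
        _ ≤ ρ / 2 ^ i / (8 * Λ) := by gcongr
    · have h1 := dist_triangle (y i) x z
      rw [(hy i hi').1] at h1
      rw [hmul]
      linarith [hle i]
  · rw [hmul, hmul]
    rcases lt_or_gt_of_ne hij with h | h
    · exact far i j (Finset.mem_range.1 hi) (Finset.mem_range.1 hj) h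
    · rw [dist_comm, add_comm]
      exact far j i (Finset.mem_range.1 hj) (Finset.mem_range.1 hi) h
  · rw [Finset.sum_const, Finset.card_range, nsmul_eq_mul, mul_pow, ← mul_assoc]
    rw [div_le_iff₀ (by positivity)] at hn
    gcongr

end KCC
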