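import Pool.Agent.Lib.MP_e1e491_gt.CC.NoPinch
import Pool.Agent.Lib.MP_e1e491_gt.CC.Pinch

/-! Every cell multiplies its energy. -/

namespace KCC

open Set Metric KP2 MeasureTheory Filter Topology
open scoped Classical Pointwise NNReal

variable {Z ι : Type} [MetricSpace Z] [CompactSpace Z]

omit [CompactSpace Z] in
theorem Split.mono {u : Z → ℝ} {Λ θ κ θ' κ' K : ℝ} {z : Z} {ρ D : ℝ} (h : Split u Λ θ κ K z ρ D)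
    (hρ : 0 ≤ ρ) (hD : 0 ≤ D) (hθ : θ' ≤ θ) (hκ : κ' ≤ κ) : Split u Λ θ' κ' K z ρ D := by
  obtain ⟨s, z', ρ', D', h1, h2, h3⟩ := h
  refine ⟨s, z', ρ', D', fun i hi => ?_, h2, h3⟩
  obtain ⟨a1, a2, a3, a4, a5⟩ := h1 i hi
  exact ⟨a1, (mul_le_mul_of_nonneg_right hκ hρ).trans a2, a3,
    (mul_le_mul_of_nonneg_right hθ hD).trans a4, a5⟩

theorem doubling {lam : ℝ} (hl : LL Z lam) (hD : Dbl Z) (W : WS Z ι) {C δ : ℝ} (hC : 1 ≤ C)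
    (hδ : 0 < δ) (hW : W.Centre C δ) (K : ℝ) : ∃ Λ θ κ ρ₁ : ℝ, C ≤ Λ ∧ 0 < θ ∧ θ ≤ 1 ∧ 0 < κ ∧
    κ ≤ 1 ∧ 0 < ρ₁ ∧ ∀ ρ₀ D₀ : ℝ, 0 < ρ₀ → 0 < D₀ → ∃ (Φ : Set (Z → Z)) (η₀ : ℝ), Φ.Finite ∧
      (∀ f ∈ Φ, BiL f) ∧ 0 < η₀ ∧ ∀ (U : Set Z) (η : ℝ) (T : Fan Φ U C δ η) (z : Z) (ρ D : ℝ),
        0 < η → η ≤ η₀ → ρ₀ ≤ ρ → ρ ≤ ρ₁ → D₀ ≤ D → W.Thick z ρ → closedBall z (δ / 2) ⊆ U →
        Osc T.u z ρ D → Split T.u Λ θ κ K z ρ D := by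
  obtain ⟨Λ₀, N, hΛ₀, hN, hcen⟩ := hW (C + 2) (by linarith)
  obtain ⟨Λ, hΛ1, hΛ2⟩ : ∃ Λ, 2 * (C + 2) ≤ Λ ∧ Λ₀ + 2 ≤ Λ :=
    ⟨max _ _, le_max_left _ _, le_max_right _ _⟩
  have hΛ : 0 < Λ := by linarith
  obtain ⟨s₀, c, θ₁, κ₁, hc, hθ₁, hκ₁, hno⟩ := nopinch W hC hΛ1 K hN
  obtain ⟨l, θ₂, κ₂, hθ₂, hκ₂, hp⟩ := pinch hl hD (Λ₀ := Λ₀) (by linarith) hΛ2 hc K
  obtain ⟨ρ₁, hρ₁, hcen⟩ := hcen s₀ l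
  obtain ⟨θ, hθ, t0, t1, t2⟩ : ∃ θ : ℝ, 0 < θ ∧ θ ≤ 1 ∧ θ ≤ θ₁ ∧ θ ≤ θ₂ :=
    ⟨min 1 (min θ₁ θ₂), lt_min one_pos (lt_min hθ₁ hθ₂), min_le_left _ _,
      (min_le_right _ _).trans (min_le_left _ _), (min_le_right _ _).trans (min_le_right _ _)⟩
  obtain ⟨κ, hκ, k0, k1, k2⟩ : ∃ κ : ℝ, 0 < κ ∧ κ ≤ 1 ∧ κ ≤ κ₁ ∧ κ ≤ κ₂ :=
    ⟨min 1 (min κ₁ κ₂), lt_min one_pos (lt_min hκ₁ hκ₂), min_le_left _ _,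
      (min_le_right _ _).trans (min_le_left _ _), (min_le_right _ _).trans (min_le_right _ _)⟩
  refine ⟨Λ, θ, κ, min ρ₁ (min 1 (δ / 2 / Λ)), by linarith, hθ, t0, hκ, k0,
    lt_min hρ₁ (lt_min one_pos (by positivity)), fun ρ₀ D₀ hρ₀ hD₀ => ?_⟩
  obtain ⟨Φ, hΦ, hB, hcen⟩ := hcen ρ₀ hρ₀
  refine ⟨Φ, min (κ * ρ₀) (min (θ * D₀) (c * D₀ / 20)), hΦ, hB,
    lt_min (by positivity) (lt_min (by positivity) (by positivity)), ?_⟩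
  intro U η T z ρ D hη hη₀ h0 h1 h2 hT hU hO
  have hρ : 0 < ρ := hρ₀.trans_le h0
  have hD' : 0 < D := hD₀.trans_le h2
  obtain ⟨e1, e2⟩ := le_min_iff.1 hη₀
  obtain ⟨e2, e3⟩ := le_min_iff.1 e2
  obtain ⟨r1, r2⟩ := le_min_iff.1 h1
  obtain ⟨r2, r3⟩ := le_min_iff.1 r2
  have hU' : closedBall z (Λ * ρ) ⊆ U :=
    (closedBall_subset_closedBall ((le_div_iff₀' hΛ).1 r3)).trans hU
  by_cases hx : ∃ x, dist x z ≤ Λ₀ * ρ ∧ Osc T.u x (ρ / 2 ^ l) (c * D)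
  · obtain ⟨x, hx, hx'⟩ := hx
    exact (hp Φ U C δ η T z x ρ D hη hρ (e2.trans (mul_le_mul t2 h2 hD₀.le hθ₂.le)) hU' hx
      hx').mono hρ.le hD'.le t2 k2
  · refine (hno Φ U δ η T z ρ D hη (e1.trans (mul_le_mul k1 h0 hρ₀.le hκ₁.le))
      (e2.trans (mul_le_mul t1 h2 hD₀.le hθ₁.le)) r2 hT hU' hO
      (hcen U η T z ρ (c * D) h0 r1 hT hU hη ?_ fun x h h' => hx ⟨x, h, h'⟩)).mono hρ.le hD'.le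
      t1 k1
    have h3 := mul_le_mul_of_nonneg_left h2 hc.le
    linarith

end KCC
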