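import Pool.Agent.Lib.MP_e1e491_gt.CC.TilC

/-! Lines and integrals. -/

namespace KCC

open Set Metric KP2 MeasureTheory Filter Topology
open scoped Classical Pointwise NNReal

variable {V : Type} [Fintype V] {G : SimpleGraph V} {side : Bool → Bool → Set V} {m : V → ℝ}
  {X : Bool → V → ℝ} {H : Bool → ℝ}

theorem til_m_le (T : Til G side m X H) (v : V) : m v ≤ 1 := by
  have h1 := T.le_H false v
  have h2 := T.X_nonneg false v
  rw [T.H_false] at h1
  linarith

theorem til_gap_le (T : Til G side m X H) {W : V → ℝ} (hW : ∀ v, 0 ≤ W v) (i : Bool)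
    {lo hi c : ℝ} (h0 : 0 ≤ lo) (h1 : lo ≤ hi) (h2 : hi ≤ H i)
    (h : ∀ t ∈ Ioo lo hi, Line G side m X H i t → c ≤ wt W (Vt m X i t)) :
    c * (hi - lo) ≤ ∑ v, W v * m v := by
  have h3 := le_sum_ov (m := m) (X := X) (i := i) (c := c) (f := W) h1 (by
    filter_upwards [T.line i] with t ht k using h t k (ht ⟨h0.trans_lt k.1, k.2.trans_le h2⟩))
  exact h3.trans (Finset.sum_le_sum fun v _ =>
    mul_le_mul_of_nonneg_left (ov_le v (T.m_nonneg v)) (hW v))

/-- Cauchy-Schwarz on the support. -/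
theorem sum_mul_sq_le {W : V → ℝ} {S : Set V} (hS : ∀ v, W v ≠ 0 → v ∈ S) :
    (∑ v, W v * m v) ^ 2 ≤ (∑ v, W v ^ 2) * wt (fun v => m v ^ 2) S := by
  have h1 := Finset.sum_mul_sq_le_sq_mul_sq Finset.univ W fun v => if v ∈ S then m v else 0
  have h2 : ∑ v, W v * m v = ∑ v, W v * if v ∈ S then m v else 0 :=
    Finset.sum_congr rfl fun v _ => by
      by_cases hv : v ∈ S
      · rw [if_pos hv]
      · have h3 : W v = 0 := by_contra fun h => hv (hS v h)
        rw [h3, zero_mul, zero_mul]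
  have h3 : wt (fun v => m v ^ 2) S = ∑ v, (if v ∈ S then m v else 0) ^ 2 := by
    rw [wt_eq_sum]
    exact Finset.sum_congr rfl fun v _ => by split_ifs <;> simp
  rw [h2, h3]
  exact h1

theorem vol_wt_gt (hm : ∀ v, 0 ≤ m v) {W : V → ℝ} (hW : ∀ v, 0 ≤ W v) (i : Bool) {c : ℝ}
    (hc : 0 < c) :
    volume {t : ℝ | c < wt W (Vt m X i t)} ≤ ENNReal.ofReal ((∑ v, W v * m v) / c) := by
  have hI : ∀ v, Integrable ((Ioo (X i v) (X i v + m v)).indicator fun _ => W v / c) volume :=
    fun v => (integrable_indicator_iff measurableSet_Ioo).2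
      (integrableOn_const (by rw [Real.volume_Ioo]; exact ENNReal.ofReal_ne_top))
  have h1 : Integrable (fun t => wt (fun v => W v / c) (Vt m X i t)) volume := by
    rw [int_fun_eq]
    exact integrable_finsetSum _ fun v _ => hI v
  have h2 : ∫ t, wt (fun v => W v / c) (Vt m X i t) = (∑ v, W v * m v) / c := by
    rw [int_fun_eq, integral_finsetSum _ fun v _ => hI v, Finset.sum_div]
    refine Finset.sum_congr rfl fun v _ => ?_
    rw [integral_indicator_const _ measurableSet_Ioo, Real.volume_real_Ioo, add_sub_cancel_left,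
      max_eq_left (hm v), smul_eq_mul]
    ring
  rw [← h2]
  refine h1.measure_le_integral (Eventually.of_forall fun t => ?_) fun t ht => ?_
  · exact wt_nonneg (fun v => div_nonneg (hW v) hc.le) _
  · have h3 : wt (fun v => W v / c) (Vt m X i t) = wt W (Vt m X i t) / c := by
      rw [wt, wt, Finset.sum_div]
    rw [h3, le_div_iff₀ hc, one_mul]
    exact le_of_lt ht

theorem til_exists_line (T : Til G side m X H) (i : Bool) {lo hi : ℝ} (h0 : 0 ≤ lo) (h1 : lo < hi)
    (h2 : hi ≤ H i) : ∃ t ∈ Ioo lo hi, Line G side m X H i t := by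
  obtain ⟨t, ht, hL, -⟩ := exists_wt_le (f := m) (m := m) (X := X) (i := i) h1
    (P := fun t => Line G side m X H i t) (by
      filter_upwards [T.line i] with t ht k using ht ⟨h0.trans_lt k.1, k.2.trans_le h2⟩)
  exact ⟨t, ht, hL⟩

omit [Fintype V] in
theorem line_cn {i : Bool} {t : ℝ} (h : Line G side m X H i t) : Cn G (Vt m X i t) := by
  obtain ⟨-, k, c, hm, hadj, -⟩ := h
  have key : ∀ a b, a ≤ b → b ≤ k → Con G (Vt m X i t) (c a) (c b) := fun a b hab hb =>
    lines_con (fun n hn => (hadj n hn).1) hab hb fun n _ h2 => (hm _).2 ⟨n, h2.trans hb, rfl⟩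
  intro v hv w hw
  obtain ⟨a, ha, rfl⟩ := (hm v).1 hv
  obtain ⟨b, hb, rfl⟩ := (hm w).1 hw
  rcases le_total a b with e | e
  exacts [key a b e hb, (key b a e ha).symm]

omit [Fintype V] in
theorem line_side {i : Bool} {t : ℝ} (h : Line G side m X H i t) (b : Bool) :
    ∃ a ∈ side (!i) b, a ∈ Vt m X i t := by
  obtain ⟨-, k, c, hm, -, c0, ck, -⟩ := h
  cases b
  · exact ⟨_, c0, (hm _).2 ⟨0, Nat.zero_le k, rfl⟩⟩
  · exact ⟨_, ck, (hm _).2 ⟨k, le_rfl, rfl⟩⟩

omit [Fintype V] in
/-- A vertex of a line has a neighbour or lies on a side. -/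
theorem line_adj {i : Bool} {t : ℝ} (h : Line G side m X H i t) {v : V} (hv : v ∈ Vt m X i t) :
    (∃ w, G.Adj v w) ∨ v ∈ side (!i) false := by
  obtain ⟨-, k, c, hm, hadj, c0, -⟩ := h
  obtain ⟨n, hn, rfl⟩ := (hm v).1 hv
  rcases n with _ | n
  · exact Or.inr c0
  · exact Or.inl ⟨_, (hadj n (by omega)).1.symm⟩

/-- From a square of positive size go down along a line. -/
theorem til_down (T : Til G side m X H) (i : Bool) {v : V} (hv : 0 < m v) :
    ∃ a ∈ side i false, Con G {w | X i w ≤ X i v} a v := by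
  obtain ⟨t, ht, -, k, c, hm, hadj, c0, -⟩ := til_exists_line T (!i) (T.X_nonneg (!i) v)
    (lt_add_of_pos_right _ hv) (T.le_H (!i) v)
  rw [Bool.not_not] at hadj c0
  obtain ⟨n, hn, rfl⟩ := (hm v).1 ht
  exact ⟨_, c0, lines_con (fun n hn => (hadj n hn).1) (Nat.zero_le n) hn fun j _ hj =>
    (lines_mono (Y := fun n => X i (c n)) (fun n hn => (hadj n hn).2)
      (fun n _ => T.m_nonneg (c n)) hj hn).1⟩

/-- From a square of positive size go up along a line. -/
theorem til_up (T : Til G side m X H) (i : Bool) {v : V} (hv : 0 < m v) :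
    ∃ b ∈ side i true, Con G {w | X i v ≤ X i w} v b := by
  obtain ⟨t, ht, -, k, c, hm, hadj, -, ck, -⟩ := til_exists_line T (!i) (T.X_nonneg (!i) v)
    (lt_add_of_pos_right _ hv) (T.le_H (!i) v)
  rw [Bool.not_not] at hadj ck
  obtain ⟨n, hn, rfl⟩ := (hm v).1 ht
  exact ⟨_, ck, lines_con (fun n hn => (hadj n hn).1) hn le_rfl fun j hj hk =>
    (lines_mono (Y := fun n => X i (c n)) (fun n hn => (hadj n hn).2)
      (fun n _ => T.m_nonneg (c n)) hj hk).1⟩

end KCC
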