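import Pool.Agent.Lib.MP_e1e491_gt.CC.Met
import Pool.Agent.Lib.MP_e1e491_gt.CC.TilD

/-! Sums of shell gauges. -/

namespace KCC

open Set Metric KP2 MeasureTheory Filter Topology
open scoped Classical Pointwise NNReal

variable {Z : Type} [MetricSpace Z] {P : Finset Z} {G : SimpleGraph P} {M r₀ : ℝ}

theorem Shell.mono (h : Shell G M r₀) {M' r₁ : ℝ} (hM : M ≤ M') (hr : r₀ ≤ r₁) : Shell G M' r₁ := by
  intro x R h1 h2
  obtain ⟨W, a1, a2, a3, a4⟩ := h x R (hr.trans h1) h2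
  exact ⟨W, a1, a2, a3.trans hM, a4⟩

theorem shm_multi (h : Shell G M r₀) (x : Z) {R : ℝ} (J : ℕ) (hR0 : 0 < R) (hR : r₀ ≤ R)
    (hJ : 8 ^ J * R ≤ 1) : ∃ W : P → ℝ, (∀ v, 0 ≤ W v) ∧
      (∀ v, W v ≠ 0 → 8 * dist x v ≤ 3 * (8 ^ J * R)) ∧ ∑ v, W v ^ 2 ≤ J * M ∧
      ∀ (S : Set P) (a b : P), Con G S a b → dist x a ≤ R → 8 ^ J * R ≤ dist x b →
        J ≤ wt W S := by
  induction J with
  | zero =>
    exact ⟨fun _ => 0, fun _ => le_rfl, fun _ h => absurd rfl h, by simp,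
      fun S _ _ _ _ _ => by simp [wt]⟩
  | succ J ih =>
    have e : (8 : ℝ) ^ (J + 1) * R = 8 * (8 ^ J * R) := by ring
    have h1 : R ≤ 8 ^ J * R := le_mul_of_one_le_left hR0.le (one_le_pow₀ (by norm_num))
    rw [e] at hJ ⊢
    obtain ⟨W, a1, a2, a3, a4⟩ := ih (by linarith)
    obtain ⟨W', b1, b2, b3, b4⟩ := h x (8 ^ J * R) (hR.trans h1) (by linarith)
    refine ⟨fun v => W v + W' v, fun v => add_nonneg (a1 v) (b1 v), fun v hv => ?_, ?_, ?_⟩
    · by_cases h2 : W v = 0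
      · have h3 : W' v ≠ 0 := fun h3 => hv (by simp only [h2, h3, add_zero])
        linarith [(b2 v h3).2]
      · linarith [a2 v h2]
    · have h2 : ∀ v, (W v + W' v) ^ 2 = W v ^ 2 + W' v ^ 2 := by
        intro v
        by_cases h2 : W v = 0
        · simp [h2]
        by_cases h3 : W' v = 0
        · simp [h3]
        linarith [a2 v h2, (b2 v h3).1]
      rw [Finset.sum_congr rfl fun v _ => h2 v, Finset.sum_add_distrib]
      push_cast
      linarith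
    · intro S a b c1 c2 c3
      have h2 : wt (fun v => W v + W' v) S = wt W S + wt W' S := Finset.sum_add_distrib
      have h3 := a4 S a b c1 c2 (by linarith)
      have h4 := b4 S a b c1 (c2.trans h1) (by linarith)
      rw [h2]
      push_cast
      linarith

theorem shm_le_wt {V : Type} [Fintype V] {m : V → ℝ} (hm : ∀ v, 0 ≤ m v) {S : Set V} {v : V}
    (hv : v ∈ S) : m v ≤ wt m S :=
  Finset.single_le_sum (f := m) (fun w _ => hm w) (Finset.mem_filter.2 ⟨Finset.mem_univ v, hv⟩)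

/-- `J` disjoint shells of radii `8 ^ j * R`. -/
theorem Shell.multi (h : Shell G M r₀) (x : Z) {R : ℝ} (J : ℕ) (hR0 : 0 < R) (hR : r₀ ≤ R)
    (hJ : 8 ^ J * R ≤ 1) : ∃ W : P → ℝ, (∀ v, 0 ≤ W v) ∧
      (∀ v, W v ≠ 0 → dist x v < 8 ^ J * R) ∧ ∑ v, W v ^ 2 ≤ J * M ∧
      ∀ (S : Set P) (a b : P), Con G S a b → dist x a ≤ R → 8 ^ J * R ≤ dist x b →
        J ≤ wt W S := by
  obtain ⟨W, a1, a2, a3, a4⟩ := shm_multi h x J hR0 hR hJ
  have h1 : 0 < 8 ^ J * R := by positivity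
  exact ⟨W, a1, fun v hv => by linarith [a2 v hv], a3, a4⟩

/-- One gauge for all long walks. -/
theorem shell_glob [CompactSpace Z] {d : ℝ} (hd : 0 < d) (hd1 : d ≤ 1) : ∃ N : ℝ, 1 ≤ N ∧
    ∀ (P : Finset Z) (G : SimpleGraph P) (M r₀ : ℝ), Shell G M r₀ → r₀ ≤ d / 3 →
      ∃ W : P → ℝ, (∀ v, 0 ≤ W v) ∧ ∑ v, W v ^ 2 ≤ N * max M 1 ∧
        ∀ (S : Set P) (a b : P), Con G S a b → d ≤ dist (a : Z) b → 1 ≤ wt W S := by
  obtain ⟨T, -, -, hT⟩ := exists_net (univ : Set Z) (show 0 < d / 3 by positivity)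
  refine ⟨(T.card : ℝ) ^ 2 + 1, le_add_of_nonneg_left (sq_nonneg _), fun P G M r₀ h hr => ?_⟩
  choose W a1 a2 a3 a4 using fun c : Z => h c (d / 3) hr (by linarith)
  refine ⟨fun v => ∑ c ∈ T, W c v, fun v => Finset.sum_nonneg fun c _ => a1 c v, ?_, ?_⟩
  · have h1 : ∑ v, (∑ c ∈ T, W c v) ^ 2 ≤ ∑ v, (T.card : ℝ) * ∑ c ∈ T, W c v ^ 2 :=
      Finset.sum_le_sum fun v _ => sq_sum_le_card_mul_sum_sq
    rw [← Finset.mul_sum, Finset.sum_comm] at h1
    have h2 : ∑ c ∈ T, ∑ v, W c v ^ 2 ≤ T.card • max M 1 :=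
      Finset.sum_le_card_nsmul _ _ _ fun c _ => (a3 c).trans (le_max_left _ _)
    rw [nsmul_eq_mul] at h2
    have h3 := mul_le_mul_of_nonneg_left h2 (Nat.cast_nonneg (α := ℝ) T.card)
    have h4 : (0 : ℝ) ≤ max M 1 := le_max_of_le_right zero_le_one
    nlinarith
  · intro S a b c1 c2
    obtain ⟨c, hc, h1⟩ := hT a (mem_univ _)
    have h2 := dist_triangle_left (a : Z) b c
    refine (a4 c S a b c1 h1.le (by linarith)).trans (Finset.sum_le_sum fun v _ => ?_)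
    exact Finset.single_le_sum (f := fun c => W c v) (fun c _ => a1 c v) hc

/-- A potential for the Loewner estimate. -/
theorem shell_psi (hD : Dbl Z) (B : ℝ) : ∃ N : ℝ, 1 ≤ N ∧ ∀ (P : Finset Z) (G : SimpleGraph P)
    (M r₀ r R : ℝ) (x : Z) (J : ℕ), 0 < r → Sepd r P →
    (∀ v w, G.Adj v w → dist (v : Z) w ≤ B * r) → Shell G M r₀ → 0 < R → r₀ ≤ R → 8 ^ J * R ≤ 1 →
      ∃ ψ W : P → ℝ, (∀ v, 0 ≤ W v) ∧ (∀ v w, G.Adj v w → |ψ v - ψ w| ≤ W w) ∧
        ∑ v, W v ^ 2 ≤ N * (J * M) ∧ (∀ v : P, dist x v ≤ R → ψ v = 0) ∧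
        ∀ v : P, 8 ^ J * R ≤ dist x v → J ≤ ψ v := by
  obtain ⟨N, hN⟩ := hD.card_le (max B 0)
  refine ⟨(N : ℝ) * N + 1, le_add_of_nonneg_left (by positivity),
    fun P G M r₀ r R x J hr hP hG h hR0 hR hJ => ?_⟩
  obtain ⟨W, a1, a2, a3, a4⟩ := h.multi x J hR0 hR hJ
  obtain ⟨ψ, b1, b2, b3, b4⟩ := exists_cdist G a1 {v | dist x v ≤ R} (Nat.cast_nonneg (α := ℝ) J)
  have h0 : 0 ≤ max B 0 * r := mul_nonneg (le_max_right _ _) hr.le
  refine ⟨ψ, fun w => wt W {v | dist (w : Z) v ≤ max B 0 * r}, fun w => wt_nonneg a1 _,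
    fun v w hvw => ?_, ?_, b2, fun v hv => ?_⟩
  · have h1 : W v ≤ wt W {v | dist (w : Z) v ≤ max B 0 * r} := shm_le_wt a1
      ((hG w v hvw.symm).trans (mul_le_mul_of_nonneg_right (le_max_left _ _) hr.le))
    have h2 : W w ≤ wt W {v | dist (w : Z) v ≤ max B 0 * r} := shm_le_wt a1
      ((dist_self (w : Z)).trans_le h0)
    have h3 := b3 v w hvw
    have h4 := b3 w v hvw.symm
    exact abs_le.2 ⟨by linarith, by linarith⟩
  · have h1 := schur (fun a b : P => dist (a : Z) b ≤ max B 0 * r) (N₁ := N) (N₂ := N)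
      (fun a => (Finset.card_le_card fun b hb =>
        Finset.mem_filter.2 (Finset.mem_filter.1 hb)).trans (hN r a P hr hP))
      (fun b => (Finset.card_le_card fun a ha => Finset.mem_filter.2
        ⟨Finset.mem_univ _, (dist_comm _ _).trans_le (Finset.mem_filter.1 ha).2⟩).trans
          (hN r b P hr hP)) W
    have h2 : 0 ≤ ∑ v, W v ^ 2 := Finset.sum_nonneg fun v _ => sq_nonneg _
    have h3 := mul_le_mul_of_nonneg_left a3 (show (0 : ℝ) ≤ N * N by positivity)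
    refine h1.trans ?_
    linarith
  · rcases b4 v with h1 | ⟨S, a, ha, h1, h2⟩
    · exact h1.ge
    · have h3 : W v = 0 := by
        by_contra h3
        exact absurd (a2 v h3) (not_lt.2 hv)
      have h4 := a4 S a v h1 ha hv
      linarith

end KCC
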