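import Pool.Agent.Lib.MP_e1e491_gt.CC.TSA
import Pool.Agent.Lib.MP_e1e491_gt.CC.ShM

/-! Bounded height and equicontinuity. -/

namespace KCC

open Set Metric KP2 MeasureTheory Filter Topology
open scoped Classical Pointwise NNReal

variable {Z : Type} [MetricSpace Z] [CompactSpace Z]

theorem ts_height {δ : ℝ} (hδ : 0 < δ) (M : ℝ) : ∃ K : ℝ, 1 ≤ K ∧ ∀ (F : Frame Z) (P : Finset Z)
    (B r lam r₀ : ℝ) (T : TS F P B r lam), F.δ = δ → Shell T.G M r₀ → r₀ ≤ δ / 6 →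
      ∀ i, T.H i ≤ K ∧ 1 ≤ K * T.H i := by
  obtain ⟨N, hN, h⟩ := shell_glob (Z := Z) (d := min (δ / 2) 1) (by positivity) (min_le_right _ _)
  have hK : 1 ≤ N * max M 1 := one_le_mul_of_one_le_of_one_le hN (le_max_right _ _)
  refine ⟨N * max M 1, hK, fun F P B r lam r₀ T hF hS hr => ?_⟩
  have h1 : δ ≤ 1 := hF ▸ T.ok.δ_le
  rw [min_eq_left (by linarith : δ / 2 ≤ 1)] at h
  obtain ⟨W, hW, hs, hc⟩ := h P T.G M r₀ hS (by linarith)
  have key : ∀ i, T.H i ≤ N * max M 1 * T.H (!i) := fun i => by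
    refine (T.til.H_le hW i ?_).trans (mul_le_mul_of_nonneg_right hs (T.til.H_pos _).le)
    rintro A ⟨a, ha, b, hb, hab⟩
    exact hc A a b hab (hF ▸ T.side_far ha hb)
  have h2 := key true
  have h3 := key false
  simp only [Bool.not_true, Bool.not_false, T.til.H_false, mul_one] at h2 h3
  rintro (_ | _)
  · rw [T.til.H_false, mul_one]
    exact ⟨hK, hK⟩
  · exact ⟨h2, h3⟩

/-- Lines that meet a small ball cross many shells. -/
theorem ts_equi {δ : ℝ} (hδ : 0 < δ) (M : ℝ) {a : ℝ} (ha : 0 < a) : ∃ ε > 0,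
    ∀ (F : Frame Z) (P : Finset Z) (B r lam r₀ : ℝ) (T : TS F P B r lam), F.δ = δ →
      Shell T.G M r₀ → r₀ ≤ ε → ∀ (x : Z) (S : Set P) (v w : P) (i : Bool),
        (∀ y ∈ S, dist x y ≤ ε) → Con T.G S v w → T.X i w + T.m w ≤ T.X i v + a := by
  obtain ⟨K, hK, hH⟩ := ts_height (Z := Z) hδ M
  obtain ⟨J, hJ⟩ := exists_nat_gt (max M 1 * K / a ^ 2)
  have hM : 0 < max M 1 := lt_max_of_lt_right one_pos
  have hJ0 : (0 : ℝ) < J := lt_trans (by positivity) hJ
  rw [div_lt_iff₀ (by positivity)] at hJ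
  have h8 : (1 : ℝ) ≤ 8 ^ J := one_le_pow₀ (by norm_num)
  refine ⟨δ / 6 / 8 ^ J, by positivity, fun F P B r lam r₀ T hF hS hr x S v w i hx hc => ?_⟩
  have h1 : δ ≤ 1 := hF ▸ T.ok.δ_le
  have h2 : (8 : ℝ) ^ J * (δ / 6 / 8 ^ J) = δ / 6 := by field_simp
  obtain ⟨W, hW, -, hs, hw⟩ := hS.multi x J (by positivity) hr (by rw [h2]; linarith)
  rw [h2] at hw
  have hh := (hH F P B r lam r₀ T hF hS (hr.trans (div_le_self (by positivity) h8)) true).1
  by_contra hlt
  push Not at hlt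
  have h3 := til_gap_le T.til hW i (c := J) (T.til.X_nonneg i v) (by linarith) (T.til.le_H i w)
    fun t ht hl => by
      obtain ⟨u, hu, hu'⟩ := T.til.toPreTil.meet (fun y => (hl.1 i y).1) hc ht.1 ht.2
      obtain ⟨a₀, ha₀, ha₀'⟩ := line_side hl false
      obtain ⟨a₁, ha₁, ha₁'⟩ := line_side hl true
      have h4 : δ / 2 ≤ dist (a₀ : Z) a₁ := hF ▸ T.side_far ha₀ ha₁
      rcases le_total (δ / 6) (dist x a₀) with h5 | h5
      · exact hw _ u a₀ (line_cn hl u hu' a₀ ha₀') (hx u hu) h5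
      · exact hw _ u a₁ (line_cn hl u hu' a₁ ha₁') (hx u hu)
          (by linarith [dist_triangle_left (a₀ : Z) a₁ x])
  have h4 := Finset.sum_mul_sq_le_sq_mul_sq Finset.univ W T.m
  rw [T.til.area_eq] at h4
  have h5 : (J * a) ^ 2 ≤ (∑ y, W y * T.m y) ^ 2 :=
    pow_le_pow_left₀ (by positivity) ((mul_le_mul_of_nonneg_left (by linarith) hJ0.le).trans h3) 2
  have h6 : (∑ y, W y ^ 2) * T.H true ≤ J * max M 1 * K :=
    mul_le_mul (hs.trans (mul_le_mul_of_nonneg_left (le_max_left _ _) hJ0.le)) hh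
      (T.til.H_pos _).le (by positivity)
  nlinarith [mul_lt_mul_of_pos_left hJ hJ0]

omit [CompactSpace Z] in
theorem TS.free_of_cen {F : Frame Z} {P : Finset Z} {B r lam c : ℝ} (T : TS F P B r lam)
    (hc : 0 < c) {x : Z} (h : Cen T.H c (T.f x)) : ∃ v, T.β x = .inl v := by
  rcases hx : T.β x with v | ⟨j, b⟩
  · exact ⟨v, rfl⟩
  · have h1 := (h (!j)).1
    simp only [TS.f, hx, Yp] at h1
    rw [if_neg (by cases j <;> simp)] at h1
    linarith

/-- Near a central point all blobs are free. -/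
theorem ts_near {δ : ℝ} (hδ : 0 < δ) (M lam : ℝ) {c a : ℝ} (hc : 0 < c) (ha : 0 < a) : ∃ ε > 0,
    ∀ (F : Frame Z) (P : Finset Z) (B r r₀ : ℝ) (T : TS F P B r lam), F.δ = δ →
      Shell T.G M r₀ → r₀ ≤ ε → B * r ≤ ε → ∀ (x y : Z) (v : P), T.β x = .inl v →
        Cen T.H c (T.f x) → dist x y ≤ ε → dist (T.f x) (T.f y) ≤ a ∧ ∃ w S, T.β y = .inl w ∧
          Cn T.G S ∧ v ∈ S ∧ w ∈ S ∧ ∀ s ∈ S, dist x s ≤ lam * dist x y + B * r := by
  obtain ⟨ε₀, hε₀, he⟩ := ts_equi (Z := Z) hδ M (a := min a (c / 2)) (by positivity)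
  have hl0 : 0 < max lam 1 + 1 := by positivity
  refine ⟨min ε₀ δ / (max lam 1 + 1), by positivity,
    fun F P B r r₀ T hF hS hr hB x y v hv hcen hxy => ?_⟩
  have hl := T.ll.one_le
  rw [max_eq_left hl] at hr hB hxy hl0
  have h0 : (lam + 1) * (min ε₀ δ / (lam + 1)) = min ε₀ δ := by field_simp
  have h1 : lam * dist x y + B * r ≤ min ε₀ δ := by
    nlinarith [mul_le_mul_of_nonneg_left hxy (zero_le_one.trans hl)]
  have hr' : r₀ ≤ ε₀ :=
    (hr.trans (div_le_self (by positivity) (by linarith))).trans (min_le_left _ _)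
  obtain ⟨E, hE, hxE, hyE, hd⟩ := T.ll.three x y
  have hΩ : E ⊆ F.Ω := fun w hw => T.ok.inner x (T.inn x v hv).1 (T.inn x v hv).2
    (mem_closedBall'.2 (by linarith [hd w hw, mul_pos (zero_lt_one.trans_le T.B_ge) T.r_pos, min_le_right ε₀ δ]))
  obtain ⟨W, hW, hβ, hn, -⟩ := T.shadow E hΩ hE
  have hnear : ∀ s ∈ {s : P | .inl s ∈ W}, dist x s ≤ lam * dist x y + B * r := fun s hs => by
    obtain ⟨p, hp, h2⟩ := hn s hs
    linarith [dist_triangle x p s, hd p hp]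
  have hq := fun v w i => he F P B r lam r₀ T hF hS hr' x _ v w i
    fun s hs => (hnear s hs).trans (h1.trans (min_le_left _ _))
  have hf : ∀ i, T.f x i = T.X i v := fun i => by simp only [TS.f, hv, Yp]
  have hcon := hW _ (hβ x hxE) _ (hβ y hyE)
  rw [hv] at hcon
  rcases con_free hcon with ⟨w, hw, h2⟩ | ⟨w, i, b, -, hw, h2⟩
  · refine ⟨(dist_pi_le_iff ha.le).2 fun i => ?_, w, _, hw, cn_reach v, KP2.Con.refl h2.left_mem, h2,
      fun s hs => hnear s (KP2.Con.right_mem hs)⟩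
    have hf' : T.f y i = T.X i w := by simp only [TS.f, hw, Yp]
    rw [hf, hf', Real.dist_eq, abs_le]
    constructor <;> linarith [hq v w i h2, hq w v i h2.symm, T.til.m_nonneg v, T.til.m_nonneg w,
      min_le_left a (c / 2)]
  · exfalso
    have h3 := hcen i
    rw [hf] at h3
    cases b
    · linarith [hq w v i h2.symm, T.til.zero i w hw, T.til.m_nonneg v, min_le_right a (c / 2),
        h3.1]
    · linarith [hq v w i h2, T.til.one i w hw, min_le_right a (c / 2), h3.2]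

/-- A point whose square is near the centre of the rectangle. -/
theorem ts_centre {δ : ℝ} (hδ : 0 < δ) (M : ℝ) : ∃ c > 0, ∃ ε > 0,
    ∀ (F : Frame Z) (P : Finset Z) (B r lam r₀ : ℝ) (T : TS F P B r lam), F.δ = δ →
      Shell T.G M r₀ → r₀ ≤ ε → ∃ x, Cen T.H (3 * c) (T.f x) := by
  obtain ⟨K, hK, hH⟩ := ts_height (Z := Z) hδ M
  have hc : 0 < 1 / (16 * K) := by positivity
  obtain ⟨ε₀, hε₀, he⟩ := ts_equi (Z := Z) hδ M hc
  refine ⟨1 / (16 * K), hc, min ε₀ (δ / 6), by positivity, fun F P B r lam r₀ T hF hS hr => ?_⟩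
  have h1 : ∀ i, 16 * (1 / (16 * K)) ≤ T.H i := fun i => by
    have h2 := (hH F P B r lam r₀ T hF hS (hr.trans (min_le_right _ _)) i).2
    rw [show 16 * (1 / (16 * K)) = 1 / K by field_simp, div_le_iff₀' (by linarith)]
    exact h2
  generalize 1 / (16 * K) = c at *
  have h2 := fun i => til_exists_line T.til i (lo := 5 * c) (hi := 6 * c) (by linarith)
    (by linarith) (by linarith [h1 i])
  obtain ⟨s, hs, hs'⟩ := h2 false
  obtain ⟨t, ht, ht'⟩ := h2 true
  obtain ⟨v, hv, hv'⟩ := hs'.cross (s := t) ht'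
    ⟨by linarith [ht.1], by linarith [ht.2, h1 (!false)]⟩
  obtain ⟨x, hx⟩ := T.surj_line hs' hv
  have h3 := he F P B r lam r₀ T hF hS (hr.trans (min_le_left _ _)) v {v} v v false
    (fun y hy => by rw [hy, dist_self]; exact hε₀.le) (KP2.Con.refl rfl)
  refine ⟨x, fun i => ?_⟩
  have hf : T.f x i = T.X i v := by simp only [TS.f, hx, Yp]
  rw [hf]
  cases i
  · exact ⟨by linarith [hv.2, hs.1], by linarith [hv.1, hs.2, h1 false]⟩
  · have h4 : T.X true v < t ∧ t < T.X true v + T.m v := hv'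
    exact ⟨by linarith [h4.2, ht.1], by linarith [h4.1, ht.2, h1 true]⟩

end KCC
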