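import Pool.Agent.Lib.MP_e1e491_gt.CC.TSB

/-! The walk in a shell. -/

namespace KCC

open Set Metric KP2 MeasureTheory Filter Topology
open scoped Classical Pointwise NNReal

variable {Z : Type} [MetricSpace Z] {F : Frame Z} {P : Finset Z} {B r lam : ℝ}

theorem tsd_pos (T : TS F P B r lam) : 0 < B * r :=
  mul_pos (by linarith [T.B_ge]) T.r_pos

theorem tsd_le (T : TS F P B r lam) : 10 * (B * r) ≤ F.δ := by
  have h1 := T.small
  have h2 := T.ll.one_le
  have h3 := tsd_pos T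
  have h4 : 1 ≤ lam ^ 2 := one_le_pow₀ h2
  nlinarith

/-- A crossing from the bottom to the top that is near `z` at all levels between `lo` and `hi`. -/
theorem TS.cr_near (T : TS F P B r lam) {z p q : Z} {R lo hi : ℝ} (hR : 0 < R)
    (hU : closedBall z (lam * R) ⊆ F.U) (hp : dist p z ≤ R) (hq : dist q z ≤ R)
    (h1 : T.f p true < lo) (h2 : lo ≤ hi) (h3 : hi + 2 ≤ T.f q true) :
    Cr T.G T.sd true {v | T.X true v ≤ lo ∨ hi ≤ T.X true v ∨ dist (v : Z) z ≤ lam * R + B * r} := by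
  obtain ⟨E, hE, hEc, hpE, hqE⟩ := joined_set (T.ll.l1 z R p q hR hp hq)
  have hEU : E ⊆ F.U := hE.trans hU
  have hB0 := tsd_pos T
  have hB1 := tsd_le T
  obtain ⟨W, hW, hWβ, hWn, hWz⟩ := T.shadow' (i := true) (hEU.trans T.ok.U_sub) hEc
    (fun x hx c y hy => by
      have := T.ok.U_far x (hEU hx) c y hy
      linarith)
  have hp0 := (T.f_mem p true).1
  have hqH := (T.f_mem q true).2
  have hpq : Con T.Γ W (T.β p) (T.β q) := hW _ (hWβ p hpE) _ (hWβ q hqE)
  obtain ⟨t₁, ht₁, hl₁⟩ := til_exists_line T.til true hp0 h1 (by linarith)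
  obtain ⟨t₂, ht₂, hl₂⟩ := til_exists_line T.til true (lo := hi + 1) (hi := hi + 2)
    (by linarith) (by linarith) (by linarith)
  obtain ⟨v₁, hv₁, hv₁'⟩ := T.meet hpq hWz (fun v => (hl₁.1 true v).1)
    ⟨by linarith [ht₁.1], by linarith [ht₁.2]⟩ ht₁.1
    (show t₁ < T.f q true by linarith [ht₁.2])
  obtain ⟨v₂, hv₂, hv₂'⟩ := T.meet hpq hWz (fun v => (hl₂.1 true v).1)
    ⟨by linarith [ht₂.1], by linarith [ht₂.2]⟩ (show T.f p true < t₂ by linarith [ht₂.1])
    (show t₂ < T.f q true by linarith [ht₂.2])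
  obtain ⟨a, ha, hav⟩ := til_down T.til true (v := v₁) (by linarith [hv₁'.1, hv₁'.2])
  obtain ⟨b, hb, hbv⟩ := til_up T.til true (v := v₂) (by linarith [hv₂'.1, hv₂'.2])
  have hm₂ := til_m_le T.til v₂
  set S : Set P :=
    {v | T.X true v ≤ lo ∨ hi ≤ T.X true v ∨ dist (v : Z) z ≤ lam * R + B * r} with hS
  have hav' : Con T.G S a v₁ := hav.mono fun w hw => Or.inl (by
    have h : T.X true w ≤ T.X true v₁ := hw
    linarith [hv₁'.1, ht₁.2])
  have hbv' : Con T.G S v₂ b := hbv.mono fun w hw => Or.inr (Or.inl (by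
    have h : T.X true v₂ ≤ T.X true w := hw
    linarith [hv₂'.2, ht₂.1]))
  set W' : Set (P ⊕ Bool × Bool) := (W ∪ Sum.inl '' S) ∪ {y | ∃ c, y = .inr (true, c)} with hW'
  have s1 : W ⊆ W' := fun y hy => Or.inl (Or.inl hy)
  have s2 : Sum.inl '' S ⊆ W' := fun y hy => Or.inl (Or.inr hy)
  have s3 : ∀ c, (.inr (true, c) : P ⊕ Bool × Bool) ∈ W' := fun c => Or.inr ⟨c, rfl⟩
  have c1 : Con T.Γ W' (.inr (true, false)) (.inl a) :=
    Con.of_adj (SimpleGraph.Adj.symm ha) (s3 false) (s2 ⟨a, hav'.left_mem, rfl⟩)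
  have c5 : Con T.Γ W' (.inl b) (.inr (true, true)) :=
    Con.of_adj hb (s2 ⟨b, hbv'.right_mem, rfl⟩) (s3 true)
  have hc : Con T.Γ W' (.inr (true, false)) (.inr (true, true)) :=
    c1.trans (((con_of_free hav').mono s2).trans (((hW _ hv₁ _ hv₂).mono s1).trans
      (((con_of_free hbv').mono s2).trans c5)))
  refine (cr_free (T.nadj true) hc ?_).mono ?_
  · rintro c ((h | ⟨v, -, h⟩) | ⟨c', h⟩)
    · exact hWz c h
    · cases h
    · cases h
  · rintro v ((h | ⟨w, hw, h⟩) | ⟨c', h⟩)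
    · obtain ⟨x, hx, hxv⟩ := hWn v h
      have h4 : dist x z ≤ lam * R := hE hx
      have h5 := dist_triangle_left (v : Z) z x
      exact Or.inr (Or.inr (by linarith))
    · cases h
      exact hw
    · cases h

theorem TS.sh (T : TS F P B r lam) {z p q : Z} {R τ lo hi : ℝ} (hR : 0 < R)
    (hτ : lam * R ≤ τ) (hU : closedBall z (τ + 3 * (B * r)) ⊆ F.U) (hp : dist p z ≤ R)
    (hq : dist q z ≤ R) (h1 : T.f p true < lo) (h2 : lo + 2 ≤ hi) (h3 : hi + 2 ≤ T.f q true) :
    ∃ (n : ℕ) (x : ℕ → Z), (∀ i ≤ n, τ ≤ dist (x i) z ∧ dist (x i) z ≤ τ + 4 * (B * r)) ∧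
      (∀ i < n, dist (x i) (x (i + 1)) ≤ 3 * (B * r)) ∧ T.f (x 0) true ≤ lo + 1 ∧
      hi - 1 ≤ T.f (x n) true := by
  have hB0 := tsd_pos T
  have hp0 := (T.f_mem p true).1
  have hqH := (T.f_mem q true).2
  set Xs : Set P := {v | T.X true v ≤ lo ∨ hi ≤ T.X true v ∨
    (τ + B * r ≤ dist (v : Z) z ∧ dist (v : Z) z ≤ τ + 2 * (B * r))} with hXs
  by_cases hc : Cr T.G T.sd true Xs
  · obtain ⟨a, ha, b, hb, hab⟩ := hc
    have ha0 := T.til.zero true a ha
    have hb1 := T.til.one true b hb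
    have hmb := til_m_le T.til b
    obtain ⟨w, -, hw, hw'⟩ := hab.exists_first (P := fun v => hi ≤ T.X true v) (by linarith)
    rcases hw' with rfl | ⟨u, huw, hau⟩
    · exfalso
      linarith
    have hwu := T.til.adj true u w huw
    have hmu := til_m_le T.til u
    obtain ⟨w', -, hw2, hw3⟩ :=
      hau.symm.exists_first (P := fun v => T.X true v ≤ lo) (by linarith)
    rcases hw3 with rfl | ⟨u', huw', huu⟩
    · exfalso
      linarith
    have hwu' := T.til.adj true w' u' huw'.symm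
    have hmw' := til_m_le T.til w'
    obtain ⟨n, c, hc0, hcn, hcS, hcA⟩ := con_chain huu.symm
    have hrep : ∀ i, ∃ x : Z, i ≤ n → T.β x = .inl (c i) := by
      intro i
      by_cases hi' : i ≤ n
      · rcases hi'.lt_or_eq with hlt | rfl
        · obtain ⟨x, hx⟩ := T.surj (c i) (.inl (c (i + 1))) (hcA i hlt)
          exact ⟨x, fun _ => hx⟩
        · obtain ⟨x, hx⟩ := T.surj u (.inl w) huw
          exact ⟨x, fun _ => hcn ▸ hx⟩
      · exact ⟨z, fun h => absurd h hi'⟩
    choose x hx using hrep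
    have hnear : ∀ i ≤ n, dist (x i) (c i) ≤ B * r := fun i hi' => T.toBG.near (hx i hi')
    have hf : ∀ i ≤ n, T.f (x i) true = T.X true (c i) := fun i hi' => by
      show Yp T.X T.H true (T.β (x i)) = _
      rw [hx i hi']
      rfl
    refine ⟨n, x, fun i hi' => ?_, fun i hi' => ?_, ?_, ?_⟩
    · obtain ⟨⟨h4, h5⟩, h6⟩ := hcS i hi'
      have h7 := hnear i hi'
      rcases h4 with h4 | h4 | h4
      · exact absurd h4 h6
      · exact absurd h4 h5
      · have h8 := dist_triangle (x i) (c i) z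
        have h9 := dist_triangle_left (c i : Z) z (x i)
        constructor <;> linarith [h4.1, h4.2]
    · have h4 := hnear i hi'.le
      have h5 := hnear (i + 1) hi'
      have h6 := T.adjG (hcA i hi')
      have h7 := dist_triangle4_right (x i) (x (i + 1)) (c i : Z) (c (i + 1) : Z)
      linarith
    · rw [hf 0 (Nat.zero_le n), hc0]
      linarith
    · rw [hf n le_rfl, hcn]
      linarith
  · exfalso
    have hc' : Cr T.G T.sd (!true) Xsᶜ := T.hc.cr_of_not (by rwa [compl_compl])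
    obtain ⟨a, ha, b, hb, hab⟩ := hc'
    have hr : Cr T.G T.sd (!true) {v | Con T.G Xsᶜ a v} := ⟨a, ha, b, hb, con_reach hab⟩
    have hn := T.cr_near hR ((closedBall_subset_closedBall (by linarith)).trans hU) hp hq h1
      (by linarith : lo ≤ hi) h3
    obtain ⟨v, hv, hav⟩ := T.hc.meet hn hr
    have hav' : Con T.G Xsᶜ a v := hav
    have hvX : v ∉ Xs := hav'.right_mem
    have hvz : dist (v : Z) z ≤ lam * R + B * r := by
      rcases hv with h | h | h
      · exact absurd (Or.inl h) hvX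
      · exact absurd (Or.inr (Or.inl h)) hvX
      · exact h
    have haU : (a : Z) ∉ F.U := T.side_not_mem ha
    have haz : τ + 3 * (B * r) < dist (a : Z) z := by
      by_contra h
      exact haU (hU (not_lt.1 h))
    obtain ⟨w, hwX, hw, hw'⟩ :=
      hav'.symm.exists_first (P := fun y : P => τ + B * r ≤ dist (y : Z) z) (by linarith)
    refine hwX (Or.inr (Or.inr ⟨hw, ?_⟩))
    rcases hw' with rfl | ⟨u, huw, hu⟩
    · linarith
    · have h4 : ¬ τ + B * r ≤ dist (u : Z) z := hu.right_mem.2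
      have h5 := T.adjG huw
      have h6 := dist_triangle_left (w : Z) z u
      linarith [not_le.1 h4]

end KCC
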