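import Pool.Agent.Lib.MP_e1e491_gt.CC.TSC
import Pool.Agent.Lib.MP_e1e491_gt.CC.TSD

/-! From a tall tiling to a fan. -/

namespace KCC

open Set Metric KP2 MeasureTheory Filter Topology
open scoped Classical Pointwise NNReal

variable {Z : Type} [MetricSpace Z]

theorem fanc_vol {ι : Type} [Fintype ι] {h η : ℝ} (hh : 0 < h) (hη : 0 < η) {A : Set ℝ}
    (hA : volume A = 0) (S : ι → Set ℝ) (N : ι → ℝ) (hN : ∀ i, 0 ≤ N i)
    (hS : ∀ i, volume (S i) ≤ ENNReal.ofReal (N i * h / (η * h))) (h1 : (∑ i, N i) / η ^ 2 ≤ h) :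
    volume ((fun t : ℝ => t * h) ⁻¹' (A ∪ ⋃ i, S i)) ≤ ENNReal.ofReal η := by
  rw [Real.volume_preimage_mul_right hh.ne']
  have h2 : volume (A ∪ ⋃ i, S i) ≤ ENNReal.ofReal (∑ i, N i * h / (η * h)) := by
    refine (measure_union_le _ _).trans ?_
    rw [hA, zero_add, ENNReal.ofReal_sum_of_nonneg fun i _ => by have := hN i; positivity]
    exact (measure_iUnion_fintype_le _ _).trans (Finset.sum_le_sum fun i _ => hS i)
  refine (mul_le_mul_right h2 _).trans ?_
  rw [← ENNReal.ofReal_mul (abs_nonneg _)]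
  refine ENNReal.ofReal_le_ofReal ?_
  rw [abs_of_pos (inv_pos.2 hh), ← Finset.sum_div, ← Finset.sum_mul, mul_div_mul_right _ _ hh.ne',
    inv_mul_le_iff₀ hh, div_le_iff₀ hη]
  rw [div_le_iff₀ (pow_pos hη 2)] at h1
  linarith

theorem fan_of_ts (hD : Dbl Z) (B lam K : ℝ) (hK : 1 ≤ K) : ∃ C : ℝ, 1 ≤ C ∧
    ∀ (Φ : Set (Z → Z)), Φ.Finite → (∀ f ∈ Φ, BiL f) → ∀ η : ℝ, 0 < η → ∃ h₁ : ℝ,
      ∀ (F : Frame Z) (P : Finset Z) (r r₀ : ℝ) (T : TS F P B r lam), 4 * (B * r) ≤ η → r₀ ≤ η →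
        h₁ ≤ T.H true → Shell T.G (K * T.H true) r₀ → Nonempty (Fan Φ F.U C F.δ η) := by
  refine ⟨max K (4 * (|lam| + 1)), hK.trans (le_max_left _ _), fun Φ hΦ hb η hη => ?_⟩
  have := hΦ.fintype
  choose N hN1 hN using fun f : Φ => ts_nc hD B lam (hb f f.2)
  obtain ⟨N₀, _, hN₀⟩ := cl_lev hD B lam
  refine ⟨max ((∑ f, N f) / η ^ 2) (max (N₀ / η) (2 / η)), fun F P r r₀ T h1 h2 h3 hS => ?_⟩
  choose W hW0 hW1 hW using fun f : Φ => hN f F P r T
  have hh : 0 < T.H true := T.til.H_pos true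
  have e1 : N₀ ≤ η * T.H true :=
    (div_le_iff₀' hη).1 (((le_max_left _ _).trans (le_max_right _ _)).trans h3)
  have e2 : 2 ≤ η * T.H true :=
    (div_le_iff₀' hη).1 (((le_max_right _ _).trans (le_max_right _ _)).trans h3)
  have hl : 1 ≤ lam := T.ll.one_le
  have hC : 4 * (lam + 1) ≤ max K (4 * (|lam| + 1)) := by
    rw [abs_of_pos (by linarith)]
    exact le_max_right _ _
  have hB : 0 < B * r := mul_pos (zero_lt_one.trans_le T.B_ge) T.r_pos
  have hu : ∀ x, T.u x * T.H true = T.f x true := fun x => div_mul_cancel₀ _ hh.ne'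
  have hab : ∀ a b c : ℝ, |a * T.H true - b * T.H true| ≤ c → c ≤ η * T.H true → |a - b| ≤ η :=
    fun a b c k1 k2 => by
      rw [← sub_mul, abs_mul, abs_of_pos hh] at k1
      exact le_of_mul_le_mul_right (k1.trans k2) hh
  refine ⟨{ u := T.u
            c := fun t => T.cl (t * T.H true)
            good := {t | T.Ln (t * T.H true) ∧
              ∀ f : Φ, wt (W f) (Vt T.m T.X true (t * T.H true)) ≤ η * T.H true}
            ν := T.ν
            vol := ?_
            u_mem := T.u_mem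
            closed := fun t _ => T.cl_closed _
            conn := fun t ht => T.cl_conn ht.1
            leave := fun t ht => T.cl_leave ht.1
            hit := fun t ht => T.cl_hit ht.1
            lev := fun t ht x hx hU => hab _ _ N₀ (hu x ▸ hN₀ F P r T _ ht.1 x hx hU) e1
            sep := fun t ht E k1 k2 x hx y hy k3 k4 => T.cl_sep ht.1 k1 k2 hx hy
              (hu x ▸ mul_lt_mul_of_pos_right k3 hh) (hu y ▸ mul_lt_mul_of_pos_right k4 hh)
            nc := fun t ht f hf k1 x hx y hy => hab _ _ _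
              (by rw [hu, hu]; exact hW ⟨f, hf⟩ _ ht.1 k1 x hx y hy) (ht.2 ⟨f, hf⟩)
            ν_nonneg := T.ν_nonneg
            ν_add := fun _ _ _ => T.ν_add
            ν_le := T.ν_le
            en := fun x R k1 k2 k3 p q hp hq => ?_
            sh := fun z R τ lo hi p q k1 k2 k3 hp hq k4 k5 k6 => ?_ }⟩
  · refine le_trans (measure_mono fun t ht => ?_) (fanc_vol hh hη (ae_iff.1 (T.til.line true))
      (fun f : Φ => {t | η * T.H true < wt (W f) (Vt T.m T.X true t)}) N
      (fun f => zero_le_one.trans (hN1 f)) (fun f => (vol_wt_gt T.til.m_nonneg (hW0 f) true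
        (mul_pos hη hh)).trans (ENNReal.ofReal_le_ofReal
          (div_le_div_of_nonneg_right (hW1 f) (mul_pos hη hh).le))) ((le_max_left _ _).trans h3))
    by_contra hcon
    rw [mem_preimage, mem_union, not_or, mem_iUnion, not_exists] at hcon
    have k1 : t * T.H true ∈ Ioo 0 (T.H true) :=
      ⟨mul_pos ht.1.1 hh, mul_lt_of_lt_one_left hh ht.1.2⟩
    exact ht.2 ⟨⟨k1, not_not.1 hcon.1 k1⟩, fun f => le_of_not_gt (hcon.2 f)⟩
  · have hR : 0 < R := hη.trans_le k1
    have k4 : 4 * (lam + 1) * R ≤ max K (4 * (|lam| + 1)) * R :=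
      mul_le_mul_of_nonneg_right hC hR.le
    have k5 := T.en hS (x := x) (R := R) (by linarith) (h2.trans k1) (by nlinarith)
      ((closedBall_subset_closedBall k4).trans k3) hp hq
    have k6 := T.ν_add (disjoint_empty _) (ball_subset_ball (x := x) k4) (empty_subset _)
    have k7 : T.ν (ball x (4 * (lam + 1) * R)) * T.H true =
        wt (fun v => T.m v ^ 2) {v | (v : Z) ∈ ball x (4 * (lam + 1) * R)} :=
      div_mul_cancel₀ _ hh.ne'
    rw [← k7, ← hu, ← hu, ← sub_mul, mul_pow] at k5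
    have k8 : (T.u p - T.u q) ^ 2 ≤ K * T.ν (ball x (4 * (lam + 1) * R)) :=
      le_of_mul_le_mul_right (k5.trans_eq (by ring)) (pow_pos hh 2)
    exact k8.trans (mul_le_mul (le_max_left _ _) (by linarith [T.ν_nonneg ∅]) (T.ν_nonneg _)
      ((zero_le_one.trans hK).trans (le_max_left _ _)))
  · have hR : 0 < R := hη.trans_le k1
    have k7 : 4 * (lam + 1) * R ≤ max K (4 * (|lam| + 1)) * R :=
      mul_le_mul_of_nonneg_right hC hR.le
    have k8 := mul_le_mul_of_nonneg_right k4 hh.le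
    have k9 := mul_le_mul_of_nonneg_right k5 hh.le
    have k10 := mul_le_mul_of_nonneg_right k6 hh.le
    rw [add_mul] at k8 k9 k10
    rw [hu] at k8 k10
    obtain ⟨n, x, a1, a2, a3, a4⟩ := T.sh (z := z) (τ := τ) (lo := lo * T.H true)
      (hi := hi * T.H true) hR (by nlinarith)
      ((closedBall_subset_closedBall (by linarith)).trans k3) hp hq (by linarith) (by linarith)
      (by linarith)
    rw [← hu] at a3 a4
    exact ⟨n, x, fun i hi => ⟨(a1 i hi).1, by linarith [(a1 i hi).2]⟩,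
      fun i hi => by linarith [a2 i hi], le_of_mul_le_mul_right (by linarith) hh,
      le_of_mul_le_mul_right (by linarith) hh⟩

end KCC
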