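import Pool.Agent.Lib.MP_e1e491_gt.CC.Defs
import Pool.Agent.Lib.MP_e1e491_gt.P2.Forest
import Pool.Agent.Lib.MP_e1e491_gt.P2.Shadow

/-! The ordered forest lemma and boxes in the grid. -/

namespace KCC

open Set Metric KP2 MeasureTheory Filter Topology
open scoped Classical Pointwise NNReal

theorem exists_forest_ord {V I : Type} (G : SimpleGraph V) (X : I → Set V) (hX : ∀ i, Cn G (X i))
    (hc : ∀ v, ∃ i, v ∈ X i) {N : ℕ} (col : I → ℕ) (hN : ∀ i, col i ≤ N)
    (hcol : ∀ i j, i ≠ j → (X i ∩ X j).Nonempty → col i ≠ col j) :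
    ∃ β : V → I, (∀ i, Cn G {v | β v = i}) ∧ (∀ i v, col i = 0 → v ∈ X i → β v = i) ∧
      ∀ v, ∃ j n, n ≤ N ∧ v ∈ X j ∧ ChD X col n j (β v) := by
  obtain ⟨j, hj, hm⟩ := forest_least X hc col hcol
  have hp : ∀ v, (forest_A G X j v).Nonempty →
      ∀ w ∈ forest_A G X j v, col (j w) < col (j v) := fun v _ w hw => hm w _ hw.1 hw.2.1
  obtain ⟨β, hβ⟩ : ∃ β : V → I, ∀ v,
      β v = if h : (forest_A G X j v).Nonempty then β h.some else j v := by
    let F : ∀ v : V, (∀ w, col (j w) < col (j v) → I) → I := fun v ih =>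
      if h : (forest_A G X j v).Nonempty then ih h.some (hp v h _ h.some_mem) else j v
    exact ⟨(measure fun v => col (j v)).wf.fix F, fun v => by rw [WellFounded.fix_eq]⟩
  have h1 : ∀ v u, Con G {x | j x = j v} v u → β u = β v := fun v u h => by
    have e : j u = j v := h.right_mem
    rw [hβ u, hβ v]
    simp only [forest_A_eq h, e]
  have h2 : ∀ v u, Con G {x | j x = j v} v u → Con G {x | β x = β v} v u := fun v u h =>
    (h.induction (P := fun y => Con G {x | j x = j v} v y ∧ Con G {x | β x = β v} v y)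
      ⟨KP2.Con.refl rfl, KP2.Con.refl rfl⟩ fun y hy z hz hyz hP =>
        have h3 := hP.1.trans (Con.of_adj hyz hy hz)
        ⟨h3, hP.2.trans (Con.of_adj hyz hP.2.right_mem (h1 v z h3))⟩).2
  have h3 : ∀ k v, col (j v) = k → (∃ r, ¬(forest_A G X j r).Nonempty ∧ j r = β v ∧
      Con G {x | β x = β v} v r) ∧ ∃ n, n ≤ col (j v) ∧ ChD X col n (j v) (β v) := fun k => by
    induction k using Nat.strong_induction_on with
    | _ k ih =>
      intro v hv
      by_cases h : (forest_A G X j v).Nonempty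
      · have e : β v = β h.some := by rw [hβ v, dif_pos h]
        have lt := hp v h _ h.some_mem
        obtain ⟨⟨r, a1, a2, a3⟩, n, b1, b2⟩ := ih _ (hv ▸ lt) h.some rfl
        obtain ⟨c1, -, u, c3, c4⟩ := h.some_mem
        rw [← e] at a2 a3 b2
        exact ⟨⟨r, a1, a2, ((h2 v u c3).trans (Con.of_adj c4 (h1 v u c3) e.symm)).trans a3⟩,
          n + 1, by omega, j h.some, ⟨_, c1, hj _⟩, lt, b2⟩
      · have e : β v = j v := by rw [hβ v, dif_neg h]
        exact ⟨⟨v, h, e.symm, KP2.Con.refl rfl⟩, 0, Nat.zero_le _, e.symm⟩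
  refine ⟨β, fun i a ha b hb => ?_, fun i v hi hv => ?_, fun v => ?_⟩
  · obtain ⟨⟨r, a1, a2, a3⟩, -⟩ := h3 _ a rfl
    obtain ⟨⟨s, b1, b2, b3⟩, -⟩ := h3 _ b rfl
    have ea : β a = i := ha
    have eb : β b = i := hb
    have er : β r = i := a3.right_mem.trans ea
    have hs : s ∈ X (j r) := by
      rw [a2, ea, ← eb, ← b2]
      exact hj s
    have h4 := h2 r s ((hX _ r (hj r) s hs).mono (forest_root hX hj a1))
    rw [ea] at a3
    rw [eb] at b3
    rw [er] at h4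
    exact (a3.trans h4).trans b3.symm
  · have e : j v = i := by
      by_contra hne
      have := hm v i hv hne
      omega
    rw [hβ v, dif_neg, e]
    intro h
    have := hp v h _ h.some_mem
    rw [e] at this
    omega
  · obtain ⟨-, n, b1, b2⟩ := h3 _ v rfl
    exact ⟨j v, n, b1.trans (hN _), hj v, b2⟩

theorem forestz_line {n : ℕ} {S : Bool → Set ℝ} (hS : ∀ i, (S i).OrdConnected) (i : Bool)
    (d : ℕ) : ∀ v w : Bool → Fin (n + 1), (∀ j, ((v j : ℕ) : ℝ) ∈ S j) →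
      (∀ j, ((w j : ℕ) : ℝ) ∈ S j) → v (!i) = w (!i) → (w i : ℕ) = v i + d →
      Con (gridG n) {v | ∀ i, ((v i : ℕ) : ℝ) ∈ S i} v w := by
  induction d with
  | zero =>
    intro v w hv hw h1 h2
    have e : v = w := funext fun j => by
      have h3 : v i = w i := Fin.ext h2.symm
      cases i <;> cases j <;> assumption
    exact e ▸ KP2.Con.refl hv
  | succ d ih =>
    intro v w hv hw h1 h2
    have h3 := (w i).2
    let u : Bool → Fin (n + 1) := Function.update v i ⟨v i + 1, by omega⟩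
    have u1 : (u i : ℕ) = v i + 1 := by simp [u]
    have u2 : u (!i) = v (!i) := Function.update_of_ne (by simp) _ _
    have u3 : ∀ j, j = i ∨ j = !i := fun j => by cases i <;> cases j <;> simp
    have hu : ∀ j, ((u j : ℕ) : ℝ) ∈ S j := fun j => by
      rcases u3 j with rfl | rfl
      · exact (hS j).out (hv j) (hw j) ⟨Nat.cast_le.2 (by omega), Nat.cast_le.2 (by omega)⟩
      · rw [u2]
        exact hv _
    refine KP2.Con.trans (shadow_step hv hu (Or.inl fun j => ?_))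
      (ih u w hu hw (u2.trans h1) (by omega))
    rcases u3 j with rfl | rfl
    · omega
    · rw [u2]
      omega

theorem forestz_line' {n : ℕ} {S : Bool → Set ℝ} (hS : ∀ i, (S i).OrdConnected) (i : Bool)
    {v w : Bool → Fin (n + 1)} (hv : ∀ j, ((v j : ℕ) : ℝ) ∈ S j)
    (hw : ∀ j, ((w j : ℕ) : ℝ) ∈ S j) (h : v (!i) = w (!i)) :
    Con (gridG n) {v | ∀ i, ((v i : ℕ) : ℝ) ∈ S i} v w := by
  rcases le_total (v i : ℕ) (w i) with h1 | h1
  · exact forestz_line hS i (w i - v i) v w hv hw h (by omega)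
  · exact (forestz_line hS i (v i - w i) w v hw hv h.symm (by omega)).symm

/-- Boxes are connected. -/
theorem box_cn (n : ℕ) (S : Bool → Set ℝ) (hS : ∀ i, (S i).OrdConnected) :
    Cn (gridG n) {v | ∀ i, ((v i : ℕ) : ℝ) ∈ S i} := by
  intro v hv w hw
  have hu : ∀ j, (((if j then v j else w j : Fin (n + 1)) : ℕ) : ℝ) ∈ S j := fun j => by
    cases j
    exacts [hw _, hv _]
  exact (forestz_line' hS false hv hu rfl).trans (forestz_line' hS true hu hw rfl)

/-- The four zones of the grid. -/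
def zv (n : ℕ) (s : Bool × Bool) : Set (Bool → Fin (n + 1)) :=
  {v | (s.1 = true → 2 / 5 * (n : ℝ) < (v false : ℕ) ∧ ((v false : ℕ) : ℝ) < 3 / 5 * n) ∧
    if s.2 then 3 / 5 * (n : ℝ) ≤ (v s.1 : ℕ) else ((v s.1 : ℕ) : ℝ) ≤ 2 / 5 * n}

theorem zv_cn (n : ℕ) (s : Bool × Bool) : Cn (gridG n) (zv n s) := by
  have key : ∀ A B : Set ℝ, A.OrdConnected → B.OrdConnected →
      Cn (gridG n) {v | ((v false : ℕ) : ℝ) ∈ A ∧ ((v true : ℕ) : ℝ) ∈ B} := fun A B hA hB => by
    simpa only [Bool.forall_bool, cond_false, cond_true] using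
      box_cn n (fun i => cond i B A) fun i => by cases i <;> assumption
  rcases s with ⟨_ | _, _ | _⟩
  · simpa [zv] using key (Iic (2 / 5 * n)) univ ordConnected_Iic ordConnected_univ
  · simpa [zv] using key (Ici (3 / 5 * n)) univ ordConnected_Ici ordConnected_univ
  · simpa [zv] using key (Ioo (2 / 5 * n) (3 / 5 * n)) (Iic (2 / 5 * n)) ordConnected_Ioo
      ordConnected_Iic
  · simpa [zv] using key (Ioo (2 / 5 * n) (3 / 5 * n)) (Ici (3 / 5 * n)) ordConnected_Ioo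
      ordConnected_Ici

theorem zv_disj {n : ℕ} (hn : 0 < n) {s s' : Bool × Bool} (h : (zv n s ∩ zv n s').Nonempty) :
    s = s' := by
  obtain ⟨v, h1, h2⟩ := h
  have h0 : (0 : ℝ) < n := Nat.cast_pos.2 hn
  rcases s with ⟨_ | _, _ | _⟩ <;> rcases s' with ⟨_ | _, _ | _⟩ <;> first
    | rfl
    | (simp only [zv, mem_ofPred_eq, Bool.false_eq_true, if_false, if_true, false_imp_iff,
        true_and, forall_true_left] at h1 h2
       exfalso
       linarith)

theorem zv_side_false (n : ℕ) (b : Bool) : gridS n false b ⊆ zv n (false, b) := by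
  intro v hv
  have h0 : (0 : ℝ) ≤ n := Nat.cast_nonneg n
  have h1 : (v false : ℕ) = if b then n else 0 := hv
  cases b <;> simp only [zv, mem_ofPred_eq, Bool.false_eq_true, if_false, if_true, false_imp_iff,
    true_and, h1, Nat.cast_zero] <;> linarith

theorem zv_side_true (n : ℕ) (b : Bool) :
    gridS n true b ⊆ zv n (true, b) ∪ zv n (false, false) ∪ zv n (false, true) := by
  intro v hv
  have h0 : (0 : ℝ) ≤ n := Nat.cast_nonneg n
  have h1 : (v true : ℕ) = if b then n else 0 := hv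
  by_cases a1 : ((v false : ℕ) : ℝ) ≤ 2 / 5 * n
  · exact Or.inl (Or.inr ⟨fun h => absurd h (by simp), a1⟩)
  by_cases a2 : 3 / 5 * (n : ℝ) ≤ (v false : ℕ)
  · exact Or.inr ⟨fun h => absurd h (by simp), a2⟩
  refine Or.inl (Or.inl ⟨fun _ => ⟨not_le.1 a1, not_le.1 a2⟩, ?_⟩)
  cases b <;> simp only [Bool.false_eq_true, if_false, if_true, h1, Nat.cast_zero] <;> linarith

theorem zv_side_nonempty {n : ℕ} (hn : 100 ≤ n) (i b : Bool) :
    (gridS n i b ∩ zv n (i, b)).Nonempty := by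
  have h0 : (100 : ℝ) ≤ n := by exact_mod_cast hn
  have h1 : ((n / 2 : ℕ) : ℝ) * 2 ≤ n := by exact_mod_cast Nat.div_mul_le_self n 2
  have h2 : (n : ℝ) ≤ ((n / 2 : ℕ) : ℝ) * 2 + 1 := by exact_mod_cast (by omega : n ≤ n / 2 * 2 + 1)
  refine ⟨fun j => if j = i then ⟨if b then n else 0, by split_ifs <;> omega⟩ else
    ⟨n / 2, by omega⟩, by simp [gridS], fun h => ?_, ?_⟩
  · have h3 : i = true := h
    simp only [h3, Bool.false_eq_true, if_false]
    constructor <;> linarith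
  · cases b <;> simp only [Bool.false_eq_true, if_false, if_true, Nat.cast_zero] <;> linarith

/-- The point of the square under a vertex. -/
noncomputable def gp (n : ℕ) (v : Bool → Fin (n + 1)) : Pl := fun i => ((v i : ℕ) : ℝ) / n

theorem gp_mem {n : ℕ} (hn : 0 < n) (v : Bool → Fin (n + 1)) : gp n v ∈ QQ := by
  have h0 : (0 : ℝ) < n := Nat.cast_pos.2 hn
  refine ⟨fun i => div_nonneg (Nat.cast_nonneg _) h0.le, fun i => (div_le_one h0).2 ?_⟩
  exact Nat.cast_le.2 (Nat.lt_succ_iff.1 (v i).2)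

theorem shad_gp {n : ℕ} (hn : 0 < n) (v : Bool → Fin (n + 1)) : shad n {gp n v} = {v} := by
  have h0 : (n : ℝ) ≠ 0 := (Nat.cast_pos.2 hn).ne'
  have h1 : ∀ i, (n : ℝ) * gp n v i = (v i : ℕ) := fun i => mul_div_cancel₀ _ h0
  ext w
  rw [shadow_mem_pt, mem_singleton_iff]
  refine ⟨fun h => funext fun i => Fin.ext ?_, fun h i => by rw [h, h1, sub_self]; simp⟩
  have h2 := h i
  rw [h1, abs_lt] at h2
  have h3 : ((v i : ℕ) : ℝ) < ((w i : ℕ) + 1 : ℕ) := by
    push_cast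
    linarith [h2.2]
  have h4 : ((w i : ℕ) : ℝ) < ((v i : ℕ) + 1 : ℕ) := by
    push_cast
    linarith [h2.1]
  have h5 := Nat.cast_lt.1 h3
  have h6 := Nat.cast_lt.1 h4
  omega

theorem gp_zv {n : ℕ} (hn : 0 < n) {s : Bool × Bool} {v : Bool → Fin (n + 1)} (h : v ∈ zv n s) :
    gp n v ∈ znQ s.1 s.2 := by
  have h0 : (0 : ℝ) < n := Nat.cast_pos.2 hn
  refine ⟨gp_mem hn v, ?_⟩
  have h1 := h.2
  split_ifs at h1 ⊢
  exacts [(le_div_iff₀ h0).2 h1, (div_le_iff₀ h0).2 h1]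

theorem gp_free {n : ℕ} (hn : 0 < n) {v : Bool → Fin (n + 1)} (h : ∀ s, v ∉ zv n s) (i : Bool) :
    2 / 5 < gp n v i ∧ gp n v i < 3 / 5 := by
  have h0 : (0 : ℝ) < n := Nat.cast_pos.2 hn
  have a1 : 2 / 5 * (n : ℝ) < (v false : ℕ) :=
    not_le.1 fun a => h (false, false) ⟨fun h => absurd h (by simp), a⟩
  have a2 : ((v false : ℕ) : ℝ) < 3 / 5 * n :=
    not_le.1 fun a => h (false, true) ⟨fun h => absurd h (by simp), a⟩
  have a3 : 2 / 5 * (n : ℝ) < (v true : ℕ) := not_le.1 fun a => h (true, false) ⟨fun _ => ⟨a1, a2⟩, a⟩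
  have a4 : ((v true : ℕ) : ℝ) < 3 / 5 * n := not_le.1 fun a => h (true, true) ⟨fun _ => ⟨a1, a2⟩, a⟩
  cases i
  exacts [⟨(lt_div_iff₀ h0).2 a1, (div_lt_iff₀ h0).2 a2⟩,
    ⟨(lt_div_iff₀ h0).2 a3, (div_lt_iff₀ h0).2 a4⟩]

theorem zv_of_out {n : ℕ} (hn : 100 ≤ n) {z : Pl} {i : Bool}
    (hz : z i ≤ 39 / 100 ∨ 61 / 100 ≤ z i) {v : Bool → Fin (n + 1)} (hv : v ∈ shad n {z}) :
    ∃ s, v ∈ zv n s := by
  by_contra hne
  have h0 : (100 : ℝ) ≤ n := by exact_mod_cast hn
  obtain ⟨h1, h2⟩ := gp_free (by omega) (not_exists.1 hne) i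
  rw [gp, lt_div_iff₀ (by linarith)] at h1
  rw [gp, div_lt_iff₀ (by linarith)] at h2
  have h3 := abs_lt.1 (shadow_mem_pt.1 hv i)
  rcases hz with h | h <;> nlinarith [h3.1, h3.2]

/-- Uniform continuity on the square. -/
theorem exists_fine {Z : Type} [MetricSpace Z] {e : Pl → Z} (he : Continuous e) {r : ℝ}
    (hr : 0 < r) : ∃ n : ℕ, 100 ≤ n ∧ ∀ z ∈ QQ, ∀ z' ∈ QQ, ∀ v w, v ∈ shad n {z} →
      w ∈ shad n {z'} → v = w ∨ (gridG n).Adj v w → dist (e z) (e z') ≤ r := by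
  obtain ⟨δ, hδ, h⟩ := Metric.uniformContinuousOn_iff.1
    ((isCompact_Icc : IsCompact QQ).uniformContinuousOn_of_continuous he.continuousOn) r hr
  obtain ⟨n, hn⟩ := exists_nat_gt (max 100 (3 / δ))
  have h0 : (100 : ℝ) < n := (le_max_left _ _).trans_lt hn
  have h1 : 3 < n * δ := (div_lt_iff₀ hδ).1 ((le_max_right _ _).trans_lt hn)
  refine ⟨n, by exact_mod_cast h0.le, fun z hz z' hz' v w hv hw hvw => (h z hz z' hz' ?_).le⟩
  refine (dist_pi_lt_iff hδ).2 fun i => ?_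
  have a1 := abs_lt.1 (shadow_mem_pt.1 hv i)
  have a2 := abs_lt.1 (shadow_mem_pt.1 hw i)
  have a3 : (v i : ℕ) ≤ w i + 1 ∧ (w i : ℕ) ≤ v i + 1 := by
    rcases hvw with rfl | ⟨-, h2 | h2⟩
    · omega
    all_goals
      have := h2 i
      omega
  have a4 : ((v i : ℕ) : ℝ) ≤ (w i : ℕ) + 1 := by exact_mod_cast a3.1
  have a5 : ((w i : ℕ) : ℝ) ≤ (v i : ℕ) + 1 := by exact_mod_cast a3.2
  rw [Real.dist_eq, abs_lt]
  constructor <;> refine lt_of_mul_lt_mul_left ?_ (Nat.cast_nonneg n) <;>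
    linarith [a1.1, a1.2, a2.1, a2.2]

end KCC
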