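import Pool.Agent.Lib.MP_e1e491_gt.CC.Met

/-! Frames of charts. -/

namespace KCC

open Set Metric KP2 MeasureTheory Filter Topology
open scoped Classical Pointwise NNReal

variable {Z : Type} [MetricSpace Z]

theorem framec_inv {e : Pl → Z} (he : IsOpenEmbedding e) : ∃ δ > 0, ∀ z ∈ QQ, ∀ w ∈ QQ, ∀ i,
    1 / 100 ≤ |z i - w i| → δ ≤ dist (e z) (e w) := by
  have hc : IsCompact ((QQ ×ˢ QQ) ∩ {p : Pl × Pl | 1 / 100 ≤ dist p.1 p.2}) :=
    (isCompact_Icc.prod isCompact_Icc).inter_right (isClosed_le continuous_const continuous_dist)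
  have hcont := he.continuous
  obtain ⟨δ, h1, h2⟩ := hc.exists_forall_le' (f := fun p => dist (e p.1) (e p.2)) (a := 0)
    (by fun_prop) fun p hp => dist_pos.2 fun h => by
      have h3 : (1 / 100 : ℝ) ≤ dist p.1 p.2 := hp.2
      rw [he.injective h, dist_self] at h3
      norm_num at h3
  exact ⟨δ, h1, fun z hz w hw i h => h2 (z, w) ⟨⟨hz, hw⟩, h.trans (dist_le_pi_dist z w i)⟩⟩

theorem framec_thick {K O : Set Z} (hK : IsCompact K) (hO : IsOpen O) (h : K ⊆ O) :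
    ∃ δ > 0, ∀ x ∈ K, closedBall x δ ⊆ O := by
  obtain ⟨δ, h1, h2⟩ := hK.exists_cthickening_subset_open hO h
  exact ⟨δ, h1, fun x hx => (closedBall_subset_cthickening hx δ).trans h2⟩

theorem framec_open (a b : ℝ) : IsOpen {z : Pl | ∀ i, a < z i ∧ z i < b} := by
  rw [ofPred_forall]
  exact isOpen_iInter_of_finite fun i => isOpen_Ioo.preimage (continuous_apply i)

theorem framec_QQ {z : Pl} (h : z ∈ oQ) : z ∈ QQ := ⟨fun i => (h i).1.le, fun i => (h i).2.le⟩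

theorem framec_far {e : Pl → Z} {δ δ' : ℝ} (h : ∀ z ∈ QQ, ∀ w ∈ QQ, ∀ i,
    1 / 100 ≤ |z i - w i| → δ' ≤ dist (e z) (e w)) (hδ : δ ≤ δ') {z : Pl} (hz : z ∈ QQ) {i b : Bool}
    (h1 : b = false → 41 / 100 ≤ z i) (h2 : b = true → z i ≤ 59 / 100) :
    (frameOf e δ).Far i b (e z) := by
  rintro _ ⟨w, ⟨hw, hw'⟩, rfl⟩
  refine hδ.trans (h z hz w hw i ?_)
  cases b
  · have h3 : w i ≤ 2 / 5 := by simpa using hw'
    exact le_abs.2 (Or.inl (by linarith [h1 rfl]))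
  · have h3 : 3 / 5 ≤ w i := by simpa using hw'
    exact le_abs.2 (Or.inr (by linarith [h2 rfl]))

theorem frame_ok {e : Pl → Z} (he : IsOpenEmbedding e) (hq : ∃ q, q ∉ range e) :
    ∃ δ₀ > 0, ∀ δ, 0 < δ → δ ≤ δ₀ → (frameOf e δ).OK ∧
      ∀ z ∈ QQ, 9 / 20 ≤ z true → z true ≤ 11 / 20 → ∀ b, (frameOf e δ).Far true b (e z) := by
  obtain ⟨δ1, p1, h1⟩ := framec_inv he
  have hK0 : IsCompact (e '' Icc (fun _ => 39 / 100) fun _ => 61 / 100) :=
    isCompact_Icc.image he.continuous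
  have hsub : (Icc (fun _ => 39 / 100) fun _ => 61 / 100 : Set Pl) ⊆ oQ := fun z hz i =>
    ⟨by linarith [hz.1 i], by linarith [hz.2 i]⟩
  obtain ⟨δ2, p2, h2⟩ := framec_thick hK0 (he.isOpenMap oQ (framec_open 0 1)) (image_mono hsub)
  obtain ⟨lo, l0, l1⟩ : ∃ lo : Pl, lo false = 1 / 2 ∧ lo true = 1 / 4 :=
    ⟨fun i => if i then 1 / 4 else 1 / 2, by simp, by simp⟩
  obtain ⟨hi, u0, u1⟩ : ∃ hi : Pl, hi false = 1 / 2 ∧ hi true = 3 / 4 :=
    ⟨fun i => if i then 3 / 4 else 1 / 2, by simp, by simp⟩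
  have hmo : Icc lo hi ⊆ oQ := fun z hz i => by
    have a := hz.1 i
    have b := hz.2 i
    cases i <;> constructor <;> linarith
  have hlh : lo ≤ hi := fun i => by cases i <;> linarith
  have hUo : IsOpen {z : Pl | z ∈ oQ ∧ 9 / 20 < z false ∧ z false < 11 / 20} :=
    (framec_open 0 1).inter (isOpen_Ioo.preimage (continuous_apply false))
  obtain ⟨δ3, p3, h3⟩ := framec_thick (K := e '' Icc lo hi) (isCompact_Icc.image he.continuous)
    (he.isOpenMap _ hUo) (image_mono fun z hz =>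
      ⟨hmo hz, by linarith [hz.1 false], by linarith [hz.2 false]⟩)
  refine ⟨min (min δ1 δ2) (min (δ3 / 2) 1), by positivity, fun δ hδ hle => ?_⟩
  have d1 : δ ≤ δ1 := hle.trans ((min_le_left _ _).trans (min_le_left _ _))
  have d2 : δ ≤ δ2 := hle.trans ((min_le_left _ _).trans (min_le_right _ _))
  have d3 : δ ≤ δ3 / 2 := hle.trans ((min_le_right _ _).trans (min_le_left _ _))
  have d4 : δ ≤ 1 := hle.trans ((min_le_right _ _).trans (min_le_right _ _))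
  have hin : ∀ z ∈ oQ, e z ∉ (frameOf e δ).Out → ∀ i, 39 / 100 < z i ∧ z i < 61 / 100 :=
    fun z hz h i => ⟨lt_of_not_ge fun k => h ⟨z, ⟨hz, i, Or.inl k⟩, rfl⟩,
      lt_of_not_ge fun k => h ⟨z, ⟨hz, i, Or.inr k⟩, rfl⟩⟩
  refine ⟨⟨hδ, d4, image_mono fun z hz => hz.1, ?_, ?_, ?_, ⟨e '' Icc lo hi, ⟨?_, image_mono hmo,
    ?_, fun b => ?_⟩, fun x hx => ?_⟩, ?_, ?_⟩, fun z hz a b c =>
    framec_far h1 d1 hz (fun _ => by linarith) fun _ => by linarith⟩
  · rintro _ ⟨z, ⟨hz, a, b⟩, rfl⟩ c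
    exact framec_far h1 d1 (framec_QQ hz) (fun _ => by linarith) fun _ => by linarith
  · rintro i _ ⟨z, ⟨hz, a⟩, rfl⟩
    have h4 : z i ≤ 2 / 5 := by simpa using a
    exact framec_far h1 d1 hz (fun k => by simp at k) fun _ => by linarith
  · rintro _ ⟨z, hz, rfl⟩ h
    exact (closedBall_subset_closedBall d2).trans
      (h2 _ ⟨z, ⟨fun i => (hin z hz h i).1.le, fun i => (hin z hz h i).2.le⟩, rfl⟩)
  · exact (convex_Icc lo hi).isPreconnected.image e he.continuous.continuousOn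
  · rintro _ ⟨z, hz, rfl⟩ c
    exact framec_far h1 d1 (framec_QQ (hmo hz)) (i := false) (fun _ => by linarith [hz.1 false])
      fun _ => by linarith [hz.2 false]
  · cases b
    · have a : lo ∈ Icc lo hi := left_mem_Icc.2 hlh
      exact ⟨e lo, ⟨lo, a, rfl⟩, ⟨lo, ⟨hmo a, true, Or.inl (by linarith)⟩, rfl⟩,
        framec_far h1 d1 (framec_QQ (hmo a)) (fun k => by simp at k) fun _ => by linarith⟩
    · have a : hi ∈ Icc lo hi := right_mem_Icc.2 hlh
      exact ⟨e hi, ⟨hi, a, rfl⟩, ⟨hi, ⟨hmo a, true, Or.inr (by linarith)⟩, rfl⟩,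
        framec_far h1 d1 (framec_QQ (hmo a)) (fun _ => by linarith) fun k => by simp at k⟩
  · exact (closedBall_subset_closedBall (show 2 * δ ≤ δ3 by linarith)).trans (h3 x hx)
  · rintro S _ y hj ⟨z, hz, rfl⟩ hy
    by_cases ho : e z ∈ (frameOf e δ).Out
    · exact ⟨{e z}, singleton_subset_iff.2 ⟨hj.source_mem, z, hz, rfl⟩, isPreconnected_singleton,
        rfl, e z, rfl, ho⟩
    have hb : {z : Pl | ∀ i, 39 / 100 < z i ∧ z i < 61 / 100} ⊆
        Icc (fun _ => 39 / 100) fun _ => 61 / 100 := fun w hw =>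
      ⟨fun i => (hw i).1.le, fun i => (hw i).2.le⟩
    obtain ⟨E, e1, e2, e3, w, e4, e5⟩ := first_exit hj
      (he.isOpenMap _ (framec_open (39 / 100) (61 / 100))) ⟨z, hin z hz ho, rfl⟩
      fun k => hy (image_mono (hb.trans hsub) k)
    have hcl := closure_minimal (image_mono (f := e) hb) hK0.isClosed
    refine ⟨E, fun v hv => ⟨(e1 hv).1, image_mono hsub (hcl (e1 hv).2)⟩, e2, e3, w, e4, ?_⟩
    obtain ⟨z', hz', rfl⟩ := hcl (e1 e4).2
    by_contra k
    exact e5 ⟨z', hin z' (hsub hz') k, rfl⟩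
  · obtain ⟨q, hq⟩ := hq
    exact ⟨q, fun k => hq (image_subset_range _ _ k)⟩

end KCC
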