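import Pool.Agent.Lib.MP_e1e491_gt.CC.Met
import Pool.Agent.Lib.MP_e1e491_gt.P2.QS

/-! The local limit map. -/

namespace KCC

open Set Metric KP2 MeasureTheory Filter Topology
open scoped Classical Pointwise NNReal

variable {Z : Type} [MetricSpace Z] [CompactSpace Z]

theorem lim_cen {H p p' : Pl} {a b : ℝ} (h : Cen H a p) (hd : dist p p' ≤ a - b) : Cen H b p' := by
  intro i
  have h1 := abs_le.1 ((Real.dist_eq _ _).symm.trans_le ((dist_le_pi_dist p p' i).trans hd))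
  constructor <;> linarith [(h i).1, (h i).2, h1.1, h1.2]

theorem exists_locqs_of_seq [PreconnectedSpace Z] (f : ℕ → Z → Pl) (H : ℕ → Pl) {c K : ℝ}
    (hc : 0 < c) (hf : ∀ k x, ‖f k x‖ ≤ K) (hH : ∀ k, ‖H k‖ ≤ K)
    (h1 : ∀ᶠ k in atTop, ∃ x, Cen (H k) (3 * c) (f k x))
    (h2 : ∀ a > 0, ∃ ε > 0, ∀ᶠ k in atTop, ∀ x y, Cen (H k) c (f k x) → dist x y ≤ ε →
      dist (f k x) (f k y) ≤ a)
    (h3 : ∀ a > 0, ∃ ε > 0, ∀ x y z : Z, x ≠ z → dist x y ≤ ε * dist x z → ∀ᶠ k in atTop,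
      Cen (H k) c (f k x) → Cen (H k) c (f k z) → dist (f k x) (f k y) ≤ a * dist (f k x) (f k z))
    (h4 : ∃ q, ∀ k, ¬ Cen (H k) c (f k q)) : ∃ (g : Z → Pl) (z₀ : Z) (ε : ℝ), 0 < ε ∧
      LocQS g z₀ ε := by
  have _ := hH
  obtain ⟨q, hq⟩ := h4
  have : Nonempty Z := ⟨q⟩
  have hU : (hyperfilter ℕ : Filter ℕ) ≤ atTop := Nat.hyperfilter_le_atTop
  have h5 : ∀ x, ∃ z ∈ closedBall (0 : Pl) K,
      Tendsto (fun n => f n x) (hyperfilter ℕ : Filter ℕ) (𝓝 z) := fun x =>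
    (isCompact_closedBall (0 : Pl) K).ultrafilter_le_nhds ((hyperfilter ℕ).map fun n => f n x)
      (le_principal_iff.2 (mem_map.2
        (Eventually.of_forall fun n => mem_closedBall_zero_iff.2 (hf n x))))
  choose g hg ht using h5
  obtain ⟨u, hu⟩ := h1.choice
  obtain ⟨z₀, -, hz⟩ := isCompact_univ.ultrafilter_le_nhds ((hyperfilter ℕ).map u) (by simp)
  have hz' : Tendsto u (hyperfilter ℕ : Filter ℕ) (𝓝 z₀) := hz
  obtain ⟨ε₀, hε₀, h6⟩ := h2 c hc
  have h7 : ∀ y ∈ ball z₀ (ε₀ / 2), ∀ᶠ k in (hyperfilter ℕ : Filter ℕ),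
      Cen (H k) (2 * c) (f k y) := by
    intro y hy
    filter_upwards [hU hu, hU h6, hz'.eventually (ball_mem_nhds z₀ (half_pos hε₀))] with k k1 k2 k3
    refine lim_cen k1 ((k2 _ y (lim_cen k1 (by rw [dist_self]; linarith)) ?_).trans (by linarith))
    linarith [dist_triangle_right (u k) y z₀, mem_ball.1 hy, mem_ball.1 k3]
  have h8 : ∀ x ∈ ball z₀ (ε₀ / 2), ∀ p, g p = g x → ∀ᶠ k in (hyperfilter ℕ : Filter ℕ),
      Cen (H k) c (f k p) := by
    intro x hx p hp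
    have e := (ht x).dist (ht p)
    rw [hp, dist_self] at e
    filter_upwards [h7 x hx, e.eventually (eventually_le_nhds hc)] with k k1 k2
    exact lim_cen k1 (by linarith)
  have h9 : ∀ a > 0, ∃ ε > 0, ∀ x y z : Z, dist x y ≤ ε * dist x z →
      (∀ᶠ k in (hyperfilter ℕ : Filter ℕ), Cen (H k) c (f k x)) →
      (∀ᶠ k in (hyperfilter ℕ : Filter ℕ), Cen (H k) c (f k z)) →
      dist (g x) (g y) ≤ a * dist (g x) (g z) := by
    intro a ha
    obtain ⟨ε, hε, h⟩ := h3 a ha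
    refine ⟨ε, hε, fun x y z hxy k1 k2 => ?_⟩
    by_cases e : x = z
    · rw [← e, dist_self, mul_zero, dist_le_zero] at hxy
      rw [← e, ← hxy, dist_self, mul_zero]
    · refine le_of_tendsto_of_tendsto ((ht x).dist (ht y)) (((ht x).dist (ht z)).const_mul a) ?_
      filter_upwards [hU (h x y z e hxy), k1, k2] with k k3 k4 k5 using k3 k4 k5
  refine ⟨g, z₀, ε₀ / 2, half_pos hε₀, fun x hx z hz e => ?_, fun a ha => ?_⟩
  · by_contra hne
    have hd : 0 < dist x z := dist_pos.2 hne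
    obtain ⟨ε, hε, h⟩ := h9 1 one_pos
    have step : ∀ p y, g p = g x → dist p y < ε * (dist x z / 2) → g y = g x := by
      intro p y hp hy
      obtain ⟨w, hw, hw1, hw2⟩ : ∃ w ∈ ball z₀ (ε₀ / 2), g w = g x ∧ dist x z / 2 ≤ dist p w := by
        by_cases k : dist x z / 2 ≤ dist p x
        · exact ⟨x, hx, rfl, k⟩
        · exact ⟨z, hz, e.symm, by linarith [not_le.1 k, dist_triangle_left x z p]⟩
      have k := h p y w (hy.le.trans (mul_le_mul_of_nonneg_left hw2 hε.le)) (h8 x hx p hp)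
        (h8 w hw w rfl)
      rw [hp, hw1, dist_self, mul_zero, dist_le_zero] at k
      exact k.symm
    have hτ : 0 < ε * (dist x z / 2) := by positivity
    have hA : IsClopen {p | g p = g x} :=
      ⟨⟨Metric.isOpen_iff.2 fun p hp => ⟨_, hτ, fun y hy k => hp (step y p k (mem_ball.1 hy))⟩⟩,
        Metric.isOpen_iff.2 fun p hp => ⟨_, hτ, fun y hy => step p y hp (mem_ball'.1 hy)⟩⟩
    have hq' : q ∈ {p | g p = g x} := by
      rw [hA.eq_univ ⟨x, rfl⟩]
      exact mem_univ q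
    obtain ⟨k, hk⟩ := (h8 x hx q hq').exists
    exact hq k hk
  · obtain ⟨ε, hε, h⟩ := h9 a ha
    exact ⟨ε, hε, fun x hx z hz y hy => h x y z hy (h8 x hx x rfl) (h8 z hz z rfl)⟩

omit [CompactSpace Z] in
theorem LocQS.mono {g : Z → Pl} {z₀ z₁ : Z} {ε ε' : ℝ} (h : LocQS g z₀ ε)
    (hs : ball z₁ ε' ⊆ ball z₀ ε) : LocQS g z₁ ε' := by
  refine ⟨h.1.mono hs, fun δ hδ => ?_⟩
  obtain ⟨e, he, k⟩ := h.2 δ hδ
  exact ⟨e, he, fun x hx z hz => k x (hs hx) z (hs hz)⟩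

omit [CompactSpace Z] in
/-- The chain argument near `z₀`. -/
theorem LocQS.bounded {lam : ℝ} (hl : LL Z lam) (hD : Dbl Z) {g : Z → Pl} {z₀ : Z} {ε : ℝ}
    (hε : 0 < ε) (h : LocQS g z₀ ε) (T : ℝ) : ∃ H : ℝ, ∃ ε' > 0, ∀ x ∈ ball z₀ ε',
      ∀ z ∈ ball z₀ ε', ∀ y, dist x y ≤ T * dist x z →
        dist (g x) (g y) ≤ H * dist (g x) (g z) := by
  obtain ⟨C, p, -, -, hP⟩ := hD.pack
  obtain ⟨ε₁, hε₁, h1⟩ := h.2 1 one_pos
  obtain ⟨e, he0, he1, he2⟩ : ∃ e : ℝ, 0 < e ∧ e ≤ 1 ∧ e ≤ ε₁ :=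
    ⟨min 1 ε₁, lt_min one_pos hε₁, min_le_left _ _, min_le_right _ _⟩
  obtain ⟨T', hT1, hT2⟩ : ∃ T' : ℝ, 1 ≤ T' ∧ T ≤ T' := ⟨max 1 T, le_max_left _ _, le_max_right _ _⟩
  obtain ⟨M, hM⟩ := exists_nat_ge (2 * (C * (lam * T' / (e / 2)) ^ p))
  have hM0 : (0 : ℝ) ≤ M := Nat.cast_nonneg M
  obtain ⟨ε', hε', e'⟩ : ∃ ε' : ℝ, 0 < ε' ∧ (2 * M + 1) * ε' = ε :=
    ⟨ε / (2 * M + 1), by positivity, by field_simp⟩
  have hsub : ball z₀ ε' ⊆ ball z₀ ε := ball_subset_ball (by nlinarith)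
  refine ⟨2 ^ M, ε', hε', fun x hx z hz y hxy => ?_⟩
  rcases (dist_nonneg (x := x) (y := z)).eq_or_lt with hd | hd
  · rw [← hd, mul_zero] at hxy
    rw [dist_le_zero.1 hxy, dist_self]
    positivity
  obtain ⟨E, hE, hxE, hyE, hb⟩ := hl.three x y
  have hCT : 1 ≤ lam * T' := one_le_mul_of_one_le_of_one_le hl.one_le hT1
  obtain ⟨N, q, hN, h0, hn, hq⟩ := exists_chain (R := lam * T' * dist x z) (τ := e / 2 * dist x z)
    hP (by positivity) (mul_le_mul_of_nonneg_right (by linarith) hd.le) hE hxE hyE fun w hw =>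
      (hb w hw).trans (by
        rw [mul_assoc]
        exact mul_le_mul_of_nonneg_left (hxy.trans (mul_le_mul_of_nonneg_right hT2 hd.le))
          (zero_le_one.trans hl.one_le))
  rw [mul_div_mul_right _ _ hd.ne'] at hN
  have h12 : N ≤ M := by exact_mod_cast hN.trans hM
  have hxz : dist x z ≤ 2 * ε' := by
    linarith [dist_triangle_right x z z₀, mem_ball.1 hx, mem_ball.1 hz]
  have h2 : ∀ n ≤ N, dist x (q n) ≤ n * (2 * ε') ∧
      dist (g x) (g (q n)) ≤ (2 ^ n - 1) * dist (g x) (g z) := by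
    intro n
    induction n with
    | zero => intro _; simp [h0]
    | succ n ih =>
      intro hn'
      obtain ⟨h3', h3⟩ := ih (Nat.le_of_succ_le hn')
      have h4 := hq n hn'
      have hnM : (n : ℝ) ≤ M := by exact_mod_cast (by omega : n ≤ M)
      have hqn : q n ∈ ball z₀ ε := by
        rw [mem_ball]
        nlinarith [dist_triangle_left (q n) z₀ x, mem_ball.1 hx]
      have h5 : ∀ w ∈ ball z₀ ε', dist x z / 2 ≤ dist (q n) w →
          dist (g (q n)) (g (q (n + 1))) ≤ dist (g (q n)) (g w) := by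
        intro w hw' hw
        have h6 := h1 (q n) hqn w (hsub hw') (q (n + 1)) (h4.trans (by
          calc e / 2 * dist x z = e * (dist x z / 2) := by ring
            _ ≤ ε₁ * dist (q n) w := mul_le_mul he2 hw (by positivity) hε₁.le))
        rwa [one_mul] at h6
      have h7 : dist (g (q n)) (g (q (n + 1))) ≤ dist (g x) (g (q n)) + dist (g x) (g z) := by
        by_cases h8 : dist x z / 2 ≤ dist (q n) x
        · have h9 := h5 x hx h8
          rw [dist_comm (g (q n)) (g x)] at h9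
          linarith [dist_nonneg (x := g x) (y := g z)]
        · have h9 := dist_triangle_left x z (q n)
          exact (h5 z hz (by linarith [not_le.1 h8])).trans (dist_triangle_left _ _ _)
      have h10 := dist_triangle (g x) (g (q n)) (g (q (n + 1)))
      refine ⟨?_, by rw [pow_succ]; linarith⟩
      push_cast
      nlinarith [dist_triangle x (q n) (q (n + 1))]
  have h11 := (h2 N le_rfl).2
  rw [hn] at h11
  refine h11.trans (mul_le_mul_of_nonneg_right ?_ dist_nonneg)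
  linarith [pow_le_pow_right₀ (one_le_two (α := ℝ)) h12]

end KCC
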