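import Pool.Agent.Lib.MP_e1e491_gt.CC.Disc
import Pool.Agent.Lib.MP_e1e491_gt.CC.Lim

/-! Bounded modulus gives a local quasisymmetric map. -/

namespace KCC

open Set Metric KP2 MeasureTheory Filter Topology
open scoped Classical Pointwise NNReal

variable {Z : Type} [MetricSpace Z] [CompactSpace Z]

theorem loc_small (A : ℝ) {ε : ℝ} (hε : 0 < ε) (n : ℕ) : ∀ᶠ k in atTop, A * rr (k + n) ≤ ε := by
  have h1 : Tendsto rr atTop (𝓝 0) :=
    tendsto_pow_atTop_nhds_zero_of_lt_one (by norm_num) (by norm_num)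
  have h2 := (h1.comp (tendsto_add_atTop_nat n)).const_mul A
  rw [mul_zero] at h2
  exact h2.eventually (eventually_le_nhds hε)

theorem exists_locqs {B d δ lam : ℝ} (hL : LL Z lam) (hD : Dbl Z) (hB : 1 ≤ B)
    (hA : Atlas Z d B δ) (hS : SSH Z B d) (h : ∃ b, ∀ k, Md Z B d k ≤ b) :
    ∃ (g : Z → Pl) (z₀ : Z) (ε : ℝ), 0 < ε ∧ LocQS g z₀ ε := by
  obtain ⟨ι, _, ⟨i⟩, F, hF, -⟩ := hA
  obtain ⟨ok, hδ, r₀, hr₀, hG⟩ := hF i
  obtain ⟨C, -, hC⟩ := hS
  obtain ⟨b, hb⟩ := h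
  have δ0 : 0 < δ := hδ ▸ ok.δ_pos
  obtain ⟨n, hn⟩ := eventually_atTop.1 ((loc_small 1 hr₀ 0).and
    ((loc_small (10 * lam ^ 2 * B) δ0 0).and (loc_small C (ε := δ / 6) (by positivity) 0)))
  have hT : ∀ k, Nonempty (TS (F i) (net Z (k + n)) B (rr (k + n)) lam) := fun k => by
    obtain ⟨k1, k2, -⟩ := hn (k + n) (Nat.le_add_left _ _)
    rw [add_zero] at k1 k2
    obtain ⟨A⟩ := hG _ (rr_pos _) (by linarith) _ (net_isNet Z (k + n))
    exact exists_ts A ok hL (net_isNet Z _).1 (rr_pos _) hB (by rw [hδ]; linarith)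
  let T := fun k => (hT k).some
  have sh : ∀ k, Shell (T k).G (C * (b + 1)) (C * rr (k + n)) := fun k =>
    hC _ b (fun j _ => hb j) _ fun v w e => (T k).adjG e
  obtain ⟨K, K1, hK⟩ := ts_height (Z := Z) δ0 (C * (b + 1))
  have hH : ∀ k j, (T k).H j ≤ K := fun k j =>
    (hK _ _ _ _ _ _ (T k) hδ (sh k) (hn (k + n) (Nat.le_add_left _ _)).2.2 j).1
  have K0 : 0 ≤ K := zero_le_one.trans K1
  obtain ⟨c, hc, ε, hε, hce⟩ := ts_centre (Z := Z) δ0 (C * (b + 1))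
  have := hL.preconnected
  refine exists_locqs_of_seq (fun k => (T k).f) (fun k => (T k).H) (K := K) hc
    (fun k x => (pi_norm_le_iff_of_nonneg K0).2 fun j => ?_)
    (fun k => (pi_norm_le_iff_of_nonneg K0).2 fun j => ?_) ?_ (fun a ha => ?_) (fun a ha => ?_) ?_
  · rw [Real.norm_of_nonneg ((T k).f_mem x j).1]
    exact ((T k).f_mem x j).2.trans (hH k j)
  · rw [Real.norm_of_nonneg ((T k).til.H_pos j).le]
    exact hH k j
  · filter_upwards [loc_small C hε n] with k hk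
    exact hce _ _ _ _ _ _ (T k) hδ (sh k) hk
  · obtain ⟨e, he, h1⟩ := ts_near (Z := Z) δ0 (C * (b + 1)) lam hc ha
    refine ⟨e, he, ?_⟩
    filter_upwards [loc_small C he n, loc_small B he n] with k k1 k2 x y hx hxy
    obtain ⟨v, hv⟩ := (T k).free_of_cen hc hx
    exact (h1 _ _ _ _ _ (T k) hδ (sh k) k1 k2 x y v hv hx hxy).1
  · obtain ⟨e, he, h1⟩ := ts_disc hD δ0 (C * (b + 1)) B lam hc ha
    refine ⟨e, he, fun x y z hxz hxy => ?_⟩
    obtain ⟨r₁, hr₁, h2⟩ := h1 x y z hxz hxy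
    filter_upwards [loc_small C hr₁ n, loc_small B hr₁ n] with k k1 k2
    exact h2 _ _ _ _ (T k) hδ (sh k) k1 k2
  · obtain ⟨q, hq⟩ := ok.ext
    refine ⟨q, fun k hk => hq ?_⟩
    obtain ⟨v, hv⟩ := (T k).free_of_cen hc hk
    exact ((T k).inn q v hv).1

end KCC
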