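import Pool.Agent.Lib.MP_e1e491_gt.CcTop
import Pool.Agent.Lib.MP_fcccf2_gt.Lower

/-! An injective continuous self-map of the sphere is onto. -/

namespace KCC

open Set Metric
open scoped Classical

theorem surj_of_inj {f : KKC.Sph → KKC.Sph} (hc : Continuous f) (hi : Function.Injective f) :
    Function.Surjective f := by
  intro y
  by_contra hy
  push Not at hy
  obtain ⟨e⟩ := KKC.sph_compl_homeo y
  let φ : KKC.Sph → EuclideanSpace ℝ (Fin 2) := fun x => e ⟨f x, hy x⟩
  have hφ : Continuous φ := e.continuous.comp (hc.subtype_mk _)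
  have hφi : Function.Injective φ := fun a b h => hi (congrArg Subtype.val (e.injective h))
  let ψ : EuclideanSpace ℝ (Fin 3) → Fin 2 → ℝ := fun x =>
    if h : x ∈ sphere (0 : EuclideanSpace ℝ (Fin 3)) 1 then fun i => φ ⟨x, h⟩ i else 0
  have hψ : ContinuousOn ψ (sphere 0 1) := by
    rw [continuousOn_iff_continuous_restrict]
    have h : Continuous fun (x : KKC.Sph) (i : Fin 2) => φ x i := by fun_prop
    refine h.congr fun x => ?_
    change _ = ψ x.1
    simp only [ψ, dif_pos x.2]
  obtain ⟨x, hx, h0⟩ := Pool.Agent.Lib.MP_fcccf2_gt.borsuk_ulam 2 2 two_pos le_rfl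
    (fun x => ψ x - ψ (-x))
    (hψ.sub (hψ.comp continuous_neg.continuousOn fun x hx => by simpa using hx))
    (fun x => by simp)
  have h1 : x ∈ sphere (0 : EuclideanSpace ℝ (Fin 3)) 1 := by simpa using hx
  have h2 : -x ∈ sphere (0 : EuclideanSpace ℝ (Fin 3)) 1 := by simpa using hx
  have h3 : φ ⟨x, h1⟩ = φ ⟨-x, h2⟩ := by
    ext i
    have := congrFun (sub_eq_zero.1 h0) i
    simpa only [ψ, dif_pos h1, dif_pos h2] using this
  have h4 : x = -x := congrArg Subtype.val (hφi h3)
  have h5 : x = 0 := by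
    have : (2 : ℝ) • x = 0 := by rw [two_smul]; nth_rewrite 2 [h4]; simp
    simpa using this
  simp [h5] at hx

end KCC
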