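import Pool.Agent.Lib.MP_e1e491_gt.CC.Top
import Pool.Agent.Lib.MP_e1e491_gt.CC.LLC
import Pool.Agent.Lib.MP_e1e491_gt.CC.Atl
import Pool.Agent.Lib.MP_e1e491_gt.CC.BGC
import Pool.Agent.Lib.MP_e1e491_gt.CC.Low
import Pool.Agent.Lib.MP_e1e491_gt.CC.Centre
import Pool.Agent.Lib.MP_e1e491_gt.CC.End
import Pool.Agent.Lib.MP_e1e491_gt.CC.Loc
import Pool.Agent.Lib.MP_e1e491_gt.CC.Blow
import Pool.Agent.Lib.MP_e1e491_gt.CC.Chord
import Pool.Agent.Lib.MP_e1e491_gt.P2.Eta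
import Pool.Agent.Lib.MP_e1e491_gt.CC.Surj

/-! The sphere case. -/

namespace KCC

open Set Metric KP2 MeasureTheory Filter Topology
open scoped Classical Pointwise NNReal

variable {G Z : Type} [Group G] [MetricSpace Z] [MulAction G Z]

theorem exists_wqs_sphere (H : KKC.HB G Z) (φ : Z ≃ₜ S2) :
    ∃ f : Z → S2, WQS f ∧ Function.Injective f := by
  have : CompactSpace Z := φ.symm.compactSpace
  have := lpc_of_homeo φ
  have := infinite_of_homeo φ
  obtain ⟨lam, hl⟩ := ll_of_hb H (pc_of_homeo φ) (pc_compl_of_homeo φ)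
  have hD := dbl_of_hb H
  obtain ⟨B, hB, hg⟩ := exists_bg hl hD
  obtain ⟨C₀, hC₀, hr⟩ := resc_of_hb H
  have hS := ssh_of_resc hl hD hB hC₀ hr
  obtain ⟨δ, hδ, hA⟩ := exists_atlas (charts_of_homeo φ) (B := B) (d := 1 / C₀) (by positivity) hg
  have hb : ∃ b, ∀ k, Md Z B (1 / C₀) k ≤ b := by
    by_contra hn
    obtain ⟨C, hC, hf⟩ := exists_fan hl hD hB hA hS hn
    obtain ⟨W, L, J, hL, hT, hv, hJ⟩ := exists_ws H
    obtain ⟨Φ, η, h1, h2, h3, h4⟩ := no_fan hl hD W hT hC hδ (centre_of_hb H hl hL hv hJ C hδ)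
    obtain ⟨U, ⟨T⟩⟩ := hf Φ h1 h2 η h3
    exact (h4 U).false T
  obtain ⟨g, z₀, ε, hε, hq⟩ := exists_locqs hl hD hB hA hS hb
  obtain ⟨F, y, hF⟩ := exists_qm hl hD hε hq (zoom_of_hb H z₀)
  obtain ⟨f, hf, hn⟩ := hF.exists_sqs
  obtain ⟨C, p, hC, hp, hP⟩ := hD.pack
  have hw : WQS f := by
    refine wqs_of_small (C := max C lam) (p := p) ?_ hp (hC.trans (le_max_left _ _)) ?_ hf
    · intro r R h1 h2 ξ T h3 h4
      refine (hP r R h1 h2 ξ T h3 h4).trans (mul_le_mul_of_nonneg_right (le_max_left _ _) ?_)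
      have : 0 ≤ R / r := div_nonneg (h1.le.trans h2) h1.le
      positivity
    · intro a b
      obtain ⟨E, e1, e2, e3, e4⟩ := hl.three a b
      exact ⟨E, e1, e2, e3, fun w hw =>
        (e4 w hw).trans (mul_le_mul_of_nonneg_right (le_max_right _ _) dist_nonneg)⟩
  exact ⟨f, hw, hw.injective hn⟩

theorem sphere_qs (H : KKC.HB G Z) (φ : Z ≃ₜ S2) :
    ∃ (f : Z → sphere (0 : EuclideanSpace ℝ (Fin 3)) 1) (η : ℝ≥0 ≃ₜ ℝ≥0),
      IsEmbedding f ∧ KKC.IsQS η f ∧ ∀ x y z : Z, z ≠ x →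
        InnerProductGeometry.angle (f x).1 (f y).1 / InnerProductGeometry.angle (f x).1 (f z).1 ≤
          η (nndist x y / nndist x z) := by
  have : CompactSpace Z := φ.symm.compactSpace
  obtain ⟨f, hw, hinj⟩ := exists_wqs_sphere H φ
  obtain ⟨η, hη⟩ := hw.exists_eta two_pos
  have hpos : ∀ x z, z ≠ x → 0 < dist (f x) (f z) := fun x z h =>
    dist_pos.2 fun e => h (hinj e).symm
  refine ⟨f, η, (hw.continuous.isClosedEmbedding hinj).isEmbedding, fun x y z h => ?_,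
    fun x y z h => ?_⟩
  · rw [← NNReal.coe_le_coe, NNReal.coe_div, coe_nndist, coe_nndist, div_le_iff₀ (hpos x z h)]
    have := hη x y z h
    have h0 : 0 ≤ dist (f x) (f y) := dist_nonneg
    linarith
  · have h1 := (angle_le (f x) (f y)).2
    have h2 := (angle_le (f x) (f z)).1
    rw [div_le_iff₀ ((hpos x z h).trans_le h2)]
    exact h1.trans ((hη x y z h).trans (mul_le_mul_of_nonneg_left h2 (NNReal.coe_nonneg _)))

theorem sphere_qs_homeo (H : KKC.HB G Z) (φ : Z ≃ₜ S2) :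
    ∃ (f : Z ≃ₜ sphere (0 : EuclideanSpace ℝ (Fin 3)) 1) (η : ℝ≥0 ≃ₜ ℝ≥0),
      KKC.IsQS η f ∧ ∀ x y z : Z, z ≠ x →
        InnerProductGeometry.angle (f x).1 (f y).1 / InnerProductGeometry.angle (f x).1 (f z).1 ≤
          η (nndist x y / nndist x z) := by
  obtain ⟨f, η, h1, h2, h3⟩ := sphere_qs H φ
  have hs : Function.Surjective f :=
    (surj_of_inj (f := f ∘ φ.symm) (h1.continuous.comp φ.symm.continuous)
      (h1.injective.comp φ.symm.injective)).of_comp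
  exact ⟨h1.toHomeomorphOfSurjective hs, η, h2, h3⟩

end KCC
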