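import Pool.Agent.Lib.MP_e1e491_gt.CC.Sel

/-! The case without a pinch. -/

namespace KCC

open Set Metric KP2 MeasureTheory Filter Topology
open scoped Classical Pointwise NNReal

variable {Z ι : Type} [MetricSpace Z]

theorem nopinch_pow (x : ℝ) (n : ℕ) : ∃ k : ℕ, n ≤ k ∧ x ≤ 2 ^ k := by
  obtain ⟨k, hk⟩ := pow_unbounded_of_one_lt x (one_lt_two (α := ℝ))
  exact ⟨max n k, le_max_left _ _,
    hk.le.trans (pow_le_pow_right₀ one_le_two (le_max_right _ _))⟩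

theorem nopinch (W : WS Z ι) {C Λ : ℝ} (hC : 1 ≤ C) (hΛ : 2 * (C + 2) ≤ Λ) (K : ℝ) {N : ℕ → ℕ}
    (hN : Summable fun s => (N s : ℝ) / 2 ^ s) : ∃ (s₀ : ℕ) (c θ κ : ℝ), 0 < c ∧ 0 < θ ∧ 0 < κ ∧
    ∀ (Φ : Set (Z → Z)) (U : Set Z) (δ η : ℝ) (T : Fan Φ U C δ η) (z : Z) (ρ D : ℝ), 0 < η →
      η ≤ κ * ρ → η ≤ θ * D → ρ ≤ 1 → W.Thick z ρ → closedBall z (Λ * ρ) ⊆ U → Osc T.u z ρ D →
      W.Few T.u N s₀ (C + 2) (c * D) z ρ → Split T.u Λ θ κ K z ρ D := by
  have hA := W.one_le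
  obtain ⟨e, -, he⟩ := nopinch_pow (max (4 * W.A + 2) (2 * Λ * W.A + 1)) 0
  have he1 : 4 * W.A + 2 ≤ 2 ^ e := (le_max_left _ _).trans he
  have he2 : 2 * Λ * W.A + 1 ≤ 2 ^ e := (le_max_right _ _).trans he
  have hE : (0 : ℝ) < 2 ^ e := by positivity
  obtain ⟨m₀, hm₀⟩ := exists_tail hN (ε := 1 / (4 * 2 ^ e)) (by positivity)
  obtain ⟨m', hm1, hm2⟩ := nopinch_pow (256 * K) m₀
  obtain ⟨c₀, hc₀, hlev⟩ := W.levels (C + 2) (e + m')
  obtain ⟨t, -, ht⟩ := nopinch_pow (4 * K / c₀ ^ 2) 0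
  obtain ⟨c, hc, hlev⟩ := hlev (e + m' + t)
  refine ⟨e + m' + t, c, min (1 / 16) c₀, 1 / 2 ^ (e + m' + t), hc, by positivity, by positivity,
    ?_⟩
  intro Φ U δ η T z ρ D hη hηρ hηD hρ1 hth hU ⟨p, q, hp, hq, hpq⟩ hF
  have hM : (1 : ℝ) ≤ 2 ^ m' := one_le_pow₀ one_le_two
  have hT : (1 : ℝ) ≤ 2 ^ t := one_le_pow₀ one_le_two
  have hE1 : (1 : ℝ) ≤ 2 ^ e := one_le_pow₀ one_le_two
  have hθ : 0 < min (1 / 16 : ℝ) c₀ := by positivity
  have hD : 0 < D := by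
    by_contra h
    have := mul_nonpos_of_nonneg_of_nonpos hθ.le (not_lt.1 h)
    linarith
  have hρ : 0 < ρ := by
    by_contra h
    have := mul_nonpos_of_nonneg_of_nonpos (a := (1 : ℝ) / 2 ^ (e + m' + t)) (by positivity)
      (not_lt.1 h)
    linarith
  have hη16 : η ≤ D / 16 := by
    have := mul_le_mul_of_nonneg_right (min_le_left (1 / 16 : ℝ) c₀) hD.le
    linarith
  obtain ⟨α, hα⟩ : ∃ α, α = ρ / 2 ^ (e + m' + t) := ⟨_, rfl⟩
  obtain ⟨β, hβ⟩ : ∃ β, β = ρ / 2 ^ (e + m') := ⟨_, rfl⟩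
  have hα0 : 0 < α := by rw [hα]; positivity
  have hβα : β = 2 ^ t * α := by
    rw [hα, hβ, pow_add _ (e + m') t]; field_simp
  have hρβ : ρ = 2 ^ e * 2 ^ m' * β := by
    rw [hβ, pow_add]; field_simp
  have hβ0 : 0 < β := by rw [hβ]; positivity
  have hαβ : α ≤ β := by rw [hβα]; exact le_mul_of_one_le_left hα0.le hT
  have hηα : η ≤ α := by rw [hα]; rwa [one_div, inv_mul_eq_div] at hηρ
  have hκ : 1 / 2 ^ (e + m' + t) * ρ = α := by rw [hα, one_div, inv_mul_eq_div]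
  have hEβ : 2 ^ e * β ≤ ρ := by
    rw [hρβ]
    exact mul_le_mul_of_nonneg_right (le_mul_of_one_le_right hE.le hM) hβ0.le
  have hAβ : W.A * β ≤ ρ / 4 := by
    have := mul_le_mul_of_nonneg_right he1 hβ0.le
    linarith only [this, hEβ, hβ0]
  have hβρ : β ≤ ρ := (le_mul_of_one_le_left hβ0.le hE1).trans hEβ
  have hτ : ∀ i ∈ Finset.range (2 ^ (m' + t)), C * ρ + i * (2 ^ e * α) + η ≤ (C + 1) * ρ := by
    intro i hi
    have h1 : (i : ℝ) + 1 ≤ 2 ^ (m' + t) := by exact_mod_cast Finset.mem_range.1 hi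
    have h2 : (2 : ℝ) ^ (m' + t) * (2 ^ e * α) = ρ := by
      rw [hρβ, hβα, pow_add]; ring
    have h3 : α ≤ 2 ^ e * α := le_mul_of_one_le_left hα0.le hE1
    have h4 := mul_le_mul_of_nonneg_right h1 (by positivity : (0 : ℝ) ≤ 2 ^ e * α)
    linarith only [h2, h3, h4, hηα]
  obtain ⟨a, b, ha, hb, hab, htop, htri⟩ := hlev T.u z ρ (T.u p) D (fun x => (T.u_mem x).1) hρ hρ1
    hth hD
  have hcD : 0 < c₀ * D := by positivity
  have hΛρ := mul_le_mul_of_nonneg_right hΛ hρ.le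
  have hCρ : 0 < C * ρ := by positivity
  have key : ∀ i : ℕ, ∃ y, i ∈ Finset.range (2 ^ (m' + t)) →
      (C * ρ + i * (2 ^ e * α) ≤ dist y z ∧ dist y z ≤ C * ρ + i * (2 ^ e * α) + η) ∧
      (Osc T.u y (W.A * β) (D / 8) ∨ Osc T.u y (W.A * α) (b - a) ∨
        ∃ s, e + m' ≤ s ∧ s < e + m' + t ∧ W.Tri T.u (c * D) (W.vw y (ρ / 2 ^ s))) := by
    intro i
    by_cases hi : i ∈ Finset.range (2 ^ (m' + t))
    swap
    · exact ⟨z, fun h => absurd h hi⟩
    have h1 := hτ i hi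
    obtain ⟨n, x, hx1, hx2, hx3, hx4⟩ := T.sh z ρ (C * ρ + i * (2 ^ e * α)) (T.u p + D / 16)
      (T.u p + 15 * D / 16) p q (hηα.trans (hαβ.trans hβρ))
      (le_add_of_nonneg_right (by positivity))
      ((closedBall_subset_closedBall (by linarith only [h1, hη, hΛρ, hCρ, hρ])).trans hU) hp hq
      (by linarith only [hη16]) (by linarith only [hD, hη16]) (by linarith only [hpq, hη16])
    have hx5 : ∀ j ≤ n, dist (x j) z ≤ (C + 2) * ρ := fun j hj => by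
      have := (hx1 j hj).2
      linarith only [this, h1, hρ]
    obtain ⟨j, hj, h⟩ := W.tri (u := T.u) (n := n) (m := e + m') (s₀ := e + m' + t) (x := x)
      (ρ := ρ) (a := a) (b := b) (D₁ := D / 8) (E := c * D) (Nat.le_add_right _ _) hρ hρ1
      (by linarith) (fun j hj => by rw [← hα]; exact (hx2 j hj).trans hηα) (by linarith)
      (by linarith) (fun j hj => htop _ (hx5 j hj)) (fun s hs j hj => htri s hs _ (hx5 j hj))
    rw [← hα, ← hβ] at h
    exact ⟨x j, fun _ => ⟨hx1 j hj, h⟩⟩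
  choose y hy using key
  set R := Finset.range (2 ^ (m' + t)) with hR
  set S₁ := R.filter fun i => Osc T.u (y i) (W.A * β) (D / 8) with hS₁
  set S₂ := R.filter fun i => Osc T.u (y i) (W.A * α) (b - a) with hS₂
  set S₃ := R.filter fun i => ∃ s, e + m' ≤ s ∧ s < e + m' + t ∧
    W.Tri T.u (c * D) (W.vw (y i) (ρ / 2 ^ s)) with hS₃
  have hcov : R ⊆ S₁ ∪ S₂ ∪ S₃ := fun i hi => by
    simp only [hS₁, hS₂, hS₃, Finset.mem_union, Finset.mem_filter]
    rcases (hy i hi).2 with h | h | h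
    · exact Or.inl (Or.inl ⟨hi, h⟩)
    · exact Or.inl (Or.inr ⟨hi, h⟩)
    · exact Or.inr ⟨hi, h⟩
  have hcard : (2 : ℝ) ^ m' * 2 ^ t ≤ S₁.card + S₂.card + S₃.card := by
    have h1 := (Finset.card_le_card hcov).trans ((Finset.card_union_le _ _).trans
      (Nat.add_le_add_right (Finset.card_union_le _ _) _))
    rw [hR, Finset.card_range, pow_add] at h1
    exact_mod_cast h1
  have h3 : (S₃.card : ℝ) ≤ 2 ^ m' * 2 ^ t / 2 := by
    have h1 := W.card_touched (m := e + m') (τ := C * ρ) (η := η) (I := 2 ^ (m' + t)) hρ hρ1 hF he1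
      (by rw [← hα]; exact hηα) S₃ (Finset.filter_subset _ _) fun i hi => by
        obtain ⟨hi, s, hs1, hs2, hs3⟩ := Finset.mem_filter.1 hi
        have h2 := (hy i hi).1
        have h3 := hτ i hi
        rw [← hα]
        exact ⟨y i, s, hs1, hs2, by linarith [h2.2], h2.1, h2.2, hs3⟩
    have h2 := hm₀ (e + m') (hm1.trans (Nat.le_add_left _ _)) (e + m' + t)
    refine h1.trans ((mul_le_mul_of_nonneg_left h2 (by positivity)).trans_eq ?_)
    rw [pow_add, pow_add]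
    field_simp
    ring
  have hΛ0 : 0 < Λ := by linarith
  have hΛβ : Λ * (W.A * β) ≤ Λ * (ρ / 4) := mul_le_mul_of_nonneg_left hAβ hΛ0.le
  have hAα : W.A * α ≤ W.A * β := mul_le_mul_of_nonneg_left hαβ (by linarith)
  have hΛα : Λ * (W.A * α) ≤ Λ * (W.A * β) := mul_le_mul_of_nonneg_left hAα hΛ0.le
  rcases le_total (S₂.card : ℝ) S₁.card with h12 | h12
  · obtain ⟨S', hS', hc', hq'⟩ := exists_sparse S₁ (q := 2 ^ t) (by positivity)
    have hc'' : (S₁.card : ℝ) ≤ 2 ^ t * S'.card := by exact_mod_cast hc'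
    have hS'R : ∀ i ∈ S', i ∈ R := fun i hi => (Finset.mem_filter.1 (hS' hi)).1
    refine split_of_shells (τ := C * ρ) (Δ := 2 ^ e * α) (η := η) (ρ' := W.A * β) (D' := D / 8) S'
      y (by positivity) hq' (fun i hi => (hy i (hS'R i hi)).1)
      (fun i hi => (Finset.mem_filter.1 (hS' hi)).2) ?_ (by linarith) ?_ (fun i hi => ?_) ?_ ?_
    · rw [hκ]; exact hαβ.trans (le_mul_of_one_le_left hβ0.le hA)
    · have := mul_le_mul_of_nonneg_right (min_le_left (1 / 16 : ℝ) c₀) hD.le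
      linarith only [this, hD]
    · have := hτ i (hS'R i hi)
      linarith
    · have h1 := mul_le_mul_of_nonneg_right he2 hβ0.le
      have h2 : ((2 ^ t : ℕ) : ℝ) * (2 ^ e * α) = 2 ^ e * β := by
        rw [hβα]; push_cast; ring
      rw [h2]
      linarith
    · have h1 : (2 : ℝ) ^ t * (2 ^ m' / 4) ≤ 2 ^ t * S'.card := by linarith
      have h2 : (2 : ℝ) ^ m' / 4 ≤ S'.card := le_of_mul_le_mul_left h1 (by positivity)
      have h4 : 64 * K ≤ S'.card := by linarith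
      have h5 := mul_le_mul_of_nonneg_right h4 (sq_nonneg D)
      linarith
  · have hS₂R : ∀ i ∈ S₂, i ∈ R := fun i hi => (Finset.mem_filter.1 hi).1
    refine split_of_shells (τ := C * ρ) (Δ := 2 ^ e * α) (η := η) (ρ' := W.A * α) (D' := b - a)
      (q := 1) S₂ y (by positivity) (fun i _ j _ h => h) (fun i hi => (hy i (hS₂R i hi)).1)
      (fun i hi => (Finset.mem_filter.1 hi).2) ?_ (by linarith) ?_ (fun i hi => ?_) ?_ ?_
    · rw [hκ]; exact le_mul_of_one_le_left hα0.le hA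
    · have := mul_le_mul_of_nonneg_right (min_le_right (1 / 16 : ℝ) c₀) hD.le
      linarith only [this, hab]
    · have := hτ i (hS₂R i hi)
      linarith
    · have h1 := mul_le_mul_of_nonneg_right he2 hα0.le
      rw [Nat.cast_one, one_mul]
      linarith
    · have h1 : 4 * K ≤ 2 ^ t * c₀ ^ 2 := (div_le_iff₀ (by positivity)).1 ht
      have h2 : (2 : ℝ) ^ t ≤ 2 ^ m' * 2 ^ t := le_mul_of_one_le_left (by positivity) hM
      have h4 : (2 : ℝ) ^ t / 4 ≤ S₂.card := by linarith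
      have h5 : (c₀ * D) ^ 2 ≤ (b - a) ^ 2 := pow_le_pow_left₀ hcD.le (by linarith) 2
      have h6 : K * D ^ 2 ≤ 2 ^ t / 4 * (c₀ * D) ^ 2 := by
        have := mul_le_mul_of_nonneg_right h1 (sq_nonneg D)
        rw [mul_pow]
        linarith only [this]
      exact h6.trans (mul_le_mul h4 h5 (sq_nonneg _) (Nat.cast_nonneg _))

end KCC
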