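import Pool.Agent.Lib.MP_e1e491_gt.CC.Tri

/-! Selection of disjoint cells on many shells. -/

namespace KCC

open Set Metric KP2 MeasureTheory Filter Topology
open scoped Classical Pointwise NNReal

variable {Z ι : Type} [MetricSpace Z]

/-- Cells on well separated shells. -/
theorem split_of_shells {u : Z → ℝ} {Λ θ κ K τ Δ η ρ ρ' D D' : ℝ} {z : Z} (S : Finset ℕ) {q : ℕ}
    (x : ℕ → Z) (hΔ : 0 ≤ Δ) (hq : ∀ i ∈ S, ∀ j ∈ S, i < j → i + q ≤ j)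
    (hx : ∀ i ∈ S, τ + i * Δ ≤ dist (x i) z ∧ dist (x i) z ≤ τ + i * Δ + η)
    (ho : ∀ i ∈ S, Osc u (x i) ρ' D') (h1 : κ * ρ ≤ ρ') (h2 : ρ' ≤ ρ) (h3 : θ * D ≤ D')
    (h4 : ∀ i ∈ S, τ + i * Δ + η + Λ * ρ' ≤ Λ * ρ) (h5 : 2 * (Λ * ρ') + η ≤ q * Δ)
    (h6 : K * D ^ 2 ≤ S.card * D' ^ 2) : Split u Λ θ κ K z ρ D := by
  have key : ∀ i ∈ S, ∀ j ∈ S, i < j → Λ * ρ' + Λ * ρ' ≤ dist (x i) (x j) := by
    intro i hi j hj hij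
    have a1 : ((i + q : ℕ) : ℝ) ≤ j := Nat.cast_le.2 (hq i hi j hj hij)
    have a2 := mul_le_mul_of_nonneg_right a1 hΔ
    have a3 := dist_triangle (x j) (x i) z
    have a4 := (hx i hi).2
    have a5 := (hx j hj).1
    rw [dist_comm (x j) (x i)] at a3
    push_cast at a2
    nlinarith
  refine ⟨S, x, fun _ => ρ', fun _ => D', fun i hi => ⟨ho i hi, h1, h2, h3, ?_⟩, ?_, ?_⟩
  · have a4 := (hx i hi).2
    have a5 := h4 i hi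
    linarith
  · intro i hi j hj hij
    rcases lt_or_gt_of_ne hij with h | h
    · exact key i hi j hj h
    · rw [dist_comm]
      exact key j hj i hi h
  · rw [Finset.sum_const, nsmul_eq_mul]
    exact h6

/-- Shells that contain points with one given view. -/
theorem sel_fibre (W : WS Z ι) {s s₀ e I : ℕ} {ρ τ η : ℝ} {z : Z} (hρ : 0 < ρ) (hρ1 : ρ ≤ 1)
    (he : 4 * W.A + 2 ≤ 2 ^ e) (hη : η ≤ ρ / 2 ^ s₀) (hs : s ≤ s₀) (γ : ι) (S : Finset ℕ)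
    (hS : S ⊆ Finset.range I)
    (h : ∀ i ∈ S, ∃ x, τ + i * (2 ^ e * (ρ / 2 ^ s₀)) ≤ dist x z ∧
      dist x z ≤ τ + i * (2 ^ e * (ρ / 2 ^ s₀)) + η ∧ W.vw x (ρ / 2 ^ s) = γ) :
    S.card ≤ 2 * 2 ^ (s₀ - s) := by
  rcases S.eq_empty_or_nonempty with rfl | ⟨i₀, hi₀⟩
  · simp
  obtain ⟨x₀, -, -, hx₀⟩ := h i₀ hi₀
  have hΔ : 0 < 2 ^ e * (ρ / 2 ^ s₀) := by positivity
  refine le_trans (Finset.card_le_card fun i hi => ?_)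
    (card_near τ (2 ^ e * (ρ / 2 ^ s₀)) (dist x₀ z) hΔ (s₀ - s) I)
  obtain ⟨x, a1, a2, a3⟩ := h i hi
  have hr : 0 < ρ / 2 ^ s := by positivity
  have hr1 : ρ / 2 ^ s ≤ 1 := (div_le_self hρ.le (one_le_pow₀ one_le_two)).trans hρ1
  have b1 := W.same hr hr1 (a3.trans hx₀.symm)
  have b2 := abs_le.1 (abs_dist_sub_le x x₀ z)
  have b3 : ρ / 2 ^ s₀ ≤ ρ / 2 ^ s :=
    div_le_div_of_nonneg_left hρ.le (by positivity) (pow_le_pow_right₀ one_le_two hs)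
  have b4 : (2 : ℝ) ^ (s₀ - s) * (2 ^ e * (ρ / 2 ^ s₀)) = 2 ^ e * (ρ / 2 ^ s) := by
    obtain ⟨j, rfl⟩ := Nat.exists_eq_add_of_le hs
    rw [Nat.add_sub_cancel_left, pow_add]
    field_simp
  have b5 := mul_le_mul_of_nonneg_right he hr.le
  rw [Finset.mem_filter]
  refine ⟨hS hi, ?_⟩
  rw [b4]
  have b6 : |τ + i * (2 ^ e * (ρ / 2 ^ s₀)) - dist x₀ z| ≤ 2 * W.A * (ρ / 2 ^ s) + ρ / 2 ^ s := by
    rw [abs_le]
    constructor <;> linarith [b2.1, b2.2]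
  linarith

/-- Few shells are touched by views that see three levels. -/
theorem WS.card_touched (W : WS Z ι) {u : Z → ℝ} {N : ℕ → ℕ} {m s₀ e I : ℕ} {Λ E ρ τ η : ℝ}
    {z : Z} (hρ : 0 < ρ) (hρ1 : ρ ≤ 1) (hF : W.Few u N s₀ Λ E z ρ) (he : 4 * W.A + 2 ≤ 2 ^ e)
    (hη : η ≤ ρ / 2 ^ s₀) (S : Finset ℕ) (hS : S ⊆ Finset.range I)
    (h : ∀ i ∈ S, ∃ x s, m ≤ s ∧ s < s₀ ∧ dist x z ≤ Λ * ρ ∧
      τ + i * (2 ^ e * (ρ / 2 ^ s₀)) ≤ dist x z ∧ dist x z ≤ τ + i * (2 ^ e * (ρ / 2 ^ s₀)) + η ∧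
      W.Tri u E (W.vw x (ρ / 2 ^ s))) :
    (S.card : ℝ) ≤ 2 * 2 ^ s₀ * ∑ k ∈ Finset.Ico m s₀, (N k : ℝ) / 2 ^ k := by
  choose! Γ hΓ hΓ' using hF
  set T : ℕ → ι → Finset ℕ := fun s γ => S.filter fun i => ∃ x,
    τ + i * (2 ^ e * (ρ / 2 ^ s₀)) ≤ dist x z ∧
      dist x z ≤ τ + i * (2 ^ e * (ρ / 2 ^ s₀)) + η ∧ W.vw x (ρ / 2 ^ s) = γ with hT
  have h1 : S ⊆ (Finset.Ico m s₀).biUnion fun s => (Γ s).biUnion (T s) := by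
    intro i hi
    obtain ⟨x, s, a1, a2, a3, a4, a5, a6⟩ := h i hi
    refine Finset.mem_biUnion.2 ⟨s, Finset.mem_Ico.2 ⟨a1, a2⟩, Finset.mem_biUnion.2
      ⟨_, hΓ' s a2.le x a3 a6, ?_⟩⟩
    exact Finset.mem_filter.2 ⟨hi, x, a4, a5, rfl⟩
  have h2 : S.card ≤ ∑ s ∈ Finset.Ico m s₀, N s * (2 * 2 ^ (s₀ - s)) := by
    refine (Finset.card_le_card h1).trans (Finset.card_biUnion_le.trans ?_)
    refine Finset.sum_le_sum fun s hs => ?_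
    have hs' := (Finset.mem_Ico.1 hs).2.le
    refine (Finset.card_biUnion_le_card_mul _ _ (2 * 2 ^ (s₀ - s)) fun γ _ => ?_).trans
      (Nat.mul_le_mul_right _ (hΓ s hs'))
    exact sel_fibre W hρ hρ1 he hη hs' γ _ ((Finset.filter_subset _ _).trans hS)
      fun i hi => (Finset.mem_filter.1 hi).2
  have h3 : (S.card : ℝ) ≤ ((∑ s ∈ Finset.Ico m s₀, N s * (2 * 2 ^ (s₀ - s)) : ℕ) : ℝ) :=
    Nat.cast_le.2 h2
  refine h3.trans (le_of_eq ?_)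
  rw [Finset.mul_sum, Nat.cast_sum]
  refine Finset.sum_congr rfl fun s hs => ?_
  obtain ⟨j, rfl⟩ := Nat.exists_eq_add_of_le (Finset.mem_Ico.1 hs).2.le
  rw [Nat.add_sub_cancel_left, pow_add]
  push_cast
  field_simp

end KCC
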