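import Pool.Agent.Lib.MP_e1e491_gt.CC.Met
import Pool.Agent.Lib.MP_e1e491_gt.CC.Zone
import Pool.Agent.Lib.MP_e1e491_gt.CC.TilD

/-! Shadows in the tiled blob graph. -/

namespace KCC

open Set Metric KP2 MeasureTheory Filter Topology
open scoped Classical Pointwise NNReal

variable {Z : Type} [MetricSpace Z] {F : Frame Z} {P : Finset Z} {B r lam : ℝ}

theorem exists_ts (A : BG F P B r) (hF : F.OK) (hL : LL Z lam) (hP : Sepd r P) (hr : 0 < r)
    (hB : 1 ≤ B) (hs : 10 * lam ^ 2 * (B * r) ≤ F.δ) : Nonempty (TS F P B r lam) := by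
  obtain ⟨m, X, H, hT⟩ := exists_til' A.hc
  have hBr : 0 < B * r := mul_pos (by linarith) hr
  choose D h1 h2 h3 h4 using fun x => hL.exists_D x hBr
  exact ⟨{ A with
    m := m, X := X, H := H, D := D, til := hT, D_closed := h1, D_conn := h2, D_sup := h3,
    D_sub := h4, sepd := hP, r_pos := hr, B_ge := hB, ok := hF, ll := hL, small := hs }⟩

theorem BG.near (A : BG F P B r) {x : Z} {v : P} (h : A.β x = .inl v) : dist x v ≤ B * r := by
  obtain ⟨W, -, h1, h2, -⟩ := A.shadow {x} (singleton_subset_iff.2 (A.inn x v h).1)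
    isPreconnected_singleton
  obtain ⟨y, hy, h3⟩ := h2 v (h ▸ h1 x rfl)
  rwa [mem_singleton_iff.1 hy] at h3

theorem tsa_dir {V : Type} {W : Set (V ⊕ Bool × Bool)} {i j c : Bool}
    (hW : ∀ c, .inr (!i, c) ∉ W) (h : .inr (j, c) ∈ W) : i = j := by
  by_contra hne
  have : j = !i := by cases i <;> cases j <;> simp_all
  exact hW c (this ▸ h)

namespace TS

variable (T : TS F P B r lam)

theorem adjG {v w : P} (h : T.G.Adj v w) : dist (v : Z) w ≤ B * r := by
  exact T.adj v w h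

include T in
theorem Br_pos : 0 < B * r := by
  exact mul_pos (by linarith [T.B_ge]) T.r_pos

include T in
theorem Br_le : 10 * (B * r) ≤ F.δ := by
  have h1 := T.small
  have h2 := T.Br_pos
  have h3 : 1 ≤ lam ^ 2 := one_le_pow₀ T.ll.one_le
  nlinarith

theorem tsa_Yp (i : Bool) (y : P ⊕ Bool × Bool) :
    0 ≤ Yp T.X T.H i y ∧ Yp T.X T.H i y ≤ T.H i := by
  rcases y with v | s
  · exact ⟨T.til.X_nonneg i v, (le_add_of_nonneg_right (T.til.m_nonneg v)).trans (T.til.le_H i v)⟩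
  · have := T.til.H_pos i
    simp only [Yp]
    split_ifs
    · exact ⟨this.le, le_rfl⟩
    · exact ⟨le_rfl, this.le⟩

theorem f_mem (x : Z) (i : Bool) : 0 ≤ T.f x i ∧ T.f x i ≤ T.H i := by
  exact T.tsa_Yp i _

theorem u_mem (x : Z) : T.u x ∈ Icc (0 : ℝ) 1 := by
  have h := T.f_mem x true
  have h1 := T.til.H_pos true
  exact ⟨div_nonneg h.1 h1.le, (div_le_one h1).2 h.2⟩

/-- A vertex of a line is the blob of a point. -/
theorem surj_line {i : Bool} {t : ℝ} (h : Line T.G T.sd T.m T.X T.H i t) {v : P}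
    (hv : v ∈ Vt T.m T.X i t) : ∃ x, T.β x = .inl v := by
  rcases line_adj h hv with ⟨w, hw⟩ | hw
  · exact T.surj v (.inl w) hw
  · exact T.surj v _ hw

/-- A walk through blobs and the zones of the direction `i` meets the lines between its ends. -/
theorem meet {W : Set (P ⊕ Bool × Bool)} {a b : P ⊕ Bool × Bool} {i : Bool} {t : ℝ}
    (h : Con T.Γ W a b) (hW : ∀ c, .inr (!i, c) ∉ W) (ht : ∀ v, t ≠ T.X i v)
    (ht' : t ∈ Ioo 0 (T.H i)) (ha : Yp T.X T.H i a < t) (hb : t < Yp T.X T.H i b) :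
    ∃ v : P, .inl v ∈ W ∧ v ∈ Vt T.m T.X i t := by
  obtain ⟨w, hw, hP, h1⟩ := h.exists_first (P := fun y => t < Yp T.X T.H i y) hb
  rcases h1 with rfl | ⟨u, hu, h1⟩
  · exact absurd hP ha.not_gt
  obtain ⟨huW, hu'⟩ := h1.right_mem
  have hu1 : Yp T.X T.H i u ≤ t := not_lt.1 hu'
  have hz : ∀ s, t < Yp T.X T.H i (.inr s) → s = (i, true) := by
    intro s hs
    by_contra hne
    simp only [Yp, if_neg hne] at hs
    exact hs.not_gt ht'.1
  have hz' : ∀ s, .inr s ∈ W → Yp T.X T.H i (.inr s) ≤ t → s = (i, false) := by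
    rintro ⟨j, c⟩ hs hs'
    have hj := tsa_dir hW hs
    subst hj
    cases c
    · rfl
    · simp only [Yp, if_true] at hs'
      exact absurd ht'.2 hs'.not_gt
  rcases u with v | s <;> rcases w with v' | s'
  · exact ⟨v, huW, lt_of_le_of_ne hu1 (ht v).symm, lt_of_lt_of_le hP (T.til.adj i v v' hu)⟩
  · rw [hz s' hP] at hu
    exact ⟨v, huW, lt_of_le_of_ne hu1 (ht v).symm, ht'.2.trans_le (T.til.one i v hu)⟩
  · rw [hz' s huW hu1] at hu
    have h2 : t < T.X i v' := hP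
    rw [T.til.zero i v' hu.symm] at h2
    exact absurd ht'.1 h2.not_gt
  · rw [hz' s huW hu1, hz s' hP] at hu
    exact absurd hu (T.nadj i)

theorem osc {W : Set (P ⊕ Bool × Bool)} {a b : P ⊕ Bool × Bool} {i : Bool}
    (h : Con T.Γ W a b) (hW : ∀ c, .inr (!i, c) ∉ W) :
    |Yp T.X T.H i a - Yp T.X T.H i b| ≤ wt T.m {v | .inl v ∈ W} := by
  have key : ∀ {a b : P ⊕ Bool × Bool}, Con T.Γ W a b → Yp T.X T.H i a ≤ Yp T.X T.H i b →
      Yp T.X T.H i b - Yp T.X T.H i a ≤ wt T.m {v | .inl v ∈ W} := by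
    intro a b h hab
    have h0 : ∀ v : P, (0 : ℝ) ≤ if Sum.inl v ∈ W then 1 else 0 := fun v => by positivity
    have h1 := til_gap_le T.til h0 i (c := 1) (T.tsa_Yp i a).1 hab (T.tsa_Yp i b).2 ?_
    · rw [one_mul] at h1
      refine h1.trans (le_of_eq ?_)
      rw [wt_eq_sum]
      exact Finset.sum_congr rfl fun v _ => by simp
    · intro t ht hl
      obtain ⟨v, hv, hv'⟩ := T.meet h hW (fun v => (hl.1 i v).1)
        ⟨(T.tsa_Yp i a).1.trans_lt ht.1, ht.2.trans_le (T.tsa_Yp i b).2⟩ ht.1 ht.2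
      have h2 := Finset.single_le_sum (fun v _ => h0 v)
        (Finset.mem_filter.2 ⟨Finset.mem_univ v, hv'⟩)
      rwa [if_pos hv] at h2
  rcases le_total (Yp T.X T.H i a) (Yp T.X T.H i b) with hab | hab
  · rw [abs_sub_comm, abs_of_nonneg (sub_nonneg.2 hab)]
    exact key h hab
  · rw [abs_of_nonneg (sub_nonneg.2 hab)]
    exact key h.symm hab

/-- The shadow of a set that stays away from the zones of the direction `!i`. -/
theorem shadow' {E : Set Z} (hE : E ⊆ F.Ω) (hc : IsPreconnected E) {i : Bool}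
    (hf : ∀ x ∈ E, ∀ c, ∀ y ∈ F.Zn (!i) c, B * r < dist x y) :
    ∃ W, Cn T.Γ W ∧ (∀ x ∈ E, T.β x ∈ W) ∧ (∀ v : P, .inl v ∈ W → ∃ x ∈ E, dist x v ≤ B * r) ∧
      ∀ c, .inr (!i, c) ∉ W := by
  obtain ⟨W, h1, h2, h3, h4⟩ := T.shadow E hE hc
  refine ⟨W, h1, h2, h3, fun c hc' => ?_⟩
  obtain ⟨x, hx, y, hy, h5⟩ := h4 _ _ hc'
  exact (hf x hx c y hy).not_ge h5

/-- A crossing set has a crossing shadow. -/
theorem cr_of_cross {E : Set Z} {i : Bool} (h : F.Cross i E) :
    Cr T.G T.sd i {v | ∃ x ∈ E, dist x v ≤ B * r} := by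
  obtain ⟨h1, h2, h3, h4⟩ := h
  have hlt : B * r < F.δ := by linarith [T.Br_le, T.Br_pos]
  obtain ⟨W, w1, w2, w3, w4⟩ := T.shadow' h2 h1 (i := i)
    fun x hx c y hy => hlt.trans_le (h3 x hx c y hy)
  have key : ∀ b, .inr (i, b) ∈ W := by
    intro b
    obtain ⟨x, hx, ho, hf⟩ := h4 b
    have h5 := w2 x hx
    obtain ⟨W', -, v1, -, v2⟩ := T.shadow {x} (singleton_subset_iff.2 (h2 hx))
      isPreconnected_singleton
    have h6 := v1 x rfl
    rcases hβ : T.β x with v | ⟨j, c⟩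
    · exact absurd ho (T.inn x v hβ).2
    rw [hβ] at h5 h6
    have hj := tsa_dir w4 h5
    subst hj
    obtain ⟨x', hx', y, hy, h7⟩ := v2 _ _ h6
    rw [mem_singleton_iff.1 hx'] at h7
    by_cases hc : c = b
    · rwa [← hc]
    · have hc' : c = !b := by cases b <;> cases c <;> simp_all
      rw [hc'] at hy
      exact absurd (hf y hy) (h7.trans_lt hlt).not_ge
  exact (cr_free (T.nadj i) (w1 _ (key false) _ (key true)) w4).mono fun v hv => w3 v hv

/-- A vertex of the left or right side is not in `U`. -/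
theorem side_not_mem {b : Bool} {a : P} (h : a ∈ T.sd false b) : (a : Z) ∉ F.U := by
  intro hU
  obtain ⟨y, hy, h1⟩ := T.adjz a false b h
  have h2 := T.ok.U_far a hU b y hy
  linarith [T.Br_le, T.Br_pos]

/-- Opposite sides are far apart. -/
theorem side_far {i : Bool} {a b : P} (ha : a ∈ T.sd i false) (hb : b ∈ T.sd i true) :
    F.δ / 2 ≤ dist (a : Z) b := by
  obtain ⟨y, hy, h1⟩ := T.adjz a i false ha
  obtain ⟨y', hy', h2⟩ := T.adjz b i true hb
  have h3 := T.ok.gap i y hy y' hy'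
  have h4 := dist_triangle4 y a b y'
  rw [dist_comm y a] at h4
  linarith [T.Br_le, T.Br_pos]

end TS

end KCC
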