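import Pool.Agent.Lib.MP_e1e491_gt.CC.TSA

/-! The thickened lines. -/

namespace KCC

open Set Metric KP2 MeasureTheory Filter Topology
open scoped Classical Pointwise NNReal

variable {Z : Type} [MetricSpace Z] {F : Frame Z} {P : Finset Z} {B r lam : ℝ}

namespace TS

variable (T : TS F P B r lam)

include T in
theorem tsb_pos : 0 < B * r := mul_pos (one_pos.trans_le T.B_ge) T.r_pos

include T in
theorem tsb_le : 10 * (B * r) ≤ F.δ := by
  refine le_trans ?_ T.small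
  rw [mul_assoc]
  exact mul_le_mul_of_nonneg_left
    (le_mul_of_one_le_left T.tsb_pos.le (one_le_pow₀ T.ll.one_le)) (by norm_num)

theorem tsb_mem {t : ℝ} {v : P} (hv : v ∈ Vt T.m T.X true t) {x : Z}
    (hx : x ∈ closedBall (v : Z) (B * r)) : x ∈ T.cl t :=
  mem_iUnion₂.2 ⟨v, hv, T.D_sup v hx⟩

theorem cl_closed (t : ℝ) : IsClosed (T.cl t) := by
  exact (toFinite _).isClosed_biUnion fun v _ => T.D_closed v

theorem cl_conn {t : ℝ} (h : T.Ln t) : IsPreconnected (T.cl t) := by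
  refine IsPreconnected.biUnion_of_reflTransGen (fun v _ => T.D_conn v) fun a ha b hb => ?_
  refine (line_cn h.2 a ha b hb).induction Relation.ReflTransGen.refl fun v hv w _ hvw k => ?_
  refine k.tail ⟨⟨w, T.D_sup v (mem_closedBall'.2 (T.adjG hvw)), ?_⟩, hv⟩
  exact T.D_sup w (mem_closedBall_self T.tsb_pos.le)

theorem cl_leave {t : ℝ} (h : T.Ln t) : ∃ x ∈ T.cl t, x ∉ F.U := by
  obtain ⟨a, ha, hv⟩ := line_side h.2 false
  exact ⟨a, T.tsb_mem hv (mem_closedBall_self T.tsb_pos.le), T.side_not_mem ha⟩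

theorem cl_hit {t : ℝ} (h : T.Ln t) : ∃ x ∈ T.cl t, closedBall x F.δ ⊆ F.U := by
  obtain ⟨K, hK, hU⟩ := T.ok.mid
  obtain ⟨v, ⟨p, hp, hpv⟩, hv⟩ := T.hc.meet (T.cr_of_cross hK) h.2.cr
  refine ⟨v, T.tsb_mem hv (mem_closedBall_self T.tsb_pos.le),
    (closedBall_subset_closedBall' ?_).trans (hU p hp)⟩
  rw [dist_comm]
  linarith [T.tsb_le, T.tsb_pos]

/-- The line meets the shadow of a set that has points below and above. -/
theorem meet_U {t : ℝ} (h : T.Ln t) {E : Set Z} (hE : E ⊆ F.U) (hc : IsPreconnected E) {x y : Z}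
    (hx : x ∈ E) (hy : y ∈ E) (h1 : T.f x true < t) (h2 : t < T.f y true) :
    ∃ v ∈ Vt T.m T.X true t, ∃ p ∈ E, dist p v ≤ B * r := by
  obtain ⟨W, hW, h3, h4, h5⟩ := T.shadow' (hE.trans T.ok.U_sub) hc (i := true)
    fun p hp c q hq => by linarith [T.ok.U_far p (hE hp) c q hq, T.tsb_le, T.tsb_pos]
  obtain ⟨v, hv, hv'⟩ := T.meet (hW _ (h3 x hx) _ (h3 y hy)) h5 (fun v => (h.2.1 true v).1) h.1
    h1 h2
  exact ⟨v, hv', h4 v hv⟩

theorem cl_sep {t : ℝ} (h : T.Ln t) {E : Set Z} (hE : E ⊆ F.U) (hc : IsPreconnected E) {x y : Z}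
    (hx : x ∈ E) (hy : y ∈ E) (h1 : T.f x true < t) (h2 : t < T.f y true) :
    (E ∩ T.cl t).Nonempty := by
  obtain ⟨v, hv, p, hp, hpv⟩ := T.meet_U h hE hc hx hy h1 h2
  exact ⟨p, hp, T.tsb_mem hv hpv⟩

theorem ν_nonneg (V : Set Z) : 0 ≤ T.ν V := by
  exact div_nonneg (wt_nonneg (fun _ => sq_nonneg _) _) (T.til.H_pos true).le

theorem ν_add {V V₁ V₂ : Set Z} (h : Disjoint V₁ V₂) (h₁ : V₁ ⊆ V) (h₂ : V₂ ⊆ V) :
    T.ν V₁ + T.ν V₂ ≤ T.ν V := by
  rw [ν, ν, ν, ← add_div, wt_eq_sum, wt_eq_sum, wt_eq_sum, ← Finset.sum_add_distrib]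
  refine div_le_div_of_nonneg_right (Finset.sum_le_sum fun v _ => ?_) (T.til.H_pos true).le
  simp only [mem_ofPred_eq]
  by_cases k1 : (v : Z) ∈ V₁
  · rw [if_pos k1, if_neg (disjoint_left.1 h k1), if_pos (h₁ k1), add_zero]
  · rw [if_neg k1, zero_add]
    by_cases k2 : (v : Z) ∈ V₂
    · rw [if_pos k2, if_pos (h₂ k2)]
    · rw [if_neg k2]
      split_ifs
      · exact sq_nonneg _
      · exact le_rfl

theorem ν_le (V : Set Z) : T.ν V ≤ 1 := by
  rw [ν, div_le_one (T.til.H_pos true), ← T.til.area_eq]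
  exact Finset.sum_le_sum_of_subset_of_nonneg (Finset.subset_univ _) fun _ _ _ => sq_nonneg _

end TS

theorem cl_lev (hD : Dbl Z) (B lam : ℝ) : ∃ N : ℝ, 1 ≤ N ∧ ∀ (F : Frame Z) (P : Finset Z) (r : ℝ)
    (T : TS F P B r lam) (t : ℝ), T.Ln t → ∀ x ∈ T.cl t, x ∈ F.U → |T.f x true - t| ≤ N := by
  obtain ⟨N, hN⟩ := hD.card_le (lam * (lam + 1) * B + B)
  refine ⟨N + 1, le_add_of_nonneg_left (Nat.cast_nonneg N), fun F P r T t h x hx hU => ?_⟩
  obtain ⟨v, hv, hxv⟩ := mem_iUnion₂.1 hx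
  obtain ⟨y, hy⟩ := T.surj_line h.2 hv
  have h0 := T.tsb_pos
  have h1 := T.ll.one_le
  have h2 : dist x y ≤ (lam + 1) * (B * r) := by
    linarith [dist_triangle_right x y v, mem_closedBall.1 (T.D_sub v hxv), T.toBG.near hy]
  have h3 : 0 < (lam + 1) * (B * r) := mul_pos (by linarith) h0
  have h4 : B * r ≤ lam * (B * r) := le_mul_of_one_le_left h0.le h1
  have h5 : lam * (B * r) ≤ lam * (lam * (B * r)) := le_mul_of_one_le_left (h0.le.trans h4) h1
  have h6 : 10 * (lam * (lam * (B * r))) ≤ F.δ := by linarith [T.small]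
  obtain ⟨E, hE, hc, hxE, hyE⟩ := joined_set (T.ll.l1 y _ x y h3 h2 (by
    rw [dist_self]
    exact h3.le))
  have h7 : ∀ p ∈ E, dist p y ≤ lam * ((lam + 1) * (B * r)) := fun p hp => hE hp
  obtain ⟨W, hW, k3, k4, k5⟩ := T.shadow' (E := E)
    (fun p hp => T.ok.inner y (T.inn y v hy).1 (T.inn y v hy).2
      (mem_closedBall.2 (by linarith [h7 p hp]))) hc (i := true) fun p hp c q hq => by
      linarith [T.ok.U_far x hU c q hq, h7 p hp, dist_triangle x y q, dist_triangle_left y q p]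
  have k6 := T.osc (hW _ (k3 x hxE) _ (k3 y hyE)) k5
  have k7 : wt T.m {w | Sum.inl w ∈ W} ≤ N := by
    refine (Finset.sum_le_card_nsmul _ _ 1 fun w _ => til_m_le T.til w).trans ?_
    rw [nsmul_eq_mul, mul_one, Nat.cast_le]
    refine le_trans (Finset.card_le_card fun w hw => ?_) (hN r y P T.r_pos T.sepd)
    obtain ⟨p, hp, hpw⟩ := k4 w (Finset.mem_filter.1 hw).2
    refine Finset.mem_filter.2 ⟨Finset.mem_univ w, ?_⟩
    linarith [h7 p hp, dist_triangle_left y w p]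
  rw [hy] at k6
  have k8 : |T.f x true - T.X true v| ≤ N := k6.trans k7
  rw [abs_le] at k8 ⊢
  constructor <;> linarith [k8.1, k8.2, hv.1, hv.2, til_m_le T.til v]

end KCC
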