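import Pool.Agent.Lib.MP_e1e491_gt.CC.TSB

/-! Energy and non-crossing. -/

namespace KCC

open Set Metric KP2 MeasureTheory Filter Topology
open scoped Classical Pointwise NNReal

variable {Z : Type} [MetricSpace Z] {F : Frame Z} {P : Finset Z} {B r lam : ℝ}

theorem tsc_pos (T : TS F P B r lam) : 0 < B * r := mul_pos (one_pos.trans_le T.B_ge) T.r_pos

theorem tsc_le (T : TS F P B r lam) : 10 * (B * r) ≤ F.δ := by
  have h1 : 1 ≤ lam ^ 2 := one_le_pow₀ T.ll.one_le
  have h2 := le_mul_of_one_le_left (tsc_pos T).le h1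
  linarith [T.small]

theorem tsc_en (T : TS F P B r lam) {M r₀ R : ℝ} (hS : Shell T.G M r₀) {x p q : Z}
    (h1 : B * r ≤ R) (h2 : r₀ ≤ R) (h3 : (lam + 1) * R ≤ 1)
    (hU : closedBall x (4 * (lam + 1) * R) ⊆ F.U) (hp : dist p x ≤ R) (hq : dist q x ≤ R)
    (hpq : T.f p true ≤ T.f q true) : (T.f q true - T.f p true) ^ 2 ≤
      M * wt (fun v => T.m v ^ 2) {v | (v : Z) ∈ ball x (4 * (lam + 1) * R)} := by
  have hl := T.ll.one_le
  have hR : 0 < R := (tsc_pos T).trans_le h1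
  have hlR : R ≤ lam * R := le_mul_of_one_le_left hR.le hl
  obtain ⟨W, hW, hs, hM, hc⟩ := hS x ((lam + 1) * R) (by linarith) h3
  obtain ⟨E, hE, hEc, hpE, hqE⟩ := joined_set (T.ll.l1 x R p q hR hp hq)
  have hEU : E ⊆ F.U := hE.trans ((closedBall_subset_closedBall (by linarith)).trans hU)
  have h4 := til_gap_le T.til hW true (c := 1) (T.f_mem p true).1 hpq (T.f_mem q true).2
    fun t ht hL => by
      obtain ⟨v, hv, p', hp', hd⟩ := T.meet_U ⟨⟨(T.f_mem p true).1.trans_lt ht.1,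
        ht.2.trans_le (T.f_mem q true).2⟩, hL⟩ hEU hEc hpE hqE ht.1 ht.2
      obtain ⟨a, ha, ha'⟩ := line_side hL false
      refine hc _ v a (line_cn hL v hv a ha') ?_ ?_
      · have h5 := dist_triangle_left x v p'
        have h6 := mem_closedBall.1 (hE hp')
        linarith
      · have h5 : ¬ dist (a : Z) x ≤ 4 * (lam + 1) * R := fun h => T.side_not_mem ha (hU h)
        rw [dist_comm] at h5
        linarith [not_le.1 h5]
  have h5 := sum_mul_sq_le (m := T.m) (W := W)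
    (S := {v | (v : Z) ∈ ball x (4 * (lam + 1) * R)}) fun v hv => by
      have h6 := (hs v hv).2
      change dist (v : Z) x < 4 * (lam + 1) * R
      rw [dist_comm]
      linarith
  rw [one_mul] at h4
  exact ((pow_le_pow_left₀ (sub_nonneg.2 hpq) h4 2).trans h5).trans
    (mul_le_mul_of_nonneg_right hM (wt_nonneg (fun v => sq_nonneg _) _))

theorem TS.en (T : TS F P B r lam) {M r₀ R : ℝ} (hS : Shell T.G M r₀) {x p q : Z}
    (h1 : B * r ≤ R) (h2 : r₀ ≤ R) (h3 : (lam + 1) * R ≤ 1)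
    (hU : closedBall x (4 * (lam + 1) * R) ⊆ F.U) (hp : dist p x ≤ R) (hq : dist q x ≤ R) :
    (T.f p true - T.f q true) ^ 2 ≤
      M * wt (fun v => T.m v ^ 2) {v | (v : Z) ∈ ball x (4 * (lam + 1) * R)} := by
  rcases le_total (T.f p true) (T.f q true) with h | h
  · rw [← neg_sub, neg_sq]
    exact tsc_en T hS h1 h2 h3 hU hp hq h
  · exact tsc_en T hS h1 h2 h3 hU hq hp h

theorem tsc_osc (T : TS F P B r lam) {g : Z → Z} (hg : Continuous g) {L : ℝ} (hL : 0 ≤ L)
    (hgL : ∀ x y, dist (g x) (g y) ≤ L * dist x y) {v x : Z} (hU : g '' T.D v ⊆ F.U)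
    (hx : x ∈ T.D v) : |T.f (g x) true - T.f (g v) true| ≤
      wt T.m {w | dist (g v) w ≤ (L * lam * B + B) * r} := by
  have h0 := tsc_pos T
  obtain ⟨W, h1, h2, h3, h4⟩ := T.shadow' (hU.trans T.ok.U_sub)
    ((T.D_conn v).image g hg.continuousOn) (i := true) fun y hy c z hz => by
      have h5 := T.ok.U_far y (hU hy) c z hz
      have h6 := tsc_le T
      linarith
  refine (T.osc (h1 _ (h2 _ (mem_image_of_mem g hx)) _
    (h2 _ (mem_image_of_mem g (T.D_sup v (mem_closedBall_self h0.le))))) h4).trans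
    (wt_mono T.til.m_nonneg fun w hw => ?_)
  obtain ⟨_, ⟨y, hy, rfl⟩, h5⟩ := h3 w hw
  have h6 := (hgL y v).trans (mul_le_mul_of_nonneg_left (mem_closedBall.1 (T.D_sub v hy)) hL)
  have h7 := dist_triangle_left (g v) w (g y)
  change dist (g v) w ≤ (L * lam * B + B) * r
  linarith

theorem tsc_le_wt {V : Type} [Fintype V] {m : V → ℝ} (hm : ∀ v, 0 ≤ m v) {W : Set V} {a : V}
    (ha : a ∈ W) : m a ≤ wt m W :=
  Finset.single_le_sum (fun v _ => hm v) (Finset.mem_filter.2 ⟨Finset.mem_univ a, ha⟩)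

theorem ts_nc (hD : Dbl Z) (B lam : ℝ) {g : Z → Z} (hg : BiL g) : ∃ N : ℝ, 1 ≤ N ∧
    ∀ (F : Frame Z) (P : Finset Z) (r : ℝ) (T : TS F P B r lam), ∃ W : P → ℝ, (∀ v, 0 ≤ W v) ∧
      ∑ v, W v * T.m v ≤ N * T.H true ∧ ∀ t, T.Ln t → g '' T.cl t ⊆ F.U → ∀ x ∈ T.cl t,
        ∀ y ∈ T.cl t, |T.f (g x) true - T.f (g y) true| ≤ wt W (Vt T.m T.X true t) := by
  obtain ⟨L, hL, hgL⟩ := id hg
  obtain ⟨N₁, hN₁⟩ := hD.card_le (L * lam * B + B)
  obtain ⟨N₂, hN₂⟩ := hD.card_le (2 * L * (L * lam * B + B))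
  have hN : (0 : ℝ) ≤ N₁ * N₂ := by positivity
  refine ⟨3 * (N₁ * N₂ + 1), by linarith, fun F P r T => ?_⟩
  let W₀ : P → ℝ := fun v => wt T.m {w | dist (g v) w ≤ (L * lam * B + B) * r}
  have h0 : ∀ v, 0 ≤ W₀ v := fun v => wt_nonneg T.til.m_nonneg _
  refine ⟨fun v => 3 * W₀ v, fun v => mul_nonneg (by norm_num) (h0 v), ?_,
    fun t ht hU x hx y hy => ?_⟩
  · have h1 : ∑ v, W₀ v ^ 2 ≤ N₁ * N₂ * ∑ v, T.m v ^ 2 := by
      refine schur (fun (a b : P) => dist (g a) b ≤ (L * lam * B + B) * r) (fun a => ?_)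
        (fun b => ?_) T.m
      · refine (Finset.card_le_card fun b hb => ?_).trans (hN₁ r (g a) P T.r_pos T.sepd)
        simpa using hb
      · by_cases h : ∃ a : P, dist (g a) b ≤ (L * lam * B + B) * r
        · obtain ⟨a₀, ha₀⟩ := h
          refine (Finset.card_le_card fun a ha => ?_).trans (hN₂ r a₀ P T.r_pos T.sepd)
          simp only [Finset.mem_filter, Finset.mem_univ, true_and] at ha ⊢
          have h2 := dist_triangle_right (g a₀) (g a) b
          have h3 := (hgL a₀ a).2.trans (mul_le_mul_of_nonneg_left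
            (h2.trans (add_le_add ha₀ ha)) (by linarith))
          linarith
        · refine (Finset.card_le_card (t := ∅) fun a ha => ?_).trans (Nat.zero_le _)
          simp only [Finset.mem_filter, Finset.mem_univ, true_and] at ha
          exact absurd ⟨a, ha⟩ h
    have h2 : ∑ v, 3 * W₀ v * T.m v ≤ ∑ v, (3 * W₀ v ^ 2 + 3 * T.m v ^ 2) :=
      Finset.sum_le_sum fun v _ => by
        nlinarith [sq_nonneg (W₀ v - T.m v), sq_nonneg (W₀ v), sq_nonneg (T.m v)]
    rw [Finset.sum_add_distrib, ← Finset.mul_sum, ← Finset.mul_sum] at h2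
    rw [T.til.area_eq] at h1 h2
    linarith
  · have hU' : ∀ v ∈ Vt T.m T.X true t, g '' T.D v ⊆ F.U := fun v hv =>
      (image_mono (subset_biUnion_of_mem (u := fun v : P => T.D v) hv)).trans hU
    obtain ⟨a, ha, hxa⟩ := mem_iUnion₂.1 hx
    obtain ⟨b, hb, hyb⟩ := mem_iUnion₂.1 hy
    have key : ∀ v ∈ Vt T.m T.X true t, ∀ z ∈ T.D v,
        |T.f (g z) true - T.f (g v) true| ≤ W₀ v := fun v hv z hz =>
      tsc_osc T hg.continuous (by linarith) (fun x y => (hgL x y).1) (hU' v hv) hz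
    have h1 := con_abs_sub_le (ψ := fun v : P => T.f (g v) true) (line_cn ht.2 a ha b hb) h0
      fun v _ w hw h => key w hw v (T.D_sup w (mem_closedBall.2 (T.adjG h)))
    have h2 := (key a ha x hxa).trans (tsc_le_wt h0 ha)
    have h3 := (key b hb y hyb).trans (tsc_le_wt h0 hb)
    have h4 : wt (fun v => 3 * W₀ v) (Vt T.m T.X true t) = 3 * wt W₀ (Vt T.m T.X true t) :=
      (Finset.mul_sum _ _ _).symm
    rw [h4]
    rw [abs_le] at h1 h2 h3 ⊢
    constructor <;> linarith [h1.1, h1.2, h2.1, h2.2, h3.1, h3.2]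

end KCC
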