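import Pool.Agent.Lib.MP_e1e491_gt.CC.Wall
import Pool.Agent.Lib.MP_e1e491_gt.CC.Pick

/-! The three alternatives for one shell. -/

namespace KCC

open Set Metric KP2 MeasureTheory Filter Topology
open scoped Classical Pointwise NNReal

variable {Z ι : Type} [MetricSpace Z]

theorem tri_two (W : WS Z ι) {u : Z → ℝ} (hu : ∀ x, 0 ≤ u x) {E : ℝ} (hE : 0 < E) (γ : ι) :
    ∃ α β : ℝ, ¬ W.Tri u E γ → ∀ p ∈ W.pts γ,
      u p ∈ Icc α (α + 4 * E) ∨ u p ∈ Icc β (β + 4 * E) := by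
  by_cases h : W.Tri u E γ
  · exact ⟨0, 0, fun h' => absurd h h'⟩
  obtain ⟨α, β, h1⟩ := two_intervals (u '' W.pts γ) ⟨0, by rintro _ ⟨p, -, rfl⟩; exact hu p⟩ hE
    (by
      rintro ⟨_, ⟨p₁, q₁, rfl⟩, _, ⟨p₂, q₂, rfl⟩, _, ⟨p₃, q₃, rfl⟩, e1, e2⟩
      exact h ⟨p₁, q₁, p₂, q₂, p₃, q₃, e1, e2⟩)
  exact ⟨α, β, fun _ p hp => h1 _ ⟨p, hp, rfl⟩⟩

/-- The band of levels of a thick cell. -/
theorem WS.levels (W : WS Z ι) (Λ : ℝ) (m : ℕ) : ∃ c₀ > 0, ∀ s₀ : ℕ, ∃ c > 0,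
    ∀ (u : Z → ℝ) (z : Z) (ρ lo D : ℝ), (∀ x, 0 ≤ u x) → 0 < ρ → ρ ≤ 1 → W.Thick z ρ → 0 < D →
      ∃ a b : ℝ, lo + D / 4 ≤ a ∧ b ≤ lo + 3 * D / 4 ∧ a + c₀ * D ≤ b ∧
        (∀ x, dist x z ≤ Λ * ρ → u (W.w (W.vw x (ρ / 2 ^ m))) ≤ a ∨
          b ≤ u (W.w (W.vw x (ρ / 2 ^ m)))) ∧
        ∀ s ≤ s₀, ∀ x, dist x z ≤ Λ * ρ → ∀ p₁ ∈ W.pts (W.vw x (ρ / 2 ^ s)),
          ∀ p₂ ∈ W.pts (W.vw x (ρ / 2 ^ s)), ∀ p₃ ∈ W.pts (W.vw x (ρ / 2 ^ s)),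
            u p₁ ≤ a → a < u p₂ → u p₂ < b → b ≤ u p₃ → W.Tri u (c * D) (W.vw x (ρ / 2 ^ s)) := by
  choose N hN using W.count Λ
  refine ⟨1 / (4 * ((N m : ℝ) + 1)), by positivity, fun s₀ => ?_⟩
  obtain ⟨N', hN'⟩ : ∃ N' : ℕ, N' = ∑ s ∈ Finset.range (s₀ + 1), N s := ⟨_, rfl⟩
  obtain ⟨c, hc⟩ : ∃ c : ℝ, c = 1 / (8 * ((N m : ℝ) + 1)) / (8 * ((N' : ℝ) + 1)) := ⟨_, rfl⟩
  have c0 : 0 < c := by rw [hc]; positivity
  refine ⟨c, c0, fun u z ρ lo D hu hρ hρ1 hT hD => ?_⟩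
  choose Γ hΓ hΓ' using fun s => hN s z ρ hρ hρ1 hT
  choose α β hαβ using tri_two W hu (mul_pos c0 hD)
  obtain ⟨S, hS⟩ : ∃ S : Finset ι, S = (Finset.range (s₀ + 1)).biUnion Γ := ⟨_, rfl⟩
  have hS1 : S.card ≤ N' := by
    rw [hS, hN']
    exact Finset.card_biUnion_le.trans (Finset.sum_le_sum fun s _ => hΓ s)
  obtain ⟨a, b, h1, h2, h3, h4, h5⟩ := band ((Γ m).image fun γ => u (W.w γ))
    (S.image α ∪ S.image β) (N := N m) (N' := N' + N') (Finset.card_image_le.trans (hΓ m))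
    ((Finset.card_union_le _ _).trans (add_le_add (Finset.card_image_le.trans hS1)
      (Finset.card_image_le.trans hS1))) (lo := lo) hD (ℓ := 4 * (c * D))
    (by positivity)
    (by
      have e1 : c * (8 * ((N' : ℝ) + 1)) = 1 / (8 * ((N m : ℝ) + 1)) := by
        rw [hc]
        exact div_mul_cancel₀ _ (by positivity)
      have e2 : D / (8 * ((N m : ℝ) + 1)) = c * (8 * ((N' : ℝ) + 1)) * D := by
        rw [e1]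
        ring
      have e3 := mul_pos c0 hD
      rw [e2]
      push_cast
      linarith)
  refine ⟨a, b, h1, h2, ?_, fun x hx => h4 _ (Finset.mem_image_of_mem _ (hΓ' m x hx)),
    fun s hs x hx p₁ q₁ p₂ q₂ p₃ q₃ e1 e2 e3 e4 => ?_⟩
  · have e : 1 / (4 * ((N m : ℝ) + 1)) * D = D / (4 * ((N m : ℝ) + 1)) := by ring
    rw [e]
    exact h3
  by_contra hn
  have hm : W.vw x (ρ / 2 ^ s) ∈ S := by
    rw [hS]
    exact Finset.mem_biUnion.2 ⟨s, Finset.mem_range.2 (by omega), hΓ' s x hx⟩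
  obtain ⟨a1, a2⟩ := h5 _ (Finset.mem_union_left _ (Finset.mem_image_of_mem α hm))
  obtain ⟨b1, b2⟩ := h5 _ (Finset.mem_union_right _ (Finset.mem_image_of_mem β hm))
  rcases hαβ _ hn p₁ q₁ with k1 | k1 <;> rcases hαβ _ hn p₂ q₂ with k2 | k2
  · exact a1 ⟨k1.1.trans e1, e2.le.trans k2.2⟩
  · rcases hαβ _ hn p₃ q₃ with k3 | k3
    · exact a1 ⟨k1.1.trans e1, by linarith [k3.2]⟩
    · exact b2 ⟨k2.1.trans e3.le, e4.trans k3.2⟩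
  · rcases hαβ _ hn p₃ q₃ with k3 | k3
    · exact a2 ⟨k2.1.trans e3.le, e4.trans k3.2⟩
    · exact b1 ⟨k1.1.trans e1, by linarith [k3.2]⟩
  · exact b1 ⟨k1.1.trans e1, e2.le.trans k2.2⟩

/-- The colour of a level. -/
noncomputable def tri_col (a b t : ℝ) : Fin 3 := if t ≤ a then 0 else if b ≤ t then 2 else 1

theorem tri_col_zero {a b t : ℝ} : tri_col a b t = 0 ↔ t ≤ a := by
  unfold tri_col
  split_ifs with h1 h2 <;> simp [h1]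

theorem tri_col_one {a b t : ℝ} : tri_col a b t = 1 ↔ a < t ∧ t < b := by
  unfold tri_col
  split_ifs with h1 h2
  · simp [not_lt.2 h1]
  · simp [not_lt.2 h2]
  · simp [not_le.1 h1, not_le.1 h2]

theorem tri_col_two {a b t : ℝ} (hab : a < b) : tri_col a b t = 2 ↔ b ≤ t := by
  unfold tri_col
  split_ifs with h1 h2
  · simp [h1.trans_lt hab]
  · simp [h2]
  · simp [h2]

theorem tri_anti {ρ : ℝ} (hρ : 0 < ρ) {k l : ℕ} (h : k ≤ l) : ρ / 2 ^ l ≤ ρ / 2 ^ k :=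
  div_le_div_of_nonneg_left hρ.le (by positivity) (pow_le_pow_right₀ one_le_two h)

/-- The wall over a chain. -/
theorem WS.tri (W : WS Z ι) {u : Z → ℝ} {n m s₀ : ℕ} {x : ℕ → Z} {ρ a b D₁ E : ℝ} (hms : m ≤ s₀)
    (hρ : 0 < ρ) (hρ1 : ρ ≤ 1) (hab : a < b) (hx : ∀ i < n, dist (x i) (x (i + 1)) ≤ ρ / 2 ^ s₀)
    (h0 : u (x 0) + D₁ ≤ a) (hn : b + D₁ ≤ u (x n))
    (ht : ∀ i ≤ n, u (W.w (W.vw (x i) (ρ / 2 ^ m))) ≤ a ∨ b ≤ u (W.w (W.vw (x i) (ρ / 2 ^ m))))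
    (hT : ∀ s ≤ s₀, ∀ i ≤ n, ∀ p₁ ∈ W.pts (W.vw (x i) (ρ / 2 ^ s)),
      ∀ p₂ ∈ W.pts (W.vw (x i) (ρ / 2 ^ s)), ∀ p₃ ∈ W.pts (W.vw (x i) (ρ / 2 ^ s)),
        u p₁ ≤ a → a < u p₂ → u p₂ < b → b ≤ u p₃ → W.Tri u E (W.vw (x i) (ρ / 2 ^ s))) :
    ∃ i ≤ n, Osc u (x i) (W.A * (ρ / 2 ^ m)) D₁ ∨ Osc u (x i) (W.A * (ρ / 2 ^ s₀)) (b - a) ∨
      ∃ s, m ≤ s ∧ s < s₀ ∧ W.Tri u E (W.vw (x i) (ρ / 2 ^ s)) := by
  have hA : 0 ≤ W.A := zero_le_one.trans W.one_le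
  have p0 : ∀ k : ℕ, 0 < ρ / 2 ^ k := fun k => by positivity
  have p1 : ∀ k : ℕ, ρ / 2 ^ k ≤ 1 := fun k =>
    (div_le_self hρ.le (one_le_pow₀ one_le_two)).trans hρ1
  have self : ∀ (y : Z) (k : ℕ), W.w (W.vw y (ρ / 2 ^ k)) ∈ W.pts (W.vw y (ρ / 2 ^ k)) :=
    fun y k => W.face y y _ _ (p0 k) (p1 k) (by rw [dist_self]; exact (p0 k).le) (Or.inl rfl)
  have nr : ∀ (y : Z) (k : ℕ), m ≤ k →
      dist (W.w (W.vw y (ρ / 2 ^ k))) y ≤ W.A * (ρ / 2 ^ m) := fun y k hk =>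
    (W.near y _ (p0 k) (p1 k) _ (self y k)).trans
      (mul_le_mul_of_nonneg_left (tri_anti hρ hk) hA)
  have d0 : ∀ y : Z, dist y y ≤ W.A * (ρ / 2 ^ m) := fun y => by
    rw [dist_self]
    exact mul_nonneg hA (p0 m).le
  by_cases o0 : Osc u (x 0) (W.A * (ρ / 2 ^ m)) D₁
  · exact ⟨0, Nat.zero_le _, Or.inl o0⟩
  by_cases on : Osc u (x n) (W.A * (ρ / 2 ^ m)) D₁
  · exact ⟨n, le_rfl, Or.inl on⟩
  rcases wall (fun i k => tri_col a b (u (W.w (W.vw (x i) (ρ / 2 ^ k))))) n m s₀ hms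
    (fun k hk _ => tri_col_zero.2 (not_lt.1 fun h => o0 ⟨_, _, d0 _, nr _ k hk, by linarith⟩))
    (fun k hk _ => (tri_col_two hab).2
      (not_lt.1 fun h => on ⟨_, _, nr _ k hk, d0 _, by linarith⟩))
    (fun i hi h => by
      obtain ⟨e1, e2⟩ := tri_col_one.1 h
      rcases ht i hi with e | e <;> linarith) with h | h
  · obtain ⟨i, hi, k, k1, k2, h⟩ := h
    have hd : dist (x i) (x (i + 1)) ≤ ρ / 2 ^ k := (hx i hi).trans (tri_anti hρ k2.le)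
    have e : ρ / 2 ^ (k + 1) = ρ / 2 ^ k / 2 := by rw [pow_succ, div_div]
    have h' : ∀ c : Fin 3, ∃ p ∈ W.pts (W.vw (x i) (ρ / 2 ^ k)), tri_col a b (u p) = c := by
      intro c
      rcases h c with h | h | h | h
      · exact ⟨_, self _ k, h⟩
      · exact ⟨_, W.face _ _ _ _ (p0 k) (p1 k) hd (Or.inl rfl), h⟩
      · exact ⟨_, W.face _ _ _ _ (p0 k) (p1 k) (by rw [dist_self]; exact (p0 k).le) (Or.inr e), h⟩
      · exact ⟨_, W.face _ _ _ _ (p0 k) (p1 k) hd (Or.inr e), h⟩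
    obtain ⟨p₁, q₁, e1⟩ := h' 0
    obtain ⟨p₂, q₂, e2⟩ := h' 1
    obtain ⟨p₃, q₃, e3⟩ := h' 2
    exact ⟨i, hi.le, Or.inr (Or.inr ⟨k, k1, k2, hT k k2.le i hi.le p₁ q₁ p₂ q₂ p₃ q₃
      (tri_col_zero.1 e1) (tri_col_one.1 e2).1 (tri_col_one.1 e2).2 ((tri_col_two hab).1 e3)⟩)⟩
  · obtain ⟨i, hi, h⟩ := h
    have n1 := W.near _ _ (p0 s₀) (p1 s₀) _ (self (x i) s₀)
    have n2 := W.near _ _ (p0 s₀) (p1 s₀) _
      (W.face _ _ _ _ (p0 s₀) (p1 s₀) (hx i hi) (Or.inl rfl))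
    refine ⟨i, hi.le, Or.inr (Or.inl ?_)⟩
    rcases h with ⟨e1, e2⟩ | ⟨e1, e2⟩
    · have f1 := tri_col_zero.1 e1
      have f2 := (tri_col_two hab).1 e2
      exact ⟨_, _, n1, n2, by linarith⟩
    · have f1 := (tri_col_two hab).1 e1
      have f2 := tri_col_zero.1 e2
      exact ⟨_, _, n2, n1, by linarith⟩

/-- Two points with the same view are close. -/
theorem WS.same (W : WS Z ι) {x x' : Z} {ρ : ℝ} (hρ : 0 < ρ) (hρ1 : ρ ≤ 1)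
    (h : W.vw x ρ = W.vw x' ρ) : dist x x' ≤ 2 * W.A * ρ := by
  have h1 := W.face x x ρ ρ hρ hρ1 (by rw [dist_self]; exact hρ.le) (Or.inl rfl)
  have h2 := W.near x ρ hρ hρ1 _ h1
  have h3 := W.near x' ρ hρ hρ1 (W.w (W.vw x ρ)) (h ▸ h1)
  have h4 := dist_triangle_left x x' (W.w (W.vw x ρ))
  linarith

end KCC
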