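import Pool.Agent.Lib.MP_e1e491_gt.CC.Defs

/-! Parity in the wall, bands of levels, counting of shells. -/

namespace KCC

open Set Metric KP2 MeasureTheory Filter Topology
open scoped Classical Pointwise NNReal

/-- Parity weight of an edge. -/
def wall_b (a b : Fin 3) : ZMod 2 := if (a = 0 ∧ b = 2) ∨ (a = 2 ∧ b = 0) then 1 else 0

theorem wall_face : ∀ a b c d : Fin 3, ¬ (∀ x : Fin 3, a = x ∨ b = x ∨ c = x ∨ d = x) →
    wall_b c d = wall_b a b + (wall_b b d - wall_b a c) := by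
  decide

theorem wall_top : ∀ a b : Fin 3, a ≠ 1 → b ≠ 1 →
    wall_b a b = (if b = 0 then (1 : ZMod 2) else 0) - (if a = 0 then (1 : ZMod 2) else 0) := by
  decide

theorem wall_avoid (I : Finset ℝ) {N' : ℕ} (hI : I.card ≤ N') {ℓ w : ℝ} (hℓ : 0 ≤ ℓ)
    (h : N' * ℓ < w) (x : ℝ) : ∃ a ∈ Icc x (x + w), ∀ α ∈ I, a ∉ Icc α (α + ℓ) := by
  by_contra hcon
  push Not at hcon
  have hsub : Icc x (x + w) ⊆ ⋃ α ∈ I, Icc α (α + ℓ) := by
    intro a ha
    obtain ⟨α, hα, h2⟩ := hcon a ha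
    exact mem_biUnion hα h2
  have h1 : volume (Icc x (x + w)) ≤ ∑ α ∈ I, volume (Icc α (α + ℓ)) :=
    (measure_mono hsub).trans (measure_biUnion_finset_le I _)
  simp only [Real.volume_Icc, add_sub_cancel_left, Finset.sum_const, nsmul_eq_mul] at h1
  have h2 : (I.card : ENNReal) * ENNReal.ofReal ℓ = ENNReal.ofReal (I.card * ℓ) := by
    rw [ENNReal.ofReal_mul (Nat.cast_nonneg _), ENNReal.ofReal_natCast]
  rw [h2, ENNReal.ofReal_le_ofReal_iff (by positivity)] at h1
  have h3 : (I.card : ℝ) * ℓ ≤ N' * ℓ := mul_le_mul_of_nonneg_right (by exact_mod_cast hI) hℓ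
  linarith

/-- Colours `0`, `1`, `2` stand for low, middle, high. -/
theorem wall (col : ℕ → ℕ → Fin 3) (n m s : ℕ) (hms : m ≤ s)
    (h0 : ∀ k, m ≤ k → k ≤ s → col 0 k = 0) (hn : ∀ k, m ≤ k → k ≤ s → col n k = 2)
    (ht : ∀ i ≤ n, col i m ≠ 1) :
    (∃ i < n, ∃ k, m ≤ k ∧ k < s ∧ ∀ a : Fin 3, col i k = a ∨ col (i + 1) k = a ∨
      col i (k + 1) = a ∨ col (i + 1) (k + 1) = a) ∨
    ∃ i < n, (col i s = 0 ∧ col (i + 1) s = 2) ∨ (col i s = 2 ∧ col (i + 1) s = 0) := by
  by_contra hcon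
  rw [not_or] at hcon
  obtain ⟨hA, hB⟩ := hcon
  have hrow : ∀ k, m ≤ k → k ≤ s →
      ∑ i ∈ Finset.range n, wall_b (col i k) (col (i + 1) k) = 1 := by
    intro k hk
    induction k, hk using Nat.le_induction with
    | base =>
      intro _
      have e : ∀ i ∈ Finset.range n, wall_b (col i m) (col (i + 1) m) =
          (if col (i + 1) m = 0 then (1 : ZMod 2) else 0) -
            (if col i m = 0 then (1 : ZMod 2) else 0) := by
        intro i hi
        have hi' := Finset.mem_range.1 hi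
        exact wall_top _ _ (ht i hi'.le) (ht (i + 1) hi')
      rw [Finset.sum_congr rfl e,
        Finset.sum_range_sub (fun i => if col i m = 0 then (1 : ZMod 2) else 0) n,
        h0 m le_rfl hms, hn m le_rfl hms]
      decide
    | succ k hk ih =>
      intro hks
      have e : ∀ i ∈ Finset.range n, wall_b (col i (k + 1)) (col (i + 1) (k + 1)) =
          wall_b (col i k) (col (i + 1) k) + (wall_b (col (i + 1) k) (col (i + 1) (k + 1)) -
            wall_b (col i k) (col i (k + 1))) := by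
        intro i hi
        apply wall_face
        intro hall
        exact hA ⟨i, Finset.mem_range.1 hi, k, hk, hks, hall⟩
      rw [Finset.sum_congr rfl e, Finset.sum_add_distrib, ih (by omega),
        Finset.sum_range_sub (fun i => wall_b (col i k) (col i (k + 1))) n,
        h0 k hk (by omega), h0 (k + 1) (by omega) hks, hn k hk (by omega),
        hn (k + 1) (by omega) hks]
      decide
  have h1 := hrow s hms le_rfl
  have h2 : ∑ i ∈ Finset.range n, wall_b (col i s) (col (i + 1) s) = 0 := by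
    apply Finset.sum_eq_zero
    intro i hi
    unfold wall_b
    rw [if_neg]
    intro hc
    exact hB ⟨i, Finset.mem_range.1 hi, hc⟩
  rw [h2] at h1
  exact absurd h1 (by decide)

/-- A band without points of `L` whose ends avoid the intervals `[α, α + ℓ]`, `α ∈ I`. -/
theorem band (L I : Finset ℝ) {N N' : ℕ} (hL : L.card ≤ N) (hI : I.card ≤ N') {lo D ℓ : ℝ}
    (hD : 0 < D) (hℓ : 0 ≤ ℓ) (h : N' * ℓ < D / (8 * (N + 1))) :
    ∃ a b : ℝ, lo + D / 4 ≤ a ∧ b ≤ lo + 3 * D / 4 ∧ a + D / (4 * (N + 1)) ≤ b ∧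
      (∀ t ∈ L, t ≤ a ∨ b ≤ t) ∧ ∀ α ∈ I, a ∉ Icc α (α + ℓ) ∧ b ∉ Icc α (α + ℓ) := by
  set w : ℝ := D / (8 * (N + 1)) with hw
  have hN : (0 : ℝ) < N + 1 := by positivity
  have hwpos : 0 < w := by positivity
  have hwD : 8 * (N + 1) * w = D := by rw [hw]; field_simp
  have hex : ∃ j < N + 1, ∀ t ∈ L,
      t ≤ lo + D / 4 + 4 * w * j ∨ lo + D / 4 + 4 * w * (j + 1) ≤ t := by
    by_contra hcon
    push Not at hcon
    choose! f hf using hcon
    have hmaps : ∀ j ∈ Finset.range (N + 1), f j ∈ L := fun j hj =>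
      (hf j (Finset.mem_range.1 hj)).1
    have hlt : L.card < (Finset.range (N + 1)).card := by
      rw [Finset.card_range]; omega
    obtain ⟨x, hx, y, hy, hxy, hfe⟩ := Finset.exists_ne_map_eq_of_card_lt_of_maps_to hlt hmaps
    obtain ⟨-, a1, a2⟩ := hf x (Finset.mem_range.1 hx)
    obtain ⟨-, b1, b2⟩ := hf y (Finset.mem_range.1 hy)
    rw [hfe] at a1 a2
    have c1 : (x : ℝ) < y + 1 := by
      have : 4 * w * (x : ℝ) < 4 * w * (y + 1) := by linarith
      exact lt_of_mul_lt_mul_left this (by positivity)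
    have c2 : (y : ℝ) < x + 1 := by
      have : 4 * w * (y : ℝ) < 4 * w * (x + 1) := by linarith
      exact lt_of_mul_lt_mul_left this (by positivity)
    have d1 : x < y + 1 := by exact_mod_cast c1
    have d2 : y < x + 1 := by exact_mod_cast c2
    omega
  obtain ⟨j, hj, hjL⟩ := hex
  obtain ⟨a, ha, haI⟩ := wall_avoid I hI hℓ h (lo + D / 4 + 4 * w * j)
  obtain ⟨b, hb, hbI⟩ := wall_avoid I hI hℓ h (lo + D / 4 + 4 * w * j + 3 * w)
  have hj0 : (0 : ℝ) ≤ j := Nat.cast_nonneg j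
  have hj1 : (j : ℝ) + 1 ≤ N + 1 := by exact_mod_cast hj
  have hwj : 0 ≤ w * j := by positivity
  have hwj1 : w * (j + 1) ≤ w * (N + 1) := mul_le_mul_of_nonneg_left hj1 hwpos.le
  have h2w : D / (4 * (N + 1)) = 2 * w := by rw [hw]; field_simp; ring
  refine ⟨a, b, by linarith [ha.1], by linarith [hb.2], by rw [h2w]; linarith [ha.2, hb.1], ?_,
    fun α hα => ⟨haI α hα, hbI α hα⟩⟩
  intro t ht
  rcases hjL t ht with h1 | h1
  · left; linarith [ha.1]
  · right; linarith [hb.2]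

/-- A bounded set without three spread points lies in two short intervals. -/
theorem two_intervals (S : Set ℝ) (hS : BddBelow S) {E : ℝ} (hE : 0 < E)
    (h : ¬ ∃ a ∈ S, ∃ b ∈ S, ∃ c ∈ S, a + 3 * E ≤ b ∧ b + 3 * E ≤ c) :
    ∃ α β : ℝ, ∀ t ∈ S, t ∈ Icc α (α + 4 * E) ∨ t ∈ Icc β (β + 4 * E) := by
  by_cases hT : ({t ∈ S | sInf S + 4 * E < t} : Set ℝ).Nonempty
  · have hTb : BddBelow ({t ∈ S | sInf S + 4 * E < t} : Set ℝ) := hS.mono (fun t ht => ht.1)
    have hSn : S.Nonempty := hT.mono (fun t ht => ht.1)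
    refine ⟨sInf S, sInf {t ∈ S | sInf S + 4 * E < t}, fun t ht => ?_⟩
    by_cases h1 : sInf S + 4 * E < t
    · right
      refine ⟨csInf_le hTb ⟨ht, h1⟩, ?_⟩
      by_contra h2
      push Not at h2
      obtain ⟨a, ha, ha2⟩ := exists_lt_of_csInf_lt hSn (show sInf S < sInf S + E by linarith)
      obtain ⟨b, hb, hb2⟩ := exists_lt_of_csInf_lt hT
        (show sInf {t ∈ S | sInf S + 4 * E < t} < sInf {t ∈ S | sInf S + 4 * E < t} + E by
          linarith)
      exact h ⟨a, ha, b, hb.1, t, ht, by linarith [hb.2], by linarith⟩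
    · left
      exact ⟨csInf_le hS ht, not_lt.1 h1⟩
  · refine ⟨sInf S, sInf S, fun t ht => Or.inl ⟨csInf_le hS ht, ?_⟩⟩
    by_contra h1
    exact hT ⟨t, ht, not_le.1 h1⟩

/-- An interval of length `2 ^ j` steps contains few points of the progression. -/
theorem card_near (τ Δ d : ℝ) (hΔ : 0 < Δ) (j I : ℕ) :
    ((Finset.range I).filter fun i : ℕ => 2 * |τ + i * Δ - d| ≤ 2 ^ j * Δ).card ≤ 2 * 2 ^ j := by
  set T := (Finset.range I).filter fun i : ℕ => 2 * |τ + i * Δ - d| ≤ 2 ^ j * Δ with hT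
  rcases T.eq_empty_or_nonempty with h | h
  · rw [h]; simp
  · have hsub : T ⊆ Finset.Icc (T.min' h) (T.min' h + 2 ^ j) := by
      intro i hi
      rw [Finset.mem_Icc]
      refine ⟨T.min'_le i hi, ?_⟩
      have h1 := (Finset.mem_filter.1 hi).2
      have h2 := (Finset.mem_filter.1 (T.min'_mem h)).2
      have h3 := le_abs_self (τ + i * Δ - d)
      have h4 := neg_abs_le (τ + (T.min' h : ℕ) * Δ - d)
      have h5 : (i : ℝ) * Δ ≤ ((T.min' h : ℕ) + 2 ^ j) * Δ := by linarith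
      have h6 : (i : ℝ) ≤ (T.min' h : ℕ) + 2 ^ j := le_of_mul_le_mul_right h5 hΔ
      exact_mod_cast h6
    have hc := Finset.card_le_card hsub
    rw [Nat.card_Icc] at hc
    have : 1 ≤ 2 ^ j := Nat.one_le_two_pow
    omega

/-- One residue class is large. -/
theorem exists_sparse (S : Finset ℕ) {q : ℕ} (hq : 0 < q) : ∃ S' ⊆ S, S.card ≤ q * S'.card ∧
    ∀ i ∈ S', ∀ j ∈ S', i < j → i + q ≤ j := by
  have hmaps : ∀ i ∈ S, i % q ∈ Finset.range q := fun i _ => Finset.mem_range.2 (Nat.mod_lt _ hq)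
  obtain ⟨r, -, hr⟩ := Finset.exists_max_image (Finset.range q)
    (fun r => (S.filter fun i => i % q = r).card) ⟨0, Finset.mem_range.2 hq⟩
  refine ⟨S.filter fun i => i % q = r, Finset.filter_subset _ _, ?_, ?_⟩
  · rw [Finset.card_eq_sum_card_fiberwise hmaps]
    calc ∑ b ∈ Finset.range q, (S.filter fun i => i % q = b).card
        ≤ ∑ _b ∈ Finset.range q, (S.filter fun i => i % q = r).card := Finset.sum_le_sum hr
      _ = q * (S.filter fun i => i % q = r).card := by simp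
  · intro i hi j hj hij
    have h1 := (Finset.mem_filter.1 hi).2
    have h2 := (Finset.mem_filter.1 hj).2
    have h3 : q ∣ j - i := (Nat.modEq_iff_dvd' hij.le).1 (h1.trans h2.symm)
    have h4 := Nat.le_of_dvd (by omega) h3
    omega

theorem exists_tail {N : ℕ → ℕ} (h : Summable fun s => (N s : ℝ) / 2 ^ s) {ε : ℝ} (hε : 0 < ε) :
    ∃ m₀ : ℕ, ∀ m, m₀ ≤ m → ∀ s, ∑ k ∈ Finset.Ico m s, (N k : ℝ) / 2 ^ k ≤ ε := by
  obtain ⟨T, hT⟩ := summable_iff_vanishing_norm.1 h ε hε
  refine ⟨T.sup id + 1, fun m hm s => ?_⟩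
  have hd : Disjoint (Finset.Ico m s) T := by
    rw [Finset.disjoint_left]
    intro k hk hkT
    have h1 : k ≤ T.sup id := Finset.le_sup (f := id) hkT
    have h2 := (Finset.mem_Ico.1 hk).1
    omega
  exact (le_abs_self _).trans (hT _ hd).le

end KCC
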